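import Pool.Agent.W126.RecSum
import Pool.Agent.W68.Gap

set_option autoImplicit false

/-! Sum subsystems for countably many intersective sets of integer vectors (helper126). -/

open Finset Filter

namespace Pool.Agent.W126.IntSys

open Pool.Agent.W68.Mil
open Pool.Agent.H752R3.MT

/-- among any `K` multiples of `q` there are `m + 1` whose vector of successive differences is in `L` -/
def Inter (q m : ℕ) (L : Set (Fin m → ℤ)) : Prop :=
  ∃ K : ℕ, ∀ h : Fin K → ℤ, StrictMono h → (∀ j, (q : ℤ) ∣ h j) →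
    ∃ j : Fin (m + 1) → Fin K, StrictMono j ∧
      (fun i : Fin m => h (j i.succ) - h (j i.castSucc)) ∈ L

theorem Inter.rev {q m : ℕ} {L : Set (Fin m → ℤ)} (h : Inter q m L) :
    Inter q m {v | (fun i => v (Fin.rev i)) ∈ L} := by
  obtain ⟨K, hK⟩ := h
  refine ⟨K, fun h hh hq => ?_⟩
  obtain ⟨j, hj, hl⟩ := hK (fun t => - h (Fin.rev t)) (fun s t hst => by
    have := hh (Fin.rev_lt_rev.2 hst)
    simp only
    linarith) (fun t => (hq _).neg_right)
  refine ⟨fun i => Fin.rev (j (Fin.rev i)), fun a b hab => Fin.rev_lt_rev.2 (hj (Fin.rev_lt_rev.2 hab)), ?_⟩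
  show (fun i : Fin m => h (Fin.rev (j (Fin.rev (Fin.rev i).succ))) -
    h (Fin.rev (j (Fin.rev (Fin.rev i).castSucc)))) ∈ L
  convert hl using 1
  funext i
  rw [Fin.rev_succ, Fin.rev_castSucc, Fin.rev_rev]
  ring

/-- sums over finite sets -/
def smZ (d : ℕ → ℕ) (A : Finset ℕ) : ℤ := ∑ a ∈ A, (d a : ℤ)

theorem ex_good {q m : ℕ} (hq : 1 ≤ q) {L : Set (Fin m → ℤ)} (hL : Inter q m L) (k : ℕ) {d : ℕ → ℕ}
    (hd : ∀ a, 1 ≤ d a) (ρ : (Fin k → Finset ℕ) → ℕ) (hρ : ∀ P, 1 ≤ ρ P)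
    (X : ℕ → Finset ℕ) (hX : Blk X) : ∃ Y, Blk Y ∧ Le Y X ∧
      (fun i : Fin m => (ρ (fun l => Y l) : ℤ) * smZ d (Y (k + i))) ∈ L := by
  obtain ⟨V, hV, hVX, hVq⟩ := Pool.Agent.W68.Gap.exists_dvd d q hq X hX
  obtain ⟨K, hK⟩ := hL
  set R : ℕ := ρ (fun l => V l) with hR
  have hR0 : (1 : ℤ) ≤ R := by exact_mod_cast hρ _
  -- integer partial sums
  set S : ℕ → ℤ := fun n => ∑ t ∈ range n, smZ d (V t) with hS
  have hSm : StrictMono S := by
    refine strictMono_nat_of_lt_succ fun n => ?_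
    simp only [hS]
    rw [sum_range_succ]
    have := Pool.Agent.W68.Gap.blk_sum_pos hd (hV.1 n)
    unfold smZ
    linarith
  have hSq : ∀ n, (q : ℤ) ∣ S n := fun n => Finset.dvd_sum fun t _ => hVq t
  obtain ⟨j, hj, hl⟩ := hK (fun t => (R : ℤ) * S (k + t)) (fun s t hst => by
    have h1 : S (k + s) < S (k + t) := hSm (by
      have : (s : ℕ) < t := hst
      omega)
    exact mul_lt_mul_of_pos_left h1 (by linarith)) (fun t => (hSq _).mul_left _)
  obtain ⟨Y, hY1, hY2, hY3, hY4⟩ := Pool.Agent.W126.RecSum.coarsen hV (fun a => (d a : ℝ)) k k K m le_rfl j hj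
  refine ⟨Y, hY1, hY2.trans hVX, ?_⟩
  have e1 : (fun l : Fin k => Y l) = fun l : Fin k => V l := funext fun l => hY3 l l.2
  rw [e1, ← hR]
  convert hl using 1
  funext i
  have h1 := hY4 i
  have c1 : ∀ A : Finset ℕ, Pool.Agent.W126.RecSum.sm (fun a => (d a : ℝ)) A = ((smZ d A : ℤ) : ℝ) := by
    intro A
    unfold Pool.Agent.W126.RecSum.sm smZ
    push_cast
    rfl
  have c2 : ∀ n, Pool.Agent.W126.RecSum.ps (fun a => (d a : ℝ)) V n = ((S n : ℤ) : ℝ) := by
    intro n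
    unfold Pool.Agent.W126.RecSum.ps
    simp only [c1, hS]
    push_cast
    rfl
  rw [c1, c2, c2] at h1
  have h2 : smZ d (Y (k + i)) = S (k + j i.succ) - S (k + j i.castSucc) := by exact_mod_cast h1
  rw [h2]
  ring

/-- sum subsystems for countably many intersective sets of integer vectors -/
theorem systems (q m k : ℕ → ℕ) (hq : ∀ t, 1 ≤ q t) (L : ∀ t, Set (Fin (m t) → ℤ))
    (hL : ∀ t, Inter (q t) (m t) (L t)) (d : ℕ → ℕ → ℕ) (hd : ∀ t a, 1 ≤ d t a)
    (ρ : ∀ t, (Fin (k t) → Finset ℕ) → ℕ) (hρ : ∀ t P, 1 ≤ ρ t P) :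
    ∃ W, Blk W ∧ ∀ t Z, Blk Z → Le Z (fun i => W (t + i)) →
      (fun i : Fin (m t) => (ρ t (fun l => Z l) : ℤ) * smZ (d t) (Z (k t + i))) ∈ L t := by
  refine closed_families (fun t Z => (fun i : Fin (m t) => (ρ t (fun l => Z l) : ℤ) *
    smZ (d t) (Z (k t + i))) ∈ L t) ?_ ?_
  · intro t Z _ hg
    refine ⟨k t + m t, fun Z' _ h hg' => hg ?_⟩
    have e1 : (fun l : Fin (k t) => Z' l) = fun l : Fin (k t) => Z l := funext fun l => h l (by omega)
    simp only [e1] at hg'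
    convert hg' using 1
    funext i
    rw [h (k t + i) (by omega)]
  · intro t X hX
    exact ex_good (hq t) (hL t) (k t) (hd t) (ρ t) (hρ t) X hX

end Pool.Agent.W126.IntSys
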