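import Pool.Agent.W126.RecIso
import Pool.Agent.W126.IntSys

set_option autoImplicit false

/-! Exact vectors of prime gaps followed or preceded by a record gap (helper126). -/

open Finset Filter

namespace Pool.Agent.W126.RecAdj

open Pool.Agent.H256R2.SC (ff t1 t2)
open Pool.Agent.H312R2.RG.C3 (ff_tendsto ff_lower ff_small ff_slow)
open Pool.Agent.W126.RecIso
open Pool.Agent.W126.IntSys

/-- vectors of `m` consecutive gaps between primes `≡ r (mod q)` which are followed by a gap of record size -/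
def Fol (c : ℝ) (m q r : ℕ) : Set (Fin m → ℤ) :=
  {v | ∃ᶠ n : ℕ in atTop, (∀ i ≤ m, Nat.nth Nat.Prime (n + i) ≡ r [MOD q]) ∧
    (∀ i : Fin m, (Nat.nth Nat.Prime (n + i + 1) : ℤ) - Nat.nth Nat.Prime (n + i) = v i) ∧
    c * ff (Nat.nth Nat.Prime n) ≤ (Nat.nth Nat.Prime (n + m + 1) : ℝ) - Nat.nth Nat.Prime (n + m)}

/-- vectors of `m` consecutive gaps between primes `≡ r (mod q)` which are preceded by a gap of record size -/
def Pre (c : ℝ) (m q r : ℕ) : Set (Fin m → ℤ) :=
  {v | ∃ᶠ n : ℕ in atTop, (∀ i ≤ m, Nat.nth Nat.Prime (n + 1 + i) ≡ r [MOD q]) ∧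
    (∀ i : Fin m, (Nat.nth Nat.Prime (n + 1 + i + 1) : ℤ) - Nat.nth Nat.Prime (n + 1 + i) = v i) ∧
    c * ff (Nat.nth Nat.Prime n) ≤ (Nat.nth Nat.Prime (n + 1) : ℝ) - Nat.nth Nat.Prime n}

theorem count_eq {a b : ℕ} (hab : a ≤ b) (h : ∀ x, a ≤ x → x < b → ¬ x.Prime) :
    Nat.count Nat.Prime b = Nat.count Nat.Prime a := by
  induction b, hab using Nat.le_induction with
  | base => rfl
  | succ b hb ih =>
    rw [Nat.count_succ, if_neg (h b hb (Nat.lt_succ_self b)), add_zero]
    exact ih fun x h1 h2 => h x h1 (by omega)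

theorem nth_next {p p' N : ℕ} (hp : p.Prime) (hp' : p'.Prime) (hlt : p < p')
    (h : ∀ x, p < x → x < p' → ¬ x.Prime) (hN : Nat.nth Nat.Prime N = p) :
    Nat.nth Nat.Prime (N + 1) = p' := by
  have h1 : Nat.count Nat.Prime p = N := by
    rw [← hN]
    exact Nat.count_nth_of_infinite Nat.infinite_setOfPred_prime N
  have h2 : Nat.count Nat.Prime p' = N + 1 := by
    rw [count_eq (show p + 1 ≤ p' from hlt) (fun x h3 h4 => h x h3 h4), Nat.count_succ, if_pos hp, h1]
  rw [← h2]
  exact Nat.nth_count hp'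

theorem nth_gt {p b N : ℕ} (h : ∀ x, p < x → x ≤ b → ¬ x.Prime) (hN : Nat.nth Nat.Prime N = p) :
    b < Nat.nth Nat.Prime (N + 1) := by
  by_contra hle
  push Not at hle
  have h1 : p < Nat.nth Nat.Prime (N + 1) := by
    rw [← hN]
    exact Nat.nth_strictMono Nat.infinite_setOfPred_prime (Nat.lt_succ_self N)
  exact h _ h1 hle (Nat.prime_nth_prime _)

theorem nth_lt {a b N : ℕ} (h : ∀ x, b ≤ x → x < a → ¬ x.Prime) (hN : Nat.nth Nat.Prime (N + 1) = a) :
    Nat.nth Nat.Prime N < b := by
  by_contra hle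
  push Not at hle
  have h1 : Nat.nth Nat.Prime N < a := by
    rw [← hN]
    exact Nat.nth_strictMono Nat.infinite_setOfPred_prime (Nat.lt_succ_self N)
  exact h _ hle h1 (Nat.prime_nth_prime _)

/-- consecutive primes of a pattern -/
theorem run {m : ℕ} (a : ℕ → ℕ) (ha : ∀ i ≤ m, (a i).Prime) (hlt : ∀ i < m, a i < a (i + 1))
    (hno : ∀ i < m, ∀ x, a i < x → x < a (i + 1) → ¬ x.Prime) {N : ℕ}
    (hN : Nat.nth Nat.Prime N = a 0) : ∀ i ≤ m, Nat.nth Nat.Prime (N + i) = a i := by
  intro i
  induction i with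
  | zero => intro _; simpa using hN
  | succ i ih =>
    intro hi
    have h1 := ih (by omega)
    exact nth_next (ha i (by omega)) (ha (i + 1) hi) (hlt i (by omega)) (hno i (by omega)) h1

theorem ff_cmp (x y : ℝ) (h : |ff x / ff y - 1| < 1 / 2) (hy : 0 < ff y) :
    ff x ≤ 2 * ff y ∧ ff y ≤ 2 * ff x := by
  rw [abs_lt] at h
  have h1 : ff x / ff y < 3 / 2 := by linarith [h.2]
  have h2 : 1 / 2 < ff x / ff y := by linarith [h.1]
  rw [div_lt_iff₀ hy] at h1
  rw [lt_div_iff₀ hy] at h2
  constructor <;> linarith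

/-- the analytic facts used: `ff` is large and slowly varying -/
theorem ff_near : ∀ᶠ x : ℝ in atTop, ∀ y : ℝ, x / 4 ≤ y → y ≤ 2 * x → ff y ≤ 2 * ff x := by
  have t5 : Tendsto (fun x : ℝ => x / 4) atTop atTop := tendsto_id.atTop_div_const (by norm_num)
  obtain ⟨X0, hX0⟩ := eventually_atTop.1 ((ff_slow (1 / 2) (by norm_num)).and
    ((ff_tendsto.eventually_gt_atTop 0).and (eventually_ge_atTop (1 : ℝ))))
  filter_upwards [t5.eventually_ge_atTop X0, eventually_ge_atTop X0] with x h1 h2 y hy1 hy2
  obtain ⟨a1, a2, a3⟩ := hX0 x h2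
  obtain ⟨b1, b2, b3⟩ := hX0 y (h1.trans hy1)
  rcases le_total x y with hxy | hxy
  · have h3 := a1 y hxy (by linarith)
    exact (ff_cmp x y h3 b2).2
  · have h3 := b1 x hxy (by linarith)
    exact (ff_cmp y x h3 a2).1

theorem inter (m : ℕ) : ∃ c : ℝ, 0 < c ∧ ∀ q : ℕ, Squarefree q → ∀ r : ℕ, r.Coprime q →
    Inter q m (Fol c m q r) ∧ Inter q m (Pre c m q r) := by
  classical
  obtain ⟨K, c, hc, hcore⟩ := core (m + 1)
  refine ⟨c / 4, by positivity, fun q hq r hr => ?_⟩
  have key : ∀ h : Fin K → ℤ, StrictMono h → (∀ j, (q : ℤ) ∣ h j) →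
      (∃ j : Fin (m + 1) → Fin K, StrictMono j ∧
        (fun i : Fin m => h (j i.succ) - h (j i.castSucc)) ∈ Fol (c / 4) m q r) ∧
      (∃ j : Fin (m + 1) → Fin K, StrictMono j ∧
        (fun i : Fin m => h (j i.succ) - h (j i.castSucc)) ∈ Pre (c / 4) m q r) := by
    intro h hh hqh
    obtain ⟨J, hJ, hfr⟩ := hcore q hq r hr h hh hqh
    set s := J.card with hs
    set e := J.orderEmbOfFin hs.symm with he
    have heJ : ∀ i, e i ∈ J := fun i => Finset.orderEmbOfFin_mem _ _ _
    have hsurj : ∀ j ∈ J, ∃ i, e i = j := by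
      intro j hj
      have h1 : j ∈ Set.range e := by
        rw [he, Finset.range_orderEmbOfFin]
        exact hj
      exact h1
    set Bh : ℕ := ∑ j, (h j).natAbs with hBh
    have hhB : ∀ j, |h j| ≤ Bh := by
      intro j
      have h1 : (h j).natAbs ≤ Bh := Finset.single_le_sum (f := fun j => (h j).natAbs)
        (fun _ _ => Nat.zero_le _) (mem_univ j)
      rw [Int.abs_eq_natAbs]
      exact_mod_cast h1
    -- blocks of consecutive elements of `J`
    have gen : ∀ o : ℕ, o + m < s → ∃ j : Fin (m + 1) → Fin K, StrictMono j ∧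
        (∀ i, j i ∈ J) ∧ (∀ i : Fin m, ∀ j' ∈ J, ¬ (h (j i.castSucc) < h j' ∧ h j' < h (j i.succ))) ∧
        (∀ i : Fin (m + 1), (o = 0 → i = 0 → ∀ j' ∈ J, h (j i) ≤ h j')) ∧
        (o + m + 1 = s → ∀ j' ∈ J, h j' ≤ h (j (Fin.last m))) := by
      intro o ho
      refine ⟨fun i => e ⟨o + i, by have := i.2; omega⟩, ?_, fun i => heJ _, ?_, ?_, ?_⟩
      · intro a b hab
        apply e.strictMono
        rw [Fin.lt_def]
        simp only
        have : (a : ℕ) < b := hab
        omega
      · rintro i j' hj' ⟨h1, h2⟩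
        obtain ⟨l, rfl⟩ := hsurj j' hj'
        have h3 := hh.lt_iff_lt.1 h1
        have h4 := hh.lt_iff_lt.1 h2
        rw [e.lt_iff_lt, Fin.lt_def] at h3 h4
        simp only [Fin.val_castSucc, Fin.val_succ] at h3 h4
        omega
      · rintro i h0 rfl j' hj'
        obtain ⟨l, rfl⟩ := hsurj j' hj'
        apply hh.monotone
        apply e.monotone
        rw [Fin.le_def]
        simp [h0]
      · intro h0 j' hj'
        obtain ⟨l, rfl⟩ := hsurj j' hj'
        apply hh.monotone
        apply e.monotone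
        rw [Fin.le_def]
        simp only [Fin.val_last]
        have := l.2
        omega
    -- large `n`
    obtain ⟨Z0, hZ0⟩ := eventually_atTop.1 (ff_near.and
      (ff_tendsto.eventually_ge_atTop (2 * ((Bh : ℝ) + 2) / c)))
    have large : ∀ M : ℕ, ∃ n : ℕ, M ≤ n ∧ 2 * Bh + 8 ≤ n ∧ Z0 ≤ n ∧ n ≡ r [MOD q] ∧
        ∀ y : ℤ, |(y : ℝ)| ≤ c * ff n → (Nat.Prime ((n : ℤ) + y).toNat ↔ ∃ j ∈ J, h j = y) := by
      intro M
      obtain ⟨n, hn, h1, h2⟩ := Filter.frequently_atTop.1 hfr (M + (2 * Bh + 8) + ⌈Z0⌉₊)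
      refine ⟨n, by omega, by omega, ?_, h1, h2⟩
      have h3 := Nat.le_ceil Z0
      have h4 : (⌈Z0⌉₊ : ℝ) ≤ n := by
        have : ⌈Z0⌉₊ ≤ n := by omega
        exact_mod_cast this
      linarith
    -- facts for a large `n`
    have facts : ∀ n : ℕ, 2 * Bh + 8 ≤ n → Z0 ≤ n → n ≡ r [MOD q] →
        (∀ y : ℤ, |(y : ℝ)| ≤ c * ff n → (Nat.Prime ((n : ℤ) + y).toNat ↔ ∃ j ∈ J, h j = y)) →
        2 * ((Bh : ℝ) + 2) ≤ c * ff n ∧
        (∀ j, ∃ a : ℕ, (a : ℤ) = n + h j ∧ n ≤ 2 * a ∧ a ≤ 2 * n ∧ (j ∈ J → a.Prime) ∧ a ≡ r [MOD q]) ∧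
        (∀ x : ℕ, |(x : ℝ) - n| ≤ c * ff n → x.Prime → ∃ j ∈ J, (x : ℤ) = n + h j) := by
      intro n hn1 hn2 hnr hn3
      have hc1 : 2 * ((Bh : ℝ) + 2) ≤ c * ff n := by
        have := (hZ0 n hn2).2
        rw [div_le_iff₀ hc] at this
        linarith
      refine ⟨hc1, fun j => ?_, fun x hx hxp => ?_⟩
      · have h1 := abs_le.1 (hhB j)
        obtain ⟨a, ha⟩ : ∃ a : ℕ, (a : ℤ) = n + h j := ⟨((n : ℤ) + h j).toNat, Int.toNat_of_nonneg (by omega)⟩
        refine ⟨a, ha, by omega, by omega, fun hj => ?_, ?_⟩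
        · have h2 : |((h j : ℤ) : ℝ)| ≤ c * ff n := by
            have h3 : |((h j : ℤ) : ℝ)| ≤ Bh := by
              rw [← Int.cast_abs]
              exact_mod_cast hhB j
            have h4 : (0 : ℝ) ≤ Bh := Nat.cast_nonneg _
            linarith
          have h3 := (hn3 (h j) h2).2 ⟨j, hj, rfl⟩
          rwa [← ha, Int.toNat_natCast] at h3
        · rw [← Int.natCast_modEq_iff, ha]
          have h2 : h j ≡ 0 [ZMOD q] := (Int.modEq_zero_iff_dvd).2 (hqh j)
          have h3 : (n : ℤ) ≡ r [ZMOD q] := (Int.natCast_modEq_iff).2 hnr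
          simpa using h3.add h2
      · have h1 : |(((x : ℤ) - n : ℤ) : ℝ)| ≤ c * ff n := by
          push_cast
          exact hx
        obtain ⟨j, hj, hjx⟩ := (hn3 ((x : ℤ) - n) h1).1 (by
          have : (n : ℤ) + ((x : ℤ) - n) = (x : ℤ) := by ring
          rw [this, Int.toNat_natCast]
          exact hxp)
        exact ⟨j, hj, by rw [hjx]; ring⟩
    constructor
    · -- followed
      obtain ⟨j, hj, hjJ, hjno, -, hjlast⟩ := gen (s - (m + 1)) (by omega)
      refine ⟨j, hj, ?_⟩
      refine Filter.frequently_atTop.2 fun N0 => ?_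
      obtain ⟨n, hn0, hn1, hn2, hnr, hn3⟩ := large (2 * Nat.nth Nat.Prime N0 + 2)
      obtain ⟨f1, f2, f3⟩ := facts n hn1 hn2 hnr hn3
      choose a ha1 ha2 ha3 ha4 ha5 using f2
      set b : ℕ → ℕ := fun i => if hi : i < m + 1 then a (j ⟨i, hi⟩) else 0 with hb
      have hbi : ∀ i : ℕ, ∀ hi : i < m + 1, b i = a (j ⟨i, hi⟩) := fun i hi => by
        simp only [hb]
        rw [dif_pos hi]
      have hbz : ∀ i : ℕ, ∀ hi : i < m + 1, (b i : ℤ) = n + h (j ⟨i, hi⟩) := fun i hi => by
        rw [hbi i hi]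
        exact ha1 _
      have hBR : (0 : ℝ) ≤ Bh := Nat.cast_nonneg _
      have hbp : ∀ i ≤ m, (b i).Prime := fun i hi => by
        rw [hbi i (by omega)]
        exact ha4 _ (hjJ _)
      have hblt : ∀ i < m, b i < b (i + 1) := by
        intro i hi
        have h1 : h (j ⟨i, by omega⟩) < h (j ⟨i + 1, by omega⟩) :=
          hh (hj (by rw [Fin.lt_def]; exact Nat.lt_succ_self i))
        have h2 := hbz i (by omega)
        have h3 := hbz (i + 1) (by omega)
        omega
      have hclose : ∀ i ≤ m, |(b i : ℤ) - n| ≤ Bh := by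
        intro i hi
        rw [hbz i (by omega)]
        have := hhB (j ⟨i, by omega⟩)
        rwa [add_sub_cancel_left]
      have hbno : ∀ i < m, ∀ x, b i < x → x < b (i + 1) → ¬ x.Prime := by
        intro i hi x h1 h2 hxp
        have c1 := abs_le.1 (hclose i (by omega))
        have c2 := abs_le.1 (hclose (i + 1) (by omega))
        have h3 : |((x : ℤ) - n)| ≤ Bh := by
          rw [abs_le]
          constructor <;> omega
        obtain ⟨j', hj', hx'⟩ := f3 x (by
          have h4 : |((((x : ℤ) - n : ℤ)) : ℝ)| ≤ Bh := by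
            rw [← Int.cast_abs]
            exact_mod_cast h3
          push_cast at h4
          linarith) hxp
        have h5 := hbz i (by omega)
        have h6 := hbz (i + 1) (by omega)
        refine hjno ⟨i, hi⟩ j' hj' ⟨?_, ?_⟩
        · show h (j ⟨i, _⟩) < h j'
          omega
        · show h j' < h (j ⟨i + 1, _⟩)
          omega
      set N := Nat.count Nat.Prime (b 0) with hN
      have hN0 : Nat.nth Nat.Prime N = b 0 := Nat.nth_count (hbp 0 (Nat.zero_le _))
      have hrun := run b hbp hblt hbno hN0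
      have hNN : N0 ≤ N := by
        by_contra hlt
        push Not at hlt
        have h1 : Nat.nth Nat.Prime N < Nat.nth Nat.Prime N0 :=
          Nat.nth_strictMono Nat.infinite_setOfPred_prime hlt
        rw [hN0] at h1
        have h2 := ha2 (j ⟨0, by omega⟩)
        rw [← hbi 0 (by omega)] at h2
        omega
      refine ⟨N, hNN, fun i hi => ?_, fun i => ?_, ?_⟩
      · rw [hrun i hi, hbi i (by omega)]
        exact ha5 _
      · have h1 := hrun i i.2.le
        have h2 := hrun (i + 1) i.2
        rw [← add_assoc] at h2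
        rw [h1, h2, hbz i (by omega), hbz (i + 1) (by omega)]
        have e1 : (⟨(i : ℕ), by omega⟩ : Fin (m + 1)) = i.castSucc := rfl
        have e2 : (⟨(i : ℕ) + 1, by omega⟩ : Fin (m + 1)) = i.succ := rfl
        rw [e1, e2]
        ring
      · have hlast := hrun m le_rfl
        have hgt := nth_gt (b := n + ⌊c * ff n⌋₊) (fun x h1 h2 hxp => by
          have c1 := abs_le.1 (hclose m le_rfl)
          have h0 : 0 ≤ c * ff n := by linarith
          have h3 : (⌊c * ff n⌋₊ : ℝ) ≤ c * ff n := Nat.floor_le h0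
          obtain ⟨j', hj', hx'⟩ := f3 x (by
            rw [abs_le]
            constructor
            · have h4 : (n : ℤ) - Bh ≤ x := by omega
              have h5 : (n : ℝ) - Bh ≤ x := by exact_mod_cast h4
              linarith
            · have h5 : (x : ℝ) ≤ n + ⌊c * ff n⌋₊ := by exact_mod_cast h2
              linarith) hxp
          have h6 := hjlast (by omega) j' hj'
          have h7 := hbz m (by omega)
          have e1 : (⟨m, by omega⟩ : Fin (m + 1)) = Fin.last m := rfl
          rw [e1] at h7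
          omega) hlast
        rw [hlast]
        have h1 : ((n + ⌊c * ff n⌋₊ : ℕ) : ℝ) + 1 ≤ (Nat.nth Nat.Prime (N + m + 1) : ℝ) := by
          exact_mod_cast hgt
        have h2 := Nat.lt_floor_add_one (c * ff n)
        have h3 : (b m : ℝ) ≤ n + Bh := by
          have c1 := (abs_le.1 (hclose m le_rfl)).2
          have : (b m : ℤ) ≤ n + Bh := by omega
          exact_mod_cast this
        have h4 : ff (b 0 : ℕ) ≤ 2 * ff n := by
          refine (hZ0 n hn2).1 _ ?_ ?_
          · have := ha2 (j ⟨0, by omega⟩)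
            rw [← hbi 0 (by omega)] at this
            have h5 : (n : ℝ) ≤ 2 * (b 0 : ℕ) := by exact_mod_cast this
            linarith
          · have := ha3 (j ⟨0, by omega⟩)
            rw [← hbi 0 (by omega)] at this
            exact_mod_cast this
        rw [hN0]
        push_cast at h1
        have h5 : c / 4 * ff (b 0 : ℕ) ≤ c / 4 * (2 * ff n) := mul_le_mul_of_nonneg_left h4 (by positivity)
        linarith
    · -- preceded
      obtain ⟨j, hj, hjJ, hjno, hjfirst, -⟩ := gen 0 (by omega)
      refine ⟨j, hj, ?_⟩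
      refine Filter.frequently_atTop.2 fun N0 => ?_
      obtain ⟨n, hn0, hn1, hn2, hnr, hn3⟩ := large (2 * Nat.nth Nat.Prime (N0 + 1) + 2)
      obtain ⟨f1, f2, f3⟩ := facts n hn1 hn2 hnr hn3
      choose a ha1 ha2 ha3 ha4 ha5 using f2
      set b : ℕ → ℕ := fun i => if hi : i < m + 1 then a (j ⟨i, hi⟩) else 0 with hb
      have hbi : ∀ i : ℕ, ∀ hi : i < m + 1, b i = a (j ⟨i, hi⟩) := fun i hi => by
        simp only [hb]
        rw [dif_pos hi]
      have hbz : ∀ i : ℕ, ∀ hi : i < m + 1, (b i : ℤ) = n + h (j ⟨i, hi⟩) := fun i hi => by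
        rw [hbi i hi]
        exact ha1 _
      have hBR : (0 : ℝ) ≤ Bh := Nat.cast_nonneg _
      have hbp : ∀ i ≤ m, (b i).Prime := fun i hi => by
        rw [hbi i (by omega)]
        exact ha4 _ (hjJ _)
      have hblt : ∀ i < m, b i < b (i + 1) := by
        intro i hi
        have h1 : h (j ⟨i, by omega⟩) < h (j ⟨i + 1, by omega⟩) :=
          hh (hj (by rw [Fin.lt_def]; exact Nat.lt_succ_self i))
        have h2 := hbz i (by omega)
        have h3 := hbz (i + 1) (by omega)
        omega
      have hclose : ∀ i ≤ m, |(b i : ℤ) - n| ≤ Bh := by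
        intro i hi
        rw [hbz i (by omega)]
        have := hhB (j ⟨i, by omega⟩)
        rwa [add_sub_cancel_left]
      have hbno : ∀ i < m, ∀ x, b i < x → x < b (i + 1) → ¬ x.Prime := by
        intro i hi x h1 h2 hxp
        have c1 := abs_le.1 (hclose i (by omega))
        have c2 := abs_le.1 (hclose (i + 1) (by omega))
        have h3 : |((x : ℤ) - n)| ≤ Bh := by
          rw [abs_le]
          constructor <;> omega
        obtain ⟨j', hj', hx'⟩ := f3 x (by
          have h4 : |((((x : ℤ) - n : ℤ)) : ℝ)| ≤ Bh := by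
            rw [← Int.cast_abs]
            exact_mod_cast h3
          push_cast at h4
          linarith) hxp
        have h5 := hbz i (by omega)
        have h6 := hbz (i + 1) (by omega)
        refine hjno ⟨i, hi⟩ j' hj' ⟨?_, ?_⟩
        · show h (j ⟨i, _⟩) < h j'
          omega
        · show h j' < h (j ⟨i + 1, _⟩)
          omega
      obtain ⟨N, hN0⟩ : ∃ N, Nat.nth Nat.Prime (N + 1) = b 0 := by
        have h1 : Nat.nth Nat.Prime (Nat.count Nat.Prime (b 0)) = b 0 :=
          Nat.nth_count (hbp 0 (Nat.zero_le _))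
        obtain ⟨N, hN⟩ : ∃ N, Nat.count Nat.Prime (b 0) = N + 1 := by
          have h2 : 3 ≤ b 0 := by
            have := ha2 (j ⟨0, by omega⟩)
            rw [← hbi 0 (by omega)] at this
            omega
          have h3 : Nat.count Nat.Prime 3 ≤ Nat.count Nat.Prime (b 0) := Nat.count_monotone _ h2
          have h4 : Nat.count Nat.Prime 3 = 1 := by decide
          exact ⟨Nat.count Nat.Prime (b 0) - 1, by omega⟩
        exact ⟨N, by rw [← hN]; exact h1⟩
      have hrun := run b hbp hblt hbno hN0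
      have hNN : N0 ≤ N := by
        by_contra hlt
        push Not at hlt
        have h1 : Nat.nth Nat.Prime (N + 1) < Nat.nth Nat.Prime (N0 + 1) :=
          Nat.nth_strictMono Nat.infinite_setOfPred_prime (by omega)
        rw [hN0] at h1
        have h2 := ha2 (j ⟨0, by omega⟩)
        rw [← hbi 0 (by omega)] at h2
        omega
      refine ⟨N, hNN, fun i hi => ?_, fun i => ?_, ?_⟩
      · rw [hrun i hi, hbi i (by omega)]
        exact ha5 _
      · have h1 := hrun i i.2.le
        have h2 := hrun (i + 1) i.2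
        rw [← add_assoc] at h2
        rw [h1, h2, hbz i (by omega), hbz (i + 1) (by omega)]
        have e1 : (⟨(i : ℕ), by omega⟩ : Fin (m + 1)) = i.castSucc := rfl
        have e2 : (⟨(i : ℕ) + 1, by omega⟩ : Fin (m + 1)) = i.succ := rfl
        rw [e1, e2]
        ring
      · have h0 : 0 ≤ c * ff n := by linarith
        have hfl : (⌊c * ff n⌋₊ : ℝ) ≤ c * ff n := Nat.floor_le h0
        have hltb := nth_lt (b := n - ⌊c * ff n⌋₊) (fun x h1 h2 hxp => by
          have c1 := abs_le.1 (hclose 0 (Nat.zero_le _))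
          obtain ⟨j', hj', hx'⟩ := f3 x (by
            rw [abs_le]
            constructor
            · have h4 : n ≤ x + ⌊c * ff n⌋₊ := by omega
              have h5 : (n : ℝ) ≤ x + ⌊c * ff n⌋₊ := by exact_mod_cast h4
              linarith
            · have h4 : (x : ℤ) ≤ n + Bh := by omega
              have h5 : (x : ℝ) ≤ n + Bh := by exact_mod_cast h4
              linarith) hxp
          have h6 := hjfirst 0 rfl rfl j' hj'
          have h7 := hbz 0 (by omega)
          have e1 : (⟨0, by omega⟩ : Fin (m + 1)) = 0 := rfl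
          rw [e1] at h7
          omega) hN0
        rw [hN0]
        have h1 : (Nat.nth Nat.Prime N : ℝ) + ⌊c * ff n⌋₊ + 1 ≤ n := by
          have : Nat.nth Nat.Prime N + ⌊c * ff n⌋₊ + 1 ≤ n := by omega
          exact_mod_cast this
        have h2 := Nat.lt_floor_add_one (c * ff n)
        have h3 : (n : ℝ) - Bh ≤ (b 0 : ℕ) := by
          have c1 := (abs_le.1 (hclose 0 (Nat.zero_le _))).1
          have : (n : ℤ) - Bh ≤ (b 0 : ℕ) := by omega
          exact_mod_cast this
        have h4 : ff (Nat.nth Nat.Prime N) ≤ 2 * ff n := by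
          refine (hZ0 n hn2).1 _ ?_ ?_
          · -- Bertrand
            by_contra hlt
            push Not at hlt
            have h8 : 4 * Nat.nth Nat.Prime N < n := by
              have : 4 * (Nat.nth Nat.Prime N : ℝ) < n := by linarith
              exact_mod_cast this
            obtain ⟨q', hq', hq1, hq2⟩ := Nat.exists_prime_lt_and_le_two_mul (Nat.nth Nat.Prime N)
              (Nat.prime_nth_prime N).ne_zero
            have h9 : Nat.nth Nat.Prime (N + 1) ≤ q' := by
              by_contra hh'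
              push Not at hh'
              have h11 : Nat.count Nat.Prime q' < N + 1 := by
                have h15 : Nat.count Nat.Prime (Nat.nth Nat.Prime (N + 1)) = N + 1 :=
                  Nat.count_nth_of_infinite Nat.infinite_setOfPred_prime (N + 1)
                have h16 : Nat.count Nat.Prime (q' + 1) ≤ Nat.count Nat.Prime (Nat.nth Nat.Prime (N + 1)) :=
                  Nat.count_monotone _ hh'
                rw [Nat.count_succ, h15, if_pos hq'] at h16
                omega
              have h12 : N < Nat.count Nat.Prime q' := by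
                have h13 : Nat.count Nat.Prime (Nat.nth Nat.Prime N) = N :=
                  Nat.count_nth_of_infinite Nat.infinite_setOfPred_prime N
                have h14 : Nat.count Nat.Prime (Nat.nth Nat.Prime N + 1) ≤ Nat.count Nat.Prime q' :=
                  Nat.count_monotone _ hq1
                rw [Nat.count_succ, h13, if_pos (Nat.prime_nth_prime N)] at h14
                omega
              omega
            rw [hN0] at h9
            have h2 := ha2 (j ⟨0, by omega⟩)
            rw [← hbi 0 (by omega)] at h2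
            omega
          · linarith [(Nat.cast_nonneg ⌊c * ff n⌋₊ : (0 : ℝ) ≤ _)]
        have h5 : c / 4 * ff (Nat.nth Nat.Prime N) ≤ c / 4 * (2 * ff n) :=
          mul_le_mul_of_nonneg_left h4 (by positivity)
        linarith
  exact ⟨⟨K, fun h hh hq => (key h hh hq).1⟩, ⟨K, fun h hh hq => (key h hh hq).2⟩⟩

end Pool.Agent.W126.RecAdj
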