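import Mathlib
import Pool.Agent.W126.RecAdj
import Pool.Agent.H672R3.HomPat

set_option autoImplicit false

/-! Infinite sets all of whose `s`-subsets are exact patterns of primes isolated by record gaps. -/

open Finset Filter

namespace Pool.Agent.W126.IsoHer

open Pool.Agent.H256R2.SC (ff)
open Pool.Agent.H312R2.RG.C3 (ff_tendsto)
open Pool.Agent.W126.RecIso (core)
open Pool.Agent.W126.RecAdj (ff_near)
open Pool.Agent.H672R3.HomPat (ram_inf)
open Pool.Agent.H672R3.InfRec (diag_gen)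

/-- for infinitely many `n` the primes at distance at most `c f(n)` from `n` are exactly the `n + y`, `y ∈ S`, and
they are all `≡ r (mod q)` -/
def Iso (c : ℝ) (q r : ℕ) (S : Finset ℤ) : Prop :=
  ∃ᶠ n : ℕ in atTop, (∀ y : ℤ, |(y : ℝ)| ≤ c * ff n → (((n : ℤ) + y).toNat.Prime ↔ y ∈ S)) ∧
    ∀ y ∈ S, (n : ℤ) + y ≡ r [ZMOD q]

/-- shifting a pattern -/
theorem shift (c : ℝ) (hc : 0 < c) (q r : ℕ) (v : ℤ) (S0 : Finset ℤ) (hqS : ∀ y ∈ S0, (q : ℤ) ∣ y)
    (h : ∃ᶠ n : ℕ in atTop, n ≡ r [MOD q] ∧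
      ∀ y : ℤ, |(y : ℝ)| ≤ c * ff n → (Nat.Prime ((n : ℤ) + y).toNat ↔ y ∈ S0))
    (S : Finset ℤ) (hS : ∀ y, y ∈ S ↔ y - v ∈ S0) : Iso (c / 4) q r S := by
  have hnat : Tendsto (fun n : ℕ => (n : ℝ)) atTop atTop := tendsto_natCast_atTop_atTop
  have hev := hnat.eventually (ff_near.and ((ff_tendsto.eventually_ge_atTop (4 * |(v : ℝ)| / c + 1)).and
    (eventually_ge_atTop (2 * |(v : ℝ)| + 1))))
  unfold Iso
  rw [frequently_atTop]
  intro N0
  obtain ⟨n, ⟨⟨hn1, hn2⟩, hn3, hn4, hn5⟩, hn6⟩ :=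
    ((h.and_eventually hev).and_eventually (eventually_ge_atTop (N0 + v.natAbs))).exists
  have hvabs : ((v.natAbs : ℕ) : ℤ) = |v| := (Int.abs_eq_natAbs v).symm
  have hn' : 0 ≤ (n : ℤ) - v := by
    have h1 : ((N0 + v.natAbs : ℕ) : ℤ) ≤ n := by exact_mod_cast hn6
    push_cast at h1
    have h2 := le_abs_self v
    have h3 : (0 : ℤ) ≤ N0 := Int.natCast_nonneg _
    omega
  obtain ⟨n', hn'e⟩ : ∃ n' : ℕ, (n' : ℤ) = n - v := ⟨((n : ℤ) - v).toNat, Int.toNat_of_nonneg hn'⟩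
  have hn'R : (n' : ℝ) = n - v := by exact_mod_cast congrArg (fun z : ℤ => (z : ℝ)) hn'e
  refine ⟨n', ?_, ?_, ?_⟩
  · have h1 : ((N0 + v.natAbs : ℕ) : ℤ) ≤ n := by exact_mod_cast hn6
    push_cast at h1
    have h2 := le_abs_self v
    omega
  · intro y hy
    have hff : ff (n' : ℝ) ≤ 2 * ff n := by
      have h1 := abs_le.1 (le_refl |(v : ℝ)|)
      apply hn3
      · rw [hn'R]
        have : (0 : ℝ) ≤ n := Nat.cast_nonneg n
        linarith [h1.2]
      · rw [hn'R]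
        linarith [h1.1]
    have hyv : |((y - v : ℤ) : ℝ)| ≤ c * ff n := by
      push_cast
      have h1 : |(y : ℝ) - v| ≤ |(y : ℝ)| + |(v : ℝ)| := abs_sub _ _
      have h2 : c / 4 * ff (n' : ℝ) ≤ c / 4 * (2 * ff n) := mul_le_mul_of_nonneg_left hff (by positivity)
      have h3 : 4 * |(v : ℝ)| / c ≤ ff n := by linarith
      rw [div_le_iff₀ hc] at h3
      have h4 : 0 ≤ |(v : ℝ)| := abs_nonneg _
      linarith
    have h1 := hn2 (y - v) hyv
    have e1 : (n : ℤ) + (y - v) = (n' : ℤ) + y := by rw [hn'e]; ring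
    rw [e1] at h1
    rw [h1, hS]
  · intro y hy
    have h1 := hqS _ ((hS y).1 hy)
    have e1 : (n' : ℤ) + y = (n : ℤ) + (y - v) := by rw [hn'e]; ring
    rw [e1]
    have h2 : (n : ℤ) ≡ r [ZMOD q] := by
      rw [Int.natCast_modEq_iff]
      exact hn1
    have h3 : (y - v) ≡ 0 [ZMOD q] := (Int.modEq_zero_iff_dvd).2 h1
    simpa using h2.add h3

theorem sizes {P : Finset ℕ → Prop} (T : Finset ℕ) : ∀ (Y : Set ℕ), Y.Infinite →
    ∃ Z ⊆ Y, Z.Infinite ∧ ∀ t ∈ T, (∀ U : Finset ℕ, (U : Set ℕ) ⊆ Z → U.card = t → P U) ∨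
      (∀ U : Finset ℕ, (U : Set ℕ) ⊆ Z → U.card = t → ¬ P U) := by
  classical
  induction T using Finset.induction_on with
  | empty =>
    intro Y hY
    exact ⟨Y, subset_rfl, hY, by simp⟩
  | insert t T _ ih =>
    intro Y hY
    obtain ⟨Z1, hZ1, hZ1i, h1⟩ := ih Y hY
    obtain ⟨Z, hZ, hZi, h2⟩ := ram_inf t Z1 hZ1i P
    refine ⟨Z, hZ.trans hZ1, hZi, ?_⟩
    intro t' ht'
    rw [mem_insert] at ht'
    rcases ht' with rfl | ht'
    · exact h2
    · rcases h1 t' ht' with h3 | h3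
      · exact Or.inl fun U hU hUc => h3 U (hU.trans hZ) hUc
      · exact Or.inr fun U hU hUc => h3 U (hU.trans hZ) hUc

theorem main : ∃ (K : ℕ → ℕ) (c : ℕ → ℝ), (∀ m, 0 < c m) ∧
    ∀ φ : ℕ → ℕ → ℤ, (∀ j, Function.Injective (φ j)) →
    ∀ q r : ℕ → ℕ, (∀ j, Squarefree (q j)) → (∀ j, (r j).Coprime (q j)) →
    ∃ b : ℕ → ℕ, StrictMono b ∧ ∀ j m : ℕ, ∃ s N : ℕ, m ≤ s ∧ s ≤ K m ∧
      ∀ I : Finset ℕ, I.card = s → (∀ i ∈ I, N ≤ i) →
        Iso (c m) (q j) (r j) (I.image (fun i => φ j (b i))) := by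
  classical
  choose K c hc hcore using core
  refine ⟨K, fun m => c m / 4, fun m => by have := hc m; positivity, ?_⟩
  intro φ hφ q r hq hr
  have step : ∀ (j m : ℕ) (Y : Set ℕ), Y.Infinite → ∃ Z ⊆ Y, Z.Infinite ∧ ∃ s, m ≤ s ∧ s ≤ K m ∧
      ∀ U : Finset ℕ, (U : Set ℕ) ⊆ Z → U.card = s → Iso (c m / 4) (q j) (r j) (U.image (φ j)) := by
    intro j m Y hY
    have hq0 : 0 < q j := Nat.pos_of_ne_zero (hq j).ne_zero
    have : NeZero (q j) := ⟨hq0.ne'⟩
    -- one class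
    obtain ⟨v0, hv0⟩ : ∃ v0 : ZMod (q j), {y ∈ Y | ((φ j y : ℤ) : ZMod (q j)) = v0}.Infinite := by
      by_contra hcon
      push Not at hcon
      apply hY
      have : Y ⊆ ⋃ v0 : ZMod (q j), {y ∈ Y | ((φ j y : ℤ) : ZMod (q j)) = v0} := by
        intro y hy
        rw [Set.mem_iUnion]
        exact ⟨_, hy, rfl⟩
      exact (Set.finite_iUnion fun v0 => hcon v0).subset this
    obtain ⟨Z, hZ1, hZi, hZ2⟩ := sizes (P := fun U => Iso (c m / 4) (q j) (r j) (U.image (φ j)))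
      (Finset.Icc m (K m)) _ hv0
    refine ⟨Z, hZ1.trans (Set.sep_subset _ _), hZi, ?_⟩
    by_contra hcon
    push Not at hcon
    have hno : ∀ t, m ≤ t → t ≤ K m → ∀ U : Finset ℕ, (U : Set ℕ) ⊆ Z → U.card = t →
        ¬ Iso (c m / 4) (q j) (r j) (U.image (φ j)) := by
      intro t h1 h2
      rcases hZ2 t (Finset.mem_Icc.2 ⟨h1, h2⟩) with h3 | h3
      · obtain ⟨U, hU1, hU2, hU3⟩ := hcon t h1 h2
        exact absurd (h3 U hU1 hU2) hU3
      · exact h3
    obtain ⟨T, hT, hTc⟩ := hZi.exists_subset_card_eq (K m)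
    obtain ⟨z0, hz0⟩ := hZi.nonempty
    have hcl : ∀ z ∈ Z, (q j : ℤ) ∣ φ j z - φ j z0 := by
      intro z hz
      rw [← ZMod.intCast_zmod_eq_zero_iff_dvd]
      push_cast
      rw [(hZ1 hz).2, (hZ1 hz0).2, sub_self]
    have hTi : (T.image (φ j)).card = K m := by
      rw [card_image_of_injective _ (hφ j), hTc]
    set e := (T.image (φ j)).orderEmbOfFin hTi with he
    have heT : ∀ i, ∃ t ∈ T, φ j t = e i := fun i => mem_image.1 (Finset.orderEmbOfFin_mem _ hTi i)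
    obtain ⟨J, hJm, hJ⟩ := hcore m (q j) (hq j) (r j) (hr j) (fun i => e i - φ j z0)
      (fun a b hab => by
        have := e.strictMono hab
        simp only
        linarith) (fun i => by
        obtain ⟨t, ht, hte⟩ := heT i
        rw [← hte]
        exact hcl t (hT ht))
    set S0 : Finset ℤ := J.image (fun i => e i - φ j z0) with hS0
    set U : Finset ℕ := T.filter (fun t => φ j t - φ j z0 ∈ S0) with hU
    have hUc : U.card = J.card := by
      have h1 : U.image (φ j) = J.image (fun i => e i) := by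
        ext x
        rw [mem_image, mem_image]
        constructor
        · rintro ⟨t, ht, rfl⟩
          obtain ⟨_, h2⟩ := mem_filter.1 ht
          obtain ⟨i, hi, hie⟩ := mem_image.1 h2
          exact ⟨i, hi, by linarith⟩
        · rintro ⟨i, hi, rfl⟩
          obtain ⟨t, ht, hte⟩ := heT i
          exact ⟨t, mem_filter.2 ⟨ht, mem_image.2 ⟨i, hi, by rw [hte]⟩⟩, hte⟩
      have h2 := card_image_of_injective U (hφ j)
      have h3 := card_image_of_injective J e.injective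
      rw [← h2, h1, h3]
    have hJK : J.card ≤ K m := by
      have := Finset.card_le_univ J
      simpa using this
    refine hno J.card hJm hJK U (fun t ht => hT (mem_filter.1 ht).1) hUc ?_
    refine shift (c m) (hc m) (q j) (r j) (φ j z0) S0 ?_ ?_ _ ?_
    · intro y hy
      obtain ⟨i, _, rfl⟩ := mem_image.1 hy
      obtain ⟨t, ht, hte⟩ := heT i
      rw [← hte]
      exact hcl t (hT ht)
    · refine hJ.mono fun n hn => ⟨hn.1, fun y hy => ?_⟩
      rw [hn.2 y hy, hS0, mem_image]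
    · intro y
      rw [mem_image]
      constructor
      · rintro ⟨t, ht, rfl⟩
        exact (mem_filter.1 ht).2
      · intro hy
        obtain ⟨i, hi, hie⟩ := mem_image.1 hy
        obtain ⟨t, ht, hte⟩ := heT i
        have h1 : φ j t = y := by linarith
        exact ⟨t, mem_filter.2 ⟨ht, by rw [h1]; exact hy⟩, h1⟩
  obtain ⟨b, hb, hP⟩ := diag_gen (fun i Z => ∃ s, (Nat.unpair i).2 ≤ s ∧ s ≤ K (Nat.unpair i).2 ∧
      ∀ U : Finset ℕ, (U : Set ℕ) ⊆ Z → U.card = s →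
        Iso (c (Nat.unpair i).2 / 4) (q (Nat.unpair i).1) (r (Nat.unpair i).1)
          (U.image (φ (Nat.unpair i).1)))
    (fun i Z Z' hZ h => by
      obtain ⟨s, h1, h2, h3⟩ := h
      exact ⟨s, h1, h2, fun U hU hUc => h3 U (hU.trans hZ) hUc⟩)
    (fun i Y hY => step _ _ Y hY)
  refine ⟨b, hb, fun j m => ?_⟩
  obtain ⟨s, h1, h2, h3⟩ := hP (Nat.pair j m)
  rw [Nat.unpair_pair] at h1 h2 h3
  refine ⟨s, Nat.pair j m, h1, h2, fun I hI hIN => ?_⟩
  have h4 := h3 (I.image b) (by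
    intro x hx
    obtain ⟨i, hi, rfl⟩ := mem_image.1 (Finset.mem_coe.1 hx)
    exact ⟨i, hIN i hi, rfl⟩) (by rw [card_image_of_injective _ hb.injective, hI])
  rw [Finset.image_image] at h4
  exact h4

end Pool.Agent.W126.IsoHer
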