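import Mathlib

/-!
A graph on ten vertices with `tw + 1 = 5`, tree-independence number `2` and tree-chromatic
number `2`: the five-cycle `0,1,2,3,4` together with one vertex of degree two for each of the
five pairs of nonadjacent vertices of the cycle.
-/

set_option autoImplicit false

namespace Pool.Agent.W126.TAC

open SimpleGraph

/-! ### Trees given by parent functions, Helly property -/

section Tree

/-- tree on `Fin (k+1)` given by a parent function -/
theorem isTree_of_parent (k : ℕ) (G : SimpleGraph (Fin (k+1))) (par : Fin (k+1) → Fin (k+1))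
    (hlt : ∀ b, b ≠ 0 → par b < b)
    (hadj : ∀ a b, G.Adj a b ↔ (a ≠ 0 ∧ par a = b) ∨ (b ≠ 0 ∧ par b = a)) : G.IsTree := by
  classical
  rw [SimpleGraph.isTree_iff_connected_and_card]
  constructor
  · have h0 : ∀ n : ℕ, ∀ b : Fin (k+1), b.val = n → G.Reachable 0 b := by
      intro n
      induction n using Nat.strong_induction_on with
      | _ n ih =>
        intro b hb
        by_cases hb0 : b = 0
        · subst hb0; exact SimpleGraph.Reachable.refl _
        · have h1 := hlt b hb0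
          have h2 := ih (par b).val (by rw [← hb]; exact h1) (par b) rfl
          exact h2.trans (SimpleGraph.Adj.reachable ((hadj _ _).2 (Or.inr ⟨hb0, rfl⟩)))
    have : Nonempty (Fin (k+1)) := ⟨0⟩
    refine SimpleGraph.Connected.mk ?_
    intro a b
    exact (h0 _ a rfl).symm.trans (h0 _ b rfl)
  · have hbij : Nat.card G.edgeSet = Nat.card {b : Fin (k+1) // b ≠ 0} := by
      symm
      refine Nat.card_congr (Equiv.ofBijective
        (fun b : {b : Fin (k+1) // b ≠ 0} =>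
          (⟨s(b.1, par b.1), (SimpleGraph.mem_edgeSet G).2 ((hadj _ _).2 (Or.inl ⟨b.2, rfl⟩))⟩ : G.edgeSet)) ⟨?_, ?_⟩)
      · rintro ⟨a, ha⟩ ⟨b, hb⟩ hab
        have h := congrArg Subtype.val hab
        simp only [Sym2.eq_iff] at h
        rcases h with ⟨h1, _⟩ | ⟨h1, h2⟩
        · exact Subtype.ext h1
        · exfalso
          have h3 := hlt a ha
          have h4 := hlt b hb
          rw [h2] at h3
          rw [← h1] at h4
          exact absurd h3 (not_lt.2 h4.le)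
      · rintro ⟨e, he⟩
        induction e using Sym2.ind with
        | _ x y =>
          have hxy : G.Adj x y := he
          rcases (hadj _ _).1 hxy with ⟨hx, h⟩ | ⟨hy, h⟩
          · refine ⟨⟨x, hx⟩, ?_⟩
            apply Subtype.ext
            simp [h]
          · refine ⟨⟨y, hy⟩, ?_⟩
            apply Subtype.ext
            simp only [h]
            exact Sym2.eq_swap
    rw [hbij]
    simp [Nat.card_eq_fintype_card, Fintype.card_subtype_compl]

/-- connectivity of an induced subgraph from a parent function -/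
theorem conn_of_parent {n : ℕ} (T : SimpleGraph (Fin n)) (S : Set (Fin n)) (r : Fin n)
    (hr : r ∈ S) (par : Fin n → Fin n)
    (h : ∀ i, i ∈ S → i ≠ r → par i ∈ S ∧ par i < i ∧ T.Adj (par i) i) :
    (T.induce S).Connected := by
  have key : ∀ m : ℕ, ∀ i : Fin n, i.val = m → ∀ hi : i ∈ S,
      (T.induce S).Reachable ⟨r, hr⟩ ⟨i, hi⟩ := by
    intro m
    induction m using Nat.strong_induction_on with
    | _ m ih =>
      intro i him hi
      by_cases hir : i = r
      · subst hir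
        exact Reachable.refl _
      · obtain ⟨h1, h2, h3⟩ := h i hi hir
        refine (ih _ (by rw [← him]; exact h2) (par i) rfl h1).trans (Adj.reachable ?_)
        exact h3
  have hne : Nonempty S := ⟨⟨r, hr⟩⟩
  refine SimpleGraph.Connected.mk ?_
  rintro ⟨a, ha⟩ ⟨b, hb⟩
  exact (key _ a rfl ha).symm.trans (key _ b rfl hb)

variable {ι : Type} {T : SimpleGraph ι}

/-- closed under paths -/
def PathConvex (T : SimpleGraph ι) (S : Set ι) : Prop :=
  ∀ a b, a ∈ S → b ∈ S → ∀ P : T.Walk a b, P.IsPath → ∀ c ∈ P.support, c ∈ S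

lemma PathConvex.inter {S S' : Set ι} (h : PathConvex T S) (h' : PathConvex T S') :
    PathConvex T (S ∩ S') :=
  fun a b ha hb P hP c hc => ⟨h a b ha.1 hb.1 P hP c hc, h' a b ha.2 hb.2 P hP c hc⟩

/-- walk-connected sets in trees are path convex -/
lemma pathConvex_of_walks (hT : T.IsTree) {S : Set ι}
    (h : ∀ a b, a ∈ S → b ∈ S → ∃ Q : T.Walk a b, ∀ c ∈ Q.support, c ∈ S) :
    PathConvex T S := by
  classical
  intro a b ha hb P hP c hc
  obtain ⟨Q, hQ⟩ := h a b ha hb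
  have h1 : (⟨P, hP⟩ : T.Path a b) = Q.toPath := (hT.isAcyclic.subsingleton_path _ _).elim _ _
  have h2 : P = Q.toPath.1 := congrArg Subtype.val h1
  rw [h2] at hc
  exact hQ c (Q.support_toPath_subset_support hc)

lemma adj_step {S S' : Set ι} (hS : PathConvex T S) (hS' : PathConvex T S')
    (hT : T.IsTree) {a x y : ι} (ha : a ∈ S ∩ S') (hx : x ∈ S) (hy : y ∈ S') (hxy : T.Adj x y) :
    x ∈ S' ∨ y ∈ S := by
  classical
  obtain ⟨P⟩ := hT.connected.preconnected y a
  by_cases hxs : x ∈ (P.toPath : T.Walk y a).support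
  · left
    exact hS' y a hy ha.2 _ P.toPath.2 x hxs
  · right
    have hpath : (Walk.cons hxy (P.toPath : T.Walk y a)).IsPath := by
      rw [Walk.cons_isPath_iff]
      exact ⟨P.toPath.2, hxs⟩
    exact hS x a hx ha.1 _ hpath y (by simp)

lemma exists_mem_inter {S S' : Set ι} (hS : PathConvex T S) (hS' : PathConvex T S')
    (hT : T.IsTree) {a : ι} (ha : a ∈ S ∩ S') :
    ∀ {c b : ι} (R : T.Walk c b), c ∈ S → b ∈ S' → (∀ z ∈ R.support, z ∈ S ∨ z ∈ S') →
      ∃ z ∈ R.support, z ∈ S ∧ z ∈ S'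
  | _, _, Walk.nil, hc, hb, _ => ⟨_, by simp, hc, hb⟩
  | c, b, Walk.cons (v := z) h R, hc, hb, hR => by
    by_cases hz : z ∈ S
    · obtain ⟨y, hy, hy'⟩ := exists_mem_inter hS hS' hT ha R hz hb
        (fun w hw => hR w (by simp [hw]))
      exact ⟨y, by simp [hy], hy'⟩
    · have hz' : z ∈ S' := (hR z (by simp)).resolve_left hz
      rcases adj_step hS hS' hT ha hc hz' h with h1 | h1
      · exact ⟨c, by simp, hc, h1⟩
      · exact absurd h1 hz

lemma helly_three (hT : T.IsTree) {S1 S2 S3 : Set ι} (h1 : PathConvex T S1)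
    (h2 : PathConvex T S2) (h3 : PathConvex T S3) (h12 : (S1 ∩ S2).Nonempty)
    (h13 : (S1 ∩ S3).Nonempty) (h23 : (S2 ∩ S3).Nonempty) : (S1 ∩ (S2 ∩ S3)).Nonempty := by
  classical
  obtain ⟨c, hc1, hc2⟩ := h12
  obtain ⟨b, hb1, hb3⟩ := h13
  obtain ⟨a, ha2, ha3⟩ := h23
  obtain ⟨Q⟩ := hT.connected.preconnected c a
  obtain ⟨P⟩ := hT.connected.preconnected a b
  let R : T.Walk c b := ((Q.toPath : T.Walk c a).append (P.toPath : T.Walk a b)).toPath
  have hR : ∀ z ∈ R.support, z ∈ S2 ∨ z ∈ S3 := by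
    intro z hz
    have := Walk.support_toPath_subset_support _ hz
    rw [Walk.mem_support_append_iff] at this
    rcases this with h | h
    · left; exact h2 c a hc2 ha2 _ Q.toPath.2 z h
    · right; exact h3 a b ha3 hb3 _ P.toPath.2 z h
  obtain ⟨z, hz, hz'⟩ := exists_mem_inter h2 h3 hT ⟨ha2, ha3⟩ R hc2 hb3 hR
  refine ⟨z, h1 c b hc1 hb1 R ?_ z hz, hz'⟩
  exact ((Q.toPath : T.Walk c a).append (P.toPath : T.Walk a b)).toPath.2

lemma helly (hT : T.IsTree) {κ : Type} (s : Finset κ) (hs : s.Nonempty) :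
    ∀ (S : κ → Set ι), (∀ i ∈ s, PathConvex T (S i)) →
      (∀ i ∈ s, ∀ j ∈ s, (S i ∩ S j).Nonempty) → ∃ t, ∀ i ∈ s, t ∈ S i := by
  classical
  induction hs using Finset.Nonempty.cons_induction with
  | singleton a =>
    intro S _ hp
    obtain ⟨t, ht, _⟩ := hp a (by simp) a (by simp)
    exact ⟨t, by simpa using ht⟩
  | cons a s ha hs ih =>
    intro S hc hp
    obtain ⟨t, ht⟩ := ih (fun i => S i ∩ S a) (fun i hi => (hc i (by simp [hi])).inter
      (hc a (by simp))) (fun i hi j hj => by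
        have h := helly_three hT (hc a (by simp)) (hc i (by simp [hi])) (hc j (by simp [hj]))
          (hp a (by simp) i (by simp [hi])) (hp a (by simp) j (by simp [hj]))
          (hp i (by simp [hi]) j (by simp [hj]))
        obtain ⟨z, hz1, hz2, hz3⟩ := h
        exact ⟨z, ⟨hz2, hz1⟩, ⟨hz3, hz1⟩⟩)
    refine ⟨t, fun i hi => ?_⟩
    rw [Finset.mem_cons] at hi
    rcases hi with rfl | hi
    · obtain ⟨j, hj⟩ := hs
      exact (ht j hj).2
    · exact (ht i hi).1

lemma walk_of_induce {S : Set ι} :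
    ∀ {a b : S} (_ : (T.induce S).Walk a b), ∃ R : T.Walk (a : ι) (b : ι), ∀ s ∈ R.support, s ∈ S
  | a, _, Walk.nil => ⟨Walk.nil, fun s hs => by
      rw [Walk.support_nil, List.mem_singleton] at hs
      rw [hs]; exact a.2⟩
  | a, b, Walk.cons (v := c) h Q => by
    obtain ⟨R, hR⟩ := walk_of_induce Q
    refine ⟨Walk.cons (v := (c : ι)) (by simpa using h) R, ?_⟩
    intro s hs
    rw [Walk.support_cons, List.mem_cons] at hs
    rcases hs with rfl | hs
    · exact a.2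
    · exact hR s hs

/-- a union of connected sets, all of which meet a fixed one, is path convex -/
lemma star_union_walks {κ : Type} (S : κ → Set ι) (c : κ) (K : Set κ) (hc : c ∈ K)
    (hconn : ∀ i ∈ K, (T.induce (S i)).Connected)
    (hmeet : ∀ i ∈ K, (S i ∩ S c).Nonempty) :
    ∀ a b, a ∈ {t | ∃ i ∈ K, t ∈ S i} → b ∈ {t | ∃ i ∈ K, t ∈ S i} →
      ∃ Q : T.Walk a b, ∀ z ∈ Q.support, z ∈ {t | ∃ i ∈ K, t ∈ S i} := by
  have hin : ∀ i ∈ K, ∀ a b, a ∈ S i → b ∈ S i →
      ∃ Q : T.Walk a b, ∀ z ∈ Q.support, z ∈ {t | ∃ i ∈ K, t ∈ S i} := by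
    intro i hi a b ha hb
    obtain ⟨w⟩ := (hconn i hi).preconnected ⟨a, ha⟩ ⟨b, hb⟩
    obtain ⟨R, hR⟩ := walk_of_induce w
    exact ⟨R, fun z hz => ⟨i, hi, hR z hz⟩⟩
  rintro a b ⟨i, hi, hai⟩ ⟨j, hj, hbj⟩
  obtain ⟨x, hx1, hx2⟩ := hmeet i hi
  obtain ⟨y, hy1, hy2⟩ := hmeet j hj
  obtain ⟨Q1, h1⟩ := hin i hi a x hai hx1
  obtain ⟨Q2, h2⟩ := hin c hc x y hx2 hy2
  obtain ⟨Q3, h3⟩ := hin j hj y b hy1 hbj
  refine ⟨(Q1.append Q2).append Q3, ?_⟩
  intro z hz
  rw [Walk.mem_support_append_iff, Walk.mem_support_append_iff] at hz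
  rcases hz with (hz | hz) | hz
  · exact h1 z hz
  · exact h2 z hz
  · exact h3 z hz

end Tree

/-! ### The graph -/

/-- the edges -/
def E : List (Fin 10 × Fin 10) :=
  [(0,1), (1,2), (2,3), (3,4), (4,0), (5,0), (5,2), (6,0), (6,3), (7,1), (7,3), (8,1), (8,4),
    (9,2), (9,4)]

/-- the adjacency test -/
def adjB (u v : Fin 10) : Bool := (E.contains (u, v)) || (E.contains (v, u))

/-- the graph -/
def G : SimpleGraph (Fin 10) where
  Adj u v := adjB u v = true
  symm := ⟨by decide⟩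
  loopless := ⟨by decide⟩

instance : DecidableRel G.Adj := fun u v => inferInstanceAs (Decidable (adjB u v = true))

/-- star with centre `0` on `Fin 6` -/
def T1 : SimpleGraph (Fin 6) where
  Adj a b := (a ≠ 0 ∧ (0 : Fin 6) = b) ∨ (b ≠ 0 ∧ (0 : Fin 6) = a)
  symm := ⟨by decide⟩
  loopless := ⟨by decide⟩

/-- the bags of the first decomposition -/
def B1 : Fin 6 → Finset (Fin 10) :=
  ![{0, 1, 2, 3, 4}, {0, 2, 5}, {0, 3, 6}, {1, 3, 7}, {1, 4, 8}, {2, 4, 9}]

theorem T1_tree : T1.IsTree := by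
  apply isTree_of_parent 5 T1 (fun _ => 0)
  · decide
  · intro a b
    rfl

/-- the parent function of the second tree -/
def par2 : Fin 5 → Fin 5 := ![0, 0, 1, 0, 1]

/-- the second tree -/
def T2 : SimpleGraph (Fin 5) where
  Adj a b := (a ≠ 0 ∧ par2 a = b) ∨ (b ≠ 0 ∧ par2 b = a)
  symm := ⟨by decide⟩
  loopless := ⟨by decide⟩

/-- the bags of the second decomposition -/
def B2 : Fin 5 → Finset (Fin 10) :=
  ![{0, 1, 2, 7, 8}, {0, 2, 3, 7, 8, 9}, {0, 3, 4, 8, 9}, {0, 2, 5}, {0, 3, 6}]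

theorem T2_tree : T2.IsTree := by
  apply isTree_of_parent 4 T2 par2
  · decide
  · intro a b
    rfl

/-- roots of the subtrees of the first decomposition -/
def r1 : Fin 10 → Fin 6 := ![0, 0, 0, 0, 0, 1, 2, 3, 4, 5]

/-- roots of the subtrees of the second decomposition -/
def r2 : Fin 10 → Fin 5 := ![0, 0, 0, 1, 2, 3, 4, 0, 0, 1]

instance (a b : Fin 6) : Decidable (T1.Adj a b) :=
  inferInstanceAs (Decidable ((a ≠ 0 ∧ (0 : Fin 6) = b) ∨ (b ≠ 0 ∧ (0 : Fin 6) = a)))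

instance (a b : Fin 5) : Decidable (T2.Adj a b) :=
  inferInstanceAs (Decidable ((a ≠ 0 ∧ par2 a = b) ∨ (b ≠ 0 ∧ par2 b = a)))

theorem conn1 (v : Fin 10) : (T1.induce {i | v ∈ B1 i}).Connected := by
  have h1 : ∀ v : Fin 10, v ∈ B1 (r1 v) := by decide
  have h2 : ∀ v : Fin 10, ∀ i : Fin 6, v ∈ B1 i → i ≠ r1 v →
      v ∈ B1 0 ∧ (0 : Fin 6) < i ∧ T1.Adj 0 i := by decide
  exact conn_of_parent T1 _ (r1 v) (h1 v) (fun _ => 0) (h2 v)

theorem conn2 (v : Fin 10) : (T2.induce {i | v ∈ B2 i}).Connected := by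
  have h1 : ∀ v : Fin 10, v ∈ B2 (r2 v) := by decide
  have h2 : ∀ v : Fin 10, ∀ i : Fin 5, v ∈ B2 i → i ≠ r2 v →
      v ∈ B2 (par2 i) ∧ par2 i < i ∧ T2.Adj (par2 i) i := by decide
  exact conn_of_parent T2 _ (r2 v) (h1 v) par2 (h2 v)

theorem edge1 : ∀ u v : Fin 10, G.Adj u v → ∃ i, u ∈ B1 i ∧ v ∈ B1 i := by decide

theorem edge2 : ∀ u v : Fin 10, G.Adj u v → ∃ i, u ∈ B2 i ∧ v ∈ B2 i := by decide

/-- the independent sets in the bags of the first decomposition -/
theorem indep1 (i : Fin 6) (S : Finset (Fin 10)) (hS : S ⊆ B1 i)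
    (hI : G.IsIndepSet (S : Set (Fin 10))) : S.card ≤ 2 := by
  have key : ∀ i : Fin 6, ∀ S ∈ (B1 i).powerset, (∀ x ∈ S, ∀ y ∈ S, ¬ G.Adj x y) →
      S.card ≤ 2 := by decide +kernel
  refine key i S (Finset.mem_powerset.2 hS) ?_
  intro x hx y hy hxy
  exact hI (Finset.mem_coe.2 hx) (Finset.mem_coe.2 hy) hxy.ne hxy

/-- the colouring of the bags of the second decomposition -/
def col : Fin 5 → Fin 10 → Fin 2 :=
  ![![1, 0, 1, 0, 0, 0, 0, 1, 1, 0], ![0, 0, 0, 1, 0, 0, 0, 0, 0, 1],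
    ![1, 0, 0, 1, 0, 0, 0, 0, 1, 1], ![0, 0, 0, 0, 0, 1, 0, 0, 0, 0],
    ![0, 0, 0, 0, 0, 0, 1, 0, 0, 0]]

theorem col_ok : ∀ i : Fin 5, ∀ u ∈ B2 i, ∀ v ∈ B2 i, G.Adj u v → col i u ≠ col i v := by
  decide

theorem color2 (i : Fin 5) : (G.induce (B2 i : Set (Fin 10))).Colorable 2 := by
  refine ⟨Coloring.mk (fun u => col i u.1) ?_⟩
  rintro ⟨u, hu⟩ ⟨v, hv⟩ huv
  exact col_ok i u (Finset.mem_coe.1 hu) v (Finset.mem_coe.1 hv) huv

/-- centre of the branch sets of the `K₅` minor -/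
def ctr : Fin 5 → Fin 10 := ![0, 1, 2, 3, 4]

/-- the branch sets of the `K₅` minor -/
def br : Fin 5 → Finset (Fin 10) := ![{0, 5, 6}, {1, 7, 8}, {2, 9}, {3}, {4}]

theorem no_small (n : ℕ) (T : SimpleGraph (Fin n)) (B : Fin n → Finset (Fin 10))
    (hT : T.IsTree) (hE : ∀ u v, G.Adj u v → ∃ i, u ∈ B i ∧ v ∈ B i)
    (hC : ∀ v, (T.induce {i | v ∈ B i}).Connected) : ∃ i, 5 ≤ (B i).card := by
  classical
  let S : Fin 5 → Set (Fin n) := fun j => {t | ∃ v ∈ (br j : Set (Fin 10)), t ∈ {i | v ∈ B i}}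
  have hne : ∀ v : Fin 10, ∃ i, v ∈ B i := by
    intro v
    obtain ⟨i⟩ := (hC v).nonempty
    exact ⟨i.1, i.2⟩
  have hconv : ∀ j, PathConvex T (S j) := by
    intro j
    apply pathConvex_of_walks hT
    apply star_union_walks (fun v : Fin 10 => {i | v ∈ B i}) (ctr j) (br j : Set (Fin 10))
    · have : ∀ j, ctr j ∈ br j := by decide
      exact Finset.mem_coe.2 (this j)
    · intro v _
      exact hC v
    · intro v hv
      have h : ∀ j, ∀ v ∈ br j, v = ctr j ∨ G.Adj v (ctr j) := by decide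
      rcases h j v (Finset.mem_coe.1 hv) with h1 | h1
      · obtain ⟨i, hi⟩ := hne v
        refine ⟨i, hi, ?_⟩
        rw [← h1]
        exact hi
      · obtain ⟨i, hi1, hi2⟩ := hE _ _ h1
        exact ⟨i, hi1, hi2⟩
  have hmeet : ∀ i j, (S i ∩ S j).Nonempty := by
    intro i j
    have h : ∀ i j : Fin 5, (i = j) ∨ ∃ u ∈ br i, ∃ v ∈ br j, G.Adj u v := by decide
    rcases h i j with h1 | ⟨u, hu, v, hv, huv⟩
    · subst h1
      obtain ⟨t, ht⟩ := hne (ctr i)
      have : ∀ j, ctr j ∈ br j := by decide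
      exact ⟨t, ⟨ctr i, Finset.mem_coe.2 (this i), ht⟩, ⟨ctr i, Finset.mem_coe.2 (this i), ht⟩⟩
    · obtain ⟨t, ht1, ht2⟩ := hE u v huv
      exact ⟨t, ⟨u, Finset.mem_coe.2 hu, ht1⟩, ⟨v, Finset.mem_coe.2 hv, ht2⟩⟩
  obtain ⟨t, ht⟩ := helly hT (Finset.univ : Finset (Fin 5)) ⟨0, Finset.mem_univ _⟩ S
    (fun i _ => hconv i) (fun i _ j _ => hmeet i j)
  refine ⟨t, ?_⟩
  choose f hf using fun i : Fin 5 => ht i (Finset.mem_univ i)
  have hinj : Function.Injective f := by
    intro i j hij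
    by_contra hne'
    have hd : ∀ i j : Fin 5, i ≠ j → ∀ u ∈ br i, u ∉ br j := by decide
    refine hd i j hne' (f i) (Finset.mem_coe.1 (hf i).1) ?_
    rw [hij]
    exact Finset.mem_coe.1 (hf j).1
  calc 5 = (Finset.univ.image f).card := by
        rw [Finset.card_image_of_injective _ hinj]; rfl
    _ ≤ (B t).card := by
        apply Finset.card_le_card
        intro x hx
        rw [Finset.mem_image] at hx
        obtain ⟨i, _, rfl⟩ := hx
        exact (hf i).2

end Pool.Agent.W126.TAC
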