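import Mathlib
import Pool.Agent.W126.TwAlphaChi

/-!
Splitting a graph into two parts of linear treewidth: tree decompositions of vertex subsets.
-/

set_option autoImplicit false
set_option linter.unusedSectionVars false

namespace Pool.Agent.W126.Split

open SimpleGraph Finset
open Pool.Agent.W126.TAC

/-! ### Glueing two trees along an edge -/

/-- two graphs joined by the edge `a b` -/
def glue {ι κ : Type} (T : SimpleGraph ι) (T' : SimpleGraph κ) (a : ι) (b : κ) :
    SimpleGraph (ι ⊕ κ) where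
  Adj x y :=
    match x, y with
    | Sum.inl i, Sum.inl j => T.Adj i j
    | Sum.inr i, Sum.inr j => T'.Adj i j
    | Sum.inl i, Sum.inr j => i = a ∧ j = b
    | Sum.inr j, Sum.inl i => i = a ∧ j = b
  symm := ⟨by
    rintro (x | x) (y | y) h
    · exact SimpleGraph.Adj.symm (G := T) h
    · exact h
    · exact h
    · exact SimpleGraph.Adj.symm (G := T') h⟩
  loopless := ⟨by
    rintro (x | x) h
    · exact T.loopless.irrefl x h
    · exact T'.loopless.irrefl x h⟩

section Glue

variable {ι κ : Type} {T : SimpleGraph ι} {T' : SimpleGraph κ} {a : ι} {b : κ}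

lemma walk_inl : ∀ {i j : ι} (p : T.Walk i j),
    ∃ q : (glue T T' a b).Walk (Sum.inl i) (Sum.inl j),
      ∀ x ∈ q.support, ∃ y ∈ p.support, x = Sum.inl y
  | _, _, Walk.nil => ⟨Walk.nil, by
      intro x hx
      rw [Walk.support_nil, List.mem_singleton] at hx
      exact ⟨_, by simp, hx⟩⟩
  | i, j, Walk.cons (v := c) h p => by
    obtain ⟨q, hq⟩ := walk_inl p
    have h' : (glue T T' a b).Adj (Sum.inl i) (Sum.inl c) := h
    refine ⟨Walk.cons h' q, ?_⟩
    intro x hx
    rw [Walk.support_cons, List.mem_cons] at hx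
    rcases hx with rfl | hx
    · exact ⟨i, by simp, rfl⟩
    · obtain ⟨y, hy, rfl⟩ := hq x hx
      exact ⟨y, by simp [hy], rfl⟩

lemma walk_inr : ∀ {i j : κ} (p : T'.Walk i j),
    ∃ q : (glue T T' a b).Walk (Sum.inr i) (Sum.inr j),
      ∀ x ∈ q.support, ∃ y ∈ p.support, x = Sum.inr y
  | _, _, Walk.nil => ⟨Walk.nil, by
      intro x hx
      rw [Walk.support_nil, List.mem_singleton] at hx
      exact ⟨_, by simp, hx⟩⟩
  | i, j, Walk.cons (v := c) h p => by
    obtain ⟨q, hq⟩ := walk_inr p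
    have h' : (glue T T' a b).Adj (Sum.inr i) (Sum.inr c) := h
    refine ⟨Walk.cons h' q, ?_⟩
    intro x hx
    rw [Walk.support_cons, List.mem_cons] at hx
    rcases hx with rfl | hx
    · exact ⟨i, by simp, rfl⟩
    · obtain ⟨y, hy, rfl⟩ := hq x hx
      exact ⟨y, by simp [hy], rfl⟩

lemma glue_isTree [Fintype ι] [Fintype κ] (hT : T.IsTree) (hT' : T'.IsTree) :
    (glue T T' a b).IsTree := by
  classical
  have hconn : (glue T T' a b).Connected := by
    have : Nonempty (ι ⊕ κ) := ⟨Sum.inl a⟩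
    refine SimpleGraph.Connected.mk ?_
    have key : ∀ x : ι ⊕ κ, (glue T T' a b).Reachable x (Sum.inl a) := by
      rintro (i | j)
      · obtain ⟨p⟩ := hT.connected.preconnected i a
        obtain ⟨q, -⟩ := walk_inl (T' := T') (a := a) (b := b) p
        exact ⟨q⟩
      · obtain ⟨p⟩ := hT'.connected.preconnected j b
        obtain ⟨q, -⟩ := walk_inr (T := T) (a := a) (b := b) p
        have h : (glue T T' a b).Adj (Sum.inr b) (Sum.inl a) := ⟨rfl, rfl⟩
        have h2 : (glue T T' a b).Reachable (Sum.inr j) (Sum.inr b) := ⟨q⟩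
        exact h2.trans h.reachable
    intro x y
    exact (key x).trans (key y).symm
  rw [SimpleGraph.isTree_iff_connected_and_card]
  refine ⟨hconn, ?_⟩
  have h1 := hconn.card_vert_le_card_edgeSet_add_one
  have e1 := (SimpleGraph.isTree_iff_connected_and_card.1 hT).2
  have e2 := (SimpleGraph.isTree_iff_connected_and_card.1 hT').2
  let f : T.edgeSet ⊕ T'.edgeSet ⊕ Unit → (glue T T' a b).edgeSet := fun x =>
    match x with
    | Sum.inl e => ⟨e.1.map Sum.inl, by
        obtain ⟨e, he⟩ := e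
        induction e using Sym2.ind with
        | _ x y => exact he⟩
    | Sum.inr (Sum.inl e) => ⟨e.1.map Sum.inr, by
        obtain ⟨e, he⟩ := e
        induction e using Sym2.ind with
        | _ x y => exact he⟩
    | Sum.inr (Sum.inr _) => ⟨s(Sum.inl a, Sum.inr b), ⟨rfl, rfl⟩⟩
  have hf : Function.Surjective f := by
    rintro ⟨e, he⟩
    induction e using Sym2.ind with
    | _ x y =>
      rcases x with x | x <;> rcases y with y | y
      · exact ⟨Sum.inl ⟨s(x, y), he⟩, rfl⟩
      · obtain ⟨rfl, rfl⟩ := (he : x = a ∧ y = b)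
        exact ⟨Sum.inr (Sum.inr ()), rfl⟩
      · obtain ⟨rfl, rfl⟩ := (he : y = a ∧ x = b)
        exact ⟨Sum.inr (Sum.inr ()), Subtype.ext Sym2.eq_swap⟩
      · exact ⟨Sum.inr (Sum.inl ⟨s(x, y), he⟩), rfl⟩
  have h3 := Nat.card_le_card_of_surjective f hf
  rw [Nat.card_sum, Nat.card_sum] at h3
  rw [Nat.card_sum] at h1 ⊢
  simp only [Nat.card_unique] at h3
  omega

end Glue

/-! ### Tree decompositions of vertex subsets -/

variable {V : Type} [Fintype V] [DecidableEq V] {G : SimpleGraph V}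

/-- the subgraph induced by `S` has a tree decomposition with all bags of size at most `k` -/
def Bw (G : SimpleGraph V) (S : Finset V) (k : ℕ) : Prop :=
  ∃ (ι : Type) (_ : Fintype ι) (T : SimpleGraph ι) (bag : ι → Finset V),
    T.IsTree ∧ (∀ i, bag i ⊆ S) ∧ (∀ v ∈ S, ∃ i, v ∈ bag i) ∧
    (∀ u ∈ S, ∀ v ∈ S, G.Adj u v → ∃ i, u ∈ bag i ∧ v ∈ bag i) ∧
    (∀ v, ∀ i j, v ∈ bag i → v ∈ bag j → ∃ p : T.Walk i j, ∀ x ∈ p.support, v ∈ bag x) ∧
    ∀ i, (bag i).card ≤ k

lemma Bw.mono {S S' : Finset V} {k k' : ℕ} (h : Bw G S k) (hS : S' ⊆ S) (hk : k ≤ k') :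
    Bw G S' k' := by
  obtain ⟨ι, hι, T, bag, hT, hsub, hcov, hedge, hconn, hcard⟩ := h
  refine ⟨ι, hι, T, fun i => bag i ∩ S', hT, fun i => inter_subset_right, ?_, ?_, ?_, ?_⟩
  · intro v hv
    obtain ⟨i, hi⟩ := hcov v (hS hv)
    exact ⟨i, mem_inter.2 ⟨hi, hv⟩⟩
  · intro u hu v hv huv
    obtain ⟨i, hi, hi'⟩ := hedge u (hS hu) v (hS hv) huv
    exact ⟨i, mem_inter.2 ⟨hi, hu⟩, mem_inter.2 ⟨hi', hv⟩⟩
  · intro v i j hi hj
    rw [mem_inter] at hi hj
    obtain ⟨p, hp⟩ := hconn v i j hi.1 hj.1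
    exact ⟨p, fun x hx => mem_inter.2 ⟨hp x hx, hi.2⟩⟩
  · intro i
    exact (card_le_card inter_subset_left).trans ((hcard i).trans hk)

lemma Bw.add {S : Finset V} {k : ℕ} (h : Bw G S k) (X : Finset V) :
    Bw G (S ∪ X) (k + X.card) := by
  obtain ⟨ι, hι, T, bag, hT, hsub, hcov, hedge, hconn, hcard⟩ := h
  refine ⟨ι, hι, T, fun i => bag i ∪ X, hT, fun i => union_subset_union (hsub i) Subset.rfl,
    ?_, ?_, ?_, ?_⟩
  · intro v hv
    rcases mem_union.1 hv with h | h
    · obtain ⟨i, hi⟩ := hcov v h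
      exact ⟨i, mem_union_left _ hi⟩
    · obtain ⟨i⟩ := hT.connected.nonempty
      exact ⟨i, mem_union_right _ h⟩
  · intro u hu v hv huv
    by_cases h1 : u ∈ X
    · by_cases h2 : v ∈ X
      · obtain ⟨i⟩ := hT.connected.nonempty
        exact ⟨i, mem_union_right _ h1, mem_union_right _ h2⟩
      · obtain ⟨i, hi⟩ := hcov v ((mem_union.1 hv).resolve_right h2)
        exact ⟨i, mem_union_right _ h1, mem_union_left _ hi⟩
    · by_cases h2 : v ∈ X
      · obtain ⟨i, hi⟩ := hcov u ((mem_union.1 hu).resolve_right h1)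
        exact ⟨i, mem_union_left _ hi, mem_union_right _ h2⟩
      · obtain ⟨i, hi, hi'⟩ := hedge u ((mem_union.1 hu).resolve_right h1) v
          ((mem_union.1 hv).resolve_right h2) huv
        exact ⟨i, mem_union_left _ hi, mem_union_left _ hi'⟩
  · intro v i j hi hj
    by_cases h1 : v ∈ X
    · obtain ⟨p⟩ := hT.connected.preconnected i j
      exact ⟨p, fun x _ => mem_union_right _ h1⟩
    · obtain ⟨p, hp⟩ := hconn v i j ((mem_union.1 hi).resolve_right h1)
        ((mem_union.1 hj).resolve_right h1)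
      exact ⟨p, fun x hx => mem_union_left _ (hp x hx)⟩
  · intro i
    exact (card_union_le _ _).trans (Nat.add_le_add_right (hcard i) _)

lemma Bw.union {S S' : Finset V} {k : ℕ} (h : Bw G S k) (h' : Bw G S' k) (hd : Disjoint S S')
    (hn : ∀ u ∈ S, ∀ v ∈ S', ¬ G.Adj u v) : Bw G (S ∪ S') k := by
  obtain ⟨ι, hι, T, bag, hT, hsub, hcov, hedge, hconn, hcard⟩ := h
  obtain ⟨κ, hκ, T', bag', hT', hsub', hcov', hedge', hconn', hcard'⟩ := h'
  obtain ⟨a⟩ := hT.connected.nonempty
  obtain ⟨b⟩ := hT'.connected.nonempty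
  have hdis : ∀ v i j, v ∈ bag i → v ∈ bag' j → False := fun v i j h1 h2 =>
    (Finset.disjoint_left.1 hd) (hsub i h1) (hsub' j h2)
  refine ⟨ι ⊕ κ, inferInstance, glue T T' a b, Sum.elim bag bag', glue_isTree hT hT',
    ?_, ?_, ?_, ?_, ?_⟩
  · rintro (i | i)
    · exact (hsub i).trans subset_union_left
    · exact (hsub' i).trans subset_union_right
  · intro v hv
    rcases mem_union.1 hv with h | h
    · obtain ⟨i, hi⟩ := hcov v h
      exact ⟨Sum.inl i, hi⟩
    · obtain ⟨i, hi⟩ := hcov' v h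
      exact ⟨Sum.inr i, hi⟩
  · intro u hu v hv huv
    rcases mem_union.1 hu with h1 | h1 <;> rcases mem_union.1 hv with h2 | h2
    · obtain ⟨i, hi⟩ := hedge u h1 v h2 huv
      exact ⟨Sum.inl i, hi⟩
    · exact absurd huv (hn u h1 v h2)
    · exact absurd huv.symm (hn v h2 u h1)
    · obtain ⟨i, hi⟩ := hedge' u h1 v h2 huv
      exact ⟨Sum.inr i, hi⟩
  · rintro v (i | i) (j | j) hi hj
    · obtain ⟨p, hp⟩ := hconn v i j hi hj
      obtain ⟨q, hq⟩ := walk_inl (T' := T') (a := a) (b := b) p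
      refine ⟨q, fun x hx => ?_⟩
      obtain ⟨y, hy, rfl⟩ := hq x hx
      exact hp y hy
    · exact (hdis v i j hi hj).elim
    · exact (hdis v j i hj hi).elim
    · obtain ⟨p, hp⟩ := hconn' v i j hi hj
      obtain ⟨q, hq⟩ := walk_inr (T := T) (a := a) (b := b) p
      refine ⟨q, fun x hx => ?_⟩
      obtain ⟨y, hy, rfl⟩ := hq x hx
      exact hp y hy
  · rintro (i | i)
    · exact hcard i
    · exact hcard' i

lemma bw_card (S : Finset V) : Bw G S S.card := by
  refine ⟨Unit, inferInstance, ⊥, fun _ => S, ?_, fun _ => Subset.rfl, fun v hv => ⟨(), hv⟩,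
    fun u hu v hv _ => ⟨(), hu, hv⟩, ?_, fun _ => le_rfl⟩
  · rw [SimpleGraph.isTree_iff_connected_and_card]
    refine ⟨?_, by simp⟩
    refine SimpleGraph.Connected.mk ?_
    intro x y
    exact SimpleGraph.Reachable.refl _
  · intro v i j hi _
    exact ⟨Walk.nil, fun x _ => hi⟩

/-! ### Connected sets and closed sets -/

/-- any two vertices of `K` are joined by a walk in `K` -/
def Conn (G : SimpleGraph V) (K : Finset V) : Prop :=
  ∀ u ∈ K, ∀ v ∈ K, ∃ p : G.Walk u v, ∀ x ∈ p.support, x ∈ K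

/-- no edge leaves `L` inside `D` -/
def Closed (G : SimpleGraph V) (D L : Finset V) : Prop :=
  L ⊆ D ∧ ∀ u ∈ L, ∀ v ∈ D, G.Adj u v → v ∈ L

open Classical in
/-- the component of `x` in the subgraph induced by `D` -/
noncomputable def comp (G : SimpleGraph V) (D : Finset V) (x : V) : Finset V :=
  D.filter (fun y => ∃ p : G.Walk x y, ∀ z ∈ p.support, z ∈ D)

lemma mem_comp {D : Finset V} {x y : V} :
    y ∈ comp G D x ↔ y ∈ D ∧ ∃ p : G.Walk x y, ∀ z ∈ p.support, z ∈ D := by
  classical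
  unfold comp
  rw [mem_filter]

lemma mem_comp_self {D : Finset V} {x : V} (hx : x ∈ D) : x ∈ comp G D x := by
  rw [mem_comp]
  exact ⟨hx, Walk.nil, by simpa using hx⟩

lemma closed_comp (D : Finset V) (x : V) : Closed G D (comp G D x) := by
  refine ⟨fun y hy => (mem_comp.1 hy).1, ?_⟩
  intro u hu v hv huv
  rw [mem_comp] at hu ⊢
  obtain ⟨hu, p, hp⟩ := hu
  refine ⟨hv, p.append (Walk.cons huv Walk.nil), ?_⟩
  intro z hz
  rw [Walk.mem_support_append_iff] at hz
  rcases hz with hz | hz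
  · exact hp z hz
  · simp only [Walk.support_cons, Walk.support_nil, List.mem_cons, List.not_mem_nil,
      or_false] at hz
    rcases hz with rfl | rfl
    · exact hu
    · exact hv

lemma Closed.walk {D L : Finset V} (hL : Closed G D L) : ∀ {u v : V} (p : G.Walk u v),
    (∀ z ∈ p.support, z ∈ D) → u ∈ L → ∀ z ∈ p.support, z ∈ L
  | _, _, Walk.nil, _, hu, z, hz => by
    rw [Walk.support_nil, List.mem_singleton] at hz
    rw [hz]; exact hu
  | u, v, Walk.cons (v := c) h p, hp, hu, z, hz => by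
    have hc : c ∈ L := hL.2 u hu c (hp c (by simp)) h
    rw [Walk.support_cons, List.mem_cons] at hz
    rcases hz with rfl | hz
    · exact hu
    · exact hL.walk p (fun y hy => hp y (by simp [hy])) hc z hz

lemma comp_subset {D L : Finset V} (hL : Closed G D L) {x : V} (hx : x ∈ L) :
    comp G D x ⊆ L := by
  intro y hy
  rw [mem_comp] at hy
  obtain ⟨_, p, hp⟩ := hy
  exact hL.walk p hp hx y (Walk.end_mem_support p)

lemma conn_comp (D : Finset V) (x : V) : Conn G (comp G D x) := by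
  intro u hu v hv
  have hu' := hu
  have hv' := hv
  rw [mem_comp] at hu' hv'
  obtain ⟨hu1, p, hp⟩ := hu'
  obtain ⟨hv1, q, hq⟩ := hv'
  have hx : x ∈ D := hp x (Walk.start_mem_support p)
  have h1 : ∀ z ∈ (p.reverse.append q).support, z ∈ D := by
    intro z hz
    rw [Walk.mem_support_append_iff, Walk.support_reverse, List.mem_reverse] at hz
    rcases hz with hz | hz
    · exact hp z hz
    · exact hq z hz
  exact ⟨p.reverse.append q, (closed_comp D x).walk _ h1 hu⟩

lemma Closed.sdiff {D L L' : Finset V} (hL : Closed G D L) (hL' : Closed G D L') :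
    Closed G D (L \ L') := by
  refine ⟨sdiff_subset.trans hL.1, ?_⟩
  intro u hu v hv huv
  rw [mem_sdiff] at hu ⊢
  exact ⟨hL.2 u hu.1 v hv huv, fun h => hu.2 (hL'.2 v h u (hL.1 hu.1) huv.symm)⟩

lemma Closed.union {D L L' : Finset V} (hL : Closed G D L) (hL' : Closed G D L') :
    Closed G D (L ∪ L') := by
  refine ⟨union_subset hL.1 hL'.1, ?_⟩
  intro u hu v hv huv
  rw [mem_union] at hu ⊢
  rcases hu with hu | hu
  · exact Or.inl (hL.2 u hu v hv huv)
  · exact Or.inr (hL'.2 u hu v hv huv)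

lemma closed_self (D : Finset V) : Closed G D D :=
  ⟨Subset.rfl, fun _ _ _ hv _ => hv⟩

lemma closed_empty (D : Finset V) : Closed G D ∅ :=
  ⟨empty_subset _, fun u hu => absurd hu (notMem_empty u)⟩

/-- closed sets that are disjoint are not joined by edges -/
lemma Closed.nonadj {D L L' : Finset V} (hL : Closed G D L) (hL' : L' ⊆ D)
    (hd : Disjoint L L') : ∀ u ∈ L, ∀ v ∈ L', ¬ G.Adj u v :=
  fun u hu v hv huv => (Finset.disjoint_left.1 hd) (hL.2 u hu v (hL' hv) huv) hv

/-- a set of large treewidth has a component of large treewidth -/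
lemma exists_comp (k : ℕ) (D : Finset V) (h : ¬ Bw G D k) :
    ∃ K, K ⊆ D ∧ Conn G K ∧ Closed G D K ∧ ¬ Bw G K k := by
  induction hn : D.card using Nat.strong_induction_on generalizing D with
  | _ n ih =>
    have hne : D.Nonempty := by
      rw [nonempty_iff_ne_empty]
      rintro rfl
      exact h ((bw_card ∅).mono Subset.rfl (by simp))
    obtain ⟨x, hx⟩ := hne
    have hK := closed_comp (G := G) D x
    by_cases hb : Bw G (comp G D x) k
    · have h1 : ¬ Bw G (D \ comp G D x) k := by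
        intro h2
        apply h
        have h3 := hb.union h2 disjoint_sdiff (hK.nonadj sdiff_subset disjoint_sdiff)
        rwa [union_sdiff_of_subset hK.1] at h3
      have h2 : (D \ comp G D x).card < n := by
        rw [← hn]
        exact card_lt_card (sdiff_ssubset hK.1 ⟨x, mem_comp_self hx⟩)
      obtain ⟨K, hK1, hK2, hK3, hK4⟩ := ih _ h2 _ h1 rfl
      refine ⟨K, hK1.trans sdiff_subset, hK2, ⟨hK1.trans sdiff_subset, ?_⟩, hK4⟩
      intro u hu v hv huv
      apply hK3.2 u hu v _ huv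
      rw [mem_sdiff]
      refine ⟨hv, fun hv' => ?_⟩
      exact (mem_sdiff.1 (hK1 hu)).2 (hK.2 v hv' u (mem_sdiff.1 (hK1 hu)).1 huv.symm)
    · exact ⟨_, hK.1, conn_comp D x, hK, hb⟩

/-! ### Brambles -/

lemma Bw.bramble {S : Finset V} {k : ℕ} (h : Bw G S k) :
    ∃ F : Finset (Finset V), (∀ B ∈ F, B ⊆ S ∧ B.card ≤ k) ∧
      ∀ K : Finset V → Finset V, (∀ B ∈ F, K B ⊆ S \ B ∧ Conn G (K B)) →
        ∃ B ∈ F, ∃ B' ∈ F, Disjoint (K B) (K B') := by
  classical
  obtain ⟨ι, hι, T, bag, hT, hsub, hcov, hedge, hconn, hcard⟩ := h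
  refine ⟨univ.image bag, ?_, ?_⟩
  · intro B hB
    rw [mem_image] at hB
    obtain ⟨i, -, rfl⟩ := hB
    exact ⟨hsub i, hcard i⟩
  · intro K hK
    by_contra hcon
    push Not at hcon
    have hmem : ∀ i, bag i ∈ univ.image bag := fun i => mem_image_of_mem _ (mem_univ _)
    -- the subtree of `K i`
    have hstep : ∀ (K : Finset V), K ⊆ S → ∀ {u v : V} (p : G.Walk u v),
        (∀ x ∈ p.support, x ∈ K) → ∀ i j, u ∈ bag i → v ∈ bag j →
          ∃ q : T.Walk i j, ∀ x ∈ q.support, x ∈ {t | ∃ y ∈ K, y ∈ bag t} := by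
      intro K hKS u v p
      induction p with
      | nil =>
        intro hp i j hi hj
        obtain ⟨q, hq⟩ := hconn _ i j hi hj
        exact ⟨q, fun x hx => ⟨_, hp _ (by simp), hq x hx⟩⟩
      | @cons u c v hadj p ih =>
        intro hp i j hi hj
        have hu : u ∈ K := hp u (by simp)
        have hc : c ∈ K := hp c (by simp)
        obtain ⟨l, hl1, hl2⟩ := hedge u (hKS hu) c (hKS hc) hadj
        obtain ⟨q, hq⟩ := hconn _ i l hi hl1
        obtain ⟨q', hq'⟩ := ih (fun x hx => hp x (by simp [hx])) l j hl2 hj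
        refine ⟨q.append q', ?_⟩
        intro x hx
        rw [Walk.mem_support_append_iff] at hx
        rcases hx with hx | hx
        · exact ⟨u, hu, hq x hx⟩
        · exact hq' x hx
    have hconv : ∀ i : ι, PathConvex T {t | ∃ y ∈ K (bag i), y ∈ bag t} := by
      intro i
      apply pathConvex_of_walks hT
      rintro s t ⟨y, hy, hys⟩ ⟨z, hz, hzt⟩
      obtain ⟨h1, h2⟩ := hK _ (hmem i)
      obtain ⟨p, hp⟩ := h2 y hy z hz
      exact hstep _ (h1.trans sdiff_subset) p hp s t hys hzt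
    obtain ⟨r⟩ := hT.connected.nonempty
    obtain ⟨t, ht⟩ := helly hT (univ : Finset ι) ⟨r, mem_univ _⟩
      (fun i => {t | ∃ y ∈ K (bag i), y ∈ bag t}) (fun i _ => hconv i) (by
        intro i _ j _
        have h1 := hcon _ (hmem i) _ (hmem j)
        rw [Finset.not_disjoint_iff] at h1
        obtain ⟨y, hy1, hy2⟩ := h1
        obtain ⟨t, ht⟩ := hcov y ((hK _ (hmem i)).1.trans sdiff_subset hy1)
        exact ⟨t, ⟨y, hy1, ht⟩, ⟨y, hy2, ht⟩⟩)
    obtain ⟨y, hy, hyt⟩ := ht t (mem_univ _)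
    exact (mem_sdiff.1 ((hK _ (hmem t)).1 hy)).2 hyt

end Pool.Agent.W126.Split
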