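import Mathlib
import Pool.Agent.W126.SplitMain

/-!
Splitting a graph into two parts of linear treewidth: conversion to tree decompositions indexed by
`Fin m` with bags that are sets.
-/

set_option autoImplicit false
set_option linter.unusedSectionVars false

namespace Pool.Agent.W126.Split

open SimpleGraph Finset

variable {V : Type} [Fintype V] [DecidableEq V] {G : SimpleGraph V}

theorem td_of_bw {w : ℕ} (h : Bw G univ w) :
    ∃ m : ℕ, ∃ T : SimpleGraph (Fin m), ∃ bag : Fin m → Set V,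
      T.IsTree ∧ (∀ v, ∃ i, v ∈ bag i) ∧
      (∀ u v, G.Adj u v → ∃ i, u ∈ bag i ∧ v ∈ bag i) ∧
      (∀ v, (T.induce {i | v ∈ bag i}).Connected) ∧
      ∀ i, (bag i).ncard ≤ w := by
  obtain ⟨ι, hι, T, bag, hT, hsub, hcov, hedge, hconn, hcard⟩ := h
  let e : ι ≃ Fin (Fintype.card ι) := Fintype.equivFin ι
  let f : T.comap e.symm ≃g T := SimpleGraph.Iso.comap e.symm T
  refine ⟨Fintype.card ι, T.comap e.symm, fun i => (bag (e.symm i) : Set V),
    f.isTree_iff.2 hT, ?_, ?_, ?_, ?_⟩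
  · intro v
    obtain ⟨i, hi⟩ := hcov v (mem_univ _)
    exact ⟨e i, by simpa using hi⟩
  · intro u v huv
    obtain ⟨i, hi, hi'⟩ := hedge u (mem_univ _) v (mem_univ _) huv
    exact ⟨e i, by simpa using hi, by simpa using hi'⟩
  · intro v
    obtain ⟨i0, hi0⟩ := hcov v (mem_univ _)
    have : Nonempty ({i | v ∈ (bag (e.symm i) : Set V)} : Set (Fin (Fintype.card ι))) :=
      ⟨⟨e i0, by simpa using hi0⟩⟩
    refine SimpleGraph.Connected.mk ?_
    rintro ⟨i, hi⟩ ⟨j, hj⟩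
    obtain ⟨p, hp⟩ := hconn v (e.symm i) (e.symm j) hi hj
    have key : ∀ {a b : ι} (p : T.Walk a b), (∀ x ∈ p.support, v ∈ bag x) →
        ∀ (ha : e a ∈ {i | v ∈ (bag (e.symm i) : Set V)})
          (hb : e b ∈ {i | v ∈ (bag (e.symm i) : Set V)}),
          ((T.comap e.symm).induce {i | v ∈ (bag (e.symm i) : Set V)}).Reachable
            ⟨e a, ha⟩ ⟨e b, hb⟩ := by
      intro a b p
      induction p with
      | nil => intro _ _ _; exact Reachable.refl _
      | @cons a c b hadj p ih =>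
        intro hp ha hb
        have hc : e c ∈ {i | v ∈ (bag (e.symm i) : Set V)} := by
          have := hp c (by simp)
          simpa using this
        have h1 : ((T.comap e.symm).induce {i | v ∈ (bag (e.symm i) : Set V)}).Adj
            ⟨e a, ha⟩ ⟨e c, hc⟩ := by
          simpa using hadj
        exact h1.reachable.trans (ih (fun x hx => hp x (by simp [hx])) hc hb)
    have h2 := key p hp (by simpa using hi) (by simpa using hj)
    simpa using h2
  · intro i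
    rw [Set.ncard_coe_finset]
    exact hcard _

theorem bw_of_td {s : ℕ} (A : Set V) (S : Finset V) (hS : (S : Set V) = A)
    (h : ∃ m : ℕ, ∃ T : SimpleGraph (Fin m), ∃ bag : Fin m → Set ↥A,
      T.IsTree ∧ (∀ v, ∃ i, v ∈ bag i) ∧
      (∀ u v, (G.induce A).Adj u v → ∃ i, u ∈ bag i ∧ v ∈ bag i) ∧
      (∀ v, (T.induce {i | v ∈ bag i}).Connected) ∧
      ∀ i, (bag i).ncard ≤ s) : Bw G S s := by
  classical
  obtain ⟨m, T, bag, hT, hcov, hedge, hconn, hcard⟩ := h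
  have hSA : ∀ v, v ∈ S ↔ v ∈ A := fun v => by rw [← hS, mem_coe]
  have hmem : ∀ i v, v ∈ (Subtype.val '' (bag i)).toFinset ↔ ∃ h : v ∈ A, ⟨v, h⟩ ∈ bag i := by
    intro i v
    rw [Set.mem_toFinset]
    constructor
    · rintro ⟨⟨x, hx⟩, h, rfl⟩
      exact ⟨hx, h⟩
    · rintro ⟨h1, h2⟩
      exact ⟨⟨v, h1⟩, h2, rfl⟩
  refine ⟨Fin m, inferInstance, T, fun i => (Subtype.val '' (bag i)).toFinset, hT,
    ?_, ?_, ?_, ?_, ?_⟩
  · intro i v hv
    obtain ⟨h, -⟩ := (hmem i v).1 hv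
    exact (hSA v).2 h
  · intro v hv
    obtain ⟨i, hi⟩ := hcov ⟨v, (hSA v).1 hv⟩
    exact ⟨i, (hmem i v).2 ⟨_, hi⟩⟩
  · intro u hu v hv huv
    obtain ⟨i, hi, hi'⟩ := hedge ⟨u, (hSA u).1 hu⟩ ⟨v, (hSA v).1 hv⟩ huv
    exact ⟨i, (hmem i u).2 ⟨_, hi⟩, (hmem i v).2 ⟨_, hi'⟩⟩
  · intro v i j hi hj
    obtain ⟨h1, h2⟩ := (hmem i v).1 hi
    obtain ⟨_, h3⟩ := (hmem j v).1 hj
    obtain ⟨p⟩ := (hconn ⟨v, h1⟩).preconnected ⟨i, h2⟩ ⟨j, h3⟩
    obtain ⟨q, hq⟩ := Pool.Agent.W126.TAC.walk_of_induce p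
    exact ⟨q, fun x hx => (hmem x v).2 ⟨h1, hq x hx⟩⟩
  · intro i
    have h1 : ((Subtype.val '' (bag i)).toFinset).card = (bag i).ncard := by
      rw [← Set.ncard_eq_toFinset_card', Set.ncard_image_of_injective _ Subtype.val_injective]
    rw [h1]
    exact hcard i

theorem not_bw_zero {S : Finset V} (hS : S.Nonempty) : ¬ Bw G S 0 := by
  rintro ⟨ι, hι, T, bag, hT, hsub, hcov, hedge, hconn, hcard⟩
  obtain ⟨v, hv⟩ := hS
  obtain ⟨i, hi⟩ := hcov v hv
  have h1 := hcard i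
  have h2 : 0 < (bag i).card := card_pos.2 ⟨v, hi⟩
  omega

end Pool.Agent.W126.Split
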