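import Mathlib
import Pool.Agent.W142.ES.Prime
import Pool.Agent.H295R3.Hoheisel

set_option autoImplicit false

/-! Primes of a residue class in the intervals `(y, y + y / (log y)^3]`. The second difference method of
helper142 (`Pool.Agent.W142.ES.Prime`), with Hoheisel's theorem for the main term. -/

open Finset Filter Topology

namespace Pool.Agent.W126.PrimeShort

open Pool.Agent.H410R2 (psiLogAP psiLog1 BVAP)
open Pool.Agent.W142.ES (bvap psiLogAP_max psiLog1_max secdiff secdiff1 secdiff1_ge secdiff_le)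

/-- one modulus -/
theorem disc (q : ℕ) (hq : 0 < q) (a : ℕ) (ha : a.Coprime q) (A : ℕ) : ∀ᶠ X : ℝ in atTop,
    |psiLogAP X q a - psiLog1 X / (q.totient : ℝ)| ≤ X / (Real.log X) ^ A := by
  obtain ⟨X0, h⟩ := bvap q hq 1 le_rfl (1 / 4) (by norm_num) A
  filter_upwards [eventually_ge_atTop X0, eventually_ge_atTop (1 : ℝ)] with X hX hX1
  have h1 := h X hX (fun _ => a)
  refine le_trans ?_ h1
  have hmem : 1 ∈ (Icc 1 ⌊X ^ ((1 : ℝ) / 2 - 1 / 4)⌋₊).filter
      (fun n => Squarefree n ∧ a.Coprime (q * n)) := by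
    rw [mem_filter, mem_Icc]
    refine ⟨⟨le_rfl, ?_⟩, squarefree_one, by rwa [mul_one]⟩
    apply Nat.le_floor
    rw [Nat.cast_one]
    exact Real.one_le_rpow hX1 (by norm_num)
  have h2 := Finset.single_le_sum (f := fun n : ℕ => (1 : ℝ) ^ n.primeFactors.card *
        |psiLogAP X (q * n) a - psiLog1 X / (Nat.totient (q * n) : ℝ)|)
    (fun n _ => by positivity) hmem
  simp only [one_pow, one_mul, mul_one] at h2
  refine h2.trans (le_of_eq ?_)
  apply Finset.sum_congr rfl
  intro n _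
  rw [one_pow, one_mul]

/-- a lower bound for `ψ(b) - ψ(a)` -/
theorem psi_diff : ∃ δ η : ℝ, 0 < δ ∧ δ < 1 ∧ 0 < η ∧ ∃ x₀ : ℝ, 3 ≤ x₀ ∧ ∀ a b : ℝ, x₀ ≤ a → b ≤ 2 * a →
    a ^ (1 - δ) + 3 ≤ b - a → η * (b - a) ≤ Chebyshev.psi b - Chebyshev.psi a := by
  obtain ⟨δ, η, hδ, hδ1, hη, X₀, hX₀, h⟩ := Pool.Agent.H295R3.D.hoheisel
  refine ⟨δ, η / 4, hδ, hδ1, by positivity, max 3 (X₀ : ℝ), le_max_left _ _, ?_⟩
  intro a b ha hb hab
  have ha3 : 3 ≤ a := (le_max_left _ _).trans ha
  have haX : (X₀ : ℝ) ≤ a := (le_max_right _ _).trans ha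
  have ha0 : 0 < a := by linarith
  have hpow : 0 < a ^ (1 - δ) := Real.rpow_pos_of_pos ha0 _
  have hb0 : 0 < b := by linarith
  set X := ⌊a⌋₊ with hX
  set Z := ⌊b⌋₊ with hZ
  have hXa : (X : ℝ) ≤ a := Nat.floor_le ha0.le
  have hXa' : a < X + 1 := Nat.lt_floor_add_one a
  have hZb : (Z : ℝ) ≤ b := Nat.floor_le hb0.le
  have hZb' : b < Z + 1 := Nat.lt_floor_add_one b
  have hXZ : X ≤ Z := Nat.floor_le_floor (by linarith)
  obtain ⟨Y, hY⟩ : ∃ Y, Z = X + Y := ⟨Z - X, by omega⟩
  have hYr : (Z : ℝ) = X + Y := by rw [hY]; push_cast; ring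
  have hY1 : b - a - 1 < Y := by linarith
  have hX3 : 3 ≤ X := Nat.le_floor (by exact_mod_cast ha3)
  -- shrink the interval to one of length at most X
  set Y' := min Y X with hY'
  have hXr3 : (3 : ℝ) ≤ X := by exact_mod_cast hX3
  have hY'2 : (b - a) / 2 ≤ (Y' : ℝ) := by
    rw [hY', Nat.cast_min, le_min_iff]
    constructor <;> linarith
  have hcount := h X Y' (Nat.le_floor haX) (by
    have h1 : (X : ℝ) ^ (1 - δ) ≤ a ^ (1 - δ) := Real.rpow_le_rpow (by positivity) hXa (by linarith)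
    rw [hY', Nat.cast_min, le_min_iff]
    constructor
    · linarith
    · calc (X : ℝ) ^ (1 - δ) ≤ (X : ℝ) ^ (1 : ℝ) :=
            Real.rpow_le_rpow_of_exponent_le (by linarith) (by linarith)
        _ = X := Real.rpow_one _) (min_le_right _ _)
  have e1 : Chebyshev.psi b - Chebyshev.psi a = ∑ n ∈ Ioc X Z, ArithmeticFunction.vonMangoldt n := by
    unfold Chebyshev.psi
    have h9 : Ioc 0 ⌊b⌋₊ = Ioc 0 X ∪ Ioc X Z := by
      ext k
      rw [mem_union, mem_Ioc, mem_Ioc, mem_Ioc]
      omega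
    have h10 : Disjoint (Ioc 0 X) (Ioc X Z) := by
      rw [Finset.disjoint_left]
      intro k hk hk'
      rw [mem_Ioc] at hk hk'
      omega
    rw [h9, Finset.sum_union h10]
    ring
  rw [e1]
  have hlX : 0 < Real.log X := Real.log_pos (by linarith)
  have h2 : (((Ioc X (X + Y')).filter Nat.Prime).card : ℝ) * Real.log X ≤
      ∑ n ∈ Ioc X Z, ArithmeticFunction.vonMangoldt n := by
    have h3 : ∑ n ∈ (Ioc X (X + Y')).filter Nat.Prime, Real.log X ≤
        ∑ n ∈ (Ioc X (X + Y')).filter Nat.Prime, ArithmeticFunction.vonMangoldt n := by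
      apply Finset.sum_le_sum
      intro n hn
      rw [mem_filter, mem_Ioc] at hn
      rw [ArithmeticFunction.vonMangoldt_apply_prime hn.2]
      exact Real.log_le_log (by linarith) (by exact_mod_cast hn.1.1.le)
    rw [Finset.sum_const, nsmul_eq_mul] at h3
    refine h3.trans ?_
    apply Finset.sum_le_sum_of_subset_of_nonneg
    · intro n hn
      rw [mem_filter, mem_Ioc] at hn
      rw [mem_Ioc]
      have : Y' ≤ Y := min_le_left _ _
      omega
    · intro n _ _
      exact ArithmeticFunction.vonMangoldt_nonneg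
  refine le_trans ?_ h2
  calc η / 4 * (b - a) ≤ η * Y' / Real.log X * Real.log X := by
        rw [div_mul_cancel₀ _ hlX.ne']
        have := mul_le_mul_of_nonneg_left hY'2 hη.le
        have h5 : 0 ≤ η * (b - a) := mul_nonneg hη.le (by linarith)
        linarith
    _ ≤ _ := mul_le_mul_of_nonneg_right hcount hlX.le

theorem exists_prime_short (q : ℕ) (hq : 0 < q) (a : ℕ) (ha : a.Coprime q) :
    ∀ᶠ y : ℝ in atTop, ∃ p : ℕ, p.Prime ∧ p ≡ a [MOD q] ∧ y < p ∧
      (p : ℝ) ≤ y + y / (Real.log y) ^ 3 := by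
  obtain ⟨δ, η, hδ, hδ1, hη, x₀, hx₀3, hpsi⟩ := psi_diff
  obtain ⟨X0, hD⟩ := eventually_atTop.1 (disc q hq a ha 10)
  have hφ0 : (0 : ℝ) < q.totient := by exact_mod_cast Nat.totient_pos.2 hq
  have e1 : ∀ᶠ x : ℝ in atTop, 10 + 200 * (q.totient : ℝ) / η ≤ Real.log x :=
    Real.tendsto_log_atTop.eventually_ge_atTop _
  have e3 : ∀ᶠ x : ℝ in atTop, 96 / η * (q.totient : ℝ) * (Real.log x) ^ 5 ≤ Real.sqrt x := by
    have h := (isLittleO_log_rpow_rpow_atTop (5 : ℝ) (show (0 : ℝ) < 1 / 2 by norm_num)).def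
      (show (0 : ℝ) < 1 / (96 / η * (q.totient : ℝ)) by positivity)
    filter_upwards [h, eventually_ge_atTop (1 : ℝ)] with x h2 h3
    rw [Real.norm_of_nonneg (Real.rpow_nonneg (Real.log_nonneg h3) _),
      Real.norm_of_nonneg (Real.rpow_nonneg (by linarith) _), ← Real.sqrt_eq_rpow] at h2
    have h4 : Real.log x ^ (5 : ℝ) = Real.log x ^ (5 : ℕ) := by
      rw [← Real.rpow_natCast]; norm_num
    rw [h4] at h2
    calc 96 / η * (q.totient : ℝ) * (Real.log x) ^ 5 ≤
        96 / η * (q.totient : ℝ) * (1 / (96 / η * (q.totient : ℝ)) * Real.sqrt x) := by gcongr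
      _ = Real.sqrt x := by field_simp
  have e4 : ∀ᶠ x : ℝ in atTop, (3 * x) ^ (1 - δ) + 3 ≤ x / (Real.log x) ^ 4 := by
    have h := (isLittleO_log_rpow_rpow_atTop (4 : ℝ) (show (0 : ℝ) < δ / 2 by linarith)).def
      (show (0 : ℝ) < 1 by norm_num)
    have h2 := (tendsto_rpow_atTop (show (0 : ℝ) < δ / 2 by linarith)).eventually_ge_atTop (3 + 3)
    filter_upwards [h, h2, eventually_ge_atTop (3 : ℝ), Real.tendsto_log_atTop.eventually_ge_atTop 1] with
      x h3 h4 h5 h6
    have hx0 : 0 < x := by linarith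
    rw [one_mul, Real.norm_of_nonneg (Real.rpow_nonneg (Real.log_nonneg (by linarith)) _),
      Real.norm_of_nonneg (Real.rpow_nonneg (by linarith) _)] at h3
    have h7 : Real.log x ^ (4 : ℝ) = Real.log x ^ (4 : ℕ) := by
      rw [← Real.rpow_natCast]; norm_num
    rw [h7] at h3
    rw [le_div_iff₀ (by positivity)]
    have h8 : (3 * x) ^ (1 - δ) ≤ 3 * x ^ (1 - δ) := by
      rw [Real.mul_rpow (by norm_num) hx0.le]
      apply mul_le_mul_of_nonneg_right _ (Real.rpow_nonneg hx0.le _)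
      calc (3 : ℝ) ^ (1 - δ) ≤ (3 : ℝ) ^ (1 : ℝ) :=
            Real.rpow_le_rpow_of_exponent_le (by norm_num) (by linarith)
        _ = 3 := Real.rpow_one _
    have h9 : (1 : ℝ) ≤ x ^ (1 - δ) := Real.one_le_rpow (by linarith) (by linarith)
    calc ((3 * x) ^ (1 - δ) + 3) * Real.log x ^ 4 ≤ ((3 + 3) * x ^ (1 - δ)) * x ^ (δ / 2) := by
          apply mul_le_mul _ h3 (by positivity) (by positivity)
          linarith
      _ ≤ (x ^ (δ / 2) * x ^ (1 - δ)) * x ^ (δ / 2) := by gcongr
      _ = x := by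
        rw [← Real.rpow_add hx0, ← Real.rpow_add hx0]
        rw [show δ / 2 + (1 - δ) + δ / 2 = 1 by ring, Real.rpow_one]
  filter_upwards [e1, e3, e4, eventually_ge_atTop X0, eventually_ge_atTop x₀] with x h1 h3 h4 hxX0 hxx0
  by_contra hcon
  push Not at hcon
  have hx3 : 3 ≤ x := hx₀3.trans hxx0
  have hx0 : 0 < x := by linarith
  set l := Real.log x with hl
  have hqe : 0 < 200 * (q.totient : ℝ) / η := by positivity
  have hl10 : 10 ≤ l := by linarith
  have hl0 : 0 < l := by linarith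
  set v : ℝ := 1 / l ^ 4 with hv
  have hv0 : 0 < v := by positivity
  have hl4 : (10 : ℝ) ^ 4 ≤ l ^ 4 := pow_le_pow_left₀ (by norm_num) hl10 4
  have hv2 : v ≤ 1 / 8 := by
    rw [hv]
    apply one_div_le_one_div_of_le (by norm_num)
    linarith
  -- the interval
  have hexp : Real.exp (2 * v) ≤ 1 + 4 * v := by
    have h4 := Real.abs_exp_sub_one_sub_id_le (show |2 * v| ≤ 1 by
      rw [abs_of_pos (by positivity)]; linarith)
    have h5 := (abs_le.1 h4).2
    nlinarith
  have hint : Real.exp (2 * v) * x ≤ x + x / l ^ 3 := by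
    have h5 : 4 * v ≤ 1 / l ^ 3 := by
      rw [hv, mul_one_div, div_le_div_iff₀ (by positivity) (by positivity)]
      calc 4 * l ^ 3 ≤ l * l ^ 3 := by gcongr; linarith
        _ = 1 * l ^ 4 := by ring
    calc Real.exp (2 * v) * x ≤ (1 + 4 * v) * x := by gcongr
      _ = x + (4 * v) * x := by ring
      _ ≤ x + (1 / l ^ 3) * x := by gcongr
      _ = _ := by ring
  have hno : ∀ p : ℕ, p.Prime → p ≡ a [MOD q] → x < p → ¬ (p : ℝ) ≤ Real.exp (2 * v) * x := by
    intro p hp hpa hxp hle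
    have h4 := hcon p hp hpa hxp
    linarith
  set X2 := Real.exp (2 * v) * x with hX2
  set M := ⌊X2⌋₊ with hM
  have hup := secdiff_le x v (by linarith) hv0.le q a hno
  rw [← hX2, ← hM] at hup
  have hlow := secdiff1_ge x v hx0 hv0.le M (le_of_eq hM.symm)
  have hs1 := secdiff x v hx0 hv0.le M (le_of_eq hM.symm) q a
  have hs2 := secdiff1 x v hx0 hv0.le M (le_of_eq hM.symm)
  rw [← hs1] at hup
  rw [← hs2] at hlow
  have hX28 : X2 ≤ 2 * x := by
    rw [hX2]
    have : (1 : ℝ) + 4 * v ≤ 2 := by linarith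
    exact mul_le_mul_of_nonneg_right (hexp.trans this) hx0.le
  have hDk : ∀ k : ℝ, 0 ≤ k → k ≤ 2 → |psiLogAP (Real.exp (k * v) * x) q a -
      psiLog1 (Real.exp (k * v) * x) / (q.totient : ℝ)| ≤ 2 * x / l ^ 10 := by
    intro k hk0 hk2
    have h4 : 1 ≤ Real.exp (k * v) := Real.one_le_exp (by positivity)
    have h5 : x ≤ Real.exp (k * v) * x := by nlinarith
    have h6 : Real.exp (k * v) * x ≤ 2 * x := by
      refine le_trans ?_ hX28
      rw [hX2]
      apply mul_le_mul_of_nonneg_right _ hx0.le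
      apply Real.exp_le_exp.2
      exact mul_le_mul_of_nonneg_right hk2 hv0.le
    refine (hD _ (hxX0.trans h5)).trans ?_
    apply div_le_div₀ (by positivity) h6 (by positivity)
    exact pow_le_pow_left₀ hl0.le (Real.log_le_log hx0 h5) 10
  have hD2 := hDk 2 (by norm_num) le_rfl
  have hD1 := hDk 1 (by norm_num) (by norm_num)
  have hD0 := hDk 0 le_rfl (by norm_num)
  rw [abs_le] at hD2 hD1 hD0
  rw [← hX2] at hD2
  -- the main term
  have hdiff : v * x ≤ Real.exp (3 * v / 2) * x - Real.exp (v / 2) * x := by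
    have h4 : Real.exp (3 * v / 2) = Real.exp (v / 2) * Real.exp v := by
      rw [← Real.exp_add]; congr 1; ring
    have h5 := Real.add_one_le_exp v
    have h6 : 1 ≤ Real.exp (v / 2) := Real.one_le_exp (by positivity)
    have h7 : v ≤ Real.exp (3 * v / 2) - Real.exp (v / 2) := by
      rw [h4]; nlinarith
    have h8 := mul_le_mul_of_nonneg_right h7 hx0.le
    rwa [sub_mul] at h8
  have hexp2 : Real.exp (v / 2) ≤ 3 := by
    calc Real.exp (v / 2) ≤ Real.exp (2 * v) := Real.exp_le_exp.2 (by linarith)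
      _ ≤ 3 := by linarith
  have hexp3 : Real.exp (3 * v / 2) ≤ 2 := by
    calc Real.exp (3 * v / 2) ≤ Real.exp (2 * v) := Real.exp_le_exp.2 (by linarith)
      _ ≤ 2 := by linarith
  have hone : 1 ≤ Real.exp (v / 2) := Real.one_le_exp (by positivity)
  have hmain := hpsi (Real.exp (v / 2) * x) (Real.exp (3 * v / 2) * x)
    (by nlinarith) (by nlinarith) (by
      refine le_trans ?_ hdiff
      have h5 : v * x = x / l ^ 4 := by rw [hv]; ring
      rw [h5]
      refine le_trans ?_ h4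
      have h6 : (Real.exp (v / 2) * x) ^ (1 - δ) ≤ (3 * x) ^ (1 - δ) := by
        apply Real.rpow_le_rpow (by positivity) _ (by linarith)
        exact mul_le_mul_of_nonneg_right hexp2 hx0.le
      linarith)
  have hmain2 : η * (v * x) ≤ Chebyshev.psi (Real.exp (3 * v / 2) * x) -
      Chebyshev.psi (Real.exp (v / 2) * x) :=
    (mul_le_mul_of_nonneg_left hdiff hη.le).trans hmain
  have hT1 : η * v ^ 2 * x / 2 ≤ psiLog1 X2 - 2 * psiLog1 (Real.exp (1 * v) * x) +
      psiLog1 (Real.exp (0 * v) * x) := by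
    refine le_trans ?_ hlow
    calc η * v ^ 2 * x / 2 = v / 2 * (η * (v * x)) := by ring
      _ ≤ _ := mul_le_mul_of_nonneg_left hmain2 (by positivity)
  have hT1' : η * v ^ 2 * x / 2 / q.totient ≤ psiLog1 X2 / q.totient -
      2 * (psiLog1 (Real.exp (1 * v) * x) / q.totient) + psiLog1 (Real.exp (0 * v) * x) / q.totient := by
    have h4 := div_le_div_of_nonneg_right hT1 hφ0.le
    refine h4.trans (le_of_eq ?_)
    ring
  have hfin : η * v ^ 2 * x / 2 / q.totient ≤ 8 * x / l ^ 10 + v * (2 * Real.sqrt X2 * Real.log X2) := by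
    have e12 : 8 * x / l ^ 10 = 4 * (2 * x / l ^ 10) := by ring
    rw [e12]
    linarith
  -- contradiction
  have hA : 8 * x / l ^ 10 < η * v ^ 2 * x / 4 / q.totient := by
    have h5 : 200 * (q.totient : ℝ) < l * η := by
      have h6 : 200 * (q.totient : ℝ) / η < l := by linarith
      rwa [div_lt_iff₀ hη] at h6
    rw [hv, div_div, div_lt_div_iff₀ (by positivity) (by positivity)]
    have e5 : η * (1 / l ^ 4) ^ 2 * x * l ^ 10 = η * x * l ^ 2 := by
      field_simp
    rw [e5]
    have h6 : η * l * x ≤ η * x * l ^ 2 := by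
      have : 0 ≤ η * x * l := by positivity
      nlinarith
    nlinarith
  have hB : v * (2 * Real.sqrt X2 * Real.log X2) ≤ η * v ^ 2 * x / 4 / q.totient := by
    have h4 : Real.sqrt X2 ≤ 2 * Real.sqrt x := by
      calc Real.sqrt X2 ≤ Real.sqrt (4 * x) := Real.sqrt_le_sqrt (by linarith)
        _ = 2 * Real.sqrt x := by
          rw [Real.sqrt_mul (by norm_num), show (4 : ℝ) = 2 ^ 2 by norm_num, Real.sqrt_sq (by norm_num)]
    have h5 : Real.log X2 ≤ 2 * l := by
      have h6 : X2 ≤ x * x := by nlinarith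
      have hX20 : 0 < X2 := by positivity
      have h7 := Real.log_le_log hX20 h6
      rw [Real.log_mul hx0.ne' hx0.ne'] at h7
      linarith
    have h6 : 0 ≤ Real.log X2 := Real.log_nonneg (by
      have : 1 ≤ Real.exp (2 * v) := Real.one_le_exp (by positivity)
      nlinarith)
    have h7 : 2 * Real.sqrt X2 * Real.log X2 ≤ 8 * l * Real.sqrt x := by
      calc 2 * Real.sqrt X2 * Real.log X2 ≤ 2 * (2 * Real.sqrt x) * (2 * l) := by gcongr
        _ = _ := by ring
    have hsq : Real.sqrt x * Real.sqrt x = x := Real.mul_self_sqrt hx0.le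
    have hsx : 0 ≤ Real.sqrt x := Real.sqrt_nonneg x
    have h9 : 8 * l * Real.sqrt x ≤ η * v * x / 4 / q.totient := by
      rw [hv, div_div, le_div_iff₀ (by positivity)]
      have h10 : η * (1 / l ^ 4) * x = η * x / l ^ 4 := by ring
      rw [h10, le_div_iff₀ (by positivity)]
      have h11 : 96 / η * (q.totient : ℝ) * l ^ 5 * η = 96 * q.totient * l ^ 5 := by
        field_simp
      calc 8 * l * Real.sqrt x * (4 * q.totient) * l ^ 4 = (32 * q.totient * l ^ 5) * Real.sqrt x := by ring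
        _ ≤ (Real.sqrt x * η) * Real.sqrt x := by
          apply mul_le_mul_of_nonneg_right _ hsx
          have h12 := mul_le_mul_of_nonneg_right h3 hη.le
          rw [h11] at h12
          have : 0 ≤ (q.totient : ℝ) * l ^ 5 := by positivity
          linarith
        _ = η * (Real.sqrt x * Real.sqrt x) := by ring
        _ = η * x := by rw [hsq]
    calc v * (2 * Real.sqrt X2 * Real.log X2) ≤ v * (η * v * x / 4 / q.totient) :=
          mul_le_mul_of_nonneg_left (h7.trans h9) hv0.le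
      _ = _ := by ring
  have hC2 : η * v ^ 2 * x / 2 / q.totient = η * v ^ 2 * x / 4 / q.totient + η * v ^ 2 * x / 4 / q.totient := by
    ring
  linarith

end Pool.Agent.W126.PrimeShort
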