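import Mathlib
import Pool.Agent.H362R2.RQ.Place
import Pool.Agent.W126.PrimeShort

set_option autoImplicit false

/-! Windows with primes near prescribed positions, with a placing error which may be as small as a fixed
multiple of `log X` in a window of the record size (after `Pool.Agent.W142.ES.Place`). -/

open Finset Filter

namespace Pool.Agent.W126.Place3

open Pool.Agent.H378R2 (yy)
open Pool.Agent.H256R2.SC (ff)
open Pool.Agent.H312R2.RG.C3 (ff_tendsto)
open Pool.Agent.H362R2.RQ (StRQ cmod fib_cmod dvd_of_primes)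
open Pool.Agent.W126.PrimeShort (exists_prime_short)

theorem ff_le : ∀ᶠ X : ℝ in atTop, ff X ≤ Real.log X * (Real.log (Real.log X)) ^ 2 := by
  have t1 := Real.tendsto_log_atTop
  have t2 : Tendsto (fun X : ℝ => Real.log (Real.log X)) atTop atTop := t1.comp t1
  have t3 : Tendsto (fun X : ℝ => Real.log (Real.log (Real.log X))) atTop atTop := t1.comp t2
  have t4 : Tendsto (fun X : ℝ => Real.log (Real.log (Real.log (Real.log X)))) atTop atTop := t1.comp t3
  filter_upwards [t1.eventually_gt_atTop 0, t2.eventually_gt_atTop 0, t3.eventually_ge_atTop 1,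
    t4.eventually_gt_atTop 0] with X h1 h2 h3 h4
  unfold ff
  have h30 : 0 < Real.log (Real.log (Real.log X)) := by linarith
  rw [div_le_iff₀ (by positivity)]
  have h5 : Real.log (Real.log (Real.log (Real.log X))) ≤ Real.log (Real.log (Real.log X)) ^ 2 := by
    have h6 : Real.log (Real.log (Real.log (Real.log X))) ≤ Real.log (Real.log (Real.log X)) :=
      Real.log_le_self h30.le
    nlinarith
  exact mul_le_mul_of_nonneg_left h5 (by positivity)

/-- growth facts -/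
theorem ev_place (K : ℕ) (Y0 c τ0 : ℝ) (hc : 0 < c) (hτ0 : 0 < τ0) : ∀ᶠ X : ℝ in atTop,
    2 * |Y0| + 80 ≤ Real.log X ∧
    1 ≤ Real.log (Real.log X) ∧ 2 * Real.log 2 ≤ Real.log (Real.log X) ∧
    8 * c * ff X * K ≤ τ0 * Real.log X * (Real.log (Real.log X)) ^ 3 := by
  have hLL : Tendsto (fun X : ℝ => Real.log (Real.log X)) atTop atTop :=
    Real.tendsto_log_atTop.comp Real.tendsto_log_atTop
  filter_upwards [Real.tendsto_log_atTop.eventually_ge_atTop (2 * |Y0| + 80),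
    hLL.eventually_ge_atTop 1, hLL.eventually_ge_atTop (2 * Real.log 2), ff_le,
    hLL.eventually_ge_atTop (8 * c * K / τ0)] with X a1 a2 a3 a4 a5
  refine ⟨a1, a2, a3, ?_⟩
  have hl : 0 < Real.log X := by
    have := abs_nonneg Y0
    linarith
  rw [div_le_iff₀ hτ0] at a5
  calc 8 * c * ff X * K ≤ 8 * c * (Real.log X * (Real.log (Real.log X)) ^ 2) * K := by gcongr
    _ = (8 * c * K) * (Real.log X * (Real.log (Real.log X)) ^ 2) := by ring
    _ ≤ (Real.log (Real.log X) * τ0) * (Real.log X * (Real.log (Real.log X)) ^ 2) :=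
        mul_le_mul_of_nonneg_right a5 (by positivity)
    _ = _ := by ring

/-- windows with prescribed positions -/
theorem place (h : StRQ) : ∃ η : ℝ, 0 < η ∧ ∀ m : ℕ, 1 ≤ m → ∃ K : ℕ, 1 ≤ K ∧ ∃ c : ℝ, 0 < c ∧
    ∀ q a : ℕ, Squarefree q → a.Coprime q → ∀ τ0 : ℝ, 0 < τ0 → ∀ᶠ X : ℝ in atTop,
    ∀ τ : ℝ, τ0 * Real.log X ≤ τ →
    ∀ P : Fin m → ℝ, (∀ d, Real.log X ≤ P d ∧ 2 * τ ≤ P d ∧ P d + τ ≤ c * ff X) →
    ∀ bad : Finset ℕ, (bad.card : ℝ) ≤ X ^ (9 / 10 : ℝ) →
    ∃ n : ℕ, X < n ∧ (n : ℝ) ≤ 3 * X ∧ n ∉ bad ∧ ∃ (t : Fin K → ℕ) (col : Fin K → Fin m),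
      Function.Injective t ∧ (∀ j, |(t j : ℝ) - P (col j)| ≤ τ) ∧
      (∃ D : Finset (Fin m), η * m ≤ D.card ∧ ∀ d ∈ D, ∃ j, col j = d ∧ (n + t j).Prime) ∧
      ∀ s : ℕ, (s : ℝ) ≤ c * ff X → (n + s).Prime → n + s ≡ a [MOD q] ∧ ∃ j, s = t j := by
  obtain ⟨η, hη, hmain⟩ := h
  refine ⟨η, hη, fun m hm => ?_⟩
  obtain ⟨K, hmK, c, hc, hX1'⟩ := hmain m hm
  have hK0 : 0 < K := by omega
  refine ⟨K, hK0, c, hc, fun q a hqsf haq τ0 hτ0 => ?_⟩
  have hq0 : 0 < q := Nat.pos_of_ne_zero hqsf.ne_zero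
  obtain ⟨X1, hX1⟩ := hX1' q
  have hKr : (0 : ℝ) < K := by exact_mod_cast hK0
  obtain ⟨Y0, hY0⟩ := Filter.eventually_atTop.1 (exists_prime_short q hq0 a haq)
  filter_upwards [eventually_ge_atTop X1, ev_place K Y0 c τ0 hc hτ0] with X hXX1 hX
  obtain ⟨hlX, hLL1, hLL2, hLLK⟩ := hX
  intro τ hτ P hP bad hbad
  have hY0n := abs_nonneg Y0
  have hlpos : 0 < Real.log X := by linarith
  have hLLpos : 0 < Real.log (Real.log X) := by linarith
  have hτpos : 0 < τ := lt_of_lt_of_le (by positivity) hτ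
  set u : ℝ := τ / K with hu
  have hu0 : 0 < u := by positivity
  have huK : u * K = τ := by rw [hu]; field_simp
  set col := cmod K m hm with hcol
  set Nn : Fin K → ℕ := fun j => K * ⌊P (col j) / τ⌋₊ + (j : ℕ) with hNn
  have hPnn : ∀ d, 0 ≤ P d / τ := fun d => div_nonneg (by have := (hP d).1; linarith) hτpos.le
  have hyN : ∀ j, u * (Nn j : ℝ) = τ * ⌊P (col j) / τ⌋₊ + u * (j : ℕ) := by
    intro j
    simp only [hNn]
    push_cast
    rw [← huK]
    ring
  have hfl1 : ∀ d, τ * (⌊P d / τ⌋₊ : ℝ) ≤ P d := by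
    intro d
    calc τ * (⌊P d / τ⌋₊ : ℝ) ≤ τ * (P d / τ) := mul_le_mul_of_nonneg_left (Nat.floor_le (hPnn d)) hτpos.le
      _ = P d := by field_simp
  have hfl2 : ∀ d, P d ≤ τ * (⌊P d / τ⌋₊ : ℝ) + τ := by
    intro d
    calc P d = τ * (P d / τ) := by field_simp
      _ ≤ τ * (⌊P d / τ⌋₊ + 1) := mul_le_mul_of_nonneg_left (Nat.lt_floor_add_one _).le hτpos.le
      _ = _ := by ring
  have hjK : ∀ j : Fin K, 0 ≤ u * ((j : ℕ) : ℝ) ∧ u * (((j : ℕ) : ℝ) + 1) ≤ τ := by
    intro j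
    constructor
    · positivity
    · have h1 : ((j : ℕ) : ℝ) + 1 ≤ K := by exact_mod_cast j.2
      calc u * (((j : ℕ) : ℝ) + 1) ≤ u * K := mul_le_mul_of_nonneg_left h1 hu0.le
        _ = τ := huK
  have hylow : ∀ j, Real.log X / 2 ≤ u * (Nn j : ℝ) := by
    intro j
    have h1 := hyN j
    have h2 := hfl2 (col j)
    have h3 := (hjK j).1
    have h4 := (hP (col j)).1
    have h5 := (hP (col j)).2.1
    linarith
  have hyup : ∀ j, u * (Nn j : ℝ) ≤ c * ff X := by
    intro j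
    have h1 := hyN j
    have h2 := hfl1 (col j)
    have h3 := (hjK j).2
    have h4 := (hP (col j)).2.2
    have h5 : u * (((j : ℕ) : ℝ) + 1) = u * ((j : ℕ) : ℝ) + u := by ring
    linarith
  -- primes
  have hshort : ∀ j, u * (Nn j : ℝ) / (Real.log (u * (Nn j : ℝ))) ^ 3 ≤ u := by
    intro j
    have h1 := hylow j
    have h2 := hyup j
    have h3 : Real.log (Real.log X) / 2 ≤ Real.log (u * (Nn j : ℝ)) := by
      have h6 := Real.log_le_log (by positivity) h1
      rw [Real.log_div hlpos.ne' (by norm_num)] at h6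
      linarith
    have h4 : (Real.log (Real.log X) / 2) ^ 3 ≤ (Real.log (u * (Nn j : ℝ))) ^ 3 :=
      pow_le_pow_left₀ (by positivity) h3 3
    have h6 : 0 < (Real.log (u * (Nn j : ℝ))) ^ 3 := lt_of_lt_of_le (by positivity) h4
    rw [div_le_iff₀ h6]
    have h7 : c * ff X * (8 * K) ≤ τ * (Real.log (Real.log X)) ^ 3 := by
      calc c * ff X * (8 * K) = 8 * c * ff X * K := by ring
        _ ≤ τ0 * Real.log X * (Real.log (Real.log X)) ^ 3 := hLLK
        _ ≤ τ * (Real.log (Real.log X)) ^ 3 := mul_le_mul_of_nonneg_right hτ (by positivity)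
    have h8 : c * ff X ≤ u * (Real.log (Real.log X) / 2) ^ 3 := by
      have e1 : u * (Real.log (Real.log X) / 2) ^ 3 = τ * (Real.log (Real.log X)) ^ 3 / (8 * K) := by
        rw [hu]; field_simp; ring
      rw [e1, le_div_iff₀ (by positivity)]
      exact h7
    exact (h2.trans h8).trans (mul_le_mul_of_nonneg_left h4 hu0.le)
  have hex : ∀ j, ∃ p : ℕ, p.Prime ∧ p ≡ a [MOD q] ∧ u * (Nn j : ℝ) < p ∧ (p : ℝ) ≤ u * (Nn j : ℝ) + u := by
    intro j
    have h1 := hylow j
    obtain ⟨p, hp, hpa, hp1, hp2⟩ := hY0 (u * (Nn j : ℝ)) (by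
      have := le_abs_self Y0
      linarith)
    exact ⟨p, hp, hpa, hp1, hp2.trans (by have := hshort j; linarith)⟩
  choose t htp hta htl htu using hex
  have htinj : Function.Injective t := by
    intro j j' hjj
    have h1 := htl j
    have h2 := htu j
    have h3 := htl j'
    have h4 := htu j'
    rw [← hjj] at h3 h4
    have h5 : (Nn j : ℝ) < Nn j' + 1 := by
      have : u * (Nn j : ℝ) < u * (Nn j' + 1) := by linarith
      exact lt_of_mul_lt_mul_left this hu0.le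
    have h6 : (Nn j' : ℝ) < Nn j + 1 := by
      have : u * (Nn j' : ℝ) < u * (Nn j + 1) := by linarith
      exact lt_of_mul_lt_mul_left this hu0.le
    have h7 : Nn j < Nn j' + 1 := by exact_mod_cast h5
    have h8 : Nn j' < Nn j + 1 := by exact_mod_cast h6
    have h9 : Nn j = Nn j' := by omega
    have h10 := congrArg (fun x => x % K) h9
    simp only [hNn, Nat.mul_add_mod, Nat.mod_eq_of_lt j.2, Nat.mod_eq_of_lt j'.2] at h10
    exact Fin.ext h10
  have htP : ∀ j, |(t j : ℝ) - P (col j)| ≤ τ := by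
    intro j
    have h1 := hyN j
    have h2 := hfl1 (col j)
    have h3 := hfl2 (col j)
    have h4 := hjK j
    have h5 := htl j
    have h6 := htu j
    have h7 : u * (((j : ℕ) : ℝ) + 1) = u * ((j : ℕ) : ℝ) + u := by ring
    rw [abs_le]
    constructor <;> linarith
  have htF : ∀ j, (t j : ℝ) ≤ c * ff X := by
    intro j
    have h1 := (abs_le.1 (htP j)).2
    have h2 := (hP (col j)).2.2
    linarith
  have htyy : ∀ j, yy X < t j := by
    intro j
    have h1 : (yy X : ℝ) ≤ Real.log X / 1000 := Nat.floor_le (by positivity)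
    have h4 := hylow j
    have h5 := htl j
    have h6 : (yy X : ℝ) < t j := by linarith
    exact_mod_cast h6
  obtain ⟨n, hn1, hn2, hn3, ⟨G, hG1, hG2⟩, hn4, hn5⟩ := hX1 X hXX1 t htinj
    (fun j => ⟨htp j, htyy j, htF j⟩) col (fib_cmod K m hm hmK) bad hbad
  have hqn : q ∣ n := dvd_of_primes q n hqsf fun p hp hpq => hn5 p hp (Nat.le_of_dvd hq0 hpq)
  refine ⟨n, hn1, hn2, hn3, t, col, htinj, htP, ⟨G, hG1, hG2⟩, ?_⟩
  intro s hs hp
  obtain ⟨j, hj⟩ := hn4 s hs hp
  refine ⟨?_, j, hj⟩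
  rw [hj]
  have h1 : n ≡ 0 [MOD q] := (Nat.modEq_zero_iff_dvd).2 hqn
  have h2 := h1.add (hta j)
  rwa [zero_add] at h2

end Pool.Agent.W126.Place3
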