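import Mathlib

set_option autoImplicit false

/-! Dense sets of words. The letters are read from the left (index `0` is the top level of the tree). -/

open Finset

namespace Pool.Agent.W126.Words

variable {α : Type}

/-- at the level `i` of the word `w` all letters occur: the prefix of `w` before `i` followed by any letter
is the beginning of a word of `G` -/
def Full {N : ℕ} (G : Finset (Fin N → α)) (w : Fin N → α) (i : Fin N) : Prop :=
  ∀ b : α, ∃ w' ∈ G, (∀ i' : Fin N, i' < i → w' i' = w i') ∧ w' i = b

section

variable [Fintype α] [DecidableEq α]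

/-- the words which follow the first letter `b` -/
def sub {N : ℕ} (G : Finset (Fin (N + 1) → α)) (b : α) : Finset (Fin N → α) :=
  univ.filter (fun v => (Fin.cons b v : Fin (N + 1) → α) ∈ G)

theorem mem_sub {N : ℕ} (G : Finset (Fin (N + 1) → α)) (b : α) (v : Fin N → α) :
    v ∈ sub G b ↔ (Fin.cons b v : Fin (N + 1) → α) ∈ G := by
  simp [sub]

theorem card_sub {N : ℕ} (G : Finset (Fin (N + 1) → α)) : G.card = ∑ b, (sub G b).card := by
  rw [card_eq_sum_card_fiberwise (f := fun w : Fin (N + 1) → α => w 0) (t := univ) (fun _ _ => by simp)]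
  apply sum_congr rfl
  intro b _
  apply card_bij' (fun w _ => Fin.tail w) (fun v _ => (Fin.cons b v : Fin (N + 1) → α))
  · intro w hw
    rw [mem_filter] at hw
    rw [mem_sub]
    have h1 : (Fin.cons b (Fin.tail w) : Fin (N + 1) → α) = w := by
      rw [← hw.2]
      exact Fin.cons_self_tail w
    rw [h1]
    exact hw.1
  · intro v hv
    rw [mem_sub] at hv
    rw [mem_filter]
    exact ⟨hv, by simp⟩
  · intro w hw
    rw [mem_filter] at hw
    rw [← hw.2]
    exact Fin.cons_self_tail w
  · intro v hv
    simp

theorem full_zero {N : ℕ} (G : Finset (Fin (N + 1) → α)) (w : Fin (N + 1) → α) :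
    Full G w 0 ↔ ∀ b, (sub G b).Nonempty := by
  constructor
  · intro h b
    obtain ⟨w', hw', _, hb⟩ := h b
    refine ⟨Fin.tail w', ?_⟩
    rw [mem_sub, ← hb]
    rw [Fin.cons_self_tail]
    exact hw'
  · intro h b
    obtain ⟨v, hv⟩ := h b
    rw [mem_sub] at hv
    refine ⟨_, hv, fun i' hi' => absurd hi' (Fin.not_lt_zero _), by simp⟩

theorem full_succ {N : ℕ} (G : Finset (Fin (N + 1) → α)) (b : α) (v : Fin N → α) (i : Fin N)
    (h : Full (sub G b) v i) : Full G (Fin.cons b v) i.succ := by
  intro c
  obtain ⟨v', hv', h1, h2⟩ := h c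
  rw [mem_sub] at hv'
  refine ⟨_, hv', ?_, by simpa using h2⟩
  intro i' hi'
  refine Fin.cases ?_ ?_ i' hi'
  · intro _
    simp
  · intro i'' hi''
    simpa using h1 i'' (Fin.succ_lt_succ_iff.1 hi'')

omit [DecidableEq α] in
theorem card_words (N : ℕ) : Fintype.card (Fin N → α) = Fintype.card α ^ N := by
  simp

open Classical in
/-- a dense set of words contains a word with few levels that are not full -/
theorem few : ∀ (N l : ℕ) (G : Finset (Fin N → α)),
    (Fintype.card α - 1) ^ l * Fintype.card α ^ N < G.card * Fintype.card α ^ l →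
    ∃ w ∈ G, (univ.filter (fun i => ¬ Full G w i)).card < l := by
  intro N
  induction N with
  | zero =>
    intro l G hG
    have h1 : G.card ≤ 1 := by
      have := Finset.card_le_univ G
      simpa using this
    have hl : l ≠ 0 := by
      rintro rfl
      simp only [pow_zero, mul_one] at hG
      omega
    have hG0 : G.Nonempty := by
      rw [← Finset.card_pos]
      rcases Nat.eq_zero_or_pos G.card with h0 | h0
      · rw [h0, zero_mul] at hG
        omega
      · exact h0
    obtain ⟨w, hw⟩ := hG0
    refine ⟨w, hw, ?_⟩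
    have : (univ.filter (fun i : Fin 0 => ¬ Full G w i)) = ∅ := by
      apply Finset.eq_empty_of_forall_notMem
      intro i
      exact i.elim0
    rw [this, card_empty]
    omega
  | succ N ih =>
    intro l G hG
    have hcount : ∀ (b : α) (v : Fin N → α),
        (univ.filter (fun i => ¬ Full G (Fin.cons b v : Fin (N + 1) → α) i)).card ≤
        (if ∀ b, (sub G b).Nonempty then 0 else 1) + (univ.filter (fun i => ¬ Full (sub G b) v i)).card := by
      intro b v
      have h3 : (filter (fun i => ¬ Full G (Fin.cons b v : Fin (N + 1) → α) i) (map ⟨Fin.succ, Fin.succ_injective N⟩ univ)).card ≤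
          (univ.filter (fun i => ¬ Full (sub G b) v i)).card := by
        rw [filter_map, card_map]
        apply card_le_card
        intro i hi
        simp only [mem_filter, mem_univ, true_and, Function.comp, Function.Embedding.coeFn_mk] at hi ⊢
        exact fun h => hi (full_succ G b v i h)
      rw [Fin.univ_succ, filter_cons]
      by_cases h1 : ∀ b, (sub G b).Nonempty
      · rw [if_pos h1, if_neg (not_not.2 ((full_zero G _).2 h1)), zero_add]
        exact h3
      · rw [if_neg h1, if_pos (fun h => h1 ((full_zero G _).1 h)), card_cons]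
        omega
    set k := Fintype.card α with hk
    by_cases hfull : ∀ b, (sub G b).Nonempty
    · -- some child is as dense as the whole
      by_contra hcon
      push Not at hcon
      have h1 : ∀ b, (sub G b).card * k ^ l ≤ (k - 1) ^ l * k ^ N := by
        intro b
        by_contra h2
        push Not at h2
        obtain ⟨v, hv, hv2⟩ := ih l (sub G b) h2
        have h3 := hcount b v
        rw [if_pos hfull, zero_add] at h3
        have h4 := hcon _ ((mem_sub G b v).1 hv)
        omega
      have h2 : G.card * k ^ l ≤ k * ((k - 1) ^ l * k ^ N) := by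
        rw [card_sub, sum_mul]
        calc ∑ b, (sub G b).card * k ^ l ≤ ∑ _b : α, (k - 1) ^ l * k ^ N := sum_le_sum fun b _ => h1 b
          _ = _ := by rw [sum_const, card_univ, smul_eq_mul]
      have h3 : k * ((k - 1) ^ l * k ^ N) = (k - 1) ^ l * k ^ (N + 1) := by ring
      omega
    · have hfull' := hfull
      push Not at hfull'
      obtain ⟨b0, hb0⟩ := hfull'
      have hb0c : (sub G b0).card = 0 := by
        rw [hb0, card_empty]
      have hsum : G.card = ∑ b ∈ univ.erase b0, (sub G b).card := by
        rw [card_sub, ← add_sum_erase _ _ (mem_univ b0), hb0c, zero_add]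
      have hkpos : 1 ≤ k := Fintype.card_pos_iff.2 ⟨b0⟩
      rcases Nat.eq_zero_or_pos l with hl | hl
      · subst hl
        simp only [pow_zero, one_mul, mul_one] at hG
        have h1 := Finset.card_le_univ G
        rw [card_words, ← hk] at h1
        omega
      · obtain ⟨l', rfl⟩ : ∃ l', l = l' + 1 := ⟨l - 1, by omega⟩
        by_contra hcon
        push Not at hcon
        have h1 : ∀ b, (sub G b).card * k ^ l' ≤ (k - 1) ^ l' * k ^ N := by
          intro b
          by_contra h2
          push Not at h2
          obtain ⟨v, hv, hv2⟩ := ih l' (sub G b) h2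
          have h3 := hcount b v
          rw [if_neg hfull] at h3
          have h4 := hcon _ ((mem_sub G b v).1 hv)
          omega
        have h2 : G.card * k ^ l' ≤ (k - 1) * ((k - 1) ^ l' * k ^ N) := by
          rw [hsum, sum_mul]
          calc ∑ b ∈ univ.erase b0, (sub G b).card * k ^ l' ≤
              ∑ _b ∈ (univ : Finset α).erase b0, (k - 1) ^ l' * k ^ N := sum_le_sum fun b _ => h1 b
            _ = _ := by
              rw [sum_const, card_erase_of_mem (mem_univ b0), card_univ, smul_eq_mul]
        have h3 : G.card * k ^ (l' + 1) ≤ (k - 1) ^ (l' + 1) * k ^ (N + 1) := by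
          calc G.card * k ^ (l' + 1) = (G.card * k ^ l') * k := by ring
            _ ≤ ((k - 1) * ((k - 1) ^ l' * k ^ N)) * k := Nat.mul_le_mul_right k h2
            _ = _ := by ring
        omega

/-- the number of the levels with the label `j` -/
def cnt {N : ℕ} {lam : Type} [DecidableEq lam] (lab : Fin N → lam) (j : lam) : ℕ :=
  (univ.filter (fun i => lab i = j)).card

theorem cnt_succ {N : ℕ} {lam : Type} [DecidableEq lam] (lab : Fin (N + 1) → lam) (j : lam) :
    cnt lab j = (if lab 0 = j then 1 else 0) + cnt (fun i => lab i.succ) j := by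
  unfold cnt
  rw [Fin.univ_succ, filter_cons]
  have h : (filter (fun i => lab i = j) (map ⟨Fin.succ, Fin.succ_injective N⟩ univ)).card =
      (univ.filter (fun i : Fin N => lab i.succ = j)).card := by
    rw [filter_map, card_map]
    rfl
  split_ifs with h1
  · rw [card_cons, h]; ring
  · rw [h]; ring

/-- a set of words in which no label of `A` is realised (all levels with this label full and with the
letter `o`) is not dense -/
theorem labels {lam : Type} [DecidableEq lam] (o : α) : ∀ (N : ℕ) (lab : Fin N → lam) (A : Finset lam)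
    (G : Finset (Fin N → α)),
    (∀ w ∈ G, ∀ j ∈ A, ∃ i, lab i = j ∧ ¬ (Full G w i ∧ w i = o)) →
    (G.card : ℝ) ≤ (Fintype.card α : ℝ) ^ N *
      ∏ j ∈ A, (1 - ((Fintype.card α : ℝ) ^ (cnt lab j))⁻¹) := by
  intro N
  induction N with
  | zero =>
    intro lab A G hG
    rcases A.eq_empty_or_nonempty with hA | ⟨j, hj⟩
    · rw [hA, prod_empty, pow_zero, mul_one]
      have h1 : G.card ≤ 1 := by
        have := Finset.card_le_univ G
        simpa using this
      exact_mod_cast h1
    · have hG0 : G = ∅ := by
        apply Finset.eq_empty_of_forall_notMem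
        intro w hw
        obtain ⟨i, _⟩ := hG w hw j hj
        exact i.elim0
      have h1 : ∏ j ∈ A, (1 - ((Fintype.card α : ℝ) ^ (cnt lab j))⁻¹) = 0 := by
        apply Finset.prod_eq_zero hj
        have : cnt lab j = 0 := by
          unfold cnt
          rw [Finset.card_eq_zero]
          apply Finset.eq_empty_of_forall_notMem
          intro i
          exact i.elim0
        rw [this, pow_zero, inv_one, sub_self]
      rw [hG0, h1]
      simp
  | succ N ih =>
    intro lab A G hG
    set k : ℝ := (Fintype.card α : ℝ) with hk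
    have hkn : 1 ≤ Fintype.card α := Fintype.card_pos_iff.2 ⟨o⟩
    have hk1 : 1 ≤ k := by rw [hk]; exact_mod_cast hkn
    have hk0 : 0 < k := by linarith
    set lab' : Fin N → lam := fun i => lab i.succ with hlab'
    set j0 := lab 0 with hj0
    set g : lam → ℝ := fun j => 1 - (k ^ (cnt lab j))⁻¹ with hg
    set g' : lam → ℝ := fun j => 1 - (k ^ (cnt lab' j))⁻¹ with hg'
    have hg'0 : ∀ j, 0 ≤ g' j := by
      intro j
      simp only [hg']
      have h1 : 1 ≤ k ^ (cnt lab' j) := one_le_pow₀ hk1
      have h2 := inv_le_one_of_one_le₀ h1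
      linarith
    have hgg : ∀ j, j ≠ j0 → g j = g' j := by
      intro j hj
      simp only [hg, hg']
      rw [cnt_succ, if_neg (fun h => hj h.symm), zero_add]
    have hgj0 : g j0 = 1 - (k ^ (cnt lab' j0 + 1))⁻¹ := by
      simp only [hg]
      rw [cnt_succ, if_pos rfl, add_comm]
    set Q : ℝ := ∏ j ∈ A.erase j0, g' j with hQ
    have hQ0 : 0 ≤ Q := Finset.prod_nonneg fun j _ => hg'0 j
    have hQg : ∏ j ∈ A.erase j0, g j = Q := by
      apply Finset.prod_congr rfl
      intro j hj
      exact hgg j (Finset.ne_of_mem_erase hj)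
    -- the bound for every child
    have hchild : ∀ b, ((sub G b).card : ℝ) ≤ k ^ N * Q := by
      intro b
      apply ih lab' (A.erase j0) (sub G b)
      intro v hv j hj
      rw [mem_sub] at hv
      obtain ⟨i, hi1, hi2⟩ := hG _ hv j (Finset.mem_of_mem_erase hj)
      revert hi1 hi2
      refine Fin.cases ?_ ?_ i
      · intro hi1 _
        exact absurd hi1.symm (Finset.ne_of_mem_erase hj)
      · intro i' hi1 hi2
        refine ⟨i', hi1, fun h => hi2 ⟨full_succ G b v i' h.1, by simpa using h.2⟩⟩
    have hsum : (G.card : ℝ) = ∑ b, ((sub G b).card : ℝ) := by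
      rw [card_sub]; push_cast; rfl
    by_cases hfull : ∀ b, (sub G b).Nonempty
    · -- the better bound for the child `o`
      have hchildo : ((sub G o).card : ℝ) ≤ k ^ N * ∏ j ∈ A, g' j := by
        apply ih lab' A (sub G o)
        intro v hv j hj
        rw [mem_sub] at hv
        obtain ⟨i, hi1, hi2⟩ := hG _ hv j hj
        revert hi1 hi2
        refine Fin.cases ?_ ?_ i
        · intro _ hi2
          exact absurd ⟨(full_zero G _).2 hfull, by simp⟩ hi2
        · intro i' hi1 hi2
          refine ⟨i', hi1, fun h => hi2 ⟨full_succ G o v i' h.1, by simpa using h.2⟩⟩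
      have h1 : (G.card : ℝ) ≤ k ^ N * ∏ j ∈ A, g' j + (k - 1) * (k ^ N * Q) := by
        rw [hsum, ← Finset.add_sum_erase _ _ (mem_univ o)]
        apply add_le_add hchildo
        calc ∑ b ∈ univ.erase o, ((sub G b).card : ℝ) ≤ ∑ _b ∈ (univ : Finset α).erase o, k ^ N * Q :=
              Finset.sum_le_sum fun b _ => hchild b
          _ = (k - 1) * (k ^ N * Q) := by
            rw [sum_const, card_erase_of_mem (mem_univ o), card_univ, nsmul_eq_mul, Nat.cast_sub hkn,
              Nat.cast_one]
      refine h1.trans ?_
      by_cases hjA : j0 ∈ A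
      · rw [← Finset.mul_prod_erase A g' hjA, ← Finset.mul_prod_erase A g hjA, hQg, hgj0, ← hQ]
        simp only [hg']
        rw [pow_succ k (cnt lab' j0), mul_inv, pow_succ k N]
        have e1 : k ^ N * ((1 - (k ^ cnt lab' j0)⁻¹) * Q) + (k - 1) * (k ^ N * Q) =
            k ^ N * k * ((1 - (k ^ cnt lab' j0)⁻¹ * k⁻¹) * Q) := by
          field_simp
          ring
        rw [e1]
      · have e1 : ∏ j ∈ A, g' j = Q := by
          rw [hQ, Finset.erase_eq_of_notMem hjA]
        have e2 : ∏ j ∈ A, g j = Q := by
          rw [← hQg, Finset.erase_eq_of_notMem hjA]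
        rw [e1, e2, pow_succ]
        apply le_of_eq
        ring
    · push Not at hfull
      obtain ⟨b0, hb0⟩ := hfull
      have hb0c : ((sub G b0).card : ℝ) = 0 := by
        rw [hb0, card_empty, Nat.cast_zero]
      have h1 : (G.card : ℝ) ≤ (k - 1) * (k ^ N * Q) := by
        rw [hsum, ← Finset.add_sum_erase _ _ (mem_univ b0), hb0c, zero_add]
        calc ∑ b ∈ univ.erase b0, ((sub G b).card : ℝ) ≤ ∑ _b ∈ (univ : Finset α).erase b0, k ^ N * Q :=
              Finset.sum_le_sum fun b _ => hchild b
          _ = (k - 1) * (k ^ N * Q) := by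
            rw [sum_const, card_erase_of_mem (mem_univ b0), card_univ, nsmul_eq_mul, Nat.cast_sub hkn,
              Nat.cast_one]
      refine h1.trans ?_
      by_cases hjA : j0 ∈ A
      · rw [← Finset.mul_prod_erase A g hjA, hQg, hgj0]
        have h2 : (k ^ (cnt lab' j0 + 1))⁻¹ ≤ k⁻¹ := by
          apply inv_anti₀ hk0
          calc k = k ^ 1 := (pow_one k).symm
            _ ≤ k ^ (cnt lab' j0 + 1) := pow_le_pow_right₀ hk1 (by omega)
        have h3 : k - 1 ≤ k * (1 - (k ^ (cnt lab' j0 + 1))⁻¹) := by
          have h4 := mul_le_mul_of_nonneg_left h2 hk0.le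
          rw [mul_inv_cancel₀ hk0.ne'] at h4
          linarith
        calc (k - 1) * (k ^ N * Q) ≤ k * (1 - (k ^ (cnt lab' j0 + 1))⁻¹) * (k ^ N * Q) :=
              mul_le_mul_of_nonneg_right h3 (by positivity)
          _ = _ := by rw [pow_succ k N]; ring
      · have e2 : ∏ j ∈ A, g j = Q := by
          rw [← hQg, Finset.erase_eq_of_notMem hjA]
        rw [e2, pow_succ]
        have h5 : 0 ≤ k ^ N * Q := by positivity
        nlinarith

end

end Pool.Agent.W126.Words
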