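import Mathlib
import Pool.Agent.W126.Words

set_option autoImplicit false

/-! What a prime sees at a full level. -/

open Finset

namespace Pool.Agent.W126.View

open Pool.Agent.W126.Words

variable {α : Type}

/-- the primes at distance at most `r` from `p` are `≡ a (mod q)` and within `e` of the points `p + T b`, and
each of these points has such a prime within `e` -/
def Sees (q a : ℕ) (r e : ℝ) (T : α → ℝ) (p : ℕ) : Prop :=
  (∀ p' : ℕ, p'.Prime → |(p' : ℝ) - p| ≤ r → p' ≡ a [MOD q] ∧ ∃ b, |(p' : ℝ) - p - T b| ≤ e) ∧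
  (∀ b, ∃ p' : ℕ, p'.Prime ∧ p' ≡ a [MOD q] ∧ |(p' : ℝ) - p - T b| ≤ e)

/-- the position of a word -/
noncomputable def pos {N : ℕ} (base : ℝ) (y : Fin N → α → ℝ) (w : Fin N → α) : ℝ := base + ∑ i, y i (w i)

theorem pos_sub {N : ℕ} (base : ℝ) (y : Fin N → α → ℝ) (w w' : Fin N → α) (i : Fin N)
    (h : ∀ i' : Fin N, i' < i → y i' (w' i') = y i' (w i')) :
    pos base y w' - pos base y w = (y i (w' i) - y i (w i)) +
      ∑ i' ∈ Finset.Ioi i, (y i' (w' i') - y i' (w i')) := by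
  classical
  unfold pos
  have e1 : base + ∑ i, y i (w' i) - (base + ∑ i, y i (w i)) = ∑ i, (y i (w' i) - y i (w i)) := by
    rw [Finset.sum_sub_distrib]; ring
  rw [e1]
  have e2 : (univ : Finset (Fin N)) = Finset.Iio i ∪ insert i (Finset.Ioi i) := by
    ext j
    simp only [mem_univ, mem_union, mem_Iio, mem_insert, mem_Ioi, true_iff]
    rcases lt_trichotomy j i with h | h | h
    · exact Or.inl h
    · exact Or.inr (Or.inl h)
    · exact Or.inr (Or.inr h)
  have e3 : Disjoint (Finset.Iio i) (insert i (Finset.Ioi i)) := by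
    rw [Finset.disjoint_left]
    intro j hj hj'
    rw [mem_Iio] at hj
    rw [mem_insert, mem_Ioi] at hj'
    rcases hj' with h | h
    · exact absurd h hj.ne
    · exact absurd h (not_lt.2 hj.le)
  rw [e2, Finset.sum_union e3, Finset.sum_insert (by simp)]
  have e4 : ∑ x ∈ Finset.Iio i, (y x (w' x) - y x (w x)) = 0 := by
    apply Finset.sum_eq_zero
    intro j hj
    rw [mem_Iio] at hj
    rw [h j hj, sub_self]
  rw [e4, zero_add]

theorem view {N : ℕ} (q a n : ℕ) (base τ W r e : ℝ) (y : Fin N → α → ℝ) (σ : Fin N → ℝ)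
    (G : Finset (Fin N → α))
    (hhit : ∀ w ∈ G, ∃ p : ℕ, p.Prime ∧ p ≡ a [MOD q] ∧ |(p : ℝ) - n - pos base y w| ≤ τ)
    (hall : ∀ p : ℕ, p.Prime → n ≤ p → (p : ℝ) ≤ n + W → p ≡ a [MOD q] ∧
      ∃ w ∈ G, |(p : ℝ) - n - pos base y w| ≤ τ)
    (hσ : ∀ (i : Fin N) (w w' : Fin N → α), |∑ i' ∈ Finset.Ioi i, (y i' (w' i') - y i' (w i'))| ≤ σ i)
    (i : Fin N) (hsep : ∀ i0 : Fin N, i0 < i → ∀ b b', y i0 b ≠ y i0 b' →
      r + 2 * τ + σ i0 < |y i0 b - y i0 b'|)
    (he : σ i + 2 * τ ≤ e) (hwin : ∀ w : Fin N → α, r + τ ≤ pos base y w ∧ pos base y w + r + τ ≤ W)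
    (w : Fin N → α) (p : ℕ) (hp : |(p : ℝ) - n - pos base y w| ≤ τ)
    (hfull : ∀ b, ∃ w' ∈ G, (∀ i' : Fin N, i' < i → w' i' = w i') ∧ y i (w' i) = y i b) :
    Sees q a r e (fun b => y i b - y i (w i)) p := by
  have hp' := abs_le.1 hp
  constructor
  · intro p' hp'p hd
    have hd' := abs_le.1 hd
    obtain ⟨hw1, hw2⟩ := hwin w
    have hn : (n : ℝ) ≤ p' := by linarith [hp'.1, hd'.1]
    obtain ⟨hcl, w', hw', hw'2⟩ := hall p' hp'p (by exact_mod_cast hn) (by linarith [hp'.2, hd'.2])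
    refine ⟨hcl, w' i, ?_⟩
    have h1 := abs_le.1 hw'2
    have hagree : ∀ i' : Fin N, i' < i → y i' (w' i') = y i' (w i') := by
      by_contra hcon
      push Not at hcon
      -- the first place of disagreement
      have hne : (univ.filter (fun i' : Fin N => i' < i ∧ y i' (w' i') ≠ y i' (w i'))).Nonempty := by
        obtain ⟨i', h2, h3⟩ := hcon
        exact ⟨i', by simp [h2, h3]⟩
      obtain ⟨i0, hi0, hmin⟩ := Finset.exists_min_image _ (fun i : Fin N => i) hne
      simp only [mem_filter, mem_univ, true_and] at hi0 hmin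
      have h2 := pos_sub base y w w' i0 (fun i' hi' => by
        by_contra h3
        exact absurd (hmin i' ⟨hi'.trans hi0.1, h3⟩) (not_le.2 hi'))
      have h3 := hsep i0 hi0.1 _ _ hi0.2
      have h4 := abs_le.1 (hσ i0 w w')
      rcases lt_abs.1 h3 with h5 | h5
      · linarith [h4.1, h1.1, h1.2, hp'.1, hp'.2, hd'.1, hd'.2]
      · linarith [h4.2, h1.1, h1.2, hp'.1, hp'.2, hd'.1, hd'.2]
    have h2 := pos_sub base y w w' i hagree
    have h4 := abs_le.1 (hσ i w w')
    rw [abs_le]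
    constructor <;> linarith [h4.1, h4.2, h1.1, h1.2, hp'.1, hp'.2]
  · intro b
    obtain ⟨w', hw', h1, h2⟩ := hfull b
    obtain ⟨p', hp'p, hcl, h3⟩ := hhit w' hw'
    refine ⟨p', hp'p, hcl, ?_⟩
    have h4 := pos_sub base y w w' i (fun i' hi' => by rw [h1 i' hi'])
    have h5 := abs_le.1 (hσ i w w')
    have h6 := abs_le.1 h3
    rw [h2] at h4
    rw [abs_le]
    constructor <;> linarith [h5.1, h5.2, h6.1, h6.2, hp'.1, hp'.2]

end Pool.Agent.W126.View
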