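import Mathlib
import Pool.Agent.W126.Place3
import Pool.Agent.W126.View
import Pool.Agent.H672R3.InfRec

set_option autoImplicit false

/-! Trees of positions inside the record windows, and their hits. -/

open Finset Filter

namespace Pool.Agent.W126.MultiCore

open Pool.Agent.H256R2.SC (ff)
open Pool.Agent.H312R2.RG.C3 (ff_tendsto ff_small)
open Pool.Agent.H362R2.RQ (StRQ ev_bad)
open Pool.Agent.W126.View (pos)

theorem core (h : StRQ) : ∃ η : ℝ, 0 < η ∧ ∀ N k : ℕ, 1 ≤ k → ∃ K : ℕ, 1 ≤ K ∧ ∃ c : ℝ, 0 < c ∧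
    ∀ q a : ℕ, Squarefree q → a.Coprime q → ∀ τ0 : ℝ, 0 < τ0 → ∀ᶠ X : ℝ in atTop,
    ∀ y : Fin N → Fin k → ℝ, (∀ w : Fin N → Fin k, |∑ i, y i (w i)| ≤ c * ff X / 8) →
    ∀ bad : Finset ℕ, (bad.card : ℝ) ≤ X ^ (9 / 10 : ℝ) →
    ∃ n : ℕ, X < n ∧ (n : ℝ) ≤ 3 * X ∧ n ∉ bad ∧ ∃ G : Finset (Fin N → Fin k),
      η * (k : ℝ) ^ N ≤ G.card ∧
      (∀ w ∈ G, ∃ p : ℕ, p.Prime ∧ p ≡ a [MOD q] ∧
        |(p : ℝ) - n - pos (c * ff X / 2) y w| ≤ τ0 * Real.log X) ∧
      (∀ p : ℕ, p.Prime → n ≤ p → (p : ℝ) ≤ n + c * ff X → p ≡ a [MOD q] ∧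
        ∃ w ∈ G, |(p : ℝ) - n - pos (c * ff X / 2) y w| ≤ τ0 * Real.log X) ∧
      {p : ℕ | p.Prime ∧ n ≤ p ∧ (p : ℝ) ≤ n + c * ff X}.ncard ≤ K := by
  classical
  obtain ⟨η, hη, hplace⟩ := Pool.Agent.W126.Place3.place h
  refine ⟨η, hη, fun N k hk => ?_⟩
  have hm1 : 1 ≤ k ^ N := Nat.one_le_pow _ _ hk
  obtain ⟨K, hK, c, hc, hpl⟩ := hplace (k ^ N) hm1
  refine ⟨K, hK, c, hc, fun q a hq ha τ0 hτ0 => ?_⟩
  set eqv : (Fin N → Fin k) ≃ Fin (k ^ N) := Fintype.equivFinOfCardEq (by simp) with heqv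
  filter_upwards [hpl q a hq ha τ0 hτ0, Pool.Agent.H672R3.InfRec.scale_ev (c / 4) (by positivity),
    Pool.Agent.H672R3.InfRec.scale_ev (c / (8 * τ0)) (by positivity),
    Real.tendsto_log_atTop.eventually_gt_atTop 0] with X hX h1 h2 h3
  intro y hy bad hbad
  have h2' : τ0 * Real.log X ≤ c * ff X / 8 := by
    have := mul_le_mul_of_nonneg_left h2 hτ0.le
    calc τ0 * Real.log X ≤ τ0 * (c / (8 * τ0) * ff X) := this
      _ = _ := by field_simp
  have hpos : ∀ w : Fin N → Fin k, c * ff X * (3 / 8) ≤ pos (c * ff X / 2) y w ∧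
      pos (c * ff X / 2) y w ≤ c * ff X * (5 / 8) := by
    intro w
    have := abs_le.1 (hy w)
    unfold pos
    constructor <;> linarith
  have hcff : 0 < c * ff X := by
    have := mul_pos hτ0 h3
    linarith
  obtain ⟨n, hn1, hn2, hn3, t, col, htinj, htP, ⟨D, hD1, hD2⟩, hall⟩ := hX (τ0 * Real.log X) le_rfl
    (fun d => pos (c * ff X / 2) y (eqv.symm d)) (fun d => by
      have := hpos (eqv.symm d)
      refine ⟨?_, ?_, ?_⟩ <;> linarith [this.1, this.2]) bad hbad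
  set G : Finset (Fin N → Fin k) := univ.filter (fun w => ∃ j, col j = eqv w ∧ (n + t j).Prime) with hG
  have htF : ∀ j, (t j : ℝ) ≤ c * ff X := by
    intro j
    have h4 := (abs_le.1 (htP j)).2
    have h5 := (hpos (eqv.symm (col j))).2
    linarith
  have hcl : ∀ j, (n + t j).Prime → n + t j ≡ a [MOD q] := fun j hj => (hall (t j) (htF j) hj).1
  refine ⟨n, hn1, hn2, hn3, G, ?_, ?_, ?_, ?_⟩
  · have h4 : D.card ≤ G.card := by
      rw [← Finset.card_map (s := D) eqv.symm.toEmbedding]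
      apply Finset.card_le_card
      intro w hw
      rw [Finset.mem_map] at hw
      obtain ⟨d, hd, rfl⟩ := hw
      obtain ⟨j, hj1, hj2⟩ := hD2 d hd
      rw [hG, mem_filter]
      exact ⟨mem_univ _, j, by rw [hj1]; simp, hj2⟩
    have h5 : (D.card : ℝ) ≤ G.card := by exact_mod_cast h4
    push_cast at hD1
    linarith
  · intro w hw
    rw [hG, mem_filter] at hw
    obtain ⟨_, j, hj1, hj2⟩ := hw
    refine ⟨n + t j, hj2, hcl j hj2, ?_⟩
    have h4 := htP j
    rw [hj1, Equiv.symm_apply_apply] at h4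
    have e1 : (((n + t j : ℕ) : ℝ) - n - pos (c * ff X / 2) y w) = (t j : ℝ) - pos (c * ff X / 2) y w := by
      push_cast; ring
    rw [e1]
    exact h4
  · intro p hp hnp hpn
    obtain ⟨s, rfl⟩ := Nat.exists_eq_add_of_le hnp
    push_cast at hpn
    obtain ⟨h4, j, hj⟩ := hall s (by linarith) hp
    refine ⟨h4, eqv.symm (col j), ?_, ?_⟩
    · rw [hG, mem_filter]
      exact ⟨mem_univ _, j, by simp, by rw [← hj]; exact hp⟩
    · have h5 := htP j
      rw [← hj] at h5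
      have e1 : (((n + s : ℕ) : ℝ) - n - pos (c * ff X / 2) y (eqv.symm (col j))) =
          (s : ℝ) - pos (c * ff X / 2) y (eqv.symm (col j)) := by
        push_cast; ring
      rw [e1]
      exact h5
  · have hsub : {p : ℕ | p.Prime ∧ n ≤ p ∧ (p : ℝ) ≤ n + c * ff X} ⊆
        ((univ.image (fun j : Fin K => n + t j) : Finset ℕ) : Set ℕ) := by
      rintro p ⟨hp, hnp, hpn⟩
      obtain ⟨s, rfl⟩ := Nat.exists_eq_add_of_le hnp
      push_cast at hpn
      obtain ⟨_, j, hj⟩ := hall s (by linarith) hp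
      rw [mem_coe, mem_image]
      exact ⟨j, mem_univ _, by rw [hj]⟩
    calc {p : ℕ | p.Prime ∧ n ≤ p ∧ (p : ℝ) ≤ n + c * ff X}.ncard ≤
        ((univ.image (fun j : Fin K => n + t j) : Finset ℕ) : Set ℕ).ncard :=
          Set.ncard_le_ncard hsub (Finset.finite_toSet _)
      _ = (univ.image (fun j : Fin K => n + t j)).card := Set.ncard_coe_finset _
      _ ≤ (univ : Finset (Fin K)).card := Finset.card_image_le
      _ = K := by rw [card_univ, Fintype.card_fin]

/-- if all the sets `S u`, `u ∈ U`, have fewer than `X^(7/8)` elements, then a small set contains all integers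
`n` with an element of some `S u` in `[n, n + c ff X]` -/
theorem bad_small (M : ℕ) (c : ℝ) (hc : 0 < c) : ∀ᶠ X : ℝ in atTop, ∀ (U : Type) [Fintype U] (S : U → Set ℕ),
    Fintype.card U ≤ M → (∀ u, (S u).Finite) → (∀ u, ((S u).ncard : ℝ) < X ^ (7 / 8 : ℝ)) →
    ∃ bad : Finset ℕ, (bad.card : ℝ) ≤ X ^ (9 / 10 : ℝ) ∧
      ∀ n p : ℕ, ∀ u, p ∈ S u → n ≤ p → (p : ℝ) ≤ n + c * ff X → n ∈ bad := by
  classical
  filter_upwards [ev_bad (((M : ℝ) + 1) * (c + 1)) (by positivity), ff_tendsto.eventually_ge_atTop 1,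
    eventually_ge_atTop (0 : ℝ)] with X h1 h2 h3
  intro U _ S hU hfin hcard
  have hr : 0 ≤ X ^ (7 / 8 : ℝ) := Real.rpow_nonneg h3 _
  have hcff : 0 < c * ff X := by positivity
  refine ⟨univ.biUnion (fun u => (hfin u).toFinset.biUnion (fun p => Icc (p - ⌊c * ff X⌋₊) p)), ?_, ?_⟩
  · refine le_trans ?_ h1
    have h4 : ∀ u, (((hfin u).toFinset.biUnion (fun p => Icc (p - ⌊c * ff X⌋₊) p)).card : ℝ) ≤
        X ^ (7 / 8 : ℝ) * (c * ff X + 1) := by
      intro u
      have h5 : ((hfin u).toFinset.biUnion (fun p => Icc (p - ⌊c * ff X⌋₊) p)).card ≤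
          (hfin u).toFinset.card * (⌊c * ff X⌋₊ + 1) := by
        refine Finset.card_biUnion_le.trans ?_
        have h6 : ∀ p ∈ (hfin u).toFinset, (Icc (p - ⌊c * ff X⌋₊) p).card ≤ ⌊c * ff X⌋₊ + 1 := by
          intro p _
          rw [Nat.card_Icc]
          omega
        exact (Finset.sum_le_card_nsmul _ _ _ h6).trans (le_of_eq (by rw [smul_eq_mul]))
      have h6 : ((⌊c * ff X⌋₊ + 1 : ℕ) : ℝ) ≤ c * ff X + 1 := by
        push_cast
        have := Nat.floor_le hcff.le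
        linarith
      have h7 : ((hfin u).toFinset.card : ℝ) ≤ X ^ (7 / 8 : ℝ) := by
        rw [← Set.ncard_eq_toFinset_card (S u) (hfin u)]
        exact (hcard u).le
      calc (((hfin u).toFinset.biUnion (fun p => Icc (p - ⌊c * ff X⌋₊) p)).card : ℝ)
          ≤ (((hfin u).toFinset.card * (⌊c * ff X⌋₊ + 1) : ℕ) : ℝ) := by exact_mod_cast h5
        _ = ((hfin u).toFinset.card : ℝ) * ((⌊c * ff X⌋₊ + 1 : ℕ) : ℝ) := by push_cast; ring
        _ ≤ _ := mul_le_mul h7 h6 (Nat.cast_nonneg _) hr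
    have h5 : ((univ.biUnion (fun u => (hfin u).toFinset.biUnion (fun p => Icc (p - ⌊c * ff X⌋₊) p))).card : ℝ) ≤
        ∑ u, (((hfin u).toFinset.biUnion (fun p => Icc (p - ⌊c * ff X⌋₊) p)).card : ℝ) := by
      exact_mod_cast Finset.card_biUnion_le
    have h6 : ∑ u, (((hfin u).toFinset.biUnion (fun p => Icc (p - ⌊c * ff X⌋₊) p)).card : ℝ) ≤
        (Fintype.card U : ℝ) * (X ^ (7 / 8 : ℝ) * (c * ff X + 1)) := by
      calc _ ≤ ∑ _u : U, X ^ (7 / 8 : ℝ) * (c * ff X + 1) := Finset.sum_le_sum fun u _ => h4 u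
        _ = _ := by rw [sum_const, card_univ, nsmul_eq_mul]
    have hUM : (Fintype.card U : ℝ) ≤ M := by exact_mod_cast hU
    have hM0 : (0 : ℝ) ≤ M := Nat.cast_nonneg M
    have h7 : (Fintype.card U : ℝ) * (X ^ (7 / 8 : ℝ) * (c * ff X + 1)) ≤
        X ^ (7 / 8 : ℝ) * (((M : ℝ) + 1) * (c + 1) * ff X + 1) := by
      calc (Fintype.card U : ℝ) * (X ^ (7 / 8 : ℝ) * (c * ff X + 1)) ≤
          (M : ℝ) * (X ^ (7 / 8 : ℝ) * (c * ff X + 1)) := mul_le_mul_of_nonneg_right hUM (by positivity)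
        _ = X ^ (7 / 8 : ℝ) * (M * (c * ff X + 1)) := by ring
        _ ≤ _ := by
          apply mul_le_mul_of_nonneg_left _ hr
          have h8 : (M : ℝ) * (c * ff X + 1) ≤ M * (c * ff X + ff X) := by gcongr
          have h9 : (M : ℝ) * (c * ff X + ff X) = M * (c + 1) * ff X := by ring
          have h10 : (M : ℝ) * (c + 1) * ff X ≤ ((M : ℝ) + 1) * (c + 1) * ff X := by
            apply mul_le_mul_of_nonneg_right _ (by linarith)
            apply mul_le_mul_of_nonneg_right _ (by linarith)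
            linarith
          linarith
    exact h5.trans (h6.trans h7)
  · intro n p u hp hnp hpn
    rw [mem_biUnion]
    refine ⟨u, mem_univ _, ?_⟩
    rw [mem_biUnion]
    refine ⟨p, (hfin u).mem_toFinset.2 hp, ?_⟩
    rw [mem_Icc]
    have h4 : p - n ≤ ⌊c * ff X⌋₊ := by
      apply Nat.le_floor
      rw [Nat.cast_sub hnp]
      linarith
    omega

/-- the tail sums of a rapidly decreasing family -/
theorem tail_sum {N : ℕ} (H : Fin N → ℝ) (D : ℝ) (hD : 1 < D) (hH0 : ∀ i, 0 ≤ H i)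
    (hH : ∀ i j : Fin N, i < j → D * H j ≤ H i) (i : Fin N) :
    ∑ j ∈ Finset.Ioi i, H j ≤ H i / (D - 1) := by
  have hD1 : 0 < D - 1 := by linarith
  obtain ⟨g, hg⟩ : ∃ g : ℕ → ℝ, g = fun j => if hj : j < N then H ⟨j, hj⟩ else 0 := ⟨_, rfl⟩
  have hg0 : ∀ j, 0 ≤ g j := by
    intro j
    rw [hg]
    dsimp only
    split_ifs
    · exact hH0 _
    · exact le_rfl
  have hgs : ∀ j, D * g (j + 1) ≤ g j := by
    intro j
    by_cases h1 : j + 1 < N
    · have h2 : j < N := by omega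
      rw [hg]
      simp only [h1, h2, dif_pos]
      exact hH ⟨j, h2⟩ ⟨j + 1, h1⟩ (by simp [Fin.lt_def])
    · have h2 : g (j + 1) = 0 := by rw [hg]; simp only [h1, dif_neg, not_false_eq_true]
      rw [h2, mul_zero]
      exact hg0 j
  have hsum : ∀ d, ∑ j ∈ Finset.Ioc (i : ℕ) (i + d), g j + g (i + d) / (D - 1) ≤ g i / (D - 1) := by
    intro d
    induction d with
    | zero => simp
    | succ d ih =>
      rw [← add_assoc, Finset.sum_Ioc_succ_top (by omega)]
      have h1 := hgs (i + d)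
      have h2 : g (↑i + d + 1) + g (↑i + d + 1) / (D - 1) ≤ g (↑i + d) / (D - 1) := by
        rw [le_div_iff₀ hD1, add_mul, div_mul_cancel₀ _ hD1.ne']
        linarith
      linarith
  have h1 : ∑ j ∈ Finset.Ioi i, H j = ∑ j ∈ Finset.Ioc (i : ℕ) (i + (N - 1 - i)), g j := by
    have h2 : Finset.Ioc (i : ℕ) (i + (N - 1 - i)) = (Finset.Ioi i).map Fin.valEmbedding := by
      rw [Fin.map_valEmbedding_Ioi]
      ext j
      have := i.2
      simp only [Finset.mem_Ioc, Finset.mem_Ioo]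
      omega
    rw [h2, Finset.sum_map]
    apply Finset.sum_congr rfl
    intro j _
    rw [hg]
    simp
  have h2 := hsum (N - 1 - i)
  have h3 : g i = H i := by rw [hg]; simp
  rw [← h1, h3] at h2
  have h4 : 0 ≤ g (↑i + (N - 1 - ↑i)) / (D - 1) := div_nonneg (hg0 _) hD1.le
  linarith

/-- rounding to a grid -/
noncomputable def rd (g x : ℝ) : ℝ := g * round (x / g)

theorem rd_near (g x : ℝ) (hg : 0 < g) : |rd g x - x| ≤ g / 2 := by
  have h := abs_sub_round (x / g)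
  have e1 : rd g x - x = -(g * (x / g - round (x / g))) := by
    unfold rd; field_simp; ring
  rw [e1, abs_neg, abs_mul, abs_of_pos hg]
  calc g * |x / g - round (x / g)| ≤ g * (1 / 2) := mul_le_mul_of_nonneg_left h hg.le
    _ = g / 2 := by ring

theorem rd_sep (g x x' : ℝ) (hg : 0 < g) (h : rd g x ≠ rd g x') : g ≤ |rd g x - rd g x'| := by
  have h1 : round (x / g) ≠ round (x' / g) := fun h2 => h (by unfold rd; rw [h2])
  have h2 : (1 : ℝ) ≤ |(round (x / g) : ℝ) - round (x' / g)| := by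
    have h3 : (1 : ℤ) ≤ |round (x / g) - round (x' / g)| := Int.one_le_abs (sub_ne_zero.2 h1)
    exact_mod_cast h3
  unfold rd
  rw [← mul_sub, abs_mul, abs_of_pos hg]
  calc g = g * 1 := (mul_one g).symm
    _ ≤ _ := mul_le_mul_of_nonneg_left h2 hg.le

theorem rd_zero (g : ℝ) : rd g 0 = 0 := by simp [rd]

end Pool.Agent.W126.MultiCore
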