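import Mathlib
import Pool.Agent.W126.MultiCore
import Pool.Agent.H362R2.RQ.Fin
import Pool.Agent.W199.ExMain

set_option autoImplicit false

/-! Every small finite set is, at its exact size, the limit of the scaled primes, at several scales at once. -/

open Finset Filter

namespace Pool.Agent.W126.MultiB

open Pool.Agent.H256R2.SC (ff)
open Pool.Agent.H312R2.RG.C3 (ff_tendsto ff_small)
open Pool.Agent.H362R2.RQ (stRQ)
open Pool.Agent.W126.View
open Pool.Agent.W126.Words
open Pool.Agent.W126.MultiCore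
open Pool.Agent.W199.ExMain (InClass crt)

/-- tails, with a mesh smaller than the size -/
theorem tail_sum2 {N : ℕ} (h u : Fin N → ℝ) (D : ℝ) (hD : 1 < D) (hu : ∀ i, 0 ≤ u i ∧ u i ≤ h i)
    (hd : ∀ i j : Fin N, i < j → D * h j ≤ u i) (i : Fin N) :
    ∑ j ∈ Finset.Ioi i, h j ≤ u i / (D - 1) := by
  classical
  have h1 := tail_sum (Function.update h i (u i)) D hD (by
    intro j
    by_cases hj : j = i
    · subst hj; simp [(hu j).1]
    · rw [Function.update_of_ne hj]
      exact (hu j).1.trans (hu j).2) (by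
    intro i' j hij
    by_cases hj : j = i
    · subst hj
      rw [Function.update_self, Function.update_of_ne hij.ne]
      calc D * u j ≤ D * h j := mul_le_mul_of_nonneg_left (hu j).2 (by linarith)
        _ ≤ u i' := hd i' j hij
        _ ≤ h i' := (hu i').2
    · rw [Function.update_of_ne hj]
      by_cases hi' : i' = i
      · subst hi'
        rw [Function.update_self]
        exact hd i' j hij
      · rw [Function.update_of_ne hi']
        exact (hd i' j hij).trans (hu i').2) i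
  rw [Function.update_self] at h1
  refine le_trans (le_of_eq ?_) h1
  apply Finset.sum_congr rfl
  intro j hj
  rw [mem_Ioi] at hj
  rw [Function.update_of_ne hj.ne']

/-- a full level of a rapidly decreasing system of levels is seen -/
theorem see {N k : ℕ} (q a n : ℕ) (base τ W : ℝ) (h u : Fin N → ℝ) (y : Fin N → Fin k → ℝ)
    (G : Finset (Fin N → Fin k)) (hu : ∀ i, 0 < u i ∧ u i ≤ h i)
    (hd : ∀ i j : Fin N, i < j → 80 * h j ≤ u i) (hy : ∀ i b, |y i b| ≤ 2 * h i)
    (hsep : ∀ i b b', y i b ≠ y i b' → u i ≤ |y i b - y i b'|) (hτ : ∀ i, τ ≤ u i / 16)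
    (hhit : ∀ w ∈ G, ∃ p : ℕ, p.Prime ∧ p ≡ a [MOD q] ∧ |(p : ℝ) - n - pos base y w| ≤ τ)
    (hall : ∀ p : ℕ, p.Prime → n ≤ p → (p : ℝ) ≤ n + W → p ≡ a [MOD q] ∧
      ∃ w ∈ G, |(p : ℝ) - n - pos base y w| ≤ τ)
    (i : Fin N) (hwin : ∀ w : Fin N → Fin k, h i + τ ≤ pos base y w ∧ pos base y w + h i + τ ≤ W)
    (w : Fin N → Fin k) (p : ℕ) (hp : |(p : ℝ) - n - pos base y w| ≤ τ) (hfull : Full G w i) :
    Sees q a (h i) (u i / 4) (fun b => y i b - y i (w i)) p := by
  have hσ : ∀ (i : Fin N) (w w' : Fin N → Fin k),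
      |∑ i' ∈ Finset.Ioi i, (y i' (w' i') - y i' (w i'))| ≤ u i / 8 := by
    intro i w w'
    have h0 := (hu i).1
    calc |∑ i' ∈ Finset.Ioi i, (y i' (w' i') - y i' (w i'))| ≤
        ∑ i' ∈ Finset.Ioi i, |y i' (w' i') - y i' (w i')| := Finset.abs_sum_le_sum_abs _ _
      _ ≤ ∑ i' ∈ Finset.Ioi i, 4 * h i' := by
        apply Finset.sum_le_sum
        intro i' _
        have h1 := abs_le.1 (hy i' (w' i'))
        have h2 := abs_le.1 (hy i' (w i'))
        rw [abs_le]
        constructor <;> linarith [h1.1, h1.2, h2.1, h2.2]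
      _ = 4 * ∑ i' ∈ Finset.Ioi i, h i' := by rw [Finset.mul_sum]
      _ ≤ 4 * (u i / (80 - 1)) := mul_le_mul_of_nonneg_left
        (tail_sum2 h u 80 (by norm_num) (fun i => ⟨(hu i).1.le, (hu i).2⟩) hd i) (by norm_num)
      _ ≤ u i / 8 := by linarith
  refine view q a n base τ W (h i) (u i / 4) y (fun i => u i / 8) G hhit hall hσ i ?_ ?_ hwin w p hp
    (fun b => by
      obtain ⟨w', hw', h1, h2⟩ := hfull b
      exact ⟨w', hw', h1, by rw [h2]⟩)
  · intro i0 hi0 b b' hbb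
    have h1 := hsep i0 b b' hbb
    have h2 := hd i0 i hi0
    have h3 := hτ i0
    have h4 := (hu i0).1
    linarith
  · have h3 := hτ i
    linarith

/-- at the scale `H`, up to the distance `R H` and up to `ε H`, the primes seen from `p` form the set of the
`V b` and lie in the classes prescribed by `a` -/
def Looks {k : ℕ} (a : ℕ → ℕ) (q : ℕ) (R ε H : ℝ) (V : Fin k → ℝ) (p : ℕ) : Prop :=
  (∀ p' : ℕ, p'.Prime → |(p' : ℝ) - p| ≤ R * H → InClass a q p' ∧ ∃ b, |((p' : ℝ) - p) / H - V b| ≤ ε) ∧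
  (∀ b, ∃ p' : ℕ, p'.Prime ∧ InClass a q p' ∧ |((p' : ℝ) - p) / H - V b| ≤ ε)

theorem looks_of_sees {k : ℕ} (Q A : ℕ) (a : ℕ → ℕ) (q : ℕ) (hcl : ∀ p : ℕ, p ≡ A [MOD Q] → InClass a q p)
    (R ε H e : ℝ) (hH : 0 < H) (T V : Fin k → ℝ) (p : ℕ)
    (h : Sees Q A (R * H) e T p) (hT : ∀ b, |T b - H * V b| ≤ ε * H - e) : Looks a q R ε H V p := by
  have key : ∀ (x : ℝ) (b : Fin k), |x - T b| ≤ e → |x / H - V b| ≤ ε := by
    intro x b hx
    have e1 : x / H - V b = (x - H * V b) / H := by field_simp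
    rw [e1, abs_div, abs_of_pos hH, div_le_iff₀ hH]
    have h1 := abs_le.1 hx
    have h2 := abs_le.1 (hT b)
    rw [abs_le]
    constructor <;> linarith [h1.1, h1.2, h2.1, h2.2]
  refine ⟨fun p' hp' hd => ?_, fun b => ?_⟩
  · obtain ⟨h1, b, h2⟩ := h.1 p' hp' hd
    exact ⟨hcl _ h1, b, key _ b h2⟩
  · obtain ⟨p', hp', h1, h2⟩ := h.2 b
    exact ⟨p', hp', hcl _ h1, key _ b h2⟩

theorem cnt_prod (r M : ℕ) (j : Fin M) :
    cnt (fun l : Fin (r * M) => (finProdFinEquiv.symm l).2) j = r := by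
  unfold cnt
  have h1 : (univ.filter (fun l : Fin (r * M) => (finProdFinEquiv.symm l).2 = j)) =
      (univ : Finset (Fin r)).map ⟨fun i => finProdFinEquiv (i, j), by
        intro i i' h
        have := finProdFinEquiv.injective h
        simpa using this⟩ := by
    ext l
    simp only [mem_filter, mem_univ, true_and, Finset.mem_map]
    constructor
    · intro h
      refine ⟨(finProdFinEquiv.symm l).1, ?_⟩
      rw [← h]
      exact finProdFinEquiv.apply_symm_apply l
    · rintro ⟨i, rfl⟩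
      change (finProdFinEquiv.symm (finProdFinEquiv (i, j))).2 = j
      rw [Equiv.symm_apply_apply]
  rw [h1, card_map, card_univ, Fintype.card_fin]

theorem multiB (r k : ℕ) (a : ℕ → ℕ) (ha : ∀ l : ℕ, l.Prime → ¬ l ∣ a l) (H : Fin r → ℝ → ℝ)
    (hH : ∀ i, ∀ᶠ X : ℝ in atTop, Real.log X ≤ H i X ∧ H i X ≤ ff X)
    (hHH : ∀ i j : Fin r, i < j → Tendsto (fun X => H i X / H j X) atTop atTop) :
    ∃ K : ℕ, ∃ c : ℝ, 0 < c ∧ ∀ V : Fin r → Fin (k + 1) → ℝ, (∀ i b, |V i b| ≤ c) → (∀ i, V i 0 = 0) →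
    ∀ q : ℕ, Squarefree q → ∀ ε : ℝ, 0 < ε → ∀ X₀ : ℝ, ∃ X : ℝ, X₀ ≤ X ∧ X ^ (7 / 8 : ℝ) ≤
      ({p : ℕ | p.Prime ∧ X < p ∧ (p : ℝ) ≤ 4 * X ∧
        {p' : ℕ | p'.Prime ∧ |(p' : ℝ) - p| ≤ c * ff X}.ncard ≤ K ∧
        ∀ i, Looks a q c ε (H i X) (V i) p}.ncard : ℝ) := by
  classical
  obtain ⟨η, hη, hcore⟩ := core stRQ
  -- the number of sizes
  obtain ⟨M, hM⟩ : ∃ M : ℕ, (1 - (((k + 1 : ℕ) : ℝ) ^ r)⁻¹) ^ M < η := by
    apply exists_pow_lt_of_lt_one hη
    have : (0 : ℝ) < (((k + 1 : ℕ) : ℝ) ^ r)⁻¹ := by positivity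
    linarith
  obtain ⟨K, hK, cp, hcp, hcore2⟩ := hcore (r * M) (k + 1) (by omega)
  refine ⟨K, ?_⟩
  by_contra hcon
  push Not at hcon
  choose! V hV hV0 q hq ε hε X₀ hX₀ using hcon
  -- the sizes
  obtain ⟨N, hN⟩ : ∃ N : ℝ, N = ((r * M : ℕ) : ℝ) := ⟨_, rfl⟩
  have hN0 : 0 ≤ N := by rw [hN]; positivity
  obtain ⟨gg, hgg⟩ : ∃ gg : ℝ → ℝ, gg = fun c => min (ε c) c / 2 := ⟨_, rfl⟩
  have hgg0 : ∀ c, 0 < c → 0 < gg c := by
    intro c hc
    rw [hgg]
    have := hε c hc
    positivity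
  have hggc : ∀ c, 0 < c → gg c ≤ c / 2 := by
    intro c _
    rw [hgg]
    have := min_le_right (ε c) c
    dsimp only
    linarith
  have hggε : ∀ c, gg c ≤ ε c / 2 := by
    intro c
    rw [hgg]
    have := min_le_left (ε c) c
    dsimp only
    linarith
  obtain ⟨c0, hc0def⟩ : ∃ c0 : ℝ, c0 = cp / (16 * (N + 1)) := ⟨_, rfl⟩
  have hc0 : 0 < c0 := by rw [hc0def]; positivity
  have hc0cp : 16 * (N + 1) * c0 = cp := by rw [hc0def]; field_simp
  obtain ⟨cs, hcs0, hcss⟩ : ∃ cs : ℕ → ℝ, cs 0 = c0 ∧ ∀ j, cs (j + 1) = gg (cs j) / 80 :=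
    ⟨fun j => Nat.rec c0 (fun _ c => gg c / 80) j, rfl, fun _ => rfl⟩
  have hcspos : ∀ j, 0 < cs j := by
    intro j
    induction j with
    | zero => rw [hcs0]; exact hc0
    | succ j ih => rw [hcss]; have := hgg0 _ ih; positivity
  have hcsstep : ∀ j, cs (j + 1) ≤ cs j := by
    intro j
    rw [hcss]
    have h1 := hggc _ (hcspos j)
    have h2 := hcspos j
    linarith
  have hcsanti : Antitone cs := antitone_nat_of_succ_le hcsstep
  have hcslt : ∀ j j', j < j' → 80 * cs j' ≤ gg (cs j) := by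
    intro j j' hjj
    have h1 : cs j' ≤ cs (j + 1) := hcsanti hjj
    rw [hcss] at h1
    linarith
  -- the smallest mesh
  obtain ⟨γ, hγdef⟩ : ∃ γ : ℝ, γ = cs M := ⟨_, rfl⟩
  have hγ0 : 0 < γ := by rw [hγdef]; exact hcspos M
  have hγ : ∀ j : Fin M, 80 * γ ≤ gg (cs j) := fun j => by rw [hγdef]; exact hcslt j M j.2
  obtain ⟨Q, A, hQ, hAQ, hcrt⟩ := crt a ha (∑ j : Fin M, q (cs j))
  have hclass : ∀ j : Fin M, ∀ p : ℕ, p ≡ A [MOD Q] → InClass a (q (cs j)) p := by
    intro j p hp l hl hlq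
    refine hcrt p hp l hl ?_
    have h1 : l ≤ q (cs j) := Nat.le_of_dvd (Nat.pos_of_ne_zero (hq _ (hcspos j)).ne_zero) hlq
    exact h1.trans (Finset.single_le_sum (f := fun j : Fin M => q (cs j)) (fun _ _ => Nat.zero_le _)
      (mem_univ j))
  -- a large X
  have hev1 : ∀ᶠ X : ℝ in atTop, ∀ i, Real.log X ≤ H i X ∧ H i X ≤ ff X := eventually_all.2 hH
  have hev2 : ∀ᶠ X : ℝ in atTop, ∀ i j : Fin r, i < j → 80 * c0 / (80 * γ) ≤ H i X / H j X := by
    rw [eventually_all]
    intro i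
    rw [eventually_all]
    intro j
    by_cases hij : i < j
    · filter_upwards [(hHH i j hij).eventually_ge_atTop (80 * c0 / (80 * γ))] with X hX _
      exact hX
    · exact Eventually.of_forall fun X h => absurd h hij
  have hev3 : ∀ᶠ X : ℝ in atTop, ∀ j : Fin M, X₀ (cs j) ≤ X :=
    eventually_all.2 fun j => eventually_ge_atTop _
  obtain ⟨X, hmain, hbad, hsmall, hX1, hlog, hscale, hHX, hHHX, hXX₀⟩ :=
    ((hcore2 Q A hQ hAQ γ hγ0).and ((bad_small M cp hcp).and
    ((ff_small cp hcp).and ((eventually_ge_atTop (1 : ℝ)).and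
    ((Real.tendsto_log_atTop.eventually_gt_atTop 0).and
    ((Pool.Agent.H672R3.InfRec.scale_ev (cp / (16 * (γ + 1))) (by positivity)).and
    (hev1.and (hev2.and hev3)))))))).exists
  have hHpos : ∀ i, 0 < H i X := fun i => hlog.trans_le (hHX i).1
  have hffpos : 0 < ff X := by
    by_contra h0
    push Not at h0
    have h1 : cp / (16 * (γ + 1)) * ff X ≤ 0 := mul_nonpos_of_nonneg_of_nonpos (by positivity) h0
    linarith
  have hτ16 : γ * Real.log X ≤ cp * ff X / 16 := by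
    calc γ * Real.log X ≤ (γ + 1) * Real.log X := by nlinarith
      _ ≤ (γ + 1) * (cp / (16 * (γ + 1)) * ff X) := mul_le_mul_of_nonneg_left hscale (by positivity)
      _ = _ := by field_simp
  have hlog16 : Real.log X ≤ cp * ff X / 16 := by
    refine hscale.trans ?_
    have h1 : cp / (16 * (γ + 1)) ≤ cp / 16 := by
      apply div_le_div_of_nonneg_left hcp.le (by norm_num)
      linarith
    have := mul_le_mul_of_nonneg_right h1 hffpos.le
    linarith
  -- the levels
  set e : Fin r × Fin M ≃ Fin (r * M) := finProdFinEquiv with he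
  have hlex : ∀ l l' : Fin (r * M), l < l' → (e.symm l).1 < (e.symm l').1 ∨
      ((e.symm l).1 = (e.symm l').1 ∧ (e.symm l).2 < (e.symm l').2) := by
    intro l l' hll
    obtain ⟨⟨i, j⟩, rfl⟩ := e.surjective l
    obtain ⟨⟨i', j'⟩, rfl⟩ := e.surjective l'
    rw [Equiv.symm_apply_apply, Equiv.symm_apply_apply]
    simp only
    rw [Fin.lt_def] at hll
    simp only [he, finProdFinEquiv_apply_val] at hll
    rcases lt_trichotomy i i' with h1 | h1 | h1
    · exact Or.inl h1
    · right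
      refine ⟨h1, ?_⟩
      rw [h1] at hll
      rw [Fin.lt_def]
      omega
    · exfalso
      rw [Fin.lt_def] at h1
      have h2 : M * ((i' : ℕ) + 1) ≤ M * (i : ℕ) := Nat.mul_le_mul_left M h1
      have h3 := j'.2
      rw [Nat.mul_add, Nat.mul_one] at h2
      omega
  set h : Fin (r * M) → ℝ := fun l => cs (e.symm l).2 * H (e.symm l).1 X with hh
  set u : Fin (r * M) → ℝ := fun l => gg (cs (e.symm l).2) * H (e.symm l).1 X with huu
  set y : Fin (r * M) → Fin (k + 1) → ℝ := fun l b =>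
    H (e.symm l).1 X * rd (gg (cs (e.symm l).2)) (V (cs (e.symm l).2) (e.symm l).1 b) with hy
  have hu : ∀ l, 0 < u l ∧ u l ≤ h l := by
    intro l
    have h1 := hHpos (e.symm l).1
    have h2 := hgg0 _ (hcspos (e.symm l).2)
    have h3 := hggc _ (hcspos (e.symm l).2)
    have h4 := hcspos (e.symm l).2
    refine ⟨mul_pos h2 h1, mul_le_mul_of_nonneg_right ?_ h1.le⟩
    linarith
  have hd : ∀ l l' : Fin (r * M), l < l' → 80 * h l' ≤ u l := by
    intro l l' hll
    simp only [hh, huu]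
    rcases hlex l l' hll with h1 | ⟨h1, h2⟩
    · have h2 := hHHX _ _ h1
      have h3 := hHpos (e.symm l).1
      have h4 := hHpos (e.symm l').1
      rw [div_le_div_iff₀ (by positivity) h4] at h2
      have h5 : cs (e.symm l').2 ≤ c0 := by
        rw [← hcs0]
        exact hcsanti (Nat.zero_le _)
      have h6 := hγ (e.symm l).2
      calc 80 * (cs (e.symm l').2 * H (e.symm l').1 X) ≤ 80 * (c0 * H (e.symm l').1 X) := by gcongr
        _ = 80 * c0 * H (e.symm l').1 X := by ring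
        _ ≤ H (e.symm l).1 X * (80 * γ) := h2
        _ ≤ H (e.symm l).1 X * gg (cs (e.symm l).2) := by gcongr
        _ = _ := by ring
    · rw [← h1]
      have h3 := hHpos (e.symm l).1
      have h4 := hcslt _ _ (Fin.lt_def.1 h2)
      calc 80 * (cs (e.symm l').2 * H (e.symm l).1 X) = (80 * cs (e.symm l').2) * H (e.symm l).1 X := by ring
        _ ≤ _ := mul_le_mul_of_nonneg_right h4 h3.le
  have hyb : ∀ l b, |y l b| ≤ 2 * h l := by
    intro l b
    have h1 := hHpos (e.symm l).1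
    have h2 := hgg0 _ (hcspos (e.symm l).2)
    have h3 := hggc _ (hcspos (e.symm l).2)
    have h4 := abs_le.1 (rd_near _ (V (cs (e.symm l).2) (e.symm l).1 b) h2)
    have h5 := abs_le.1 (hV _ (hcspos (e.symm l).2) (e.symm l).1 b)
    have h6 := hcspos (e.symm l).2
    simp only [hy, hh]
    rw [abs_mul, abs_of_pos h1]
    have h7 : |rd (gg (cs (e.symm l).2)) (V (cs (e.symm l).2) (e.symm l).1 b)| ≤ 2 * cs (e.symm l).2 := by
      rw [abs_le]
      constructor <;> linarith [h4.1, h4.2, h5.1, h5.2]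
    calc H (e.symm l).1 X * |rd (gg (cs (e.symm l).2)) (V (cs (e.symm l).2) (e.symm l).1 b)| ≤
        H (e.symm l).1 X * (2 * cs (e.symm l).2) := mul_le_mul_of_nonneg_left h7 h1.le
      _ = _ := by ring
  have hsep : ∀ l b b', y l b ≠ y l b' → u l ≤ |y l b - y l b'| := by
    intro l b b' hbb
    have h1 := hHpos (e.symm l).1
    have h2 := hgg0 _ (hcspos (e.symm l).2)
    have h3 : rd (gg (cs (e.symm l).2)) (V (cs (e.symm l).2) (e.symm l).1 b) ≠
        rd (gg (cs (e.symm l).2)) (V (cs (e.symm l).2) (e.symm l).1 b') := fun h => hbb (by simp only [hy]; rw [h])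
    have h4 := rd_sep _ _ _ h2 h3
    simp only [hy, huu]
    rw [← mul_sub, abs_mul, abs_of_pos h1, mul_comm]
    exact mul_le_mul_of_nonneg_left h4 h1.le
  have hτ : ∀ l, γ * Real.log X ≤ u l / 16 := by
    intro l
    have h1 := (hHX (e.symm l).1).1
    have h2 := hγ (e.symm l).2
    have h3 : 80 * γ * Real.log X ≤ u l := by
      simp only [huu]
      calc 80 * γ * Real.log X ≤ gg (cs (e.symm l).2) * Real.log X := mul_le_mul_of_nonneg_right h2 hlog.le
        _ ≤ _ := mul_le_mul_of_nonneg_left h1 (hgg0 _ (hcspos _)).le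
    have h4 : 0 < γ * Real.log X := by positivity
    linarith
  have hhb : ∀ l, h l ≤ c0 * ff X := by
    intro l
    simp only [hh]
    have h1 : cs (e.symm l).2 ≤ c0 := by
      rw [← hcs0]
      exact hcsanti (Nat.zero_le _)
    exact mul_le_mul h1 (hHX _).2 (hHpos _).le hc0.le
  have hcpff : cp * ff X = 16 * (N + 1) * (c0 * ff X) := by rw [← hc0cp]; ring
  have hcff0 : 0 < c0 * ff X := by positivity
  have hsum : ∀ w : Fin (r * M) → Fin (k + 1), |∑ l, y l (w l)| ≤ cp * ff X / 8 := by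
    intro w
    calc |∑ l, y l (w l)| ≤ ∑ l, |y l (w l)| := Finset.abs_sum_le_sum_abs _ _
      _ ≤ ∑ _l : Fin (r * M), 2 * (c0 * ff X) := by
        apply Finset.sum_le_sum
        intro l _
        have h1 := hyb l (w l)
        have h2 := hhb l
        linarith
      _ = N * (2 * (c0 * ff X)) := by rw [sum_const, card_univ, Fintype.card_fin, nsmul_eq_mul, hN]
      _ ≤ cp * ff X / 8 := by
        rw [hcpff]
        linarith
  -- the good primes
  set S : Fin M → Set ℕ := fun j => {p : ℕ | p.Prime ∧ X < p ∧ (p : ℝ) ≤ 4 * X ∧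
    {p' : ℕ | p'.Prime ∧ |(p' : ℝ) - p| ≤ cs j * ff X}.ncard ≤ K ∧
    ∀ i, Looks a (q (cs j)) (cs j) (ε (cs j)) (H i X) (V (cs j) i) p} with hS
  have hSfin : ∀ j, (S j).Finite := by
    intro j
    apply (Set.finite_Iic ⌊4 * X⌋₊).subset
    intro p hp
    rw [Set.mem_Iic]
    exact Nat.le_floor hp.2.2.1
  obtain ⟨bad, hbad1, hbad2⟩ := hbad (Fin M) S (by rw [Fintype.card_fin]) hSfin
    (fun j => hX₀ _ (hcspos j) X (hXX₀ j))
  obtain ⟨n, hn1, hn2, hn3, G, hG, hhit, hall, hKn⟩ := hmain y hsum bad hbad1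
  -- a realised label
  obtain ⟨w, hw, j, hwj⟩ : ∃ w ∈ G, ∃ j : Fin M, ∀ l, (e.symm l).2 = j → Full G w l ∧ w l = 0 := by
    by_contra hno
    push Not at hno
    have h1 := labels (0 : Fin (k + 1)) (r * M) (fun l => (e.symm l).2) (univ : Finset (Fin M)) G (by
      intro w hw j _
      obtain ⟨l, hl1, hl2⟩ := hno w hw j
      exact ⟨l, hl1, fun h => hl2 h.1 h.2⟩)
    have h2 : ∏ j : Fin M, (1 - ((Fintype.card (Fin (k + 1)) : ℝ) ^
        (cnt (fun l : Fin (r * M) => (e.symm l).2) j))⁻¹) = (1 - (((k + 1 : ℕ) : ℝ) ^ r)⁻¹) ^ M := by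
      rw [Finset.prod_congr rfl (fun j _ => by rw [he, cnt_prod r M j, Fintype.card_fin]), prod_const, card_univ,
        Fintype.card_fin]
    rw [h2, Fintype.card_fin] at h1
    have h3 : (0 : ℝ) < ((k + 1 : ℕ) : ℝ) ^ (r * M) := by positivity
    have h4 := mul_lt_mul_of_pos_left hM h3
    linarith
  obtain ⟨p, hp, hpa, hpw⟩ := hhit w hw
  have hpos : ∀ w : Fin (r * M) → Fin (k + 1), cp * ff X * (3 / 8) ≤ pos (cp * ff X / 2) y w ∧
      pos (cp * ff X / 2) y w ≤ cp * ff X * (5 / 8) := by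
    intro w
    have := abs_le.1 (hsum w)
    unfold pos
    constructor <;> linarith
  have hpw' := abs_le.1 hpw
  have hposw := hpos w
  have hcpos : 0 < cp * ff X := by positivity
  have hpge : (n : ℝ) + cp * ff X / 4 ≤ p := by linarith [hpw'.1]
  have hple : (p : ℝ) ≤ n + cp * ff X * (3 / 4) := by linarith [hpw'.2]
  have hnp : n ≤ p := by
    have : (n : ℝ) ≤ p := by linarith
    exact_mod_cast this
  apply hn3
  refine hbad2 n p j ?_ hnp (by linarith)
  refine ⟨hp, by linarith, by linarith, ?_, ?_⟩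
  · refine le_trans (Set.ncard_le_ncard ?_ ?_) hKn
    · rintro p' ⟨hp', hd⟩
      have hd' := abs_le.1 hd
      have h1 : cs j * ff X ≤ c0 * ff X := by
        apply mul_le_mul_of_nonneg_right _ hffpos.le
        rw [← hcs0]
        exact hcsanti (Nat.zero_le _)
      have h3 : 16 * (c0 * ff X) ≤ cp * ff X := by
        rw [hcpff]
        have : 0 ≤ N * (c0 * ff X) := by positivity
        linarith
      refine ⟨hp', ?_, ?_⟩
      · have : (n : ℝ) ≤ p' := by linarith [hd'.1]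
        exact_mod_cast this
      · linarith [hd'.2]
    · apply (Set.finite_Iic ⌊(n : ℝ) + cp * ff X⌋₊).subset
      rintro p' ⟨_, _, h3⟩
      exact Nat.le_floor h3
  intro i
  obtain ⟨hfull, hw0⟩ := hwj (e (i, j)) (by simp)
  have hsees := see Q A n (cp * ff X / 2) (γ * Real.log X) (cp * ff X) h u y G hu hd hyb hsep hτ hhit hall
    (e (i, j)) (by
      intro w'
      have h1 := hpos w'
      have h2 := hhb (e (i, j))
      have h3 : 16 * (c0 * ff X) ≤ cp * ff X := by
        rw [hcpff]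
        have : 0 ≤ N * (c0 * ff X) := by positivity
        linarith
      constructor <;> linarith [h1.1, h1.2]) w p hpw hfull
  have e1 : h (e (i, j)) = cs j * H i X := by simp [hh]
  have e2 : u (e (i, j)) = gg (cs j) * H i X := by simp [huu]
  have e3 : ∀ b, y (e (i, j)) b = H i X * rd (gg (cs j)) (V (cs j) i b) := by intro b; simp [hy]
  rw [e1, e2, hw0] at hsees
  have hHi := hHpos i
  have hggj := hgg0 _ (hcspos j)
  have hggεj := hggε (cs j)
  refine looks_of_sees Q A a (q (cs j)) (hclass j) (cs j) (ε (cs j)) (H i X) (gg (cs j) * H i X / 4) hHi _ _ p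
    hsees ?_
  intro b
  rw [e3 b, e3 0, hV0 _ (hcspos j) i, rd_zero, mul_zero, sub_zero, ← mul_sub, abs_mul, abs_of_pos hHi]
  have h1 := rd_near _ (V (cs j) i b) hggj
  have h2 := mul_le_mul_of_nonneg_left h1 hHi.le
  have h3 := mul_le_mul_of_nonneg_right hggεj hHi.le
  have h4 : 0 < gg (cs j) * H i X := by positivity
  linarith

end Pool.Agent.W126.MultiB
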