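import Mathlib
import Pool.Agent.W126.MultiCore
import Pool.Agent.H362R2.RQ.Fin

set_option autoImplicit false

/-! Prescribed shapes at all but boundedly many of any number of scales at once. -/

open Finset Filter

namespace Pool.Agent.W126.MultiA

open Pool.Agent.H256R2.SC (ff)
open Pool.Agent.H312R2.RG.C3 (ff_tendsto ff_small)
open Pool.Agent.H362R2.RQ (stRQ exists_pow_eta)
open Pool.Agent.W126.View
open Pool.Agent.W126.Words
open Pool.Agent.W126.MultiCore

/-- at the scale `H`, up to the distance `R H` and up to `δ H`, the primes seen from `p` are `≡ a (mod q)`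
and form the set of the `V b` -/
def Looks {k : ℕ} (q a : ℕ) (R δ H : ℝ) (V : Fin k → ℝ) (p : ℕ) : Prop :=
  (∀ p' : ℕ, p'.Prime → |(p' : ℝ) - p| ≤ R * H → p' ≡ a [MOD q] ∧ ∃ b, |((p' : ℝ) - p) / H - V b| ≤ δ) ∧
  (∀ b, ∃ p' : ℕ, p'.Prime ∧ p' ≡ a [MOD q] ∧ |((p' : ℝ) - p) / H - V b| ≤ δ)

theorem looks_of_sees {k : ℕ} (q a : ℕ) (R δ H e : ℝ) (hH : 0 < H) (T V : Fin k → ℝ) (p : ℕ)
    (h : Sees q a (R * H) e T p) (hT : ∀ b, |T b - H * V b| ≤ δ * H - e) : Looks q a R δ H V p := by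
  have key : ∀ (x : ℝ) (b : Fin k), |x - T b| ≤ e → |x / H - V b| ≤ δ := by
    intro x b hx
    have e1 : x / H - V b = (x - H * V b) / H := by field_simp
    rw [e1, abs_div, abs_of_pos hH, div_le_iff₀ hH]
    have h1 := abs_le.1 hx
    have h2 := abs_le.1 (hT b)
    rw [abs_le]
    constructor <;> linarith [h1.1, h1.2, h2.1, h2.2]
  refine ⟨fun p' hp' hd => ?_, fun b => ?_⟩
  · obtain ⟨h1, b, h2⟩ := h.1 p' hp' hd
    exact ⟨h1, b, key _ b h2⟩
  · obtain ⟨p', hp', h1, h2⟩ := h.2 b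
    exact ⟨p', hp', h1, key _ b h2⟩

theorem multiA (k : ℕ) (hk : 1 ≤ k) : ∃ L : ℕ, ∀ N : ℕ, ∃ K : ℕ, ∃ c : ℝ, 0 < c ∧
    ∀ R δ : ℝ, 1 ≤ R → 0 < δ → δ ≤ 1 → ∀ q a : ℕ, Squarefree q → a.Coprime q → ∃ X₀ : ℝ, ∀ X : ℝ, X₀ ≤ X →
    ∀ H : Fin N → ℝ, (∀ i, Real.log X ≤ H i ∧ R * H i ≤ c * ff X) →
    (∀ i j : Fin N, i < j → 80 * R * H j ≤ δ * H i) →
    ∀ V : Fin N → Fin k → ℝ, (∀ i b, |V i b| ≤ R) →
    ∃ (E : Finset (Fin N)) (o : Fin N → Fin k), E.card ≤ L ∧ (∀ i ∈ E, ∃ b b', V i b ≠ V i b') ∧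
      X ^ (7 / 8 : ℝ) ≤ ({p : ℕ | p.Prime ∧ X < p ∧ (p : ℝ) ≤ 4 * X ∧
        {p' : ℕ | p'.Prime ∧ |(p' : ℝ) - p| ≤ c * ff X}.ncard ≤ K ∧
        ∀ i, i ∉ E → Looks q a R δ (H i) (fun b => V i b - V i (o i)) p}.ncard : ℝ) := by
  classical
  obtain ⟨η, hη, hcore⟩ := core stRQ
  obtain ⟨l, hl⟩ := exists_pow_eta k hk η hη
  refine ⟨l, fun N => ?_⟩
  obtain ⟨K, hK, cp, hcp, hcore2⟩ := hcore N k hk
  refine ⟨K, cp / (16 * (N + 1)), by positivity, fun R δ hR hδ hδ1 q a hq ha => ?_⟩
  obtain ⟨c, hcdef⟩ : ∃ c : ℝ, c = cp / (16 * (N + 1)) := ⟨_, rfl⟩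
  have hN0 : (0 : ℝ) ≤ N := Nat.cast_nonneg N
  have hc : 0 < c := by rw [hcdef]; positivity
  have hccp : 16 * (N + 1) * c = cp := by rw [hcdef]; field_simp
  have hccp' : 16 * c ≤ cp := by
    rw [← hccp]
    nlinarith
  rw [← hcdef]
  have hev := hcore2 q a hq ha (δ / 32) (by positivity)
  obtain ⟨X₀, hX₀⟩ := eventually_atTop.1 (hev.and ((bad_small (2 ^ N * k ^ N) cp hcp).and
    ((ff_small cp hcp).and ((eventually_ge_atTop (1 : ℝ)).and
    ((Real.tendsto_log_atTop.eventually_gt_atTop 0).and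
    (Pool.Agent.H672R3.InfRec.scale_ev (cp / 8) (by positivity)))))))
  refine ⟨X₀, fun X hX => ?_⟩
  obtain ⟨hmain, hbad, hsmall, hX1, hlog, hscale⟩ := hX₀ X hX
  intro H hH hHd V hV
  have hR0 : 0 < R := by linarith
  have hHpos : ∀ i, 0 < H i := fun i => hlog.trans_le (hH i).1
  set g : ℝ := δ / 2 with hg
  have hg0 : 0 < g := by positivity
  set y : Fin N → Fin k → ℝ := fun i b => H i * rd g (V i b) with hy
  have hrdR : ∀ i b, |rd g (V i b)| ≤ 2 * R := by
    intro i b
    have h1 := abs_le.1 (rd_near g (V i b) hg0)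
    have h2 := abs_le.1 (hV i b)
    rw [abs_le]
    constructor <;> linarith [h1.1, h1.2, h2.1, h2.2]
  have hyb : ∀ i b, |y i b| ≤ 2 * R * H i := by
    intro i b
    simp only [hy]
    rw [abs_mul, abs_of_pos (hHpos i), mul_comm]
    exact mul_le_mul_of_nonneg_right (hrdR i b) (hHpos i).le
  have hcffpos : 0 < cp * ff X := by linarith
  have hcff0 : 0 < c * ff X := by
    have e1 : cp * ff X = 16 * (N + 1) * (c * ff X) := by rw [← hccp]; ring
    by_contra hcon
    push Not at hcon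
    have : 16 * ((N : ℝ) + 1) * (c * ff X) ≤ 0 := mul_nonpos_of_nonneg_of_nonpos (by positivity) hcon
    linarith
  have hcff16 : 16 * (c * ff X) ≤ cp * ff X := by
    have e1 : cp * ff X = 16 * (N + 1) * (c * ff X) := by rw [← hccp]; ring
    rw [e1]
    have : 0 ≤ (N : ℝ) * (c * ff X) := by positivity
    linarith
  have hsum : ∀ w : Fin N → Fin k, |∑ i, y i (w i)| ≤ cp * ff X / 8 := by
    intro w
    calc |∑ i, y i (w i)| ≤ ∑ i, |y i (w i)| := Finset.abs_sum_le_sum_abs _ _
      _ ≤ ∑ _i : Fin N, 2 * (c * ff X) := by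
        apply Finset.sum_le_sum
        intro i _
        have h1 := hyb i (w i)
        have h2 := (hH i).2
        linarith
      _ = N * (2 * (c * ff X)) := by rw [sum_const, card_univ, Fintype.card_fin, nsmul_eq_mul]
      _ ≤ cp * ff X / 8 := by
        have e1 : cp * ff X = 16 * (N + 1) * (c * ff X) := by rw [← hccp]; ring
        rw [e1]
        linarith
  -- tails
  set D : ℝ := 80 * R / δ with hD
  have hDge : 80 ≤ D := by
    rw [hD, le_div_iff₀ hδ]
    nlinarith
  have htail : ∀ i : Fin N, ∑ j ∈ Finset.Ioi i, H j ≤ H i / (D - 1) := by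
    apply tail_sum H D (by linarith) (fun i => (hHpos i).le)
    intro i j hij
    have h1 := hHd i j hij
    have e1 : D * H j = (80 * R * H j) / δ := by rw [hD]; ring
    rw [e1, div_le_iff₀ hδ]
    linarith
  have hσ : ∀ (i : Fin N) (w w' : Fin N → Fin k),
      |∑ i' ∈ Finset.Ioi i, (y i' (w' i') - y i' (w i'))| ≤ g * H i / 8 := by
    intro i w w'
    calc |∑ i' ∈ Finset.Ioi i, (y i' (w' i') - y i' (w i'))| ≤
        ∑ i' ∈ Finset.Ioi i, |y i' (w' i') - y i' (w i')| := Finset.abs_sum_le_sum_abs _ _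
      _ ≤ ∑ i' ∈ Finset.Ioi i, 4 * R * H i' := by
        apply Finset.sum_le_sum
        intro i' _
        have h1 := abs_le.1 (hyb i' (w' i'))
        have h2 := abs_le.1 (hyb i' (w i'))
        rw [abs_le]
        constructor <;> linarith [h1.1, h1.2, h2.1, h2.2]
      _ = 4 * R * ∑ i' ∈ Finset.Ioi i, H i' := by rw [Finset.mul_sum]
      _ ≤ 4 * R * (H i / (D - 1)) := mul_le_mul_of_nonneg_left (htail i) (by positivity)
      _ ≤ g * H i / 8 := by
        have hHi := hHpos i
        have h3 : 0 < D - 1 := by linarith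
        have h4 : D * δ = 80 * R := by rw [hD]; field_simp
        have e1 : 4 * R * (H i / (D - 1)) = (4 * R * H i) / (D - 1) := by ring
        rw [e1, div_le_iff₀ h3]
        have h5 : 4 * R * H i ≤ δ * (D - 1) / 16 * H i := by
          apply mul_le_mul_of_nonneg_right _ hHi.le
          have : δ * (D - 1) = 80 * R - δ := by linarith
          rw [this]
          linarith
        rw [hg]
        linarith
  -- suppose the theorem fails
  by_contra hcon
  push Not at hcon
  set S : Finset (Fin N) × (Fin N → Fin k) → Set ℕ := fun u => if u.1.card ≤ l ∧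
    ∀ i ∈ u.1, ∃ b b', V i b ≠ V i b' then
    {p : ℕ | p.Prime ∧ X < p ∧ (p : ℝ) ≤ 4 * X ∧
        {p' : ℕ | p'.Prime ∧ |(p' : ℝ) - p| ≤ c * ff X}.ncard ≤ K ∧
        ∀ i, i ∉ u.1 → Looks q a R δ (H i) (fun b => V i b - V i (u.2 i)) p} else ∅ with hS
  have hSfin : ∀ u, (S u).Finite := by
    intro u
    apply (Set.finite_Iic ⌊4 * X⌋₊).subset
    intro p hp
    simp only [hS] at hp
    split_ifs at hp with h1
    · rw [Set.mem_Iic]
      exact Nat.le_floor hp.2.2.1
    · exact absurd hp (Set.notMem_empty p)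
  have hScard : ∀ u, ((S u).ncard : ℝ) < X ^ (7 / 8 : ℝ) := by
    intro u
    simp only [hS]
    split_ifs with h1
    · exact hcon u.1 u.2 h1.1 h1.2
    · rw [Set.ncard_empty, Nat.cast_zero]
      exact Real.rpow_pos_of_pos (by linarith) _
  obtain ⟨bad, hbad1, hbad2⟩ := hbad (Finset (Fin N) × (Fin N → Fin k)) S (by
    rw [Fintype.card_prod, Fintype.card_finset, Fintype.card_fin]
    simp) hSfin hScard
  obtain ⟨n, hn1, hn2, hn3, G, hG, hhit, hall, hKn⟩ := hmain y hsum bad hbad1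
  -- a word with few levels that are not full
  obtain ⟨w, hw, hwl⟩ := few N l G (by
    rw [Fintype.card_fin]
    have h1 : (((k - 1) ^ l * k ^ N : ℕ) : ℝ) < ((G.card * k ^ l : ℕ) : ℝ) := by
      push_cast
      have hkN : (0 : ℝ) < (k : ℝ) ^ N := by
        have : (0 : ℝ) < k := by exact_mod_cast hk
        positivity
      have hkl : (0 : ℝ) ≤ (k : ℝ) ^ l := by positivity
      calc ((k - 1 : ℕ) : ℝ) ^ l * (k : ℝ) ^ N < η * (k : ℝ) ^ l * (k : ℝ) ^ N :=
            mul_lt_mul_of_pos_right hl hkN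
        _ = (η * (k : ℝ) ^ N) * (k : ℝ) ^ l := by ring
        _ ≤ G.card * (k : ℝ) ^ l := mul_le_mul_of_nonneg_right hG hkl
    exact_mod_cast h1)
  obtain ⟨p, hp, hpa, hpw⟩ := hhit w hw
  have hpos : ∀ w : Fin N → Fin k, cp * ff X * (3 / 8) ≤ pos (cp * ff X / 2) y w ∧
      pos (cp * ff X / 2) y w ≤ cp * ff X * (5 / 8) := by
    intro w
    have := abs_le.1 (hsum w)
    unfold pos
    constructor <;> linarith
  have hτ8 : δ / 32 * Real.log X ≤ cp * ff X / 16 := by
    have : δ / 32 * Real.log X ≤ 1 / 2 * Real.log X := by gcongr; linarith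
    linarith
  have hpw' := abs_le.1 hpw
  have hposw := hpos w
  have hpge : (n : ℝ) + cp * ff X / 4 ≤ p := by linarith [hpw'.1]
  have hple : (p : ℝ) ≤ n + cp * ff X * (3 / 4) := by linarith [hpw'.2]
  have hnp : n ≤ p := by
    have : (n : ℝ) ≤ p := by linarith
    exact_mod_cast this
  apply hn3
  refine hbad2 n p ((univ.filter (fun i => ¬ Full G w i ∧ ∃ b b', V i b ≠ V i b')), w) ?_ hnp (by linarith)
  simp only [hS]
  rw [if_pos ⟨(Finset.card_le_card (fun i hi => by
    rw [mem_filter] at hi ⊢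
    exact ⟨hi.1, hi.2.1⟩)).trans hwl.le, fun i hi => (mem_filter.1 hi).2.2⟩]
  refine ⟨hp, by linarith, by linarith, ?_, ?_⟩
  · refine le_trans (Set.ncard_le_ncard ?_ ?_) hKn
    · rintro p' ⟨hp', hd⟩
      have hd' := abs_le.1 hd
      refine ⟨hp', ?_, ?_⟩
      · have : (n : ℝ) ≤ p' := by linarith [hd'.1]
        exact_mod_cast this
      · linarith [hd'.2]
    · apply (Set.finite_Iic ⌊(n : ℝ) + cp * ff X⌋₊).subset
      rintro p' ⟨_, _, h3⟩
      exact Nat.le_floor h3
  · intro i hi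
    have hfull : ∀ b, ∃ w' ∈ G, (∀ i' : Fin N, i' < i → w' i' = w i') ∧ y i (w' i) = y i b := by
      intro b
      by_cases hnf : Full G w i
      · obtain ⟨w', hw', h1, h2⟩ := hnf b
        exact ⟨w', hw', h1, by rw [h2]⟩
      · refine ⟨w, hw, fun _ _ => rfl, ?_⟩
        have h1 : V i (w i) = V i b := by
          by_contra hne
          exact hi (mem_filter.2 ⟨mem_univ _, hnf, w i, b, hne⟩)
        simp only [hy]
        rw [h1]
    have hHi := hHpos i
    have hlogH : δ / 32 * Real.log X ≤ g * H i / 16 := by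
      rw [hg]
      have := mul_le_mul_of_nonneg_left (hH i).1 (show 0 ≤ δ / 32 by positivity)
      linarith
    have hsees := view q a n (cp * ff X / 2) (δ / 32 * Real.log X) (cp * ff X) (R * H i) (g * H i / 4) y
      (fun i => g * H i / 8) G hhit hall hσ i (by
        intro i0 hi0 b b' hbb
        have hHi0 := hHpos i0
        have h1 : rd g (V i0 b) ≠ rd g (V i0 b') := fun h => hbb (by simp only [hy]; rw [h])
        have h2 := rd_sep g _ _ hg0 h1
        have h3 : g * H i0 ≤ |y i0 b - y i0 b'| := by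
          simp only [hy]
          rw [← mul_sub, abs_mul, abs_of_pos hHi0, mul_comm]
          exact mul_le_mul_of_nonneg_left h2 hHi0.le
        have h4 := hHd i0 i hi0
        have h5 : R * H i ≤ g * H i0 / 40 := by rw [hg]; linarith
        have h6 : δ / 32 * Real.log X ≤ g * H i0 / 16 := by
          rw [hg]
          have := mul_le_mul_of_nonneg_left (hH i0).1 (show 0 ≤ δ / 32 by positivity)
          linarith
        have h7 : 0 < g * H i0 := by positivity
        linarith) (by linarith) (by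
        intro w'
        have h1 := hpos w'
        have h2 := (hH i).2
        constructor <;> linarith [h1.1, h1.2]) w p hpw hfull
    refine looks_of_sees q a R δ (H i) (g * H i / 4) hHi _ _ p hsees ?_
    intro b
    have h1 := abs_le.1 (rd_near g (V i b) hg0)
    have h2 := abs_le.1 (rd_near g (V i (w i)) hg0)
    have e1 : (y i b - y i (w i)) - H i * (V i b - V i (w i)) =
        H i * ((rd g (V i b) - V i b) - (rd g (V i (w i)) - V i (w i))) := by
      simp only [hy]; ring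
    have h3 : |(rd g (V i b) - V i b) - (rd g (V i (w i)) - V i (w i))| ≤ g := by
      rw [abs_le]
      constructor <;> linarith [h1.1, h1.2, h2.1, h2.2]
    rw [e1, abs_mul, abs_of_pos hHi]
    calc H i * |(rd g (V i b) - V i b) - (rd g (V i (w i)) - V i (w i))| ≤ H i * g :=
          mul_le_mul_of_nonneg_left h3 hHi.le
      _ ≤ δ * H i - g * H i / 4 := by
        rw [hg]
        have : 0 < δ * H i := by positivity
        linarith

end Pool.Agent.W126.MultiA
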