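import Mathlib
import Pool.Agent.W126.Words

set_option autoImplicit false

/-! A dense set of words contains a full tree branching at many levels (ordered Sauer-Shelah lemma for words
over a finite alphabet). -/

open Finset

namespace Pool.Agent.W126.Tree

open Pool.Agent.W126.Words

variable {α : Type}

/-- the words of `G` contain a full tree with the branching levels `I` -/
def Shat {N : ℕ} (G : Finset (Fin N → α)) (I : Finset (Fin N)) : Prop :=
  ∃ φ : (Fin N → α) → (Fin N → α), (∀ u, φ u ∈ G) ∧ (∀ u, ∀ i ∈ I, φ u i = u i) ∧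
    ∀ (m : ℕ) (u u' : Fin N → α), (∀ i ∈ I, (i : ℕ) < m → u i = u' i) →
      ∀ i : Fin N, (i : ℕ) < m → φ u i = φ u' i

variable [Fintype α] [DecidableEq α]

theorem shat_skip {N : ℕ} (G : Finset (Fin (N + 1) → α)) (b : α) (J : Finset (Fin N))
    (h : Shat (sub G b) J) : Shat G (J.map (Fin.succEmb N)) := by
  obtain ⟨φ, h1, h2, h3⟩ := h
  refine ⟨fun u => Fin.cons b (φ (Fin.tail u)), fun u => (mem_sub G b _).1 (h1 _), ?_, ?_⟩
  · intro u i hi
    obtain ⟨j, hj, rfl⟩ := mem_map.1 hi
    simp only [Fin.coe_succEmb, Fin.cons_succ]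
    rw [h2 _ j hj]
    rfl
  · intro m u u' huu i hi
    revert hi
    refine Fin.cases ?_ ?_ i
    · intro _
      simp
    · intro j hj
      simp only [Fin.cons_succ]
      apply h3 (m - 1)
      · intro i' hi' hm
        have := huu (Fin.succ i') (mem_map.2 ⟨i', hi', rfl⟩) (by rw [Fin.val_succ]; omega)
        exact this
      · rw [Fin.val_succ] at hj
        omega

theorem shat_branch {N : ℕ} (G : Finset (Fin (N + 1) → α)) (J : Finset (Fin N))
    (h : ∀ b, Shat (sub G b) J) : Shat G (insert 0 (J.map (Fin.succEmb N))) := by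
  choose φ h1 h2 h3 using h
  refine ⟨fun u => Fin.cons (u 0) (φ (u 0) (Fin.tail u)), fun u => (mem_sub G _ _).1 (h1 _ _), ?_, ?_⟩
  · intro u i hi
    rw [mem_insert] at hi
    rcases hi with rfl | hi
    · simp
    · obtain ⟨j, hj, rfl⟩ := mem_map.1 hi
      simp only [Fin.coe_succEmb, Fin.cons_succ]
      rw [h2 _ _ j hj]
      rfl
  · intro m u u' huu i hi
    have h0 : u 0 = u' 0 := huu 0 (mem_insert_self _ _) (by
      have : ((0 : Fin (N + 1)) : ℕ) = 0 := rfl
      omega)
    revert hi
    refine Fin.cases ?_ ?_ i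
    · intro _
      simp [h0]
    · intro j hj
      simp only [Fin.cons_succ]
      rw [← h0]
      apply h3 (u 0) (m - 1)
      · intro i' hi' hm
        have := huu (Fin.succ i') (mem_insert_of_mem (mem_map.2 ⟨i', hi', rfl⟩)) (by
          rw [Fin.val_succ]; omega)
        exact this
      · rw [Fin.val_succ] at hj
        omega

/-- the places of the letter `o` -/
def Z {N : ℕ} (o : α) (w : Fin N → α) : Finset (Fin N) := univ.filter (fun i => w i = o)

omit [Fintype α] in
theorem Z_cons_o {N : ℕ} (o : α) (v : Fin N → α) :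
    Z o (Fin.cons o v : Fin (N + 1) → α) = insert 0 ((Z o v).map (Fin.succEmb N)) := by
  ext i
  refine Fin.cases ?_ ?_ i
  · simp [Z]
  · intro j
    simp [Z]

omit [Fintype α] in
theorem Z_cons_ne {N : ℕ} (o b : α) (hb : b ≠ o) (v : Fin N → α) :
    Z o (Fin.cons b v : Fin (N + 1) → α) = (Z o v).map (Fin.succEmb N) := by
  ext i
  refine Fin.cases ?_ ?_ i
  · simp [Z, hb]
  · intro j
    simp [Z]

omit [Fintype α] in
theorem card_Z_cons {N : ℕ} (o b : α) (v : Fin N → α) :
    (Z o (Fin.cons b v : Fin (N + 1) → α)).card = (if b = o then 1 else 0) + (Z o v).card := by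
  by_cases hb : b = o
  · subst hb
    rw [Z_cons_o, card_insert_of_notMem, card_map, if_pos rfl]
    · omega
    · simp
  · rw [Z_cons_ne o b hb, card_map, if_neg hb, zero_add]

theorem sum_words {N : ℕ} {M : Type} [AddCommMonoid M] (F : (Fin (N + 1) → α) → M) :
    ∑ w, F w = ∑ v : Fin N → α, ∑ b : α, F (Fin.cons b v) := by
  rw [← (Fin.consEquiv (fun _ : Fin (N + 1) => α)).sum_comp, Fintype.sum_prod_type, sum_comm]
  rfl

open Classical in
/-- there are at least as many words `w` with a full tree branching at the places of the letter `o` in `w`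
as words in `G` -/
theorem card_le (o : α) : ∀ (N : ℕ) (G : Finset (Fin N → α)),
    G.card ≤ (univ.filter (fun w : Fin N → α => Shat G (Z o w))).card := by
  intro N
  induction N with
  | zero =>
    intro G
    rcases G.eq_empty_or_nonempty with h | ⟨w, hw⟩
    · rw [h]
      simp
    · have h1 : G.card ≤ 1 := by
        have := Finset.card_le_univ G
        simpa using this
      refine h1.trans (Finset.card_pos.2 ⟨w, mem_filter.2 ⟨mem_univ _, fun _ => w, fun _ => hw, ?_, ?_⟩⟩)
      · intro u i
        exact i.elim0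
      · intro m u u' _ i
        exact i.elim0
  | succ N ih =>
    intro G
    have e1 : (univ.filter (fun w : Fin (N + 1) → α => Shat G (Z o w))).card =
        ∑ v : Fin N → α, (univ.filter (fun b : α => Shat G (Z o (Fin.cons b v : Fin (N + 1) → α)))).card := by
      simp only [card_filter]
      exact sum_words _
    have e2 : ∑ b, (univ.filter (fun v : Fin N → α => Shat (sub G b) (Z o v))).card =
        ∑ v : Fin N → α, (univ.filter (fun b : α => Shat (sub G b) (Z o v))).card := by
      simp only [card_filter]
      exact sum_comm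
    rw [card_sub, e1]
    refine (sum_le_sum fun b _ => ih (sub G b)).trans ?_
    rw [e2]
    apply sum_le_sum
    intro v _
    by_cases hall : ∀ b, Shat (sub G b) (Z o v)
    · apply card_le_card
      intro b _
      rw [mem_filter]
      refine ⟨mem_univ _, ?_⟩
      by_cases hb : b = o
      · subst hb
        rw [Z_cons_o]
        exact shat_branch G _ hall
      · rw [Z_cons_ne o b hb]
        exact shat_skip G b _ (hall b)
    · push Not at hall
      obtain ⟨b0, hb0⟩ := hall
      rcases (univ.filter (fun b : α => Shat (sub G b) (Z o v))).eq_empty_or_nonempty with h | ⟨b1, hb1⟩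
      · rw [h]
        simp
      · rw [mem_filter] at hb1
        have h2 : univ.erase o ⊆
            univ.filter (fun b : α => Shat G (Z o (Fin.cons b v : Fin (N + 1) → α))) := by
          intro b hb
          rw [mem_erase] at hb
          rw [mem_filter]
          refine ⟨mem_univ _, ?_⟩
          rw [Z_cons_ne o b hb.1]
          exact shat_skip G b1 _ hb1.2
        have h3 : univ.filter (fun b : α => Shat (sub G b) (Z o v)) ⊆ univ.erase b0 := by
          intro b hb
          rw [mem_filter] at hb
          rw [mem_erase]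
          refine ⟨?_, mem_univ _⟩
          rintro rfl
          exact hb0 hb.2
        refine (card_le_card h3).trans (le_trans ?_ (card_le_card h2))
        rw [card_erase_of_mem (mem_univ _), card_erase_of_mem (mem_univ _)]

/-- first and second moment of the number of letters `o` in a random word -/
theorem moments (o : α) : ∀ N : ℕ,
    (∑ w : Fin N → α, (((Z o w).card : ℝ) - N / Fintype.card α) = 0) ∧
    ∑ w : Fin N → α, (((Z o w).card : ℝ) - N / Fintype.card α) ^ 2 ≤ N * (Fintype.card α : ℝ) ^ N := by
  have hk : (0 : ℝ) < Fintype.card α := by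
    have : 0 < Fintype.card α := Fintype.card_pos_iff.2 ⟨o⟩
    exact_mod_cast this
  have hk1 : (1 : ℝ) ≤ Fintype.card α := by
    have : 0 < Fintype.card α := Fintype.card_pos_iff.2 ⟨o⟩
    exact_mod_cast this
  set k : ℝ := (Fintype.card α : ℝ) with hkdef
  set d : α → ℝ := fun b => (if b = o then 1 else 0) - 1 / k with hd
  have hd0 : ∑ b, d b = 0 := by
    simp only [hd]
    rw [sum_sub_distrib, sum_ite_eq' univ o, if_pos (mem_univ _), sum_const, card_univ, nsmul_eq_mul,
      ← hkdef]
    field_simp
    ring
  have hd2 : ∑ b, d b ^ 2 ≤ k := by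
    calc ∑ b, d b ^ 2 ≤ ∑ _b : α, (1 : ℝ) := by
          apply sum_le_sum
          intro b _
          have h1 : 0 < 1 / k := by positivity
          have h2 : 1 / k ≤ 1 := by rw [div_le_one hk]; exact hk1
          simp only [hd]
          split_ifs
          · nlinarith
          · nlinarith
      _ = k := by rw [sum_const, card_univ, nsmul_eq_mul, mul_one]
  intro N
  induction N with
  | zero =>
    constructor
    · simp [Z]
    · simp [Z]
  | succ N ih =>
    obtain ⟨ih1, ih2⟩ := ih
    have hterm : ∀ (v : Fin N → α) (b : α),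
        (((Z o (Fin.cons b v : Fin (N + 1) → α)).card : ℝ) - ((N + 1 : ℕ) : ℝ) / k) =
        d b + (((Z o v).card : ℝ) - N / k) := by
      intro v b
      rw [card_Z_cons]
      simp only [hd]
      push_cast
      split_ifs <;> ring
    constructor
    · rw [sum_words]
      simp only [hterm]
      have : ∀ v : Fin N → α, ∑ b : α, (d b + (((Z o v).card : ℝ) - N / k)) =
          k * (((Z o v).card : ℝ) - N / k) := by
        intro v
        rw [sum_add_distrib, hd0, sum_const, card_univ, nsmul_eq_mul, zero_add]
      simp only [this]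
      rw [← mul_sum, ih1, mul_zero]
    · rw [sum_words]
      simp only [hterm]
      have h1 : ∀ v : Fin N → α, ∑ b : α, (d b + (((Z o v).card : ℝ) - N / k)) ^ 2 =
          ∑ b, d b ^ 2 + k * (((Z o v).card : ℝ) - N / k) ^ 2 := by
        intro v
        have e : ∀ b, (d b + (((Z o v).card : ℝ) - N / k)) ^ 2 =
            d b ^ 2 + 2 * (((Z o v).card : ℝ) - N / k) * d b + (((Z o v).card : ℝ) - N / k) ^ 2 := by
          intro b
          ring
        simp only [e]
        rw [sum_add_distrib, sum_add_distrib, ← mul_sum, hd0, mul_zero, add_zero, sum_const, card_univ,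
          nsmul_eq_mul]
      simp only [h1]
      rw [sum_add_distrib, sum_const, card_univ, ← mul_sum, nsmul_eq_mul]
      have h2 : ((Fintype.card (Fin N → α) : ℕ) : ℝ) = k ^ N := by
        rw [card_words]
        push_cast
        rfl
      rw [h2]
      have h3 : (0 : ℝ) ≤ k ^ N := by positivity
      calc k ^ N * ∑ b, d b ^ 2 + k * ∑ w : Fin N → α, (((Z o w).card : ℝ) - N / k) ^ 2
          ≤ k ^ N * k + k * (N * k ^ N) := by
            apply add_le_add
            · exact mul_le_mul_of_nonneg_left hd2 h3
            · exact mul_le_mul_of_nonneg_left ih2 hk.le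
        _ = ((N + 1 : ℕ) : ℝ) * k ^ (N + 1) := by push_cast; ring

open Classical in
/-- a dense set of words over an alphabet with `k` letters contains a full tree with at least
`N / k - C √N` branching levels -/
theorem tree {N : ℕ} (o : α) (G : Finset (Fin N → α)) (η C : ℝ) (hη : 0 < η) (hC : 0 < C)
    (hCη : 1 < η * C ^ 2) (hG : η * (Fintype.card α : ℝ) ^ N ≤ G.card) :
    ∃ I : Finset (Fin N), (N : ℝ) / Fintype.card α - C * Real.sqrt N ≤ I.card ∧ Shat G I := by
  have hk : (0 : ℝ) < Fintype.card α := by
    have : 0 < Fintype.card α := Fintype.card_pos_iff.2 ⟨o⟩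
    exact_mod_cast this
  by_contra hcon
  push Not at hcon
  have hGpos : (0 : ℝ) < G.card := lt_of_lt_of_le (by positivity) hG
  have h1 := card_le o N G
  have h1r : (G.card : ℝ) ≤ ((univ.filter (fun w : Fin N → α => Shat G (Z o w))).card : ℝ) := by
    exact_mod_cast h1
  have h2 : ∀ w ∈ univ.filter (fun w : Fin N → α => Shat G (Z o w)),
      C ^ 2 * N ≤ (((Z o w).card : ℝ) - N / Fintype.card α) ^ 2 := by
    intro w hw
    rw [mem_filter] at hw
    have h3 : ¬ ((N : ℝ) / Fintype.card α - C * Real.sqrt N ≤ (Z o w).card) := fun h => hcon _ h hw.2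
    push Not at h3
    have h4 : 0 ≤ C * Real.sqrt N := by positivity
    have h5 : (C * Real.sqrt N) ^ 2 = C ^ 2 * N := by
      rw [mul_pow, Real.sq_sqrt (Nat.cast_nonneg N)]
    rw [← h5]
    nlinarith
  rcases Nat.eq_zero_or_pos N with hN | hN
  · subst hN
    have h3 : (univ.filter (fun w : Fin 0 → α => Shat G (Z o w))).card ≠ 0 := by
      intro h0
      rw [h0] at h1r
      push_cast at h1r
      linarith
    obtain ⟨w, hw⟩ := Finset.card_ne_zero.1 h3
    rw [mem_filter] at hw
    apply hcon (Z o w) _ hw.2
    simp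
  · have hN0 : (0 : ℝ) < N := by exact_mod_cast hN
    have h3 : ((univ.filter (fun w : Fin N → α => Shat G (Z o w))).card : ℝ) * (C ^ 2 * N) ≤
        N * (Fintype.card α : ℝ) ^ N := by
      calc ((univ.filter (fun w : Fin N → α => Shat G (Z o w))).card : ℝ) * (C ^ 2 * N) =
          ∑ _w ∈ univ.filter (fun w : Fin N → α => Shat G (Z o w)), C ^ 2 * (N : ℝ) := by
            rw [sum_const, nsmul_eq_mul]
        _ ≤ ∑ w ∈ univ.filter (fun w : Fin N → α => Shat G (Z o w)),
            (((Z o w).card : ℝ) - N / Fintype.card α) ^ 2 := sum_le_sum h2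
        _ ≤ ∑ w : Fin N → α, (((Z o w).card : ℝ) - N / Fintype.card α) ^ 2 :=
            sum_le_sum_of_subset_of_nonneg (filter_subset _ _) (fun _ _ _ => sq_nonneg _)
        _ ≤ _ := (moments o N).2
    have hkN : (0 : ℝ) < (Fintype.card α : ℝ) ^ N := by positivity
    have h4 : (η * (Fintype.card α : ℝ) ^ N) * (C ^ 2 * N) ≤ N * (Fintype.card α : ℝ) ^ N :=
      (mul_le_mul_of_nonneg_right (hG.trans h1r) (by positivity)).trans h3
    have h5 : N * (Fintype.card α : ℝ) ^ N < (η * (Fintype.card α : ℝ) ^ N) * (C ^ 2 * N) := by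
      have e : (η * (Fintype.card α : ℝ) ^ N) * (C ^ 2 * N) =
          (η * C ^ 2) * (N * (Fintype.card α : ℝ) ^ N) := by ring
      rw [e]
      have : 0 < N * (Fintype.card α : ℝ) ^ N := by positivity
      nlinarith
    linarith

end Pool.Agent.W126.Tree
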