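import Mathlib
import Pool.Agent.W126.MultiA
import Pool.Agent.W126.Tree

set_option autoImplicit false

/-! Monochromatic trees of primes which see prescribed shapes. -/

open Finset Filter

namespace Pool.Agent.W126.TreeMain

open Pool.Agent.H256R2.SC (ff)
open Pool.Agent.H312R2.RG.C3 (ff_tendsto ff_small)
open Pool.Agent.H362R2.RQ (stRQ)
open Pool.Agent.W126.View
open Pool.Agent.W126.Words
open Pool.Agent.W126.MultiCore
open Pool.Agent.W126.MultiA
open Pool.Agent.W126.Tree

/-- a full tree of primes `≡ a (mod q)` of the colour `s`: at all the scales `H i`, `i ∈ I`, each of them sees the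
shape `V i`, and two of them whose indices agree before `i` differ as prescribed at the scale `H i` -/
def IsTree {N k ρ : ℕ} (q a : ℕ) (R δ : ℝ) (H : Fin N → ℝ) (V : Fin N → Fin k → ℝ) (χ : ℕ → Fin ρ)
    (s : Fin ρ) (I : Finset (Fin N)) (P : (I → Fin k) → ℕ) : Prop :=
  (∀ u, (P u).Prime ∧ P u ≡ a [MOD q] ∧ χ (P u) = s) ∧
  (∀ (u : I → Fin k) (i : I), Looks q a R δ (H i) (fun b => V i b - V i (u i)) (P u)) ∧
  ∀ (u u' : I → Fin k) (i : I), (∀ j : I, j < i → u j = u' j) →
    |((P u' : ℝ) - P u) / H i - (V i (u' i) - V i (u i))| ≤ δ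

theorem main : ∃ C : ℝ, ∀ k ρ N : ℕ, 1 ≤ k → 1 ≤ ρ → ∃ K : ℕ, ∃ c : ℝ, 0 < c ∧
    ∀ R δ : ℝ, 1 ≤ R → 0 < δ → δ ≤ 1 → ∀ q a : ℕ, Squarefree q → a.Coprime q → ∃ X₀ : ℝ, ∀ X : ℝ, X₀ ≤ X →
    ∀ H : Fin N → ℝ, (∀ i, Real.log X ≤ H i ∧ R * H i ≤ c * ff X) →
    (∀ i j : Fin N, i < j → 80 * R * H j ≤ δ * H i) →
    ∀ V : Fin N → Fin k → ℝ, (∀ i b, |V i b| ≤ R) → ∀ χ : ℕ → Fin ρ,
    ∃ (I : Finset (Fin N)) (s : Fin ρ), (N : ℝ) / k - C * Real.sqrt (ρ * N) ≤ I.card ∧
      X ^ (7 / 8 : ℝ) ≤ ({p : ℕ | X < p ∧ (p : ℝ) ≤ 4 * X ∧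
        {p' : ℕ | p'.Prime ∧ |(p' : ℝ) - p| ≤ c * ff X}.ncard ≤ K ∧
        ∃ P : (I → Fin k) → ℕ, IsTree q a R δ H V χ s I P ∧ ∃ u, P u = p}.ncard : ℝ) := by
  classical
  obtain ⟨η, hη, hcore⟩ := core stRQ
  obtain ⟨C, hC0, hC1⟩ : ∃ C : ℝ, 0 < C ∧ 1 < η * C ^ 2 := by
    refine ⟨Real.sqrt (2 / η), Real.sqrt_pos.2 (by positivity), ?_⟩
    rw [Real.sq_sqrt (by positivity)]
    field_simp
    norm_num
  refine ⟨C, fun k ρ N hk hρ => ?_⟩
  have hρ0 : (0 : ℝ) < ρ := by exact_mod_cast hρ
  obtain ⟨K, hK, cp, hcp, hcore2⟩ := hcore N k hk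
  refine ⟨K, cp / (16 * (N + 1)), by positivity, fun R δ hR hδ hδ1 q a hq ha => ?_⟩
  obtain ⟨c, hcdef⟩ : ∃ c : ℝ, c = cp / (16 * (N + 1)) := ⟨_, rfl⟩
  have hN0 : (0 : ℝ) ≤ N := Nat.cast_nonneg N
  have hc : 0 < c := by rw [hcdef]; positivity
  have hccp : 16 * (N + 1) * c = cp := by rw [hcdef]; field_simp
  have hccp' : 16 * c ≤ cp := by
    rw [← hccp]
    nlinarith
  rw [← hcdef]
  have hev := hcore2 q a hq ha (δ / 32) (by positivity)
  obtain ⟨X₀, hX₀⟩ := eventually_atTop.1 (hev.and ((bad_small (2 ^ N * ρ) cp hcp).and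
    ((ff_small cp hcp).and ((eventually_ge_atTop (1 : ℝ)).and
    ((Real.tendsto_log_atTop.eventually_gt_atTop 0).and
    (Pool.Agent.H672R3.InfRec.scale_ev (cp / 8) (by positivity)))))))
  refine ⟨X₀, fun X hX => ?_⟩
  obtain ⟨hmain, hbad, hsmall, hX1, hlog, hscale⟩ := hX₀ X hX
  intro H hH hHd V hV χ
  have hR0 : 0 < R := by linarith
  have hHpos : ∀ i, 0 < H i := fun i => hlog.trans_le (hH i).1
  set g : ℝ := δ / 2 with hg
  have hg0 : 0 < g := by positivity
  set y : Fin N → Fin k → ℝ := fun i b => H i * rd g (V i b) with hy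
  have hrdR : ∀ i b, |rd g (V i b)| ≤ 2 * R := by
    intro i b
    have h1 := abs_le.1 (rd_near g (V i b) hg0)
    have h2 := abs_le.1 (hV i b)
    rw [abs_le]
    constructor <;> linarith [h1.1, h1.2, h2.1, h2.2]
  have hyb : ∀ i b, |y i b| ≤ 2 * R * H i := by
    intro i b
    simp only [hy]
    rw [abs_mul, abs_of_pos (hHpos i), mul_comm]
    exact mul_le_mul_of_nonneg_right (hrdR i b) (hHpos i).le
  have hcffpos : 0 < cp * ff X := by linarith
  have hcff0 : 0 < c * ff X := by
    have e1 : cp * ff X = 16 * (N + 1) * (c * ff X) := by rw [← hccp]; ring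
    by_contra hcon
    push Not at hcon
    have : 16 * ((N : ℝ) + 1) * (c * ff X) ≤ 0 := mul_nonpos_of_nonneg_of_nonpos (by positivity) hcon
    linarith
  have hcff16 : 16 * (c * ff X) ≤ cp * ff X := by
    have e1 : cp * ff X = 16 * (N + 1) * (c * ff X) := by rw [← hccp]; ring
    rw [e1]
    have : 0 ≤ (N : ℝ) * (c * ff X) := by positivity
    linarith
  have hsum : ∀ w : Fin N → Fin k, |∑ i, y i (w i)| ≤ cp * ff X / 8 := by
    intro w
    calc |∑ i, y i (w i)| ≤ ∑ i, |y i (w i)| := Finset.abs_sum_le_sum_abs _ _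
      _ ≤ ∑ _i : Fin N, 2 * (c * ff X) := by
        apply Finset.sum_le_sum
        intro i _
        have h1 := hyb i (w i)
        have h2 := (hH i).2
        linarith
      _ = N * (2 * (c * ff X)) := by rw [sum_const, card_univ, Fintype.card_fin, nsmul_eq_mul]
      _ ≤ cp * ff X / 8 := by
        have e1 : cp * ff X = 16 * (N + 1) * (c * ff X) := by rw [← hccp]; ring
        rw [e1]
        linarith
  -- tails
  set D : ℝ := 80 * R / δ with hD
  have hDge : 80 ≤ D := by
    rw [hD, le_div_iff₀ hδ]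
    nlinarith
  have htail : ∀ i : Fin N, ∑ j ∈ Finset.Ioi i, H j ≤ H i / (D - 1) := by
    apply tail_sum H D (by linarith) (fun i => (hHpos i).le)
    intro i j hij
    have h1 := hHd i j hij
    have e1 : D * H j = (80 * R * H j) / δ := by rw [hD]; ring
    rw [e1, div_le_iff₀ hδ]
    linarith
  have hσ : ∀ (i : Fin N) (w w' : Fin N → Fin k),
      |∑ i' ∈ Finset.Ioi i, (y i' (w' i') - y i' (w i'))| ≤ g * H i / 8 := by
    intro i w w'
    calc |∑ i' ∈ Finset.Ioi i, (y i' (w' i') - y i' (w i'))| ≤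
        ∑ i' ∈ Finset.Ioi i, |y i' (w' i') - y i' (w i')| := Finset.abs_sum_le_sum_abs _ _
      _ ≤ ∑ i' ∈ Finset.Ioi i, 4 * R * H i' := by
        apply Finset.sum_le_sum
        intro i' _
        have h1 := abs_le.1 (hyb i' (w' i'))
        have h2 := abs_le.1 (hyb i' (w i'))
        rw [abs_le]
        constructor <;> linarith [h1.1, h1.2, h2.1, h2.2]
      _ = 4 * R * ∑ i' ∈ Finset.Ioi i, H i' := by rw [Finset.mul_sum]
      _ ≤ 4 * R * (H i / (D - 1)) := mul_le_mul_of_nonneg_left (htail i) (by positivity)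
      _ ≤ g * H i / 8 := by
        have hHi := hHpos i
        have h3 : 0 < D - 1 := by linarith
        have h4 : D * δ = 80 * R := by rw [hD]; field_simp
        have e1 : 4 * R * (H i / (D - 1)) = (4 * R * H i) / (D - 1) := by ring
        rw [e1, div_le_iff₀ h3]
        have h5 : 4 * R * H i ≤ δ * (D - 1) / 16 * H i := by
          apply mul_le_mul_of_nonneg_right _ hHi.le
          have : δ * (D - 1) = 80 * R - δ := by linarith
          rw [this]
          linarith
        rw [hg]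
        linarith
  -- suppose the theorem fails
  by_contra hcon
  push Not at hcon
  set S : Finset (Fin N) × Fin ρ → Set ℕ := fun v =>
    if (N : ℝ) / k - C * Real.sqrt (ρ * N) ≤ v.1.card then
    {p : ℕ | X < p ∧ (p : ℝ) ≤ 4 * X ∧
        {p' : ℕ | p'.Prime ∧ |(p' : ℝ) - p| ≤ c * ff X}.ncard ≤ K ∧
        ∃ P : (v.1 → Fin k) → ℕ, IsTree q a R δ H V χ v.2 v.1 P ∧ ∃ u, P u = p} else ∅ with hS
  have hSfin : ∀ u, (S u).Finite := by
    intro u
    apply (Set.finite_Iic ⌊4 * X⌋₊).subset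
    intro p hp
    simp only [hS] at hp
    split_ifs at hp with h1
    · rw [Set.mem_Iic]
      exact Nat.le_floor hp.2.1
    · exact absurd hp (Set.notMem_empty p)
  have hScard : ∀ u, ((S u).ncard : ℝ) < X ^ (7 / 8 : ℝ) := by
    intro u
    simp only [hS]
    split_ifs with h1
    · exact hcon u.1 u.2 h1
    · rw [Set.ncard_empty, Nat.cast_zero]
      exact Real.rpow_pos_of_pos (by linarith) _
  obtain ⟨bad, hbad1, hbad2⟩ := hbad (Finset (Fin N) × Fin ρ) S (by
    rw [Fintype.card_prod, Fintype.card_finset, Fintype.card_fin, Fintype.card_fin]) hSfin hScard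
  obtain ⟨n, hn1, hn2, hn3, G, hG, hhit, hall, hKn⟩ := hmain y hsum bad hbad1
  -- the primes near the positions, and their colours
  have hhit2 : ∀ w : Fin N → Fin k, ∃ p : ℕ, w ∈ G → p.Prime ∧ p ≡ a [MOD q] ∧
      |(p : ℝ) - n - pos (cp * ff X / 2) y w| ≤ δ / 32 * Real.log X := by
    intro w
    by_cases hw : w ∈ G
    · obtain ⟨p, hp⟩ := hhit w hw
      exact ⟨p, fun _ => hp⟩
    · exact ⟨0, fun h => absurd h hw⟩
  choose pr hpr using hhit2
  obtain ⟨s, hs⟩ : ∃ s : Fin ρ, η / ρ * (k : ℝ) ^ N ≤ ((G.filter (fun w => χ (pr w) = s)).card : ℝ) := by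
    by_contra h
    push Not at h
    have h1 : (G.card : ℝ) = ∑ s : Fin ρ, ((G.filter (fun w => χ (pr w) = s)).card : ℝ) := by
      rw [Finset.card_eq_sum_card_fiberwise (f := fun w => χ (pr w)) (t := univ) (fun _ _ => by simp)]
      push_cast
      rfl
    have h2 : ∑ s : Fin ρ, ((G.filter (fun w => χ (pr w) = s)).card : ℝ) <
        ∑ _s : Fin ρ, η / ρ * (k : ℝ) ^ N := by
      apply Finset.sum_lt_sum_of_nonempty
      · exact ⟨⟨0, hρ⟩, mem_univ _⟩
      · intro s _
        exact h s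
    rw [sum_const, card_univ, Fintype.card_fin, nsmul_eq_mul] at h2
    have h3 : (ρ : ℝ) * (η / ρ * (k : ℝ) ^ N) = η * (k : ℝ) ^ N := by field_simp
    linarith
  set G' := G.filter (fun w => χ (pr w) = s) with hG'
  have o : Fin k := ⟨0, hk⟩
  obtain ⟨I, hI, φ, hφ1, hφ2, hφ3⟩ := tree o G' (η / ρ) (C * Real.sqrt ρ) (by positivity) (by positivity) (by
    rw [mul_pow, Real.sq_sqrt hρ0.le]
    have e : η / ρ * (C ^ 2 * ρ) = η * C ^ 2 := by field_simp
    rw [e]
    exact hC1) (by rw [Fintype.card_fin]; exact hs)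
  rw [Fintype.card_fin, mul_assoc, ← Real.sqrt_mul hρ0.le] at hI
  -- the tree
  set ext : (I → Fin k) → (Fin N → Fin k) := fun u i => if hi : i ∈ I then u ⟨i, hi⟩ else o with hext
  have hextI : ∀ (u : I → Fin k) (i : I), ext u i = u i := by
    intro u i
    simp only [hext]
    rw [dif_pos i.2]
  set W : (I → Fin k) → (Fin N → Fin k) := fun u => φ (ext u) with hW
  have hWG : ∀ u, W u ∈ G := fun u => (mem_filter.1 (hφ1 (ext u))).1
  have hWs : ∀ u, χ (pr (W u)) = s := fun u => (mem_filter.1 (hφ1 (ext u))).2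
  have hWi : ∀ (u : I → Fin k) (i : I), W u i = u i := by
    intro u i
    simp only [hW]
    rw [hφ2 _ i i.2, hextI]
  have hWa : ∀ (u u' : I → Fin k) (i : I), (∀ j : I, j < i → u j = u' j) →
      ∀ i' : Fin N, i' < i → W u i' = W u' i' := by
    intro u u' i hu i' hi'
    apply hφ3 (i : Fin N)
    · intro j hj hji
      have h1 := hu ⟨j, hj⟩ (show (⟨j, hj⟩ : I) < i from (show j < (i : Fin N) from hji))
      have h2 := hextI u ⟨j, hj⟩
      have h3 := hextI u' ⟨j, hj⟩
      exact h2.trans (h1.trans h3.symm)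
    · exact hi'
  have hpos : ∀ w : Fin N → Fin k, cp * ff X * (3 / 8) ≤ pos (cp * ff X / 2) y w ∧
      pos (cp * ff X / 2) y w ≤ cp * ff X * (5 / 8) := by
    intro w
    have := abs_le.1 (hsum w)
    unfold pos
    constructor <;> linarith
  have hτ8 : δ / 32 * Real.log X ≤ cp * ff X / 16 := by
    have : δ / 32 * Real.log X ≤ 1 / 2 * Real.log X := by gcongr; linarith
    linarith
  have hlogH : ∀ i, δ / 32 * Real.log X ≤ g * H i / 16 := by
    intro i
    rw [hg]
    have := mul_le_mul_of_nonneg_left (hH i).1 (show 0 ≤ δ / 32 by positivity)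
    linarith
  have hrd2 : ∀ (i : Fin N) (b b' : Fin k), |(y i b - y i b') - H i * (V i b - V i b')| ≤
      δ * H i - g * H i / 4 - g * H i / 4 := by
    intro i b b'
    have hHi := hHpos i
    have h1 := abs_le.1 (rd_near g (V i b) hg0)
    have h2 := abs_le.1 (rd_near g (V i b') hg0)
    have e1 : (y i b - y i b') - H i * (V i b - V i b') =
        H i * ((rd g (V i b) - V i b) - (rd g (V i b') - V i b')) := by
      simp only [hy]; ring
    have h3 : |(rd g (V i b) - V i b) - (rd g (V i b') - V i b')| ≤ g := by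
      rw [abs_le]
      constructor <;> linarith [h1.1, h1.2, h2.1, h2.2]
    rw [e1, abs_mul, abs_of_pos hHi]
    calc H i * |(rd g (V i b) - V i b) - (rd g (V i b') - V i b')| ≤ H i * g :=
          mul_le_mul_of_nonneg_left h3 hHi.le
      _ ≤ δ * H i - g * H i / 4 - g * H i / 4 := by
        rw [hg]
        have : 0 < δ * H i := by positivity
        linarith
  have htree : IsTree q a R δ H V χ s I (fun u => pr (W u)) := by
    refine ⟨fun u => ⟨(hpr _ (hWG u)).1, (hpr _ (hWG u)).2.1, hWs u⟩, ?_, ?_⟩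
    · intro u i
      have hHi := hHpos i
      have hfull : ∀ b, ∃ w' ∈ G, (∀ i' : Fin N, i' < i → w' i' = W u i') ∧ y i (w' i) = y i b := by
        intro b
        refine ⟨W (Function.update u i b), hWG _, ?_, ?_⟩
        · apply hWa
          intro j hj
          rw [Function.update_of_ne hj.ne]
        · rw [hWi, Function.update_self]
      have hsees := view q a n (cp * ff X / 2) (δ / 32 * Real.log X) (cp * ff X) (R * H i) (g * H i / 4) y
        (fun i => g * H i / 8) G hhit hall hσ i (by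
          intro i0 hi0 b b' hbb
          have hHi0 := hHpos i0
          have h1 : rd g (V i0 b) ≠ rd g (V i0 b') := fun h => hbb (by simp only [hy]; rw [h])
          have h2 := rd_sep g _ _ hg0 h1
          have h3 : g * H i0 ≤ |y i0 b - y i0 b'| := by
            simp only [hy]
            rw [← mul_sub, abs_mul, abs_of_pos hHi0, mul_comm]
            exact mul_le_mul_of_nonneg_left h2 hHi0.le
          have h4 := hHd i0 i hi0
          have h5 : R * H i ≤ g * H i0 / 40 := by rw [hg]; linarith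
          have h6 := hlogH i0
          have h7 : 0 < g * H i0 := by positivity
          linarith) (by
            have := hlogH i
            linarith) (by
          intro w'
          have h1 := hpos w'
          have h2 := (hH i).2
          constructor <;> linarith [h1.1, h1.2]) (W u) (pr (W u)) (hpr _ (hWG u)).2.2 hfull
      rw [hWi] at hsees
      refine looks_of_sees q a R δ (H i) (g * H i / 4) hHi _ _ (pr (W u)) hsees ?_
      intro b
      have h1 := hrd2 i b (u i)
      have h2 : 0 < g * H i := by positivity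
      linarith
    · intro u u' i hu
      have hHi := hHpos i
      have h1 := pos_sub (cp * ff X / 2) y (W u) (W u') i (fun i' hi' => by
        rw [hWa u u' i hu i' hi'])
      have h2 := abs_le.1 (hσ i (W u) (W u'))
      have h3 := abs_le.1 (hpr _ (hWG u)).2.2
      have h4 := abs_le.1 (hpr _ (hWG u')).2.2
      have h5 := abs_le.1 (hrd2 i (u' i) (u i))
      rw [hWi, hWi] at h1
      have h6 := hlogH i
      have e1 : ((pr (W u') : ℝ) - pr (W u)) / H i - (V i (u' i) - V i (u i)) =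
          (((pr (W u') : ℝ) - pr (W u)) - H i * (V i (u' i) - V i (u i))) / H i := by field_simp
      show |((pr (W u') : ℝ) - pr (W u)) / H i - (V i (u' i) - V i (u i))| ≤ δ
      rw [e1, abs_div, abs_of_pos hHi, div_le_iff₀ hHi, abs_le]
      constructor <;> linarith [h2.1, h2.2, h3.1, h3.2, h4.1, h4.2, h5.1, h5.2]
  set u0 : I → Fin k := fun _ => o with hu0
  set w := W u0 with hw
  set p := pr w with hp
  have hpw := (hpr w (hWG u0)).2.2
  have hpw' := abs_le.1 hpw
  have hposw := hpos w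
  have hpge : (n : ℝ) + cp * ff X / 4 ≤ p := by linarith [hpw'.1]
  have hple : (p : ℝ) ≤ n + cp * ff X * (3 / 4) := by linarith [hpw'.2]
  have hnp : n ≤ p := by
    have : (n : ℝ) ≤ p := by linarith
    exact_mod_cast this
  apply hn3
  refine hbad2 n p (I, s) ?_ hnp (by linarith)
  simp only [hS]
  rw [if_pos hI]
  refine ⟨by linarith, by linarith, ?_, fun u => pr (W u), htree, u0, rfl⟩
  refine le_trans (Set.ncard_le_ncard ?_ ?_) hKn
  · rintro p' ⟨hp', hd⟩
    have hd' := abs_le.1 hd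
    refine ⟨hp', ?_, ?_⟩
    · have : (n : ℝ) ≤ p' := by linarith [hd'.1]
      exact_mod_cast this
    · linarith [hd'.2]
  · apply (Set.finite_Iic ⌊(n : ℝ) + cp * ff X⌋₊).subset
    rintro p' ⟨_, _, h3⟩
    exact Nat.le_floor h3

end Pool.Agent.W126.TreeMain
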