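import Mathlib
import Pool.Agent.W126.MultiCore

set_option autoImplicit false

/-! Products of combinatorial lines as positions. -/

open Finset Filter

namespace Pool.Agent.W126.BoxA

open Pool.Agent.W126.View
open Pool.Agent.W126.MultiCore

theorem lex {r M : ℕ} (l l' : Fin (r * M)) (h : l < l') :
    (finProdFinEquiv.symm l).1 < (finProdFinEquiv.symm l').1 ∨
    ((finProdFinEquiv.symm l).1 = (finProdFinEquiv.symm l').1 ∧
      (finProdFinEquiv.symm l).2 < (finProdFinEquiv.symm l').2) := by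
  obtain ⟨⟨j, i⟩, rfl⟩ := finProdFinEquiv.surjective l
  obtain ⟨⟨j', i'⟩, rfl⟩ := finProdFinEquiv.surjective l'
  rw [Fin.lt_def, finProdFinEquiv_apply_val, finProdFinEquiv_apply_val] at h
  rw [Equiv.symm_apply_apply, Equiv.symm_apply_apply]
  dsimp only at h ⊢
  rcases lt_trichotomy j j' with h1 | h1 | h1
  · exact Or.inl h1
  · subst h1
    exact Or.inr ⟨rfl, by rw [Fin.lt_def]; omega⟩
  · exfalso
    have h2 : (j' : ℕ) + 1 ≤ j := h1
    have h3 := Nat.mul_le_mul_left M h2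
    have h4 := i.2
    have h5 := i'.2
    rw [mul_add, mul_one] at h3
    omega

/-- the scale of a level -/
noncomputable def sc {r M : ℕ} (κ : ℝ) (H : Fin r → ℝ) (l : Fin (r * M)) : ℝ :=
  κ ^ ((finProdFinEquiv.symm l).2.val + 1) * H (finProdFinEquiv.symm l).1

theorem sc_apply {r M : ℕ} (κ : ℝ) (H : Fin r → ℝ) (j : Fin r) (i : Fin M) :
    sc κ H (finProdFinEquiv (j, i)) = κ ^ (i.val + 1) * H j := by
  unfold sc
  rw [Equiv.symm_apply_apply]

theorem sc_lower {r M : ℕ} (κ : ℝ) (hκ0 : 0 < κ) (hκ1 : κ ≤ 1) (H : Fin r → ℝ) (hH0 : ∀ j, 0 < H j)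
    (l : Fin (r * M)) : κ ^ M * H (finProdFinEquiv.symm l).1 ≤ sc κ H l := by
  unfold sc
  apply mul_le_mul_of_nonneg_right _ (hH0 _).le
  exact pow_le_pow_of_le_one hκ0.le hκ1 (finProdFinEquiv.symm l).2.2

theorem sc_upper {r M : ℕ} (κ : ℝ) (hκ0 : 0 < κ) (hκ1 : κ ≤ 1) (H : Fin r → ℝ) (hH0 : ∀ j, 0 < H j)
    (l : Fin (r * M)) : sc κ H l ≤ κ * H (finProdFinEquiv.symm l).1 := by
  unfold sc
  apply mul_le_mul_of_nonneg_right _ (hH0 _).le
  exact pow_le_of_le_one hκ0.le hκ1 (Nat.succ_ne_zero _)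

theorem sc_pos {r M : ℕ} (κ : ℝ) (hκ0 : 0 < κ) (H : Fin r → ℝ) (hH0 : ∀ j, 0 < H j)
    (l : Fin (r * M)) : 0 < sc κ H l := mul_pos (pow_pos hκ0 _) (hH0 _)

theorem sc_dec {r M : ℕ} (κ : ℝ) (hκ0 : 0 < κ) (hκ1 : κ ≤ 1) (H : Fin r → ℝ) (hH0 : ∀ j, 0 < H j)
    (hHd : ∀ j j' : Fin r, j < j' → H j' ≤ κ ^ M * H j) (l l' : Fin (r * M)) (h : l < l') :
    sc κ H l' ≤ κ * sc κ H l := by
  rcases lex l l' h with h1 | ⟨h1, h2⟩
  · calc sc κ H l' ≤ κ * H (finProdFinEquiv.symm l').1 := sc_upper κ hκ0 hκ1 H hH0 l'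
      _ ≤ κ * (κ ^ M * H (finProdFinEquiv.symm l).1) := mul_le_mul_of_nonneg_left (hHd _ _ h1) hκ0.le
      _ ≤ κ * sc κ H l := mul_le_mul_of_nonneg_left (sc_lower κ hκ0 hκ1 H hH0 l) hκ0.le
  · unfold sc
    rw [← h1, ← mul_assoc, ← pow_succ']
    apply mul_le_mul_of_nonneg_right _ (hH0 _).le
    apply pow_le_pow_of_le_one hκ0.le hκ1
    have : (finProdFinEquiv.symm l).2.val < (finProdFinEquiv.symm l').2.val := h2
    omega

/-- the common difference -/
noncomputable def dd {r M : ℕ} (κ : ℝ) (H : Fin r → ℝ) (F : Fin r → Finset (Fin M)) (j : Fin r) : ℝ :=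
  ∑ i ∈ F j, κ ^ (i.val + 1) * H j

theorem dd_bounds {r M : ℕ} (κ : ℝ) (hκ0 : 0 < κ) (hκ1 : κ ≤ 1 / 80) (H : Fin r → ℝ) (hH0 : ∀ j, 0 < H j)
    (F : Fin r → Finset (Fin M)) (j : Fin r) (i0 : Fin M) (h0 : i0 ∈ F j) (hmin : ∀ i ∈ F j, i0 ≤ i) :
    κ ^ (i0.val + 1) * H j ≤ dd κ H F j ∧ dd κ H F j ≤ κ ^ (i0.val + 1) * H j * (1 + 2 * κ) := by
  have hpos : ∀ i : Fin M, 0 ≤ κ ^ (i.val + 1) * H j := fun i => (mul_pos (pow_pos hκ0 _) (hH0 _)).le
  constructor
  · exact Finset.single_le_sum (f := fun i : Fin M => κ ^ (i.val + 1) * H j) (fun i _ => hpos i) h0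
  · have h1 : F j ⊆ insert i0 (Finset.Ioi i0) := by
      intro i hi
      rw [mem_insert, mem_Ioi]
      rcases (hmin i hi).lt_or_eq with h | h
      · exact Or.inr h
      · exact Or.inl h.symm
    have h2 : dd κ H F j ≤ ∑ i ∈ insert i0 (Finset.Ioi i0), κ ^ (i.val + 1) * H j :=
      Finset.sum_le_sum_of_subset_of_nonneg h1 (fun i _ _ => hpos i)
    rw [Finset.sum_insert (by simp)] at h2
    have hinv : 80 ≤ 1 / κ := by
      rw [le_div_iff₀ hκ0]
      linarith
    have h3 := tail_sum (N := M) (fun i => κ ^ (i.val + 1) * H j) (1 / κ) (by linarith) hpos (by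
      intro i i' hii
      have h4 : κ ^ (i'.val + 1) ≤ κ ^ (i.val + 1 + 1) := by
        apply pow_le_pow_of_le_one hκ0.le (by linarith)
        have : i.val < i'.val := hii
        omega
      have h5 : 1 / κ * (κ ^ (i'.val + 1) * H j) ≤ 1 / κ * (κ ^ (i.val + 1 + 1) * H j) := by
        apply mul_le_mul_of_nonneg_left _ (by positivity)
        exact mul_le_mul_of_nonneg_right h4 (hH0 _).le
      refine h5.trans (le_of_eq ?_)
      rw [pow_succ κ (i.val + 1)]
      field_simp) i0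
    have h4 : κ ^ (i0.val + 1) * H j / (1 / κ - 1) ≤ κ ^ (i0.val + 1) * H j * (2 * κ) := by
      rw [div_le_iff₀ (by linarith), mul_assoc]
      apply le_mul_of_one_le_right (hpos i0)
      have : 2 * κ * (1 / κ - 1) = 2 - 2 * κ := by field_simp
      rw [this]
      linarith
    linarith

/-- words in two indices -/
def unc {α : Type} {r M : ℕ} : (Fin r → Fin M → α) ≃ (Fin (r * M) → α) :=
  (Equiv.curry _ _ _).symm.trans (Equiv.arrowCongr finProdFinEquiv (Equiv.refl _))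

theorem unc_apply {α : Type} {r M : ℕ} (g : Fin r → Fin M → α) (l : Fin (r * M)) :
    unc g l = g (finProdFinEquiv.symm l).1 (finProdFinEquiv.symm l).2 := rfl

/-- the point of a box of words -/
def wd {α : Type} {r M : ℕ} (f : Fin r → Fin M → Option α) (u : Fin r → α) : Fin (r * M) → α :=
  unc (fun j i => (f j i).getD (u j))

theorem pos_box {α : Type} {r M : ℕ} (κ base : ℝ) (H : Fin r → ℝ) (V : Fin r → α → ℝ)
    (f : Fin r → Fin M → Option α) (u u' : Fin r → α) :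
    pos base (fun l b => sc κ H l * V (finProdFinEquiv.symm l).1 b) (wd f u) -
    pos base (fun l b => sc κ H l * V (finProdFinEquiv.symm l).1 b) (wd f u') =
    ∑ j, dd κ H (fun j => univ.filter (fun i => (f j i).isNone = true)) j * (V j (u j) - V j (u' j)) := by
  classical
  unfold pos
  have h : ∀ v : Fin r → α, ∑ l, sc κ H l * V (finProdFinEquiv.symm l).1 (wd f v l) =
      ∑ j : Fin r, ∑ i : Fin M, κ ^ (i.val + 1) * H j * V j ((f j i).getD (v j)) := by
    intro v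
    rw [← Fintype.sum_prod_type', ← Equiv.sum_comp finProdFinEquiv]
    apply Finset.sum_congr rfl
    rintro ⟨j, i⟩ _
    rw [sc_apply, wd, unc_apply, Equiv.symm_apply_apply]
  rw [add_sub_add_left_eq_sub, h, h, ← Finset.sum_sub_distrib]
  apply Finset.sum_congr rfl
  intro j _
  rw [← Finset.sum_sub_distrib, dd, Finset.sum_mul, Finset.sum_filter]
  apply Finset.sum_congr rfl
  intro i _
  split_ifs with h1
  · rw [Option.isNone_iff_eq_none] at h1
    rw [h1]
    simp only [Option.getD_none]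
    ring
  · rw [Option.isNone_iff_eq_none] at h1
    obtain ⟨b, hb⟩ := Option.ne_none_iff_exists'.1 h1
    rw [hb]
    simp

end Pool.Agent.W126.BoxA
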