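import Mathlib
import Pool.Agent.W142.ES.Line

set_option autoImplicit false

/-! Products of combinatorial lines in dense sets (density Hales-Jewett theorem in every coordinate). -/

open Finset

namespace Pool.Agent.W126.Lines

theorem fiber {X Z W : Type} [Fintype X] [Fintype Z] [Fintype W] [DecidableEq W] [Nonempty Z]
    (e : X × Z ≃ W) (A : Finset W) (t : ℝ) (hA : t * Fintype.card Z ≤ A.card) :
    ∃ z, t ≤ ((univ.filter (fun x => e (x, z) ∈ A)).card : ℝ) := by
  classical
  by_contra hcon
  push Not at hcon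
  have h1 : A.card = ∑ z, (univ.filter (fun x => e (x, z) ∈ A)).card := by
    have h2 : A.card = (univ.filter (fun p : X × Z => e p ∈ A)).card := by
      rw [← Finset.card_map e.toEmbedding]
      congr 1
      ext w
      simp
    rw [h2, card_filter, Fintype.sum_prod_type_right]
    apply sum_congr rfl
    intro z _
    rw [card_filter]
  have h3 : (A.card : ℝ) < ∑ _z : Z, t := by
    rw [h1]
    push_cast
    apply sum_lt_sum_of_nonempty ⟨Classical.arbitrary Z, mem_univ _⟩
    intro z _
    exact hcon z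
  rw [sum_const, card_univ, nsmul_eq_mul] at h3
  linarith

theorem pigeon {X κ : Type} [DecidableEq κ] [Fintype κ] [Nonempty κ] (V : Finset X) (col : X → κ)
    (t : ℝ) (hV : t * Fintype.card κ ≤ V.card) : ∃ c, t ≤ ((V.filter (fun x => col x = c)).card : ℝ) := by
  by_contra hcon
  push Not at hcon
  have h1 : (V.card : ℝ) = ∑ c, ((V.filter (fun x => col x = c)).card : ℝ) := by
    rw [Finset.card_eq_sum_card_fiberwise (f := col) (t := univ) (fun _ _ => by simp)]
    push_cast
    rfl
  have h3 : (V.card : ℝ) < ∑ _c : κ, t := by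
    rw [h1]
    apply sum_lt_sum_of_nonempty ⟨Classical.arbitrary κ, mem_univ _⟩
    intro c _
    exact hcon c
  rw [sum_const, card_univ, nsmul_eq_mul] at h3
  linarith

variable (α : Type) [Fintype α] [Nonempty α] [DecidableEq α]

theorem dhj_ge (η : ℝ) (hη : 0 < η) : ∃ M0 : ℕ, ∀ M, M0 ≤ M → ∀ A : Finset (Fin M → α),
    η * (Fintype.card α : ℝ) ^ M ≤ A.card →
    ∃ f : Fin M → Option α, (∃ i, f i = none) ∧ ∀ a, (fun i => (f i).getD a) ∈ A := by
  obtain ⟨N, _, hN⟩ := Pool.Agent.W142.ES.dhj_card α η hη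
  refine ⟨N, fun M hM A hA => ?_⟩
  obtain ⟨d, rfl⟩ := Nat.exists_eq_add_of_le hM
  obtain ⟨z, hz⟩ := fiber (Fin.appendEquiv (α := α) N d) A (η * (Fintype.card α : ℝ) ^ N) (by
    rw [Fintype.card_fun, Fintype.card_fin]
    push_cast
    rw [pow_add] at hA
    linarith)
  obtain ⟨L, hL⟩ := hN _ hz
  refine ⟨Fin.append L.idxFun (fun i => some (z i)), ?_, ?_⟩
  · obtain ⟨i, hi⟩ := L.proper
    exact ⟨Fin.castAdd d i, by rw [Fin.append_left, hi]⟩
  · intro a
    have h1 := hL a
    rw [mem_filter] at h1
    have h2 : (fun i => ((Fin.append L.idxFun (fun i => some (z i)) : Fin (N + d) → Option α) i).getD a) =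
        Fin.appendEquiv N d (L a, z) := by
      funext i
      refine Fin.addCases ?_ ?_ i
      · intro j
        simp only [Fin.append_left, Fin.appendEquiv, Equiv.coe_fn_mk]
        rw [Combinatorics.Line.apply_def]
      · intro j
        simp only [Fin.append_right, Fin.appendEquiv, Equiv.coe_fn_mk, Option.getD_some]
    rw [h2]
    exact h1.2

/-- splitting off the first coordinate and the last `d` letters of the others -/
def spl (r M1 d : ℕ) : ((Fin (M1 + d) → α) × (Fin r → Fin M1 → α)) × (Fin r → Fin d → α) ≃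
    (Fin (r + 1) → Fin (M1 + d) → α) where
  toFun p := Fin.cons p.1.1 (fun j => Fin.append (p.1.2 j) (p.2 j))
  invFun g := ((g 0, fun j i => g j.succ (Fin.castAdd d i)), fun j i => g j.succ (Fin.natAdd M1 i))
  left_inv := by
    rintro ⟨⟨v, x⟩, z⟩
    simp
  right_inv := by
    intro g
    funext j
    refine Fin.cases ?_ ?_ j
    · simp
    · intro j'
      funext i
      refine Fin.addCases ?_ ?_ i
      · intro i'
        simp
      · intro i'
        simp

theorem prod_lines (r : ℕ) : ∀ η : ℝ, 0 < η → ∃ M0 : ℕ, ∀ M, M0 ≤ M → ∀ G : Finset (Fin r → Fin M → α),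
    η * ((Fintype.card α : ℝ) ^ M) ^ r ≤ G.card →
    ∃ f : Fin r → Fin M → Option α, (∀ j, ∃ i, f j i = none) ∧
      ∀ u : Fin r → α, (fun j i => (f j i).getD (u j)) ∈ G := by
  classical
  have hk : (0 : ℝ) < Fintype.card α := by exact_mod_cast Fintype.card_pos
  induction r with
  | zero =>
    intro η hη
    refine ⟨0, fun M _ G hG => ?_⟩
    have h1 : (0 : ℝ) < G.card := by
      rw [pow_zero, mul_one] at hG
      linarith
    have h2 : G.Nonempty := by
      rw [← card_pos]
      exact_mod_cast h1
    obtain ⟨g, hg⟩ := h2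
    refine ⟨fun j => j.elim0, fun j => j.elim0, fun u => ?_⟩
    have h3 : (fun (j : Fin 0) (i : Fin M) => ((fun j => j.elim0 : Fin 0 → Fin M → Option α) j i).getD (u j)) = g :=
      funext (fun j => j.elim0)
    rw [h3]
    exact hg
  | succ r ih =>
    intro η hη
    obtain ⟨M1, hM1⟩ := ih (η / 2) (by positivity)
    set κ := Fin r → Fin M1 → Option α with hκ
    set T : ℝ := (Fintype.card κ : ℝ) with hT
    have hT0 : 0 < T := by
      rw [hT]
      exact_mod_cast Fintype.card_pos
    obtain ⟨M2, hM2⟩ := dhj_ge α (η / 2 / T) (by positivity)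
    refine ⟨max M1 M2, fun M hM G hG => ?_⟩
    have hMM1 : M1 ≤ M := (le_max_left _ _).trans hM
    have hMM2 : M2 ≤ M := (le_max_right _ _).trans hM
    obtain ⟨d, rfl⟩ := Nat.exists_eq_add_of_le hMM1
    set k : ℝ := (Fintype.card α : ℝ) with hkdef
    obtain ⟨z, hz⟩ := fiber (spl α r M1 d) G (η * k ^ (M1 + d) * (k ^ M1) ^ r) (by
      have h1 : ((Fintype.card (Fin r → Fin d → α) : ℕ) : ℝ) = (k ^ d) ^ r := by
        simp [hkdef]
      rw [h1]
      refine le_trans (le_of_eq ?_) hG
      rw [pow_succ (k ^ (M1 + d)) r]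
      have h2 : (k ^ (M1 + d)) ^ r = (k ^ M1) ^ r * (k ^ d) ^ r := by rw [pow_add, mul_pow]
      rw [h2]
      ring)
    set Gz : Finset ((Fin (M1 + d) → α) × (Fin r → Fin M1 → α)) :=
      univ.filter (fun x => spl α r M1 d (x, z) ∈ G) with hGz
    set Fb : (Fin (M1 + d) → α) → Finset (Fin r → Fin M1 → α) := fun v =>
      univ.filter (fun x => (v, x) ∈ Gz) with hFb
    set V : Finset (Fin (M1 + d) → α) := univ.filter (fun v =>
      η / 2 * (k ^ M1) ^ r ≤ ((Fb v).card : ℝ)) with hV
    have hsum : (Gz.card : ℝ) = ∑ v, ((Fb v).card : ℝ) := by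
      have h1 : Gz.card = ∑ v, (Fb v).card := by
        have h2 : Gz.card = (univ.filter (fun p : (Fin (M1 + d) → α) × (Fin r → Fin M1 → α) => p ∈ Gz)).card := by
          congr 1
          ext p
          simp
        rw [h2, card_filter, Fintype.sum_prod_type]
        apply sum_congr rfl
        intro v _
        simp only [hFb]
        rw [card_filter]
      rw [h1]
      push_cast
      rfl
    have hcardM : ((Fintype.card (Fin (M1 + d) → α) : ℕ) : ℝ) = k ^ (M1 + d) := by
      simp [hkdef]
    have hcardx : ((Fintype.card (Fin r → Fin M1 → α) : ℕ) : ℝ) = (k ^ M1) ^ r := by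
      simp [hkdef]
    have hVcard : η / 2 * k ^ (M1 + d) ≤ V.card := by
      have h1 : ∑ v, ((Fb v).card : ℝ) ≤ ∑ v : Fin (M1 + d) → α,
          ((if v ∈ V then (k ^ M1) ^ r else 0) + η / 2 * (k ^ M1) ^ r) := by
        apply sum_le_sum
        intro v _
        split_ifs with hv
        · have h2 : ((Fb v).card : ℝ) ≤ (k ^ M1) ^ r := by
            rw [← hcardx]
            exact_mod_cast card_le_univ _
          have h3 : 0 ≤ η / 2 * (k ^ M1) ^ r := by positivity
          linarith
        · rw [hV, mem_filter] at hv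
          push Not at hv
          have := hv (mem_univ _)
          linarith
      rw [sum_add_distrib, sum_const, card_univ, nsmul_eq_mul, hcardM, ← sum_filter, sum_const,
        nsmul_eq_mul] at h1
      have h2 : (univ.filter (fun v => v ∈ V)) = V := by
        ext v
        simp
      rw [h2] at h1
      have h3 : η * k ^ (M1 + d) * (k ^ M1) ^ r ≤ V.card * (k ^ M1) ^ r +
          k ^ (M1 + d) * (η / 2 * (k ^ M1) ^ r) := by
        linarith
      have h4 : 0 < (k ^ M1) ^ r := by positivity
      have h5 : (η / 2 * k ^ (M1 + d)) * (k ^ M1) ^ r ≤ V.card * (k ^ M1) ^ r := by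
        have e : (η / 2 * k ^ (M1 + d)) * (k ^ M1) ^ r = η * k ^ (M1 + d) * (k ^ M1) ^ r -
            k ^ (M1 + d) * (η / 2 * (k ^ M1) ^ r) := by ring
        rw [e]
        linarith
      exact le_of_mul_le_mul_right h5 h4
    have hex : ∀ v : Fin (M1 + d) → α, ∃ F : κ, v ∈ V → (∀ j, ∃ i, F j i = none) ∧
        ∀ u : Fin r → α, (fun j i => (F j i).getD (u j)) ∈ Fb v := by
      intro v
      by_cases hv : v ∈ V
      · obtain ⟨F, hF⟩ := hM1 M1 le_rfl (Fb v) (mem_filter.1 hv).2
        exact ⟨F, fun _ => hF⟩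
      · exact ⟨fun _ _ => none, fun h => absurd h hv⟩
    choose F hF using hex
    obtain ⟨c, hc⟩ := pigeon V F (η / 2 / T * k ^ (M1 + d)) (by
      rw [← hT]
      refine le_trans (le_of_eq ?_) hVcard
      field_simp)
    obtain ⟨f0, hf0, hf0'⟩ := hM2 (M1 + d) hMM2 _ hc
    obtain ⟨a0⟩ := ‹Nonempty α›
    have hcprop : ∀ j, ∃ i, c j i = none := by
      have h1 := hf0' a0
      rw [mem_filter] at h1
      have h2 := (hF _ h1.1).1
      rw [h1.2] at h2
      exact h2
    refine ⟨Fin.cons f0 (fun j => Fin.append (c j) (fun i => some (z j i))), ?_, ?_⟩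
    · intro j
      refine Fin.cases ?_ ?_ j
      · simpa using hf0
      · intro j'
        obtain ⟨i, hi⟩ := hcprop j'
        exact ⟨Fin.castAdd d i, by simp [hi]⟩
    · intro u
      have h1 := hf0' (u 0)
      rw [mem_filter] at h1
      have h2 := (hF _ h1.1).2 (Fin.tail u)
      rw [h1.2] at h2
      simp only [hFb] at h2
      rw [mem_filter] at h2
      have h3 := h2.2
      simp only [hGz] at h3
      rw [mem_filter] at h3
      have h4 := h3.2
      refine Eq.mp (congrArg (fun x => x ∈ G) ?_) h4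
      funext j
      refine Fin.cases ?_ ?_ j
      · simp [spl]
      · intro j'
        funext i
        refine Fin.addCases ?_ ?_ i
        · intro i'
          simp [spl, Fin.tail]
        · intro i'
          simp [spl]

end Pool.Agent.W126.Lines
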