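import Mathlib
import Pool.Agent.W126.BoxA
import Pool.Agent.W126.Lines

set_option autoImplicit false

/-! Monochromatic approximate generalised progressions of primes with exact surroundings. -/

open Finset Filter

namespace Pool.Agent.W126.BoxMain

open Pool.Agent.H256R2.SC (ff)
open Pool.Agent.H312R2.RG.C3 (ff_tendsto ff_small)
open Pool.Agent.H362R2.RQ (stRQ)
open Pool.Agent.W126.View
open Pool.Agent.W126.MultiCore
open Pool.Agent.W126.BoxA

/-- a box of primes `≡ a (mod q)` of the colour `s`: the prime `P u - P u'` is `∑ j, D j (V j (u j) - V j (u' j))`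
up to `e`, and the primes at distance at most `R D j` from `P u` are `≡ a (mod q)` and within `δ D j` of the
primes of the box whose index differs from `u` at most at `j` -/
def IsBox {r k ρ : ℕ} (q a : ℕ) (R δ e : ℝ) (D : Fin r → ℝ) (V : Fin r → Fin k → ℝ) (χ : ℕ → Fin ρ)
    (s : Fin ρ) (P : (Fin r → Fin k) → ℕ) : Prop :=
  (∀ u, (P u).Prime ∧ P u ≡ a [MOD q] ∧ χ (P u) = s) ∧
  (∀ u u', |((P u : ℝ) - P u') - ∑ j, D j * (V j (u j) - V j (u' j))| ≤ e) ∧
  ∀ (u : Fin r → Fin k) (j : Fin r) (p' : ℕ), p'.Prime → |(p' : ℝ) - P u| ≤ R * D j →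
    p' ≡ a [MOD q] ∧ ∃ b, |(p' : ℝ) - P (Function.update u j b)| ≤ δ * D j

theorem main (k r ρ : ℕ) (hk : 1 ≤ k) (hρ : 1 ≤ ρ) : ∃ K : ℕ, ∀ R δ : ℝ, 1 ≤ R → 0 < δ → δ ≤ 1 →
    ∃ c : ℝ, 0 < c ∧ ∀ ε : ℝ, 0 < ε → ∀ q a : ℕ, Squarefree q → a.Coprime q → ∃ X₀ : ℝ, ∀ X : ℝ, X₀ ≤ X →
    ∀ H : Fin r → ℝ, (∀ j, Real.log X ≤ c * H j ∧ H j ≤ c * ff X) →
    (∀ j j' : Fin r, j < j' → H j' ≤ c * H j) →
    ∀ V : Fin r → Fin k → ℝ, (∀ j b, |V j b| ≤ R) → (∀ j b b', b ≠ b' → δ ≤ |V j b - V j b'|) →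
    ∀ χ : ℕ → Fin ρ,
    ∃ (D : Fin r → ℝ) (s : Fin ρ), (∀ j, c * H j ≤ D j ∧ D j ≤ H j) ∧
      X ^ (7 / 8 : ℝ) ≤ ({p : ℕ | X < p ∧ (p : ℝ) ≤ 4 * X ∧
        {p' : ℕ | p'.Prime ∧ |(p' : ℝ) - p| ≤ c * ff X}.ncard ≤ K ∧
        ∃ P : (Fin r → Fin k) → ℕ, IsBox q a R δ (ε * Real.log X) D V χ s P ∧ ∃ u, P u = p}.ncard : ℝ) := by
  classical
  obtain ⟨η, hη, hcore⟩ := core stRQ
  have hρ0 : (0 : ℝ) < ρ := by exact_mod_cast hρ
  haveI : Nonempty (Fin k) := ⟨⟨0, hk⟩⟩
  obtain ⟨M, hM0⟩ := Lines.prod_lines (Fin k) r (η / ρ) (by positivity)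
  have hM := hM0 M le_rfl
  obtain ⟨K, hK, cp, hcp, hcore2⟩ := hcore (r * M) k hk
  refine ⟨K, fun R δ hR hδ hδ1 => ?_⟩
  have hR0 : 0 < R := by linarith
  obtain ⟨κ, hκdef⟩ : ∃ κ : ℝ, κ = δ / (80 * R) := ⟨_, rfl⟩
  have hκ0 : 0 < κ := by rw [hκdef]; positivity
  have hκR : 80 * R * κ = δ := by rw [hκdef]; field_simp
  have hκ1 : κ ≤ 1 / 80 := by
    rw [hκdef, div_le_iff₀ (by positivity)]
    linarith
  have hκ1' : κ ≤ 1 := by linarith
  obtain ⟨B, hBdef⟩ : ∃ B : ℝ, B = (r * M : ℕ) + 1 := ⟨_, rfl⟩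
  have hB : 1 ≤ B := by
    rw [hBdef]
    have : (0 : ℝ) ≤ (r * M : ℕ) := Nat.cast_nonneg _
    linarith
  obtain ⟨c, hcdef⟩ : ∃ c : ℝ, c = κ ^ M * min 1 (cp / (32 * R * B)) := ⟨_, rfl⟩
  have hc : 0 < c := by rw [hcdef]; positivity
  have hcκ : c ≤ κ ^ M := by
    rw [hcdef]
    exact mul_le_of_le_one_right (by positivity) (min_le_left _ _)
  have hκM : κ ^ M ≤ 1 := pow_le_one₀ hκ0.le hκ1'
  have hccp : 32 * R * B * c ≤ cp := by
    have h1 : c ≤ 1 * (cp / (32 * R * B)) := by
      rw [hcdef]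
      exact mul_le_mul hκM (min_le_right _ _) (by positivity) zero_le_one
    rw [one_mul, le_div_iff₀ (by positivity)] at h1
    linarith
  refine ⟨c, hc, fun ε hε q a hq ha => ?_⟩
  obtain ⟨τ0, hτ0def⟩ : ∃ τ0 : ℝ, τ0 = min (ε / 2) (δ / 32) := ⟨_, rfl⟩
  have hτ0 : 0 < τ0 := by rw [hτ0def]; positivity
  have hτ0ε : τ0 ≤ ε / 2 := by rw [hτ0def]; exact min_le_left _ _
  have hτ0δ : τ0 ≤ δ / 32 := by rw [hτ0def]; exact min_le_right _ _
  have hev := hcore2 q a hq ha τ0 hτ0
  obtain ⟨X₀, hX₀⟩ := eventually_atTop.1 (hev.and ((bad_small ((2 ^ M) ^ r * ρ) cp hcp).and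
    ((ff_small cp hcp).and ((eventually_ge_atTop (1 : ℝ)).and
    ((Real.tendsto_log_atTop.eventually_gt_atTop 0).and
    (Pool.Agent.H672R3.InfRec.scale_ev (cp / 8) (by positivity)))))))
  refine ⟨X₀, fun X hX => ?_⟩
  obtain ⟨hmain, hbad, hsmall, hX1, hlog, hscale⟩ := hX₀ X hX
  intro H hH hHd V hV hVs χ
  have hHpos : ∀ j, 0 < H j := by
    intro j
    have h1 := (hH j).1
    by_contra h
    push Not at h
    have := mul_nonpos_of_nonneg_of_nonpos hc.le h
    linarith
  have hHd' : ∀ j j' : Fin r, j < j' → H j' ≤ κ ^ M * H j := fun j j' h =>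
    (hHd j j' h).trans (mul_le_mul_of_nonneg_right hcκ (hHpos j).le)
  set S : Fin (r * M) → ℝ := sc κ H with hSdef
  have hSpos : ∀ l, 0 < S l := sc_pos κ hκ0 H hHpos
  have hSdec : ∀ l l', l < l' → S l' ≤ κ * S l := sc_dec κ hκ0 hκ1' H hHpos hHd'
  have hSlow : ∀ l, Real.log X ≤ S l := by
    intro l
    refine (hH (finProdFinEquiv.symm l).1).1.trans (le_trans ?_ (sc_lower κ hκ0 hκ1' H hHpos l))
    exact mul_le_mul_of_nonneg_right hcκ (hHpos _).le
  have hSup : ∀ l, S l ≤ c * ff X := by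
    intro l
    refine (sc_upper κ hκ0 hκ1' H hHpos l).trans (le_trans ?_ (hH (finProdFinEquiv.symm l).1).2)
    exact mul_le_of_le_one_left (hHpos _).le hκ1'
  set y : Fin (r * M) → Fin k → ℝ := fun l b => sc κ H l * V (finProdFinEquiv.symm l).1 b with hy
  have hyb : ∀ l b, |y l b| ≤ R * S l := by
    intro l b
    simp only [hy]
    rw [abs_mul, abs_of_pos (hSpos l), mul_comm]
    exact mul_le_mul_of_nonneg_right (hV _ b) (hSpos l).le
  have hcffpos : 0 < cp * ff X := by linarith
  have hcff32 : 32 * R * B * (c * ff X) ≤ cp * ff X := by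
    have hff : 0 < ff X := (mul_pos_iff_of_pos_left hcp).1 hcffpos
    have := mul_le_mul_of_nonneg_right hccp hff.le
    linarith
  have hcff0 : 0 < c * ff X := by
    have hff : 0 < ff X := (mul_pos_iff_of_pos_left hcp).1 hcffpos
    exact mul_pos hc hff
  have hRB : R ≤ R * B := le_mul_of_one_le_right hR0.le hB
  have hcffR : 32 * R * (c * ff X) ≤ cp * ff X := by
    have := mul_le_mul_of_nonneg_right hRB hcff0.le
    linarith
  have hcff16 : 16 * (c * ff X) ≤ cp * ff X := by
    have : c * ff X ≤ R * (c * ff X) := le_mul_of_one_le_left hcff0.le hR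
    linarith
  have hsum : ∀ w : Fin (r * M) → Fin k, |∑ i, y i (w i)| ≤ cp * ff X / 8 := by
    intro w
    calc |∑ i, y i (w i)| ≤ ∑ i, |y i (w i)| := Finset.abs_sum_le_sum_abs _ _
      _ ≤ ∑ _i : Fin (r * M), R * (c * ff X) := by
        apply Finset.sum_le_sum
        intro i _
        exact (hyb i (w i)).trans (mul_le_mul_of_nonneg_left (hSup i) hR0.le)
      _ = (r * M : ℕ) * (R * (c * ff X)) := by rw [sum_const, card_univ, Fintype.card_fin, nsmul_eq_mul]
      _ ≤ B * (R * (c * ff X)) := by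
        apply mul_le_mul_of_nonneg_right _ (by positivity)
        rw [hBdef]; linarith
      _ ≤ cp * ff X / 8 := by linarith
  -- tails
  have hinv : 80 ≤ 1 / κ := by
    rw [le_div_iff₀ hκ0]
    linarith
  have htail : ∀ l : Fin (r * M), ∑ l' ∈ Finset.Ioi l, S l' ≤ 2 * κ * S l := by
    intro l
    have h1 := tail_sum S (1 / κ) (by linarith) (fun i => (hSpos i).le) (by
      intro i j hij
      have h2 := hSdec i j hij
      rw [div_mul_eq_mul_div, one_mul, div_le_iff₀ hκ0]
      linarith) l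
    refine h1.trans ?_
    rw [div_le_iff₀ (by linarith)]
    have e1 : 2 * κ * S l * (1 / κ - 1) = (2 - 2 * κ) * S l := by field_simp
    rw [e1]
    have := hSpos l
    nlinarith
  have hσ : ∀ (l : Fin (r * M)) (w w' : Fin (r * M) → Fin k),
      |∑ i' ∈ Finset.Ioi l, (y i' (w' i') - y i' (w i'))| ≤ δ * S l / 16 := by
    intro l w w'
    calc |∑ i' ∈ Finset.Ioi l, (y i' (w' i') - y i' (w i'))| ≤
        ∑ i' ∈ Finset.Ioi l, |y i' (w' i') - y i' (w i')| := Finset.abs_sum_le_sum_abs _ _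
      _ ≤ ∑ i' ∈ Finset.Ioi l, 2 * R * S i' := by
        apply Finset.sum_le_sum
        intro i' _
        have h1 := abs_le.1 (hyb i' (w' i'))
        have h2 := abs_le.1 (hyb i' (w i'))
        rw [abs_le]
        constructor <;> linarith [h1.1, h1.2, h2.1, h2.2]
      _ = 2 * R * ∑ i' ∈ Finset.Ioi l, S i' := by rw [Finset.mul_sum]
      _ ≤ 2 * R * (2 * κ * S l) := mul_le_mul_of_nonneg_left (htail l) (by positivity)
      _ ≤ δ * S l / 16 := by
        have e1 : 2 * R * (2 * κ * S l) = (80 * R * κ) * S l / 20 := by ring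
        rw [e1, hκR]
        have : 0 < δ * S l := mul_pos hδ (hSpos l)
        linarith
  have hτS : ∀ l, τ0 * Real.log X ≤ δ * S l / 32 := by
    intro l
    calc τ0 * Real.log X ≤ δ / 32 * S l := mul_le_mul hτ0δ (hSlow l) hlog.le (by positivity)
      _ = _ := by ring
  -- suppose the theorem fails
  by_contra hcon
  push Not at hcon
  set T : (Fin r → Finset (Fin M)) × Fin ρ → Set ℕ := fun v =>
    if (∀ j, c * H j ≤ dd κ H v.1 j ∧ dd κ H v.1 j ≤ H j) then
    {p : ℕ | X < p ∧ (p : ℝ) ≤ 4 * X ∧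
        {p' : ℕ | p'.Prime ∧ |(p' : ℝ) - p| ≤ c * ff X}.ncard ≤ K ∧
        ∃ P : (Fin r → Fin k) → ℕ, IsBox q a R δ (ε * Real.log X) (dd κ H v.1) V χ v.2 P ∧
          ∃ u, P u = p} else ∅ with hT
  have hTfin : ∀ u, (T u).Finite := by
    intro u
    apply (Set.finite_Iic ⌊4 * X⌋₊).subset
    intro p hp
    simp only [hT] at hp
    split_ifs at hp with h1
    · rw [Set.mem_Iic]
      exact Nat.le_floor hp.2.1
    · exact absurd hp (Set.notMem_empty p)
  have hTcard : ∀ u, ((T u).ncard : ℝ) < X ^ (7 / 8 : ℝ) := by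
    intro u
    simp only [hT]
    split_ifs with h1
    · exact hcon (dd κ H u.1) u.2 h1
    · rw [Set.ncard_empty, Nat.cast_zero]
      exact Real.rpow_pos_of_pos (by linarith) _
  obtain ⟨bad, hbad1, hbad2⟩ := hbad ((Fin r → Finset (Fin M)) × Fin ρ) T (by
    rw [Fintype.card_prod, Fintype.card_fun, Fintype.card_finset, Fintype.card_fin, Fintype.card_fin,
      Fintype.card_fin]) hTfin hTcard
  obtain ⟨n, hn1, hn2, hn3, G, hG, hhit, hall, hKn⟩ := hmain y hsum bad hbad1
  -- the primes near the positions, and their colours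
  have hhit2 : ∀ w : Fin (r * M) → Fin k, ∃ p : ℕ, w ∈ G → p.Prime ∧ p ≡ a [MOD q] ∧
      |(p : ℝ) - n - pos (cp * ff X / 2) y w| ≤ τ0 * Real.log X := by
    intro w
    by_cases hw : w ∈ G
    · obtain ⟨p, hp⟩ := hhit w hw
      exact ⟨p, fun _ => hp⟩
    · exact ⟨0, fun h => absurd h hw⟩
  choose pr hpr using hhit2
  haveI : Nonempty (Fin ρ) := ⟨⟨0, hρ⟩⟩
  obtain ⟨s, hs⟩ := Lines.pigeon G (fun w => χ (pr w)) (η / ρ * (k : ℝ) ^ (r * M)) (by
    rw [Fintype.card_fin]
    refine le_trans (le_of_eq ?_) hG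
    field_simp)
  set G' := G.filter (fun w => χ (pr w) = s) with hG'
  obtain ⟨f, hf1, hf2⟩ := hM (G'.map (unc (α := Fin k) (r := r) (M := M)).symm.toEmbedding) (by
    rw [Finset.card_map, Fintype.card_fin, ← pow_mul, mul_comm M r]
    exact hs)
  have hfG' : ∀ u, wd f u ∈ G' := by
    intro u
    have h1 := hf2 u
    rw [Finset.mem_map_equiv, Equiv.symm_symm] at h1
    exact h1
  have hfG : ∀ u, wd f u ∈ G := fun u => (mem_filter.1 (hfG' u)).1
  have hfs : ∀ u, χ (pr (wd f u)) = s := fun u => (mem_filter.1 (hfG' u)).2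
  -- the differences
  set F : Fin r → Finset (Fin M) := fun j => univ.filter (fun i => (f j i).isNone = true) with hF
  have hFmin : ∀ j, ∃ i0 : Fin M, i0 ∈ F j ∧ ∀ i ∈ F j, i0 ≤ i := by
    intro j
    have hne : (F j).Nonempty := by
      obtain ⟨i, hi⟩ := hf1 j
      exact ⟨i, by rw [hF, mem_filter]; exact ⟨mem_univ _, by rw [hi]; rfl⟩⟩
    exact ⟨(F j).min' hne, (F j).min'_mem hne, fun i hi => (F j).min'_le i hi⟩
  choose i0 hi0 hi0min using hFmin
  have hDb : ∀ j, S (finProdFinEquiv (j, i0 j)) ≤ dd κ H F j ∧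
      dd κ H F j ≤ S (finProdFinEquiv (j, i0 j)) * (1 + 2 * κ) := by
    intro j
    have h1 := dd_bounds κ hκ0 hκ1 H hHpos F j (i0 j) (hi0 j) (hi0min j)
    rw [hSdef, sc_apply]
    exact h1
  have hDH : ∀ j, c * H j ≤ dd κ H F j ∧ dd κ H F j ≤ H j := by
    intro j
    have h1 := sc_lower κ hκ0 hκ1' H hHpos (finProdFinEquiv (j, i0 j))
    have h2 := sc_upper κ hκ0 hκ1' H hHpos (finProdFinEquiv (j, i0 j))
    rw [Equiv.symm_apply_apply] at h1 h2
    dsimp only at h1 h2
    have h3 := hDb j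
    constructor
    · exact ((mul_le_mul_of_nonneg_right hcκ (hHpos j).le).trans h1).trans h3.1
    · have h4 : S (finProdFinEquiv (j, i0 j)) * (1 + 2 * κ) ≤ S (finProdFinEquiv (j, i0 j)) * 2 := by
        apply mul_le_mul_of_nonneg_left _ (hSpos _).le
        linarith
      have h5 : κ * H j ≤ 1 / 80 * H j := mul_le_mul_of_nonneg_right hκ1 (hHpos j).le
      have h6 := hHpos j
      have h7 : S (finProdFinEquiv (j, i0 j)) ≤ κ * H j := h2
      linarith [h3.2]
  have hpos : ∀ w : Fin (r * M) → Fin k, cp * ff X * (3 / 8) ≤ pos (cp * ff X / 2) y w ∧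
      pos (cp * ff X / 2) y w ≤ cp * ff X * (5 / 8) := by
    intro w
    have := abs_le.1 (hsum w)
    unfold pos
    constructor <;> linarith
  have hτ8 : τ0 * Real.log X ≤ cp * ff X / 16 := by
    have : τ0 * Real.log X ≤ 1 / 2 * Real.log X := by gcongr; linarith
    linarith
  have hdiff : ∀ u u' : Fin r → Fin k, |((pr (wd f u) : ℝ) - pr (wd f u')) -
      ∑ j, dd κ H F j * (V j (u j) - V j (u' j))| ≤ 2 * (τ0 * Real.log X) := by
    intro u u'
    have h1 := pos_box κ (cp * ff X / 2) H V f u u'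
    have h3 := abs_le.1 (hpr _ (hfG u)).2.2
    have h4 := abs_le.1 (hpr _ (hfG u')).2.2
    have h5 : pos (cp * ff X / 2) y (wd f u) - pos (cp * ff X / 2) y (wd f u') =
        ∑ j, dd κ H F j * (V j (u j) - V j (u' j)) := h1
    rw [← h5, abs_le]
    constructor <;> linarith [h3.1, h3.2, h4.1, h4.2]
  have hbox : IsBox q a R δ (ε * Real.log X) (dd κ H F) V χ s (fun u => pr (wd f u)) := by
    refine ⟨fun u => ⟨(hpr _ (hfG u)).1, (hpr _ (hfG u)).2.1, hfs u⟩, ?_, ?_⟩
    · intro u u'
      refine (hdiff u u').trans ?_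
      have := mul_le_mul_of_nonneg_right hτ0ε hlog.le
      linarith
    · intro u j p' hp' hd
      set l : Fin (r * M) := finProdFinEquiv (j, i0 j) with hl
      have hlj : (finProdFinEquiv.symm l).1 = j := by rw [hl, Equiv.symm_apply_apply]
      have hli : (finProdFinEquiv.symm l).2 = i0 j := by rw [hl, Equiv.symm_apply_apply]
      have hSl := hSpos l
      have hwl : ∀ v : Fin r → Fin k, wd f v l = v j := by
        intro v
        rw [wd, unc_apply, hlj, hli]
        have h1 := hi0 j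
        rw [hF, mem_filter] at h1
        rw [Option.isNone_iff_eq_none.1 h1.2]
        rfl
      have hfull : ∀ b, ∃ w' ∈ G, (∀ i' : Fin (r * M), i' < l → w' i' = wd f u i') ∧
          y l (w' l) = y l b := by
        intro b
        refine ⟨wd f (Function.update u j b), hfG _, ?_, ?_⟩
        · intro i' hi'
          rw [wd, unc_apply, wd, unc_apply]
          rcases lex i' l hi' with h1 | ⟨h1, h2⟩
          · rw [hlj] at h1
            rw [Function.update_of_ne h1.ne]
          · rw [hlj] at h1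
            rw [hli] at h2
            have h3 : (finProdFinEquiv.symm i').2 ∉ F j := fun h => absurd (hi0min j _ h) (not_le.2 h2)
            rw [hF, mem_filter, not_and] at h3
            have h4 := h3 (mem_univ _)
            rw [Option.isNone_iff_eq_none] at h4
            obtain ⟨z, hz⟩ := Option.ne_none_iff_exists'.1 h4
            rw [h1, hz]
            rfl
        · rw [hwl, Function.update_self]
      have hDbj := hDb j
      have hD2 : dd κ H F j ≤ 2 * S l := by
        have : S l * (1 + 2 * κ) ≤ S l * 2 := mul_le_mul_of_nonneg_left (by linarith) hSl.le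
        linarith [hDbj.2]
      have hsees := view q a n (cp * ff X / 2) (τ0 * Real.log X) (cp * ff X) (2 * R * S l) (δ * S l / 8) y
        (fun i => δ * S i / 16) G hhit hall hσ l (by
          intro l0 hl0 b b' hbb
          have hS0 := hSpos l0
          have hbb' : b ≠ b' := fun h => hbb (by rw [h])
          have h3 : δ * S l0 ≤ |y l0 b - y l0 b'| := by
            simp only [hy]
            rw [← mul_sub, abs_mul, abs_of_pos hS0, mul_comm]
            exact mul_le_mul_of_nonneg_left (hVs _ b b' hbb') hS0.le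
          have h4 := hSdec l0 l hl0
          have h5 : 2 * R * S l ≤ δ * S l0 / 40 := by
            have h6 : 2 * R * S l ≤ 2 * R * (κ * S l0) := mul_le_mul_of_nonneg_left h4 (by positivity)
            have h7 : 2 * R * (κ * S l0) = (80 * R * κ) * S l0 / 40 := by ring
            rw [h7, hκR] at h6
            exact h6
          have h6 := hτS l0
          have h7 : 0 < δ * S l0 := by positivity
          linarith) (by
            have := hτS l
            have h7 : 0 < δ * S l := by positivity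
            linarith) (by
          intro w'
          have h1 := hpos w'
          have h2 : 2 * R * S l ≤ 2 * R * (c * ff X) := mul_le_mul_of_nonneg_left (hSup l) (by positivity)
          constructor <;> linarith [h1.1, h1.2]) (wd f u) (pr (wd f u)) (hpr _ (hfG u)).2.2 hfull
      obtain ⟨hcl, b, hb⟩ := hsees.1 p' hp' (by
        refine hd.trans ?_
        have := mul_le_mul_of_nonneg_left hD2 hR0.le
        linarith)
      refine ⟨hcl, b, ?_⟩
      have h1 := hdiff (Function.update u j b) u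
      have h2 : ∑ j', dd κ H F j' * (V j' (Function.update u j b j') - V j' (u j')) =
          dd κ H F j * (V j b - V j (u j)) := by
        rw [Finset.sum_eq_single j]
        · rw [Function.update_self]
        · intro j' _ hj'
          rw [Function.update_of_ne hj', sub_self, mul_zero]
        · intro h
          exact absurd (mem_univ _) h
      rw [h2] at h1
      have h3 : y l b - y l (wd f u l) = S l * (V j b - V j (u j)) := by
        simp only [hy]
        rw [hwl, hlj]
        ring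
      dsimp only at hb
      rw [h3] at hb
      have h4 : |(dd κ H F j - S l) * (V j b - V j (u j))| ≤ δ * S l / 16 := by
        rw [abs_mul]
        have h5 : |V j b - V j (u j)| ≤ 2 * R := by
          have h6 := abs_le.1 (hV j b)
          have h7 := abs_le.1 (hV j (u j))
          rw [abs_le]
          constructor <;> linarith [h6.1, h6.2, h7.1, h7.2]
        have h6 : |dd κ H F j - S l| ≤ 2 * κ * S l := by
          rw [abs_of_nonneg (by linarith [hDbj.1])]
          linarith [hDbj.2]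
        calc |dd κ H F j - S l| * |V j b - V j (u j)| ≤ 2 * κ * S l * (2 * R) :=
              mul_le_mul h6 h5 (abs_nonneg _) (by positivity)
          _ = (80 * R * κ) * S l / 20 := by ring
          _ = δ * S l / 20 := by rw [hκR]
          _ ≤ δ * S l / 16 := by
            have : 0 < δ * S l := by positivity
            linarith
      have h5 := abs_le.1 h4
      have h6 := abs_le.1 h1
      have h7 := abs_le.1 hb
      have h8 := hτS l
      have h9 : δ * S l ≤ δ * dd κ H F j := mul_le_mul_of_nonneg_left hDbj.1 hδ.le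
      have h10 : 0 < δ * S l := by positivity
      show |(p' : ℝ) - pr (wd f (Function.update u j b))| ≤ δ * dd κ H F j
      have e1 : (dd κ H F j - S l) * (V j b - V j (u j)) =
          dd κ H F j * (V j b - V j (u j)) - S l * (V j b - V j (u j)) := by ring
      rw [e1] at h5
      rw [abs_le]
      constructor <;> linarith [h5.1, h5.2, h6.1, h6.2, h7.1, h7.2]
  obtain ⟨o⟩ : Nonempty (Fin k) := inferInstance
  set u0 : Fin r → Fin k := fun _ => o with hu0
  set w := wd f u0 with hw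
  set p := pr w with hp
  have hpw := (hpr w (hfG u0)).2.2
  have hpw' := abs_le.1 hpw
  have hposw := hpos w
  have hpge : (n : ℝ) + cp * ff X / 4 ≤ p := by linarith [hpw'.1]
  have hple : (p : ℝ) ≤ n + cp * ff X * (3 / 4) := by linarith [hpw'.2]
  have hnp : n ≤ p := by
    have : (n : ℝ) ≤ p := by linarith
    exact_mod_cast this
  apply hn3
  refine hbad2 n p (F, s) ?_ hnp (by linarith)
  simp only [hT]
  rw [if_pos hDH]
  refine ⟨by linarith, by linarith, ?_, fun u => pr (wd f u), hbox, u0, rfl⟩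
  refine le_trans (Set.ncard_le_ncard ?_ ?_) hKn
  · rintro p' ⟨hp', hd⟩
    have hd' := abs_le.1 hd
    refine ⟨hp', ?_, ?_⟩
    · have : (n : ℝ) ≤ p' := by linarith [hd'.1]
      exact_mod_cast this
    · linarith [hd'.2]
  · apply (Set.finite_Iic ⌊(n : ℝ) + cp * ff X⌋₊).subset
    rintro p' ⟨_, _, h3⟩
    exact Nat.le_floor h3

end Pool.Agent.W126.BoxMain
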