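import Pool.Agent.W126.RecSum

set_option autoImplicit false

/-! Sum subsystems at every scale up to the record scale of prime gaps: assembly (helper126). -/

open Finset Filter Topology

namespace Pool.Agent.W126.RecSum

open Pool.Agent.H256R2.SC (ff t1 t2)
open Pool.Agent.W68.Mil
open Pool.Agent.H752R3.MT

/-- a common subsequence along which the null sequences are summable -/
theorem sparse (d : ℕ → ℕ → ℝ) (hd : ∀ s a, 0 < d s a) :
    ∃ φ : ℕ → ℕ, StrictMono φ ∧ ∀ s, Tendsto (d s) atTop (𝓝 0) → Summable (fun a => d s (φ a)) := by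
  classical
  obtain ⟨φ, hφ, h⟩ := Filter.extraction_forall_of_eventually
    (P := fun n k => ∀ s ∈ range (n + 1), Tendsto (d s) atTop (𝓝 0) → d s k ≤ (1 / 2 : ℝ) ^ n) (by
      intro n
      rw [Filter.eventually_all_finset]
      intro s _
      by_cases hs : Tendsto (d s) atTop (𝓝 0)
      · filter_upwards [hs.eventually (ge_mem_nhds (show (0 : ℝ) < (1 / 2 : ℝ) ^ n by positivity))]
          with k hk _ using hk
      · exact Eventually.of_forall fun k h => absurd h hs)
  refine ⟨φ, hφ, fun s hs => ?_⟩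
  refine Summable.of_norm_bounded_eventually_nat (g := fun n => (1 / 2 : ℝ) ^ n)
    (summable_geometric_of_lt_one (by norm_num) (by norm_num)) ?_
  filter_upwards [eventually_ge_atTop s] with n hn
  rw [Real.norm_eq_abs, abs_of_pos (hd s _)]
  exact h n s (mem_range.2 (by omega)) hs

/-- the families of block sequences -/
def famAt (H : ℕ → ℝ → ℝ) (d : ℕ → ℕ → ℝ) (q r : ℕ → ℕ) (ρ : ℕ → ∀ k, (Fin k → Finset ℕ) → ℝ)
    (s k m b : ℕ) (C : ℕ → Finset ℕ) : Prop :=
  if b = 0 then goodF (H s) m (q s) (r s) k (d s) (ρ s k) C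
  else goodR (H s) m (q s) (r s) k (d s) (ρ s k) C

/-- the families of block sequences, enumerated -/
def fam (H : ℕ → ℝ → ℝ) (d : ℕ → ℕ → ℝ) (q r : ℕ → ℕ) (ρ : ℕ → ∀ k, (Fin k → Finset ℕ) → ℝ)
    (t : ℕ) (C : ℕ → Finset ℕ) : Prop :=
  famAt H d q r ρ (Nat.unpair (Nat.unpair t).1).1 (Nat.unpair (Nat.unpair t).1).2
    (Nat.unpair (Nat.unpair t).2).1 (Nat.unpair (Nat.unpair t).2).2 C

theorem fam_pair (H : ℕ → ℝ → ℝ) (d : ℕ → ℕ → ℝ) (q r : ℕ → ℕ) (ρ : ℕ → ∀ k, (Fin k → Finset ℕ) → ℝ)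
    (s k m b : ℕ) (C : ℕ → Finset ℕ) (h : fam H d q r ρ (Nat.pair (Nat.pair s k) (Nat.pair m b)) C) :
    famAt H d q r ρ s k m b C := by
  unfold fam at h
  rw [Nat.unpair_pair] at h
  simp only [] at h
  rw [Nat.unpair_pair, Nat.unpair_pair] at h
  exact h

theorem goodF_congr {H : ℝ → ℝ} {m q r k : ℕ} {d : ℕ → ℝ} {ρ : (Fin k → Finset ℕ) → ℝ}
    {C C' : ℕ → Finset ℕ} (h : ∀ i < k + m, C' i = C i) (hg : goodF H m q r k d ρ C') :
    goodF H m q r k d ρ C := by
  unfold goodF at hg ⊢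
  have e1 : (fun l : Fin k => C' l) = fun l : Fin k => C l := funext fun l => h l (by omega)
  rw [e1] at hg
  convert hg using 1
  funext i
  rw [h (k + i) (by omega)]

theorem goodR_congr {H : ℝ → ℝ} {m q r k : ℕ} {d : ℕ → ℝ} {ρ : (Fin k → Finset ℕ) → ℝ}
    {C C' : ℕ → Finset ℕ} (h : ∀ i < k + m, C' i = C i) (hg : goodR H m q r k d ρ C') :
    goodR H m q r k d ρ C := by
  unfold goodR at hg ⊢
  have e1 : (fun l : Fin k => C' l) = fun l : Fin k => C l := funext fun l => h l (by omega)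
  rw [e1] at hg
  convert hg using 1
  funext i
  rw [h (k + (Fin.rev i : Fin m)) (by have := (Fin.rev i).2; omega)]

theorem extend {W F : ℕ → Finset ℕ} (hW : Blk W) (t n : ℕ) (h1 : ∀ l < n, (F l).Nonempty)
    (h2 : ∀ l < n, ∀ i ∈ F l, t ≤ i) (h3 : ∀ l, l + 1 < n → ∀ i ∈ F l, ∀ i' ∈ F (l + 1), i < i') :
    ∃ Z, Blk Z ∧ Le Z (fun i => W (t + i)) ∧ ∀ l < n, Z l = (F l).biUnion W := by
  classical
  set M : ℕ := t + 1 + ∑ l ∈ range n, ∑ i ∈ F l, i with hM
  have hM1 : ∀ l < n, ∀ i ∈ F l, i < M := by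
    intro l hl i hi
    have a1 : i ≤ ∑ i ∈ F l, i := Finset.single_le_sum (f := fun i => i) (fun _ _ => Nat.zero_le _) hi
    have a2 : ∑ i ∈ F l, i ≤ ∑ l ∈ range n, ∑ i ∈ F l, i :=
      Finset.single_le_sum (f := fun l => ∑ i ∈ F l, i) (fun _ _ => Nat.zero_le _) (mem_range.2 hl)
    omega
  set G : ℕ → Finset ℕ := fun l => if l < n then F l else {M + l} with hG
  have hGB : Blk G := by
    refine ⟨fun i => ?_, fun i x hx y hy => ?_⟩
    · simp only [hG]
      split_ifs with h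
      · exact h1 i h
      · exact singleton_nonempty _
    · simp only [hG] at hx hy
      by_cases a : i + 1 < n
      · rw [if_pos (by omega)] at hx
        rw [if_pos a] at hy
        exact h3 i a x hx y hy
      · rw [if_neg a, mem_singleton] at hy
        by_cases b : i < n
        · rw [if_pos b] at hx
          have := hM1 i b x hx
          omega
        · rw [if_neg b, mem_singleton] at hx
          omega
  have hGt : ∀ l, ∀ i ∈ G l, t ≤ i := by
    intro l i hi
    simp only [hG] at hi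
    split_ifs at hi with h
    · exact h2 l h i hi
    · rw [mem_singleton] at hi
      omega
  refine ⟨fun l => (G l).biUnion W, hGB.comp hW, fun l => ⟨(G l).image (fun i => i - t),
    (hGB.1 l).image _, ?_⟩, fun l hl => ?_⟩
  · rw [image_biUnion]
    refine Finset.biUnion_congr rfl fun i hi => ?_
    have := hGt l i hi
    congr 1
    omega
  · simp only [hG]
    rw [if_pos hl]

theorem main (H : ℕ → ℝ → ℝ) (hH : ∀ s, Scale (H s)) (d : ℕ → ℕ → ℝ) (hd : ∀ s a, 0 < d s a)
    (hc : ∀ s, (∀ c : ℝ, 0 < c → ∀ᶠ x : ℝ in atTop, H s x ≤ c * ff x) ∨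
      ((∃ C : ℝ, ∀ᶠ x : ℝ in atTop, H s x ≤ C * ff x) ∧ Tendsto (d s) atTop (𝓝 0)))
    (q r : ℕ → ℕ) (hq : ∀ s, Squarefree (q s)) (hr : ∀ s, (r s).Coprime (q s))
    (ρ : ℕ → ∀ k, (Fin k → Finset ℕ) → ℝ) (hρ : ∀ s k P, 0 < ρ s k P) :
    ∃ W : ℕ → Finset ℕ, (∀ i, (W i).Nonempty) ∧ (∀ i, ∀ a ∈ W i, ∀ b ∈ W (i + 1), a < b) ∧
      ∀ s k m : ℕ, ∃ N : ℕ, ∀ F : ℕ → Finset ℕ, (∀ l < k + m, (F l).Nonempty) →
        (∀ l < k + m, ∀ i ∈ F l, N ≤ i) →
        (∀ l, l + 1 < k + m → ∀ i ∈ F l, ∀ i' ∈ F (l + 1), i < i') →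
        (fun i : Fin m => ρ s k (fun l => (F l).biUnion W) *
          ∑ a ∈ (F (k + i)).biUnion W, d s a) ∈ LimH (H s) m (q s) (r s) ∧
        (fun i : Fin m => ρ s k (fun l => (F l).biUnion W) *
          ∑ a ∈ (F (k + (Fin.rev i : Fin m))).biUnion W, d s a) ∈ LimH (H s) m (q s) (r s) := by
  classical
  obtain ⟨φ, hφ, hsum⟩ := sparse d hd
  have hA : ∀ s, Adm (H s) (fun a => d s (φ a)) := by
    intro s
    rcases hc s with h | ⟨h, h'⟩
    · exact Or.inl h
    · exact Or.inr ⟨h, hsum s h'⟩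
  set D : ℕ → ℕ → ℝ := fun s a => d s (φ a) with hD
  set ρ' : ℕ → ∀ k, (Fin k → Finset ℕ) → ℝ := fun s k P => ρ s k (fun l => (P l).image φ) with hρ'
  obtain ⟨W, hW, hfam⟩ := closed_families (fam H D q r ρ') (by
      intro t Z _ hg
      refine ⟨(Nat.unpair (Nat.unpair t).1).2 + (Nat.unpair (Nat.unpair t).2).1, fun Z' _ h hg' => hg ?_⟩
      unfold fam famAt at hg' ⊢
      split_ifs at hg' ⊢ with hb
      · exact goodF_congr h hg'
      · exact goodR_congr h hg') (by
      intro t X hX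
      unfold fam famAt
      split_ifs with hb
      · exact exF (hH _) _ (hq _) (hr _) _ (fun a => hd _ _) (hA _) _ (fun P => hρ _ _ _) X hX
      · exact exR (hH _) _ (hq _) (hr _) _ (fun a => hd _ _) (hA _) _ (fun P => hρ _ _ _) X hX)
  have himg : ∀ F : Finset ℕ, F.biUnion (fun i => (W i).image φ) = (F.biUnion W).image φ := by
    intro F
    exact Finset.biUnion_image.symm
  have hsm : ∀ s (A : Finset ℕ), ∑ a ∈ A.image φ, d s a = sm (D s) A := by
    intro s A
    unfold sm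
    rw [Finset.sum_image (fun a _ b _ hab => hφ.injective hab)]
  refine ⟨fun i => (W i).image φ, fun i => (hW.1 i).image _, ?_, fun s k m => ?_⟩
  · intro i a ha b hb
    obtain ⟨a', ha', rfl⟩ := mem_image.1 ha
    obtain ⟨b', hb', rfl⟩ := mem_image.1 hb
    exact hφ (hW.2 i a' ha' b' hb')
  · set c0 := Nat.pair (Nat.pair s k) (Nat.pair m 0) with hc0
    set c1 := Nat.pair (Nat.pair s k) (Nat.pair m 1) with hc1
    refine ⟨max c0 c1, fun F h1 h2 h3 => ?_⟩
    constructor
    · obtain ⟨Z, hZ, hZW, hZF⟩ := extend hW c0 (k + m) h1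
        (fun l hl i hi => (le_max_left _ _).trans (h2 l hl i hi)) h3
      have h4 := fam_pair _ _ _ _ _ s k m 0 Z (hfam c0 Z hZ hZW)
      unfold famAt at h4
      rw [if_pos rfl] at h4
      unfold goodF at h4
      convert h4 using 1
      funext i
      rw [himg, hsm, hZF (k + i) (by omega)]
      congr 1
      simp only [hρ']
      congr 1
      funext l
      rw [himg, hZF l (by omega)]
    · obtain ⟨Z, hZ, hZW, hZF⟩ := extend hW c1 (k + m) h1
        (fun l hl i hi => (le_max_right _ _).trans (h2 l hl i hi)) h3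
      have h4 := fam_pair _ _ _ _ _ s k m 1 Z (hfam c1 Z hZ hZW)
      unfold famAt at h4
      rw [if_neg one_ne_zero] at h4
      unfold goodR at h4
      convert h4 using 1
      funext i
      rw [himg, hsm, hZF (k + (Fin.rev i : Fin m)) (by have := (Fin.rev i).2; omega)]
      congr 1
      simp only [hρ']
      congr 1
      funext l
      rw [himg, hZF l (by omega)]

end Pool.Agent.W126.RecSum
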