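import Pool.Agent.W126.RecAdj
import Pool.Agent.W126.RecMain

set_option autoImplicit false

/-! Sum subsystems of exact gap vectors next to record gaps: assembly (helper126). -/

open Finset Filter

namespace Pool.Agent.W126.AdjMain

open Pool.Agent.H256R2.SC (ff)
open Pool.Agent.W126.RecAdj
open Pool.Agent.W126.IntSys
open Pool.Agent.W68.Mil
open Pool.Agent.H752R3.MT

/-- `m` consecutive gaps `x 0, ..., x (m-1)` between primes `≡ r (mod q)`, followed by a record gap -/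
def Followed (c : ℝ) (m q r : ℕ) (x : Fin m → ℕ) : Prop :=
  ∃ᶠ n : ℕ in atTop, (∀ i ≤ m, Nat.nth Nat.Prime (n + i) ≡ r [MOD q]) ∧
    (∀ i : Fin m, Nat.nth Nat.Prime (n + i + 1) = Nat.nth Nat.Prime (n + i) + x i) ∧
    c * ff (Nat.nth Nat.Prime n) ≤ (Nat.nth Nat.Prime (n + m + 1) : ℝ) - Nat.nth Nat.Prime (n + m)

/-- `m` consecutive gaps `x 0, ..., x (m-1)` between primes `≡ r (mod q)`, preceded by a record gap -/
def Preceded (c : ℝ) (m q r : ℕ) (x : Fin m → ℕ) : Prop :=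
  ∃ᶠ n : ℕ in atTop, (∀ i ≤ m, Nat.nth Nat.Prime (n + 1 + i) ≡ r [MOD q]) ∧
    (∀ i : Fin m, Nat.nth Nat.Prime (n + 1 + i + 1) = Nat.nth Nat.Prime (n + 1 + i) + x i) ∧
    c * ff (Nat.nth Nat.Prime n) ≤ (Nat.nth Nat.Prime (n + 1) : ℝ) - Nat.nth Nat.Prime n

theorem followed_of {c : ℝ} {m q r : ℕ} {x : Fin m → ℕ} (h : (fun i => (x i : ℤ)) ∈ Fol c m q r) :
    Followed c m q r x := by
  refine Filter.Frequently.mono h ?_
  rintro n ⟨h1, h2, h3⟩
  refine ⟨h1, fun i => ?_, h3⟩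
  have := h2 i
  have h4 : (Nat.nth Nat.Prime (n + i + 1) : ℤ) = Nat.nth Nat.Prime (n + i) + x i := by linarith
  exact_mod_cast h4

theorem preceded_of {c : ℝ} {m q r : ℕ} {x : Fin m → ℕ} (h : (fun i => (x i : ℤ)) ∈ Pre c m q r) :
    Preceded c m q r x := by
  refine Filter.Frequently.mono h ?_
  rintro n ⟨h1, h2, h3⟩
  refine ⟨h1, fun i => ?_, h3⟩
  have := h2 i
  have h4 : (Nat.nth Nat.Prime (n + 1 + i + 1) : ℤ) = Nat.nth Nat.Prime (n + 1 + i) + x i := by linarith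
  exact_mod_cast h4

/-- the four sets of vectors -/
def LL (c : ℕ → ℝ) (q r : ℕ → ℕ) (s m b : ℕ) : Set (Fin m → ℤ) :=
  if b = 0 then Fol (c m) m (q s) (r s)
  else if b = 1 then Pre (c m) m (q s) (r s)
  else if b = 2 then {v | (fun i => v (Fin.rev i)) ∈ Fol (c m) m (q s) (r s)}
  else {v | (fun i => v (Fin.rev i)) ∈ Pre (c m) m (q s) (r s)}

/-- the condition on block sequences -/
def PP (c : ℕ → ℝ) (q r : ℕ → ℕ) (d : ℕ → ℕ → ℕ) (ρ : ℕ → ∀ k, (Fin k → Finset ℕ) → ℕ)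
    (s k m b : ℕ) (Z : ℕ → Finset ℕ) : Prop :=
  (fun i : Fin m => (ρ s k (fun l => Z l) : ℤ) * smZ (d s) (Z (k + i))) ∈ LL c q r s m b

theorem PP_pair {c : ℕ → ℝ} {q r : ℕ → ℕ} {d : ℕ → ℕ → ℕ} {ρ : ℕ → ∀ k, (Fin k → Finset ℕ) → ℕ}
    {Z : ℕ → Finset ℕ} (s k m b : ℕ)
    (h : PP c q r d ρ (Nat.unpair (Nat.unpair (Nat.pair (Nat.pair s k) (Nat.pair m b))).1).1
      (Nat.unpair (Nat.unpair (Nat.pair (Nat.pair s k) (Nat.pair m b))).1).2
      (Nat.unpair (Nat.unpair (Nat.pair (Nat.pair s k) (Nat.pair m b))).2).1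
      (Nat.unpair (Nat.unpair (Nat.pair (Nat.pair s k) (Nat.pair m b))).2).2 Z) :
    PP c q r d ρ s k m b Z := by
  rw [Nat.unpair_pair] at h
  simp only [] at h
  rw [Nat.unpair_pair, Nat.unpair_pair] at h
  exact h

theorem smZ_nat (d : ℕ → ℕ) (A : Finset ℕ) : smZ d A = ((∑ a ∈ A, d a : ℕ) : ℤ) := by
  unfold smZ
  push_cast
  rfl

theorem main : ∃ c : ℕ → ℝ, (∀ m, 0 < c m) ∧ ∀ (q r : ℕ → ℕ), (∀ s, Squarefree (q s)) →
    (∀ s, (r s).Coprime (q s)) → ∀ (d : ℕ → ℕ → ℕ), (∀ s a, 1 ≤ d s a) →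
    ∀ (ρ : ℕ → ∀ k, (Fin k → Finset ℕ) → ℕ), (∀ s k P, 1 ≤ ρ s k P) →
    ∃ W : ℕ → Finset ℕ, (∀ i, (W i).Nonempty) ∧ (∀ i, ∀ a ∈ W i, ∀ b ∈ W (i + 1), a < b) ∧
      ∀ s k m : ℕ, ∃ N : ℕ, ∀ F : ℕ → Finset ℕ, (∀ l < k + m, (F l).Nonempty) →
        (∀ l < k + m, ∀ i ∈ F l, N ≤ i) →
        (∀ l, l + 1 < k + m → ∀ i ∈ F l, ∀ i' ∈ F (l + 1), i < i') →
        Followed (c m) m (q s) (r s) (fun i => ρ s k (fun l => (F l).biUnion W) *
          ∑ a ∈ (F (k + i)).biUnion W, d s a) ∧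
        Preceded (c m) m (q s) (r s) (fun i => ρ s k (fun l => (F l).biUnion W) *
          ∑ a ∈ (F (k + i)).biUnion W, d s a) ∧
        Followed (c m) m (q s) (r s) (fun i => ρ s k (fun l => (F l).biUnion W) *
          ∑ a ∈ (F (k + (Fin.rev i : Fin m))).biUnion W, d s a) ∧
        Preceded (c m) m (q s) (r s) (fun i => ρ s k (fun l => (F l).biUnion W) *
          ∑ a ∈ (F (k + (Fin.rev i : Fin m))).biUnion W, d s a) := by
  classical
  choose c hc hinter using inter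
  refine ⟨c, hc, fun q r hq hr d hd ρ hρ => ?_⟩
  obtain ⟨W, hW, hfam⟩ := systems (fun t => q (Nat.unpair (Nat.unpair t).1).1)
    (fun t => (Nat.unpair (Nat.unpair t).2).1) (fun t => (Nat.unpair (Nat.unpair t).1).2)
    (fun t => Nat.pos_of_ne_zero (hq _).ne_zero)
    (fun t => LL c q r (Nat.unpair (Nat.unpair t).1).1 (Nat.unpair (Nat.unpair t).2).1
      (Nat.unpair (Nat.unpair t).2).2) (by
      intro t
      have h1 := hinter (Nat.unpair (Nat.unpair t).2).1 (q (Nat.unpair (Nat.unpair t).1).1) (hq _)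
        (r (Nat.unpair (Nat.unpair t).1).1) (hr _)
      unfold LL
      split_ifs
      · exact h1.1
      · exact h1.2
      · exact h1.1.rev
      · exact h1.2.rev) (fun t => d (Nat.unpair (Nat.unpair t).1).1) (fun t => hd _)
    (fun t => ρ (Nat.unpair (Nat.unpair t).1).1 (Nat.unpair (Nat.unpair t).1).2) (fun t => hρ _ _)
  refine ⟨W, hW.1, hW.2, fun s k m => ?_⟩
  have hPP : ∀ b : ℕ, ∃ N : ℕ, ∀ F : ℕ → Finset ℕ, (∀ l < k + m, (F l).Nonempty) →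
        (∀ l < k + m, ∀ i ∈ F l, N ≤ i) →
        (∀ l, l + 1 < k + m → ∀ i ∈ F l, ∀ i' ∈ F (l + 1), i < i') →
        (fun i : Fin m => ((ρ s k (fun l => (F l).biUnion W) * ∑ a ∈ (F (k + i)).biUnion W, d s a : ℕ) : ℤ))
          ∈ LL c q r s m b := by
    intro b
    refine ⟨Nat.pair (Nat.pair s k) (Nat.pair m b), fun F h1 h2 h3 => ?_⟩
    obtain ⟨Z, hZ, hZW, hZF⟩ := Pool.Agent.W126.RecSum.extend hW _ (k + m) h1 h2 h3
    have h4 : PP c q r d ρ _ _ _ _ Z := hfam _ Z hZ hZW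
    have h5 := PP_pair s k m b h4
    unfold PP at h5
    convert h5 using 1
    funext i
    rw [smZ_nat, hZF (k + i) (by omega)]
    push_cast
    congr 2
    congr 1
    funext l
    rw [hZF l (by omega)]
  obtain ⟨N0, h0⟩ := hPP 0
  obtain ⟨N1, h1⟩ := hPP 1
  obtain ⟨N2, h2⟩ := hPP 2
  obtain ⟨N3, h3⟩ := hPP 3
  refine ⟨N0 + N1 + N2 + N3, fun F g1 g2 g3 => ⟨?_, ?_, ?_, ?_⟩⟩
  · exact followed_of (h0 F g1 (fun l hl i hi => by have := g2 l hl i hi; omega) g3)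
  · exact preceded_of (h1 F g1 (fun l hl i hi => by have := g2 l hl i hi; omega) g3)
  · exact followed_of (h2 F g1 (fun l hl i hi => by have := g2 l hl i hi; omega) g3)
  · exact preceded_of (h3 F g1 (fun l hl i hi => by have := g2 l hl i hi; omega) g3)

end Pool.Agent.W126.AdjMain
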