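import Pool.Agent.H672R3.InfRec
import Pool.Agent.H362R2.CM.Final

set_option autoImplicit false

/-! Exact patterns of primes isolated by record gaps on both sides (helper126). -/

open Finset Filter Topology

namespace Pool.Agent.W126.RecIso

open Pool.Agent.H256R2.SC (ff t1 t2)
open Pool.Agent.H312R2.RG.C3 (ff_tendsto ff_lower ff_small ff_slow)
open Pool.Agent.H378R2 (yy)
open Pool.Agent.H362R2.RQ
open Pool.Agent.H672R3.InfRec (scale_ev)

/-- a scale at which the record window has prescribed size, up to a factor `2` -/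
theorem scale_ex (c : ℝ) (hc : 0 < c) (Y : ℝ) : ∃ T₀ : ℝ, ∀ T : ℝ, T₀ ≤ T → ∃ X : ℝ, Y ≤ X ∧
    2 * T ≤ c * ff X ∧ c * ff X ≤ 4 * T := by
  classical
  have hpow : Tendsto (fun k : ℕ => (4 : ℝ) ^ k) atTop atTop :=
    tendsto_pow_atTop_atTop_of_one_lt (by norm_num)
  obtain ⟨k0, hk0⟩ := eventually_atTop.1 (hpow.eventually ((ff_slow (1 / 2) (by norm_num)).and
    ((eventually_ge_atTop Y).and (ff_tendsto.eventually_gt_atTop 0))))
  have hinf : ∀ T : ℝ, ∃ k : ℕ, 2 * T ≤ c * ff ((4 : ℝ) ^ k) := by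
    intro T
    obtain ⟨k, hk⟩ := ((ff_tendsto.comp hpow).eventually_ge_atTop (2 * T / c)).exists
    refine ⟨k, ?_⟩
    simp only [Function.comp] at hk
    rw [div_le_iff₀ hc] at hk
    linarith
  refine ⟨∑ k ∈ range (k0 + 1), |c * ff ((4 : ℝ) ^ k)| + 1, fun T hT => ?_⟩
  set k := Nat.find (hinf T) with hk
  have hk1 : 2 * T ≤ c * ff ((4 : ℝ) ^ k) := Nat.find_spec (hinf T)
  have hT0 : 0 < T := by
    have : (0 : ℝ) ≤ ∑ k ∈ range (k0 + 1), |c * ff ((4 : ℝ) ^ k)| :=
      Finset.sum_nonneg fun _ _ => abs_nonneg _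
    linarith
  have hkk : k0 < k := by
    by_contra hle
    push Not at hle
    have h1 : |c * ff ((4 : ℝ) ^ k)| ≤ ∑ k ∈ range (k0 + 1), |c * ff ((4 : ℝ) ^ k)| :=
      Finset.single_le_sum (f := fun k : ℕ => |c * ff ((4 : ℝ) ^ k)|) (fun _ _ => abs_nonneg _)
        (mem_range.2 (by omega))
    have h2 := le_abs_self (c * ff ((4 : ℝ) ^ k))
    linarith
  obtain ⟨l, hl⟩ : ∃ l, k = l + 1 := ⟨k - 1, by omega⟩
  have hmin := Nat.find_min (hinf T) (m := l) (by rw [← hk]; omega)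
  push Not at hmin
  obtain ⟨h1, -, h3⟩ := hk0 l (by omega)
  have h2 := h1 (4 ^ (l + 1)) (by rw [pow_succ]; nlinarith [pow_pos (show (0 : ℝ) < 4 by norm_num) l])
    (by rw [pow_succ]; linarith)
  obtain ⟨-, h4, h5⟩ := hk0 (l + 1) (by omega)
  rw [hl] at hk1
  refine ⟨4 ^ (l + 1), h4, hk1, ?_⟩
  rw [abs_lt] at h2
  have h6 : 1 / 2 * ff (4 ^ (l + 1)) < ff (4 ^ l) := by
    have h7 : 1 / 2 < ff (4 ^ l) / ff (4 ^ (l + 1)) := by linarith [h2.1]
    rwa [lt_div_iff₀ h5] at h7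
  have h8 : c * (1 / 2 * ff (4 ^ (l + 1))) < c * ff (4 ^ l) := mul_lt_mul_of_pos_left h6 hc
  linarith

theorem core (m : ℕ) : ∃ K : ℕ, ∃ c : ℝ, 0 < c ∧ ∀ q : ℕ, Squarefree q → ∀ r : ℕ, r.Coprime q →
    ∀ h : Fin K → ℤ, StrictMono h → (∀ j, (q : ℤ) ∣ h j) →
    ∃ J : Finset (Fin K), m ≤ J.card ∧ ∃ᶠ n : ℕ in atTop, n ≡ r [MOD q] ∧
      ∀ y : ℤ, |(y : ℝ)| ≤ c * ff n → (Nat.Prime ((n : ℤ) + y).toNat ↔ ∃ j ∈ J, h j = y) := by
  classical
  obtain ⟨η, hη, hst⟩ := stRQ
  set M : ℕ := ⌈(m : ℝ) / η⌉₊ + 1 with hM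
  have hM0 : 0 < M := by omega
  have hηM : (m : ℝ) ≤ η * M := by
    have h1 := Nat.le_ceil ((m : ℝ) / η)
    rw [div_le_iff₀ hη] at h1
    rw [hM]; push_cast
    nlinarith
  obtain ⟨K1, hMK, c0, hc0, hz⟩ := hst M hM0
  obtain ⟨K2, hK2, hquart⟩ := Pool.Agent.H362R2.CM.quarter (4 * K1)
  set N2 : ℕ := 4 * K1 * K2 with hN2
  have hK1 : 1 ≤ K1 := by omega
  have hN2pos : 1 ≤ N2 := by
    rw [hN2]
    exact Nat.mul_pos (by omega) hK2
  set Q : ℕ := N2.factorial with hQ
  have hQ0 : 0 < Q := Nat.factorial_pos _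
  refine ⟨Q * N2, c0 / 16, by positivity, ?_⟩
  intro q hq r hr h hh hqh
  have hq0 : 0 < q := Nat.pos_of_ne_zero hq.ne_zero
  have : NeZero Q := ⟨hQ0.ne'⟩
  -- a subsystem in one class modulo `Q`
  obtain ⟨cl, -, hcl⟩ := Finset.exists_le_card_fiber_of_mul_le_card_of_maps_to
    (s := (univ : Finset (Fin (Q * N2)))) (t := (univ : Finset (ZMod Q)))
    (f := fun j => ((h j : ℤ) : ZMod Q)) (n := N2) (fun _ _ => mem_univ _) ⟨0, mem_univ _⟩ (by
      rw [card_univ, card_univ, ZMod.card, Fintype.card_fin])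
  obtain ⟨T0, hT0, hT0c⟩ := Finset.exists_subset_card_eq hcl
  set e := T0.orderEmbOfFin hT0c with he
  have heT : ∀ i, ((h (e i) : ℤ) : ZMod Q) = cl := fun i => by
    have := hT0 (Finset.orderEmbOfFin_mem T0 hT0c i)
    exact (mem_filter.1 this).2
  set E : Fin (4 * K1) × Fin K2 ≃ Fin N2 := finProdFinEquiv with hE
  obtain ⟨S, cf, hS, hinf⟩ := hquart (fun _ _ => (q : ℤ)) (fun g i => (r : ℤ) + h (e (E (g, i))))
    (fun _ _ => by exact_mod_cast hq0) (by
      intro x y hxy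
      simp only [Prod.mk.injEq, true_and, add_right_inj] at hxy
      have h1 := hh.injective hxy
      have h2 := E.injective (e.injective h1)
      exact h2) (by
      intro p hp
      by_cases hpq : p ∣ q
      · refine ⟨0, fun g i hd => ?_⟩
        rw [mul_zero, zero_add] at hd
        have h1 : (p : ℤ) ∣ h (e (E (g, i))) := (Int.natCast_dvd_natCast.2 hpq).trans (hqh _)
        have h2 : (p : ℤ) ∣ (r : ℤ) := (dvd_add_left h1).1 hd
        have h3 : p ∣ r := by exact_mod_cast h2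
        have h4 := Nat.dvd_gcd h3 hpq
        rw [Nat.Coprime] at hr
        rw [hr] at h4
        exact hp.one_lt.ne' (Nat.dvd_one.1 h4)
      · by_cases hpN : p ≤ N2
        · have hpQ : p ∣ Q := (hp.dvd_factorial).2 hpN
          have hcop : IsCoprime (q : ℤ) (p : ℤ) :=
            (Nat.isCoprime_iff_coprime.2 ((Nat.Prime.coprime_iff_not_dvd hp).2 hpq)).symm
          obtain ⟨a, b, hab⟩ := hcop
          set i0 : Fin N2 := ⟨0, hN2pos⟩ with hi0
          refine ⟨a * (1 - r - h (e i0)), fun g i hd => ?_⟩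
          have h1 : (Q : ℤ) ∣ h (e (E (g, i))) - h (e i0) := by
            rw [← ZMod.intCast_zmod_eq_zero_iff_dvd]
            push_cast
            rw [heT, heT, sub_self]
          have h2 : (p : ℤ) ∣ h (e (E (g, i))) - h (e i0) := (Int.natCast_dvd_natCast.2 hpQ).trans h1
          have h3 : (q : ℤ) * (a * (1 - r - h (e i0))) + (r + h (e (E (g, i)))) =
              1 + (h (e (E (g, i))) - h (e i0)) - p * (b * (1 - r - h (e i0))) := by
            have : (q : ℤ) * a = 1 - p * b := by linarith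
            calc (q : ℤ) * (a * (1 - r - h (e i0))) + (r + h (e (E (g, i))))
                = (q * a) * (1 - r - h (e i0)) + (r + h (e (E (g, i)))) := by ring
              _ = _ := by rw [this]; ring
          rw [h3] at hd
          have h4 := (dvd_sub_left (Dvd.intro _ rfl)).1 hd
          have h5 := (dvd_add_left h2).1 h4
          have h6 : p ∣ 1 := by exact_mod_cast h5
          exact hp.one_lt.ne' (Nat.dvd_one.1 h6)
        · push Not at hpN
          obtain ⟨n, hn⟩ := Pool.Agent.H361R2.exists_avoid' (m := N2) hp hpN (fun _ => (q : ℤ))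
            (fun i => (r : ℤ) + h (e i)) (fun i hd => hpq (by exact_mod_cast hd.1))
          exact ⟨n, fun g i => hn (E (g, i))⟩)
  have hSK : K1 ≤ S.card := by omega
  set idx : Fin (4 * K1) → Fin (Q * N2) := fun g => e (E (g, cf g)) with hidx
  have hidxi : Function.Injective idx := by
    intro g g' hgg
    have h1 := E.injective (e.injective hgg)
    exact (Prod.ext_iff.1 h1).1
  obtain ⟨J1, hJ1, hJ1c⟩ := Finset.exists_subset_card_eq
    (show K1 ≤ (S.image idx).card by rw [card_image_of_injective _ hidxi]; exact hSK)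
  set u := J1.orderEmbOfFin hJ1c with hu
  have huS : ∀ j, ∃ g ∈ S, idx g = u j := fun j =>
    mem_image.1 (hJ1 (Finset.orderEmbOfFin_mem J1 hJ1c j))
  -- by contradiction
  by_contra hcon
  simp only [not_exists, not_and] at hcon
  have hcon2 : ∀ J : Finset (Fin (Q * N2)), ∃ N : ℕ, m ≤ J.card → ∀ n ≥ N, ¬ (n ≡ r [MOD q] ∧
      ∀ y : ℤ, |(y : ℝ)| ≤ c0 / 16 * ff n → (Nat.Prime ((n : ℤ) + y).toNat ↔ ∃ j ∈ J, h j = y)) := by
    intro J
    by_cases hJ : m ≤ J.card
    · obtain ⟨N, hN⟩ := eventually_atTop.1 (not_frequently.1 (hcon J hJ))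
      exact ⟨N, fun _ n hn => hN n hn⟩
    · exact ⟨0, fun h => absurd h hJ⟩
  choose NJ hNJ using hcon2
  set N0 : ℕ := univ.sup NJ with hN0
  obtain ⟨X1, hX1⟩ := hz q
  obtain ⟨X2, hX2⟩ := eventually_atTop.1 ((scale_ev (c0 / 8) (by positivity)).and
    ((ff_slow (1 / 2) (by norm_num)).and ((ff_small c0 hc0).and
    ((ff_tendsto.eventually_gt_atTop 0).and ((t1.eventually_ge_atTop 1).and
      (eventually_ge_atTop (1 : ℝ)))))))
  obtain ⟨T₀, hT₀⟩ := scale_ex c0 hc0 (max (max X1 X2) N0)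
  -- a large element
  set Bh : ℕ := ∑ j, (h j).natAbs with hBh
  have hhB : ∀ j, |(h j : ℝ)| ≤ Bh := by
    intro j
    have h1 : (h j).natAbs ≤ Bh := Finset.single_le_sum (f := fun j => (h j).natAbs)
      (fun _ _ => Nat.zero_le _) (mem_univ j)
    rw [← Int.cast_abs, Int.abs_eq_natAbs]
    exact_mod_cast h1
  obtain ⟨n', hn', hn'g⟩ := hinf.exists_gt (⌈T₀⌉₊ + 2 * Bh + 2)
  set T : ℕ := q * n' + r with hT
  have hTn : n' ≤ T := by
    rw [hT]
    have := Nat.le_mul_of_pos_left n' hq0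
    omega
  have hTT0 : T₀ ≤ T := by
    have h1 := Nat.le_ceil T₀
    have h2 : ⌈T₀⌉₊ ≤ T := by omega
    have h3 : ((⌈T₀⌉₊ : ℕ) : ℝ) ≤ T := by exact_mod_cast h2
    linarith
  have hTB : 2 * (Bh : ℝ) + 2 ≤ T := by
    have h2 : 2 * Bh + 2 ≤ T := by omega
    exact_mod_cast h2
  obtain ⟨X, hXY, hXa, hXb⟩ := hT₀ T hTT0
  have hX1' : X1 ≤ X := ((le_max_left _ _).trans (le_max_left _ _)).trans hXY
  have hX2' : X2 ≤ X := ((le_max_right _ _).trans (le_max_left _ _)).trans hXY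
  have hXN0 : (N0 : ℝ) ≤ X := (le_max_right _ _).trans hXY
  obtain ⟨g1, g2, g3, g4, g5, g6⟩ := hX2 X hX2'
  have hBh0 : (0 : ℝ) ≤ Bh := Nat.cast_nonneg _
  -- the shifts
  have hpr : ∀ j : Fin K1, ∃ t : ℕ, (t : ℤ) = T + h (u j) ∧ t.Prime := by
    intro j
    obtain ⟨g, hg, hgi⟩ := huS j
    obtain ⟨a1, a2⟩ := hn' g hg
    have e1 : (q : ℤ) * n' + (r + h (e (E (g, cf g)))) = T + h (u j) := by
      rw [← hgi, hT]
      push_cast
      simp only [hidx]
      ring
    rw [e1] at a1 a2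
    refine ⟨((T : ℤ) + h (u j)).toNat, Int.toNat_of_nonneg a1.le, ?_⟩
    rw [Nat.prime_iff_prime_int, Int.toNat_of_nonneg a1.le]
    exact a2
  choose t ht1 ht2 using hpr
  have htR : ∀ j, (t j : ℝ) = T + h (u j) := fun j => by exact_mod_cast congrArg (fun z : ℤ => (z : ℝ)) (ht1 j)
  have htinj : Function.Injective t := by
    intro i j hij
    have h1 := ht1 i
    rw [hij, ht1 j] at h1
    have h2 : h (u j) = h (u i) := by linarith
    exact (u.injective (hh.injective h2)).symm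
  have htlo : ∀ j, (T : ℝ) / 2 ≤ t j := by
    intro j
    have h1 := (abs_le.1 (hhB (u j))).1
    rw [htR j]
    linarith
  have hthi : ∀ j, (t j : ℝ) ≤ 2 * T := by
    intro j
    have h1 := (abs_le.1 (hhB (u j))).2
    rw [htR j]
    linarith
  have hyT : (yy X : ℝ) < T / 2 := by
    have h1 : (yy X : ℝ) ≤ Real.log X / 1000 := Nat.floor_le (by positivity)
    linarith
  obtain ⟨n, hn1, hn2, -, ⟨D, hD1, hD2⟩, hs, hzn⟩ := hX1 X hX1' t htinj
    (fun j => ⟨ht2 j, by
      have h2 : (yy X : ℝ) < t j := hyT.trans_le (htlo j)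
      exact_mod_cast h2, (hthi j).trans hXa⟩) (cmod K1 M hM0) (fib_cmod K1 M hM0 hMK) ∅ (by
      rw [card_empty, Nat.cast_zero]
      positivity)
  have hqn : q ∣ n := dvd_of_primes q n hq (fun p hp hpq => hzn p hp (Nat.le_of_dvd hq0 hpq))
  set J0 : Finset (Fin K1) := univ.filter (fun j => (n + t j).Prime) with hJ0
  have hcard : m ≤ J0.card := by
    have h1 : D ⊆ J0.image (cmod K1 M hM0) := by
      intro d hd
      obtain ⟨j, hj1, hj2⟩ := hD2 d hd
      exact mem_image.2 ⟨j, mem_filter.2 ⟨mem_univ _, hj2⟩, hj1⟩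
    have h2 := (card_le_card h1).trans card_image_le
    have h3 : (m : ℝ) ≤ D.card := hηM.trans hD1
    have h4 : m ≤ D.card := by exact_mod_cast h3
    omega
  set J : Finset (Fin (Q * N2)) := J0.image u with hJ
  have hJc : m ≤ J.card := by
    rw [hJ, card_image_of_injective _ u.injective]
    exact hcard
  have hTX : (T : ℝ) ≤ X := by
    have h0 : (0 : ℝ) ≤ T := Nat.cast_nonneg _
    linarith
  have hNN : NJ J ≤ n + T := by
    have h1 : NJ J ≤ N0 := Finset.le_sup (f := NJ) (mem_univ J)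
    have h2 : (N0 : ℝ) < n := hXN0.trans_lt hn1
    have h3 : N0 < n := by exact_mod_cast h2
    omega
  apply hNJ J hJc (n + T) hNN
  constructor
  · have h1 : n ≡ 0 [MOD q] := (Nat.modEq_zero_iff_dvd).2 hqn
    have h2 : T ≡ r [MOD q] := by
      rw [hT]
      have : q * n' ≡ 0 [MOD q] := (Nat.modEq_zero_iff_dvd).2 (Dvd.intro _ rfl)
      simpa using this.add_right r
    simpa using h1.add h2
  · intro y hy
    have hff : ff ((n + T : ℕ) : ℝ) ≤ 2 * ff X := by
      have h1 := g2 ((n + T : ℕ) : ℝ) (by push_cast; linarith [(Nat.cast_nonneg T : (0 : ℝ) ≤ T)])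
        (by push_cast; linarith)
      rw [abs_lt] at h1
      rcases le_or_gt (ff ((n + T : ℕ) : ℝ)) 0 with h0 | h0
      · linarith
      · have h2 : 1 / 2 < ff X / ff ((n + T : ℕ) : ℝ) := by linarith [h1.1]
        rw [lt_div_iff₀ h0] at h2
        linarith
    have hyT2 : |(y : ℝ)| ≤ T / 2 := by
      refine hy.trans ?_
      have h1 : c0 / 16 * ff ((n + T : ℕ) : ℝ) ≤ c0 / 16 * (2 * ff X) :=
        mul_le_mul_of_nonneg_left hff (by positivity)
      linarith
    rw [abs_le] at hyT2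
    obtain ⟨s, hs'⟩ : ∃ s : ℕ, (s : ℤ) = T + y := by
      refine ⟨((T : ℤ) + y).toNat, Int.toNat_of_nonneg ?_⟩
      have : (0 : ℝ) ≤ T + y := by
        have h0 : (0 : ℝ) ≤ T := Nat.cast_nonneg _
        linarith [hyT2.1]
      exact_mod_cast this
    have hsR : (s : ℝ) = T + y := by exact_mod_cast congrArg (fun z : ℤ => (z : ℝ)) hs'
    have e1 : (((n + T : ℕ) : ℤ) + y).toNat = n + s := by
      have : ((n + T : ℕ) : ℤ) + y = ((n + s : ℕ) : ℤ) := by
        push_cast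
        rw [hs']
        ring
      rw [this, Int.toNat_natCast]
    rw [e1]
    constructor
    · intro hp
      obtain ⟨j, hj⟩ := hs s (by
        have h0 : (0 : ℝ) ≤ T := Nat.cast_nonneg _
        linarith [hyT2.2]) hp
      refine ⟨u j, mem_image.2 ⟨j, mem_filter.2 ⟨mem_univ _, by rw [← hj]; exact hp⟩, rfl⟩, ?_⟩
      have h1 := ht1 j
      rw [← hj, hs'] at h1
      linarith
    · rintro ⟨j', hj', hjy⟩
      obtain ⟨j, hj, rfl⟩ := mem_image.1 hj'
      have h1 := (mem_filter.1 hj).2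
      have h2 : s = t j := by
        have h3 := ht1 j
        rw [hjy, ← hs'] at h3
        exact_mod_cast h3.symm
      rw [h2]
      exact h1

end Pool.Agent.W126.RecIso
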