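import Pool.Agent.H672R3.InfRec
import Pool.Agent.W68.Mil2

set_option autoImplicit false

/-! Sum subsystems at every scale up to the record scale of prime gaps (helper126). -/

open Finset Filter Topology

namespace Pool.Agent.W126.RecSum

open Pool.Agent.H256R2.SC (ff t1 t2)
open Pool.Agent.H312R2.RG.C3 (ff_tendsto ff_lower ff_small ff_slow)
open Pool.Agent.H672R3.SimRec
open Pool.Agent.H672R3.InfRec (exists_min_pos scale_ev)
open Pool.Agent.W68.Mil
open Pool.Agent.H752R3.MT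

/-- the limit points, along the blocks of `m + 1` consecutive primes congruent to `r` modulo `q`, of the vectors of
the `m` gaps divided by `H` -/
def LimH (H : ℝ → ℝ) (m q r : ℕ) : Set (Fin m → ℝ) :=
  {v | ∀ ε : ℝ, 0 < ε → ∃ᶠ n : ℕ in atTop,
    (∀ i ≤ m, Nat.nth Nat.Prime (n + i) ≡ r [MOD q]) ∧
    ∀ i : Fin m, |((Nat.nth Nat.Prime (n + i + 1) : ℝ) - Nat.nth Nat.Prime (n + i)) /
      H (Nat.nth Nat.Prime n) - v i| < ε}

/-- scale functions -/
structure Scale (H : ℝ → ℝ) : Prop where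
  low : ∀ᶠ x : ℝ in atTop, Real.log x ≤ H x
  slow : ∀ ε : ℝ, 0 < ε → ∀ᶠ x : ℝ in atTop, ∀ t : ℝ, x ≤ t → t ≤ 4 * x → |H x / H t - 1| < ε

theorem lpH (m : ℕ) : ∃ K : ℕ, ∃ c : ℝ, 0 < c ∧ ∀ H : ℝ → ℝ, Scale H → ∀ B : ℝ, 0 < B →
    (∀ᶠ x : ℝ in atTop, B * H x ≤ c * ff x) → ∀ q : ℕ, Squarefree q → ∀ r : ℕ, r.Coprime q →
    ∀ β : Fin K → ℝ, StrictMono β → (∀ j, 0 ≤ β j ∧ β j ≤ B) →
    ∃ j : Fin (m + 1) → Fin K, StrictMono j ∧
      (fun i : Fin m => β (j i.succ) - β (j i.castSucc)) ∈ LimH H m q r := by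
  classical
  obtain ⟨K, c, hc, hw⟩ := window m
  refine ⟨K, c, hc, ?_⟩
  intro H hHs B hB hBH q hq r hr β hβ hβc
  by_contra hcon
  push Not at hcon
  have h1 : ∀ j : Fin (m + 1) → Fin K, ∃ ε : ℝ, 0 < ε ∧ (StrictMono j → ∀ᶠ n : ℕ in atTop,
      ¬ ((∀ i ≤ m, Nat.nth Nat.Prime (n + i) ≡ r [MOD q]) ∧
      ∀ i : Fin m, |((Nat.nth Nat.Prime (n + i + 1) : ℝ) - Nat.nth Nat.Prime (n + i)) /
        H (Nat.nth Nat.Prime n) - (β (j i.succ) - β (j i.castSucc))| < ε)) := by
    intro j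
    by_cases hj : StrictMono j
    · have h2 := hcon j hj
      simp only [LimH, Set.mem_setOf_eq, not_forall, not_frequently] at h2
      obtain ⟨ε, hε, h3⟩ := h2
      exact ⟨ε, hε, fun _ => h3⟩
    · exact ⟨1, one_pos, fun h => absurd h hj⟩
  choose εf hεf hev using h1
  obtain ⟨ε, hε, hεle⟩ := exists_min_pos εf hεf
  have hev2 : ∀ᶠ n : ℕ in atTop, ∀ j : Fin (m + 1) → Fin K, StrictMono j →
      ¬ ((∀ i ≤ m, Nat.nth Nat.Prime (n + i) ≡ r [MOD q]) ∧
      ∀ i : Fin m, |((Nat.nth Nat.Prime (n + i + 1) : ℝ) - Nat.nth Nat.Prime (n + i)) /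
        H (Nat.nth Nat.Prime n) - (β (j i.succ) - β (j i.castSucc))| < ε) := by
    rw [eventually_all]
    intro j
    by_cases hj : StrictMono j
    · filter_upwards [hev j hj] with n hn _ hn2
      exact hn ⟨hn2.1, fun i => (hn2.2 i).trans_le (hεle j)⟩
    · exact Eventually.of_forall fun n hn => absurd hn hj
  obtain ⟨N₀, hN₀⟩ := eventually_atTop.1 hev2
  set δ : ℝ := min 1 (ε / (4 * (1 + B))) with hδ
  have hδ0 : 0 < δ := by positivity
  have hδ1 : δ ≤ 1 := min_le_left _ _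
  have hδε : δ * (4 * (1 + B)) ≤ ε := by
    have := min_le_right 1 (ε / (4 * (1 + B)))
    rw [← hδ, le_div_iff₀ (by positivity)] at this
    exact this
  obtain ⟨X, hX, hXs, hXsl, hXN, hX0, hXf, hXlow, hXB, hXl⟩ := ((hw δ hδ0 q hq).and ((scale_ev c hc).and
    ((hHs.slow δ hδ0).and ((eventually_ge_atTop ((Nat.nth Nat.Prime N₀ : ℕ) : ℝ)).and
    ((eventually_gt_atTop 0).and ((ff_tendsto.eventually_gt_atTop 0).and (hHs.low.and
    (hBH.and (t1.eventually_gt_atTop 0))))))))).exists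
  have hHX : 0 < H X := hXl.trans_le hXlow
  set H0 : ℝ := max (Real.log X) (B * H X) with hH0
  have hH0pos : 0 < H0 := hXl.trans_le (le_max_left _ _)
  have hH0le : H0 ≤ (1 + B) * H X := by
    rw [hH0]
    refine max_le ?_ ?_
    · nlinarith
    · nlinarith
  set κ : ℝ := H X / H0 with hκ
  have hκ0 : 0 < κ := by positivity
  have hBκ : B * κ ≤ 1 := by
    rw [hκ, ← mul_div_assoc, div_le_one hH0pos]
    exact le_max_right _ _
  obtain ⟨j, hj, hcard⟩ := hX H0 (le_max_left _ _) (max_le hXs hXB) (fun j => β j * κ)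
    (fun i j hij => mul_lt_mul_of_pos_right (hβ hij) hκ0)
    (fun j => ⟨mul_nonneg (hβc j).1 hκ0.le,
      (mul_le_mul_of_nonneg_right (hβc j).2 hκ0.le).trans hBκ⟩) (fun _ => r) (fun _ => hr)
  have hne : (Occ m q (fun _ => r) X H0 δ
      (fun i => β (j i.succ) * κ - β (j i.castSucc) * κ)).Nonempty := by
    by_contra hemp
    rw [Set.not_nonempty_iff_eq_empty] at hemp
    rw [hemp, Set.ncard_empty, Nat.cast_zero] at hcard
    exact absurd hcard (not_le.2 (Real.rpow_pos_of_pos hX0 _))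
  obtain ⟨n₀, hn1, hn2, hn3, hn4⟩ := hne
  have hn₀ : N₀ ≤ n₀ := by
    by_contra hlt
    push Not at hlt
    have h2 : Nat.nth Nat.Prime n₀ < Nat.nth Nat.Prime N₀ :=
      Nat.nth_strictMono Nat.infinite_setOf_prime hlt
    have h3 : ((Nat.nth Nat.Prime n₀ : ℕ) : ℝ) < (Nat.nth Nat.Prime N₀ : ℕ) := by exact_mod_cast h2
    linarith
  refine hN₀ n₀ hn₀ j hj ⟨fun i hi => hn3 ⟨i, by omega⟩, fun i => ?_⟩
  have h4 := hn4 i
  have hP2 : ((Nat.nth Nat.Prime n₀ : ℕ) : ℝ) ≤ 4 * X := by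
    refine le_trans ?_ hn2
    exact_mod_cast (Nat.nth_strictMono Nat.infinite_setOf_prime).monotone (Nat.le_add_right n₀ m)
  have h5 := (hXsl _ hn1.le hP2).le
  set g : ℝ := (Nat.nth Nat.Prime (n₀ + i + 1) : ℝ) - Nat.nth Nat.Prime (n₀ + i) with hg
  set F : ℝ := H X with hF
  set P : ℝ := H ((Nat.nth Nat.Prime n₀ : ℕ) : ℝ) with hP
  set u := β (j i.succ) with hu
  set v := β (j i.castSucc) with hv
  have hu1 := hβc (j i.succ)
  have hv1 := hβc (j i.castSucc)
  have q1 : |g / F - (u - v)| ≤ (1 + B) * δ := by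
    have e1 : g / F - (u - v) = (H0 / F) * (g / H0 - (u * κ - v * κ)) := by
      rw [hκ]
      field_simp
    rw [e1, abs_mul, abs_of_pos (by positivity)]
    refine mul_le_mul ?_ h4 (abs_nonneg _) (by positivity)
    rw [div_le_iff₀ hHX]
    exact hH0le
  have q2 : |g / F| ≤ B + (1 + B) * δ := by
    have e1 : |u - v| ≤ B := by
      rw [abs_le]; constructor <;> linarith [hu1.1, hu1.2, hv1.1, hv1.2]
    calc |g / F| = |(g / F - (u - v)) + (u - v)| := by ring_nf
      _ ≤ |g / F - (u - v)| + |u - v| := abs_add_le _ _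
      _ ≤ _ := by linarith
  have e2 : g / P - (u - v) = (g / F - (u - v)) + (g / F) * (F / P - 1) := by
    by_cases hP0 : P = 0
    · exfalso
      rw [hP0, div_zero, zero_sub, abs_neg, abs_one] at h5
      have h6 := hXsl _ hn1.le hP2
      change |F / P - 1| < δ at h6
      rw [hP0, div_zero, zero_sub, abs_neg, abs_one] at h6
      linarith
    · field_simp
      ring
  rw [e2]
  calc |(g / F - (u - v)) + (g / F) * (F / P - 1)|
      ≤ |g / F - (u - v)| + |(g / F) * (F / P - 1)| := abs_add_le _ _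
    _ = |g / F - (u - v)| + |g / F| * |F / P - 1| := by rw [abs_mul]
    _ ≤ (1 + B) * δ + (B + (1 + B) * δ) * δ := by
        apply add_le_add q1
        exact mul_le_mul q2 h5 (abs_nonneg _) (by positivity)
    _ < ε := by nlinarith [mul_pos hB hδ0]

/-- sums over finite sets -/
noncomputable def sm (d : ℕ → ℝ) (A : Finset ℕ) : ℝ := ∑ a ∈ A, d a

/-- partial sums over the first blocks -/
noncomputable def ps (d : ℕ → ℝ) (X : ℕ → Finset ℕ) (n : ℕ) : ℝ := ∑ t ∈ range n, sm d (X t)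

theorem sm_pos {d : ℕ → ℝ} (hd : ∀ a, 0 < d a) {A : Finset ℕ} (hA : A.Nonempty) : 0 < sm d A :=
  Finset.sum_pos (fun a _ => hd a) hA

theorem ps_strictMono {d : ℕ → ℝ} (hd : ∀ a, 0 < d a) {X : ℕ → Finset ℕ} (hX : Blk X) :
    StrictMono (ps d X) := by
  refine strictMono_nat_of_lt_succ fun n => ?_
  unfold ps
  rw [sum_range_succ]
  have := sm_pos hd (hX.1 n)
  linarith

theorem blk_disj {X : ℕ → Finset ℕ} (hX : Blk X) {i j : ℕ} (hij : i ≠ j) : Disjoint (X i) (X j) := by
  rw [Finset.disjoint_left]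
  intro a ha hb
  rcases Nat.lt_or_gt_of_ne hij with h | h
  · exact absurd (hX.lt h a ha a hb) (lt_irrefl a)
  · exact absurd (hX.lt h a hb a ha) (lt_irrefl a)

theorem sm_Ico {d : ℕ → ℝ} {X : ℕ → Finset ℕ} (hX : Blk X) {a b : ℕ} (hab : a ≤ b) :
    sm d ((Finset.Ico a b).biUnion X) = ps d X b - ps d X a := by
  unfold sm ps
  rw [Finset.sum_biUnion (fun i _ j _ hij => blk_disj hX hij)]
  exact Finset.sum_Ico_eq_sub _ hab

/-- coarsening with prescribed cut points -/
theorem coarsen {X : ℕ → Finset ℕ} (hX : Blk X) (d : ℕ → ℝ) (k N K m : ℕ) (hN : k ≤ N)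
    (j : Fin (m + 1) → Fin K) (hj : StrictMono j) :
    ∃ Y, Blk Y ∧ Le Y X ∧ (∀ i < k, Y i = X i) ∧ ∀ i : Fin m,
      sm d (Y (k + i)) = ps d X (N + j i.succ) - ps d X (N + j i.castSucc) := by
  classical
  set μ : ℕ → ℕ := fun l => if h : l < m + 1 then N + j ⟨l, h⟩ else N + K + l with hμ
  have hμm : StrictMono μ := by
    refine strictMono_nat_of_lt_succ fun l => ?_
    simp only [hμ]
    by_cases h1 : l + 1 < m + 1
    · rw [dif_pos (by omega : l < m + 1), dif_pos h1]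
      have h2 : j ⟨l, by omega⟩ < j ⟨l + 1, h1⟩ := hj (by rw [Fin.lt_def]; exact Nat.lt_succ_self l)
      have h3 : ((j ⟨l, by omega⟩ : Fin K) : ℕ) < (j ⟨l + 1, h1⟩ : Fin K) := h2
      omega
    · rw [dif_neg h1]
      by_cases h2 : l < m + 1
      · rw [dif_pos h2]
        have := (j ⟨l, h2⟩).2
        omega
      · rw [dif_neg h2]
        omega
  have hμ0 : N ≤ μ 0 := by
    simp only [hμ]
    rw [dif_pos (by omega)]
    omega
  set I : ℕ → Finset ℕ := fun i => if i < k then {i} else Finset.Ico (μ (i - k)) (μ (i - k + 1)) with hI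
  have hIB : Blk I := by
    refine ⟨fun i => ?_, fun i x hx y hy => ?_⟩
    · simp only [hI]
      split_ifs
      · exact singleton_nonempty i
      · exact Finset.nonempty_Ico.2 (hμm (Nat.lt_succ_self _))
    · simp only [hI] at hx hy
      by_cases h1 : i + 1 < k
      · rw [if_pos (by omega), mem_singleton] at hx
        rw [if_pos h1, mem_singleton] at hy
        omega
      · rw [if_neg h1, mem_Ico] at hy
        by_cases h2 : i < k
        · rw [if_pos h2, mem_singleton] at hx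
          have h3 : μ 0 ≤ μ (i + 1 - k) := hμm.monotone (Nat.zero_le _)
          omega
        · rw [if_neg h2, mem_Ico] at hx
          have h3 : i - k + 1 = i + 1 - k := by omega
          rw [h3] at hx
          omega
  refine ⟨fun i => (I i).biUnion X, hIB.comp hX, fun i => ⟨I i, hIB.1 i, rfl⟩, fun i hi => ?_, fun i => ?_⟩
  · simp only [hI]
    rw [if_pos hi, singleton_biUnion]
  · have e : I (k + i) = Finset.Ico (μ i) (μ (i + 1)) := by
      simp only [hI]
      rw [if_neg (by omega)]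
      have : k + (i : ℕ) - k = i := by omega
      rw [this]
    simp only [e]
    rw [sm_Ico hX (hμm (Nat.lt_succ_self _)).le]
    have e1 : μ i = N + j i.castSucc := by
      simp only [hμ]
      rw [dif_pos (by omega)]
      rfl
    have e2 : μ (i + 1) = N + j i.succ := by
      simp only [hμ]
      rw [dif_pos (by omega)]
      rfl
    rw [e1, e2]

/-- hypothesis on a scale function and a sequence: the scale is below the record scale, or it is at most of
the size of the record scale and the sequence is summable -/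
def Adm (H : ℝ → ℝ) (d : ℕ → ℝ) : Prop :=
  (∀ c : ℝ, 0 < c → ∀ᶠ x : ℝ in atTop, H x ≤ c * ff x) ∨
    ((∃ C : ℝ, ∀ᶠ x : ℝ in atTop, H x ≤ C * ff x) ∧ Summable d)

/-- room for `K` positions -/
theorem room {H : ℝ → ℝ} {d : ℕ → ℝ} (hd : ∀ a, 0 < d a) (hA : Adm H d) {X : ℕ → Finset ℕ}
    (hX : Blk X) (k K : ℕ) (R : ℝ) (hR : 0 < R) (c : ℝ) (hc : 0 < c) :
    ∃ N, k ≤ N ∧ ∃ B : ℝ, 0 < B ∧ (∀ᶠ x : ℝ in atTop, B * H x ≤ c * ff x) ∧
      ∀ t ≤ K, R * (ps d X (N + t) - ps d X N) ≤ B := by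
  rcases hA with h | ⟨⟨C, hC⟩, hs⟩
  · refine ⟨k, le_rfl, R * (ps d X (k + K) - ps d X k) + 1, ?_, ?_, ?_⟩
    · have h1 := (ps_strictMono hd hX).monotone (Nat.le_add_right k K)
      have : 0 ≤ R * (ps d X (k + K) - ps d X k) := mul_nonneg hR.le (by linarith)
      linarith
    · have hB : 0 < R * (ps d X (k + K) - ps d X k) + 1 := by
        have h1 := (ps_strictMono hd hX).monotone (Nat.le_add_right k K)
        have : 0 ≤ R * (ps d X (k + K) - ps d X k) := mul_nonneg hR.le (by linarith)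
        linarith
      filter_upwards [h (c / (R * (ps d X (k + K) - ps d X k) + 1)) (by positivity)] with x hx
      calc _ ≤ (R * (ps d X (k + K) - ps d X k) + 1) *
            (c / (R * (ps d X (k + K) - ps d X k) + 1) * ff x) := mul_le_mul_of_nonneg_left hx hB.le
        _ = c * ff x := by field_simp
    · intro t ht
      have h1 := (ps_strictMono hd hX).monotone (by omega : k + t ≤ k + K)
      have : R * (ps d X (k + t) - ps d X k) ≤ R * (ps d X (k + K) - ps d X k) :=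
        mul_le_mul_of_nonneg_left (by linarith) hR.le
      linarith
  · set B : ℝ := c / (|C| + 1) with hB
    have hB0 : 0 < B := by positivity
    -- summability of the block sums
    have hbd : ∀ n, ps d X n ≤ ∑' a, d a := by
      intro n
      have e : ps d X n = sm d ((range n).biUnion X) := by
        unfold ps sm
        rw [Finset.sum_biUnion (fun i _ j _ hij => blk_disj hX hij)]
      rw [e]
      exact hs.sum_le_tsum _ (fun a _ => (hd a).le)
    have hmono := (ps_strictMono hd hX).monotone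
    have hconv : Tendsto (ps d X) atTop (𝓝 (⨆ n, ps d X n)) :=
      tendsto_atTop_ciSup hmono ⟨_, by rintro _ ⟨n, rfl⟩; exact hbd n⟩
    set L := ⨆ n, ps d X n with hL
    have hle : ∀ n, ps d X n ≤ L := fun n =>
      le_ciSup (f := ps d X) ⟨_, by rintro _ ⟨n, rfl⟩; exact hbd n⟩ n
    obtain ⟨N, hN1, hN2⟩ := ((hconv.eventually (lt_mem_nhds (show L - B / R < L by
      have : 0 < B / R := by positivity
      linarith))).and (eventually_ge_atTop k)).exists
    refine ⟨N, hN2, B, hB0, ?_, ?_⟩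
    · filter_upwards [hC, ff_tendsto.eventually_gt_atTop 0] with x hx hx0
      have h1 : H x ≤ (|C| + 1) * ff x := hx.trans (mul_le_mul_of_nonneg_right
        (by linarith [le_abs_self C]) hx0.le)
      calc B * H x ≤ B * ((|C| + 1) * ff x) := mul_le_mul_of_nonneg_left h1 hB0.le
        _ = c * ff x := by rw [hB]; field_simp
    · intro t _
      have h1 := hle (N + t)
      have h2 : ps d X (N + t) - ps d X N ≤ B / R := by linarith
      calc _ ≤ R * (B / R) := mul_le_mul_of_nonneg_left h2 hR.le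
        _ = B := by field_simp

/-- forward vectors -/
def goodF (H : ℝ → ℝ) (m q r k : ℕ) (d : ℕ → ℝ) (ρ : (Fin k → Finset ℕ) → ℝ)
    (C : ℕ → Finset ℕ) : Prop :=
  (fun i : Fin m => ρ (fun l => C l) * sm d (C (k + i))) ∈ LimH H m q r

/-- reversed vectors -/
def goodR (H : ℝ → ℝ) (m q r k : ℕ) (d : ℕ → ℝ) (ρ : (Fin k → Finset ℕ) → ℝ)
    (C : ℕ → Finset ℕ) : Prop :=
  (fun i : Fin m => ρ (fun l => C l) * sm d (C (k + (Fin.rev i : Fin m)))) ∈ LimH H m q r

theorem exF {H : ℝ → ℝ} (hH : Scale H) (m : ℕ) {q r : ℕ} (hq : Squarefree q) (hr : r.Coprime q) (k : ℕ)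
    {d : ℕ → ℝ} (hd : ∀ a, 0 < d a) (hA : Adm H d) (ρ : (Fin k → Finset ℕ) → ℝ) (hρ : ∀ P, 0 < ρ P)
    (X : ℕ → Finset ℕ) (hX : Blk X) : ∃ Y, Blk Y ∧ Le Y X ∧ goodF H m q r k d ρ Y := by
  obtain ⟨K, c, hc, hlp⟩ := lpH m
  set R := ρ (fun l => X l) with hR
  have hR0 : 0 < R := hρ _
  obtain ⟨N, hkN, B, hB, hBH, hps⟩ := room hd hA hX k K R hR0 c hc
  have hmono := ps_strictMono hd hX
  obtain ⟨j, hj, hl⟩ := hlp H hH B hB hBH q hq r hr (fun t => R * (ps d X (N + t) - ps d X N))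
    (fun s t hst => mul_lt_mul_of_pos_left (by
      have : ps d X (N + s) < ps d X (N + t) := hmono (by
        have : (s : ℕ) < t := hst
        omega)
      linarith) hR0)
    (fun t => ⟨mul_nonneg hR0.le (by
      have := hmono.monotone (Nat.le_add_right N t)
      linarith), hps t t.2.le⟩)
  obtain ⟨Y, hY1, hY2, hY3, hY4⟩ := coarsen hX d k N K m hkN j hj
  refine ⟨Y, hY1, hY2, ?_⟩
  unfold goodF
  have e1 : (fun l : Fin k => Y l) = fun l : Fin k => X l := funext fun l => hY3 l l.2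
  rw [e1, ← hR]
  convert hl using 1
  funext i
  rw [hY4 i]
  ring

theorem exR {H : ℝ → ℝ} (hH : Scale H) (m : ℕ) {q r : ℕ} (hq : Squarefree q) (hr : r.Coprime q) (k : ℕ)
    {d : ℕ → ℝ} (hd : ∀ a, 0 < d a) (hA : Adm H d) (ρ : (Fin k → Finset ℕ) → ℝ) (hρ : ∀ P, 0 < ρ P)
    (X : ℕ → Finset ℕ) (hX : Blk X) : ∃ Y, Blk Y ∧ Le Y X ∧ goodR H m q r k d ρ Y := by
  obtain ⟨K, c, hc, hlp⟩ := lpH m
  set R := ρ (fun l => X l) with hR
  have hR0 : 0 < R := hρ _
  obtain ⟨N, hkN, B, hB, hBH, hps⟩ := room hd hA hX k K R hR0 c hc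
  have hmono := ps_strictMono hd hX
  obtain ⟨j, hj, hl⟩ := hlp H hH B hB hBH q hq r hr
    (fun t => R * (ps d X (N + K) - ps d X (N + (Fin.rev t : Fin K))))
    (fun s t hst => mul_lt_mul_of_pos_left (by
      have : ps d X (N + (Fin.rev t : Fin K)) < ps d X (N + (Fin.rev s : Fin K)) := hmono (by
        have : ((Fin.rev t : Fin K) : ℕ) < (Fin.rev s : Fin K) := Fin.rev_lt_rev.2 hst
        omega)
      linarith) hR0)
    (fun t => ⟨mul_nonneg hR0.le (by
      have := hmono.monotone (show N + ((Fin.rev t : Fin K) : ℕ) ≤ N + K by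
        have := (Fin.rev t : Fin K).2
        omega)
      linarith), by
        have h1 := hps K le_rfl
        have h2 := hmono.monotone (Nat.le_add_right N (Fin.rev t : Fin K))
        have h3 : R * (ps d X (N + K) - ps d X (N + (Fin.rev t : Fin K))) ≤
          R * (ps d X (N + K) - ps d X N) := mul_le_mul_of_nonneg_left (by linarith) hR0.le
        linarith⟩)
  have hj' : StrictMono (fun i : Fin (m + 1) => Fin.rev (j (Fin.rev i))) := fun a b hab =>
    Fin.rev_lt_rev.2 (hj (Fin.rev_lt_rev.2 hab))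
  obtain ⟨Y, hY1, hY2, hY3, hY4⟩ := coarsen hX d k N K m hkN _ hj'
  refine ⟨Y, hY1, hY2, ?_⟩
  unfold goodR
  have e1 : (fun l : Fin k => Y l) = fun l : Fin k => X l := funext fun l => hY3 l l.2
  rw [e1, ← hR]
  convert hl using 1
  funext i
  rw [hY4 (Fin.rev i)]
  have e2 : Fin.rev (Fin.rev i).succ = i.castSucc := by
    rw [Fin.rev_succ, Fin.rev_rev]
  have e3 : Fin.rev (Fin.rev i).castSucc = i.succ := by
    rw [Fin.rev_castSucc, Fin.rev_rev]
  simp only [e2, e3]
  ring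

end Pool.Agent.W126.RecSum
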