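import Mathlib

set_option autoImplicit false

/-!
# Second neighbourhoods in Eulerian oriented graphs: definitions and proofs

The first bound is proved by averaging over `N⁺(v)` and
`∑ d(v) / d(u) ≥ ∑ (1 + log d(v) - log d(u)) = |E|` (sum over the arcs `(u, v)`); the second one by counting the
pairs of paths with two arcs with the same ends. Design and proof: helper126.
-/

open Finset Classical

namespace Pool.Agent.W126.SecN

set_option linter.unusedSectionVars false

variable {V : Type} [Fintype V]

/-- The out-neighbours of `v`. -/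
noncomputable def outN (G : Digraph V) (v : V) : Finset V := univ.filter fun w => G.Adj v w

/-- The in-neighbours of `v`. -/
noncomputable def inN (G : Digraph V) (v : V) : Finset V := univ.filter fun w => G.Adj w v

/-- The vertices at distance exactly 2 from `v`. -/
noncomputable def secN (G : Digraph V) (v : V) : Finset V :=
  univ.filter fun w => w ≠ v ∧ ¬ G.Adj v w ∧ ∃ u, G.Adj v u ∧ G.Adj u w

/-- The number of arcs between out-neighbours of `v`. -/
noncomputable def arcsIn (G : Digraph V) (v : V) : ℕ := ∑ u ∈ outN G v, (outN G u ∩ outN G v).card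

/-- The number of directed triangles through `v`. -/
noncomputable def tri (G : Digraph V) (v : V) : ℕ := ∑ u ∈ outN G v, (outN G u ∩ inN G v).card

/-- The number of arcs into `v` which are in a directed triangle. -/
noncomputable def good (G : Digraph V) (v : V) : ℕ :=
  (univ.filter fun w => G.Adj w v ∧ ∃ u, G.Adj v u ∧ G.Adj u w).card

/-- The number of common out-neighbours. -/
noncomputable def comOut (G : Digraph V) (u v : V) : ℕ := (outN G u ∩ outN G v).card

/-- The number of common in-neighbours. -/
noncomputable def comIn (G : Digraph V) (u v : V) : ℕ := (inN G u ∩ inN G v).card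

lemma mem_outN {G : Digraph V} {v w : V} : w ∈ outN G v ↔ G.Adj v w := by simp [outN]
lemma mem_inN {G : Digraph V} {v w : V} : w ∈ inN G v ↔ G.Adj w v := by simp [inN]
lemma mem_secN {G : Digraph V} {v w : V} :
    w ∈ secN G v ↔ w ≠ v ∧ ¬ G.Adj v w ∧ ∃ u, G.Adj v u ∧ G.Adj u w := by simp [secN]

/-- the row inequality -/
lemma row (G : Digraph V) (hd : ∀ u v, G.Adj u v → ¬ G.Adj v u) (u : V) :
    (∑ v ∈ outN G u, (outN G v).card) + (outN G u).card * good G u ≤
      (outN G u).card * (secN G u).card + arcsIn G u + tri G u := by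
  have hsplit : (secN G u).card = good G u + (secN G u \ inN G u).card := by
    have h1 : good G u = (secN G u ∩ inN G u).card := by
      unfold good
      congr 1
      ext w
      simp only [mem_filter, mem_univ, true_and, mem_inter, mem_secN, mem_inN]
      constructor
      · rintro ⟨hw, v, hv, hvw⟩
        refine ⟨⟨?_, hd _ _ hw, v, hv, hvw⟩, hw⟩
        rintro rfl
        exact hd _ _ hw hw
      · rintro ⟨⟨_, _, v, hv, hvw⟩, hw⟩
        exact ⟨hw, v, hv, hvw⟩
    rw [h1, add_comm, Finset.card_sdiff_add_card_inter]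
  have hv : ∀ v ∈ outN G u, (outN G v).card ≤
      (outN G v ∩ outN G u).card + (outN G v ∩ inN G u).card + (secN G u \ inN G u).card := by
    intro v hv
    rw [mem_outN] at hv
    have hsub : outN G v ⊆ ((outN G v ∩ outN G u) ∪ (outN G v ∩ inN G u)) ∪ (secN G u \ inN G u) := by
      intro w hw
      simp only [mem_union, mem_inter, mem_sdiff]
      by_cases h1 : w ∈ outN G u
      · exact Or.inl (Or.inl ⟨hw, h1⟩)
      by_cases h2 : w ∈ inN G u
      · exact Or.inl (Or.inr ⟨hw, h2⟩)
      refine Or.inr ⟨?_, h2⟩
      rw [mem_secN]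
      rw [mem_outN] at hw h1
      refine ⟨?_, h1, v, hv, hw⟩
      rintro rfl
      exact hd _ _ hv hw
    calc (outN G v).card ≤ _ := card_le_card hsub
      _ ≤ _ := (card_union_le _ _).trans (Nat.add_le_add_right (card_union_le _ _) _)
  have hsum := Finset.sum_le_sum hv
  rw [sum_add_distrib, sum_add_distrib, sum_const, smul_eq_mul] at hsum
  have e1 : ∑ v ∈ outN G u, (outN G v ∩ outN G u).card = arcsIn G u := rfl
  have e2 : ∑ v ∈ outN G u, (outN G v ∩ inN G u).card = tri G u := rfl
  rw [e1, e2] at hsum
  rw [hsplit]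
  nlinarith [hsum]

lemma tri_le (G : Digraph V) (v : V) : tri G v ≤ (outN G v).card * good G v := by
  unfold tri
  rw [← smul_eq_mul, ← sum_const]
  apply sum_le_sum
  intro u hu
  apply card_le_card
  intro w hw
  simp only [mem_inter, mem_outN, mem_inN] at hw
  rw [mem_outN] at hu
  simp only [mem_filter, mem_univ, true_and]
  exact ⟨hw.2, u, hu, hw.1⟩

lemma arcsIn_le (G : Digraph V) (hd : ∀ u v, G.Adj u v → ¬ G.Adj v u) (v : V) :
    2 * arcsIn G v + (outN G v).card ≤ (outN G v).card * (outN G v).card := by
  set S := outN G v with hS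
  have h1 : arcsIn G v = ∑ u ∈ S, ∑ w ∈ S, if G.Adj u w then 1 else 0 := by
    unfold arcsIn
    apply sum_congr rfl
    intro u _
    rw [← sum_filter, sum_const, smul_eq_mul, mul_one]
    congr 1
    ext w
    simp only [mem_inter, mem_outN, mem_filter, ← hS]
    exact and_comm
  have h2 : arcsIn G v = ∑ u ∈ S, ∑ w ∈ S, if G.Adj w u then 1 else 0 := by
    rw [h1, sum_comm]
  have h3 : ∀ u ∈ S, ∀ w ∈ S, ((if G.Adj u w then 1 else 0) + (if G.Adj w u then 1 else 0)) +
      (if u = w then 1 else 0) ≤ (1 : ℕ) := by
    intro u _ w _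
    by_cases huw : u = w
    · subst huw
      have : ¬ G.Adj u u := fun h => hd _ _ h h
      simp [this]
    · by_cases h : G.Adj u w
      · have := hd _ _ h
        simp [h, this, huw]
      · by_cases h' : G.Adj w u <;> simp [h, h', huw]
  have h4 := sum_le_sum fun u hu => sum_le_sum (h3 u hu)
  simp only [sum_add_distrib, sum_const, smul_eq_mul, mul_one, sum_ite_eq] at h4
  rw [← h1, ← h2] at h4
  have h5 : ∑ x ∈ S, (if x ∈ S then 1 else 0) = S.card := by
    rw [sum_congr rfl (fun x hx => if_pos hx), sum_const, smul_eq_mul, mul_one]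
  rw [h5] at h4
  linarith

/-- the logarithmic inequality -/
lemma log_sum (G : Digraph V) (he : ∀ v, (outN G v).card = (inN G v).card) :
    (∑ v, ((outN G v).card : ℝ)) ≤
      ∑ u, (∑ v ∈ outN G u, ((outN G v).card : ℝ)) / (outN G u).card := by
  have hpos : ∀ u v, v ∈ outN G u → 0 < ((outN G u).card : ℝ) ∧ 0 < ((outN G v).card : ℝ) := by
    intro u v hv
    refine ⟨by exact_mod_cast card_pos.2 ⟨v, hv⟩, ?_⟩
    rw [he v]
    have : u ∈ inN G v := by rw [mem_inN]; rwa [mem_outN] at hv
    exact_mod_cast card_pos.2 ⟨u, this⟩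
  have h1 : ∀ u, (((outN G u).card : ℝ)) + ∑ v ∈ outN G u,
      (Real.log (outN G v).card - Real.log (outN G u).card) ≤
        (∑ v ∈ outN G u, ((outN G v).card : ℝ)) / (outN G u).card := by
    intro u
    rw [sum_div]
    have : (((outN G u).card : ℝ)) = ∑ v ∈ outN G u, (1 : ℝ) := by simp
    rw [this, ← sum_add_distrib]
    apply sum_le_sum
    intro v hv
    obtain ⟨h1, h2⟩ := hpos u v hv
    have h3 := Real.add_one_le_exp (Real.log (outN G v).card - Real.log (outN G u).card)
    rw [Real.exp_sub, Real.exp_log h1, Real.exp_log h2] at h3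
    have h4 : (∑ v ∈ outN G u, (1 : ℝ)) = (((outN G u).card : ℝ)) := by simp
    rw [h4]
    linarith
  have h2 := sum_le_sum fun u (_ : u ∈ (univ : Finset V)) => h1 u
  rw [sum_add_distrib] at h2
  have h3 : ∑ u, ∑ v ∈ outN G u, (Real.log (outN G v).card - Real.log (outN G u).card) = 0 := by
    simp only [sum_sub_distrib]
    have e1 : ∑ u, ∑ v ∈ outN G u, Real.log (outN G v).card =
        ∑ v, ((inN G v).card : ℝ) * Real.log (outN G v).card := by
      simp only [outN, inN]
      simp only [sum_filter]
      rw [sum_comm]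
      apply sum_congr rfl
      intro v _
      rw [← sum_filter, sum_const, nsmul_eq_mul]
    have e2 : ∑ u, ∑ v ∈ outN G u, Real.log (outN G u).card =
        ∑ v, ((outN G v).card : ℝ) * Real.log (outN G v).card := by
      apply sum_congr rfl
      intro v _
      rw [sum_const, nsmul_eq_mul]
    rw [e1, e2, sub_eq_zero]
    apply sum_congr rfl
    intro v _
    rw [he v]
  rw [h3, add_zero] at h2
  exact h2

theorem main (G : Digraph V) (hd : ∀ u v, G.Adj u v → ¬ G.Adj v u)
    (he : ∀ v, (outN G v).card = (inN G v).card) :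
    ∑ v, ((outN G v).card + good G v - ((arcsIn G v : ℝ) + tri G v) / (outN G v).card) ≤
      ∑ v, ((secN G v).card : ℝ) := by
  have hrow : ∀ u, (∑ v ∈ outN G u, ((outN G v).card : ℝ)) / (outN G u).card + good G u -
      ((arcsIn G u : ℝ) + tri G u) / (outN G u).card ≤ (secN G u).card := by
    intro u
    rcases Nat.eq_zero_or_pos (outN G u).card with h0 | hp
    · have : good G u = 0 := by
        unfold good
        rw [card_eq_zero, filter_eq_empty_iff]
        intro w _ hw
        obtain ⟨_, v, hv, _⟩ := hw
        have : v ∈ outN G u := mem_outN.2 hv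
        rw [card_eq_zero] at h0
        rw [h0] at this
        simp at this
      rw [h0, this]
      simp
    · have hp' : (0 : ℝ) < (outN G u).card := by exact_mod_cast hp
      have h := row G hd u
      have h' : (∑ v ∈ outN G u, ((outN G v).card : ℝ)) + (outN G u).card * good G u ≤
          (outN G u).card * (secN G u).card + arcsIn G u + tri G u := by exact_mod_cast h
      rw [← sub_nonneg]
      have : ((secN G u).card : ℝ) - ((∑ v ∈ outN G u, ((outN G v).card : ℝ)) / (outN G u).card +
          good G u - ((arcsIn G u : ℝ) + tri G u) / (outN G u).card) =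
          ((outN G u).card * (secN G u).card + arcsIn G u + tri G u -
            ((∑ v ∈ outN G u, ((outN G v).card : ℝ)) + (outN G u).card * good G u)) /
              (outN G u).card := by
        field_simp
        ring
      rw [this]
      exact div_nonneg (by linarith) hp'.le
  have h1 := sum_le_sum fun u (_ : u ∈ (univ : Finset V)) => hrow u
  have h2 := log_sum G he
  simp only [sum_sub_distrib, sum_add_distrib] at h1 ⊢
  linarith


lemma sum_swap (G : Digraph V) (f : V → V → ℝ) :
    ∑ v, ∑ u ∈ outN G v, f v u = ∑ u, ∑ v ∈ inN G u, f v u := by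
  simp only [outN, inN, sum_filter]
  rw [sum_comm]

lemma tri_eq (G : Digraph V) (u : V) : tri G u = ∑ v ∈ inN G u, (outN G u ∩ inN G v).card := by
  have h1 : tri G u = ∑ x ∈ outN G u, ∑ v ∈ inN G u, if G.Adj x v then 1 else 0 := by
    unfold tri
    apply sum_congr rfl
    intro x _
    rw [← sum_filter, sum_const, smul_eq_mul, mul_one]
    congr 1
    ext w
    simp only [mem_inter, mem_outN, mem_filter]
    exact and_comm
  rw [h1, sum_comm]
  apply sum_congr rfl
  intro v _
  rw [← sum_filter, sum_const, smul_eq_mul, mul_one]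
  congr 1
  ext w
  simp only [mem_inter, mem_inN, mem_filter]

/-- the bound for arcs into `u` -/
lemma col (G : Digraph V) (hd : ∀ u v, G.Adj u v → ¬ G.Adj v u)
    (ht : ∀ u v w, G.Adj u v → G.Adj v w → G.Adj u w → ∃ x, G.Adj v x ∧ G.Adj x u) (u : V) :
    ∑ v ∈ inN G u, (outN G u ∩ outN G v).card + tri G u ≤ good G u * (outN G u).card := by
  rw [tri_eq, ← sum_add_distrib]
  have hg : good G u * (outN G u).card = ∑ v ∈ inN G u,
      if (∃ x, G.Adj u x ∧ G.Adj x v) then (outN G u).card else 0 := by
    rw [← sum_filter, sum_const, smul_eq_mul]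
    congr 1
    unfold good inN
    rw [filter_filter]
  rw [hg]
  apply sum_le_sum
  intro v hv
  rw [mem_inN] at hv
  split_ifs with h
  · rw [← card_union_of_disjoint]
    · apply card_le_card
      intro w hw
      simp only [mem_union, mem_inter] at hw
      tauto
    · rw [Finset.disjoint_left]
      intro w hw hw'
      simp only [mem_inter, mem_outN, mem_inN] at hw hw'
      exact hd _ _ hw.2 hw'.2
  · have e1 : outN G u ∩ outN G v = ∅ := by
      rw [Finset.eq_empty_iff_forall_notMem]
      intro w hw
      simp only [mem_inter, mem_outN] at hw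
      exact h (ht v u w hv hw.1 hw.2)
    have e2 : outN G u ∩ inN G v = ∅ := by
      rw [Finset.eq_empty_iff_forall_notMem]
      intro w hw
      simp only [mem_inter, mem_outN, mem_inN] at hw
      exact h ⟨w, hw.1, hw.2⟩
    simp [e1, e2]

theorem cls (G : Digraph V) (hd : ∀ u v, G.Adj u v → ¬ G.Adj v u)
    (he : ∀ v, (outN G v).card = (inN G v).card)
    (ht : ∀ u v w, G.Adj u v → G.Adj v w → G.Adj u w →
      (outN G v).card ≤ (outN G u).card ∧ ∃ x, G.Adj v x ∧ G.Adj x u) :
    ∑ v, (outN G v).card ≤ ∑ v, (secN G v).card := by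
  have hm := main G hd he
  have h1 : ∑ v, (arcsIn G v : ℝ) / (outN G v).card ≤
      ∑ u, (∑ v ∈ inN G u, ((outN G u ∩ outN G v).card : ℝ)) / (outN G u).card := by
    have e : ∀ v, (arcsIn G v : ℝ) / (outN G v).card =
        ∑ u ∈ outN G v, ((outN G u ∩ outN G v).card : ℝ) / (outN G v).card := by
      intro v
      unfold arcsIn
      push_cast
      rw [sum_div]
    rw [sum_congr rfl (fun v _ => e v),
      sum_swap G (fun v u => ((outN G u ∩ outN G v).card : ℝ) / (outN G v).card)]
    apply sum_le_sum
    intro u _
    rw [sum_div]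
    apply sum_le_sum
    intro v hv
    rw [mem_inN] at hv
    rcases Finset.eq_empty_or_nonempty (outN G u ∩ outN G v) with h0 | ⟨w, hw⟩
    · simp [h0]
    · simp only [mem_inter, mem_outN] at hw
      have hle := (ht v u w hv hw.1 hw.2).1
      have hpos : 0 < (outN G u).card := card_pos.2 ⟨w, mem_outN.2 hw.1⟩
      apply div_le_div_of_nonneg_left (by positivity) (by exact_mod_cast hpos)
        (by exact_mod_cast hle)
  have h2 : ∑ v, ((arcsIn G v : ℝ) + tri G v) / (outN G v).card ≤ ∑ v, (good G v : ℝ) := by
    have e : ∑ v, ((arcsIn G v : ℝ) + tri G v) / (outN G v).card =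
        ∑ v, (arcsIn G v : ℝ) / (outN G v).card + ∑ v, (tri G v : ℝ) / (outN G v).card := by
      rw [← sum_add_distrib]
      exact sum_congr rfl fun v _ => add_div _ _ _
    rw [e]
    refine (add_le_add_left h1 _).trans ?_
    rw [← sum_add_distrib]
    apply sum_le_sum
    intro u _
    rw [← add_div]
    rcases Nat.eq_zero_or_pos (outN G u).card with h0 | hp
    · rw [h0]; simp
    · rw [div_le_iff₀ (by exact_mod_cast hp)]
      exact_mod_cast col G hd (fun u v w a b c => (ht u v w a b c).2) u
  simp only [sum_sub_distrib, sum_add_distrib] at hm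
  have : (∑ v, ((outN G v).card : ℝ)) ≤ ∑ v, ((secN G v).card : ℝ) := by
    linarith
  exact_mod_cast this

theorem half (G : Digraph V) (hd : ∀ u v, G.Adj u v → ¬ G.Adj v u)
    (he : ∀ v, (outN G v).card = (inN G v).card) :
    ∑ v, (outN G v).card + (univ.filter fun v => 0 < (outN G v).card).card ≤
      2 * ∑ v, (secN G v).card := by
  have hm := main G hd he
  have h1 : ∀ v, ((outN G v).card : ℝ) + (if 0 < (outN G v).card then 1 else 0) ≤
      2 * ((outN G v).card + good G v - ((arcsIn G v : ℝ) + tri G v) / (outN G v).card) := by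
    intro v
    rcases Nat.eq_zero_or_pos (outN G v).card with h0 | hp
    · rw [h0]; simp
    · rw [if_pos hp]
      have hp' : (0 : ℝ) < (outN G v).card := by exact_mod_cast hp
      have ha : 2 * (arcsIn G v : ℝ) + (outN G v).card ≤ (outN G v).card * (outN G v).card := by
        exact_mod_cast arcsIn_le G hd v
      have hb : (tri G v : ℝ) ≤ (outN G v).card * good G v := by exact_mod_cast tri_le G v
      have e : 2 * ((outN G v).card + good G v - ((arcsIn G v : ℝ) + tri G v) / (outN G v).card) -
          (((outN G v).card : ℝ) + 1) =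
          (((outN G v).card * (outN G v).card - 2 * (arcsIn G v : ℝ) - (outN G v).card) +
            2 * ((outN G v).card * good G v - tri G v)) / (outN G v).card := by
        field_simp
        ring
      have : 0 ≤ 2 * ((outN G v).card + good G v -
          ((arcsIn G v : ℝ) + tri G v) / (outN G v).card) - (((outN G v).card : ℝ) + 1) := by
        rw [e]
        exact div_nonneg (by linarith) hp'.le
      linarith
  have h2 := sum_le_sum fun v (_ : v ∈ (univ : Finset V)) => h1 v
  rw [sum_add_distrib, ← mul_sum] at h2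
  have h3 : (∑ v : V, (if 0 < (outN G v).card then (1 : ℝ) else 0)) =
      ((univ.filter fun v => 0 < (outN G v).card).card : ℝ) := by
    rw [← sum_filter]; simp
  rw [h3] at h2
  have : (∑ v, ((outN G v).card : ℝ)) + ((univ.filter fun v => 0 < (outN G v).card).card : ℝ) ≤
      2 * ∑ v, ((secN G v).card : ℝ) := by linarith
  exact_mod_cast this

/-! ### few common neighbours -/

/-- the indicator of an arc -/
noncomputable def a (G : Digraph V) (u v : V) : ℤ := if G.Adj u v then 1 else 0

lemma a_sq (G : Digraph V) (u v : V) : a G u v * a G u v = a G u v := by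
  unfold a; split_ifs <;> simp

lemma card_out (G : Digraph V) (v : V) : ((outN G v).card : ℤ) = ∑ w, a G v w := by
  unfold outN a
  rw [← sum_filter, sum_const, nsmul_eq_mul, mul_one]

lemma card_in (G : Digraph V) (v : V) : ((inN G v).card : ℤ) = ∑ w, a G w v := by
  unfold inN a
  rw [← sum_filter, sum_const, nsmul_eq_mul, mul_one]

lemma comOut_eq (G : Digraph V) (u v : V) : (comOut G u v : ℤ) = ∑ w, a G u w * a G v w := by
  unfold comOut outN a
  rw [← filter_and]
  rw [card_filter]
  push_cast
  apply sum_congr rfl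
  intro w _
  by_cases h1 : G.Adj u w <;> by_cases h2 : G.Adj v w <;> simp [h1, h2]

lemma comIn_eq (G : Digraph V) (u v : V) : (comIn G u v : ℤ) = ∑ w, a G w u * a G w v := by
  unfold comIn inN a
  rw [← filter_and]
  rw [card_filter]
  push_cast
  apply sum_congr rfl
  intro w _
  by_cases h1 : G.Adj w u <;> by_cases h2 : G.Adj w v <;> simp [h1, h2]

/-- the number of middle vertices -/
noncomputable def k (G : Digraph V) (u w : V) : ℤ := ∑ v, a G u v * a G v w

lemma k_nonneg (G : Digraph V) (u w : V) : 0 ≤ k G u w := by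
  unfold k a
  apply sum_nonneg
  intro v _
  split_ifs <;> simp

lemma a_nonneg (G : Digraph V) (u w : V) : 0 ≤ a G u w := by
  unfold a; split_ifs <;> simp

lemma a_le (G : Digraph V) (u w : V) : a G u w ≤ 1 := by
  unfold a; split_ifs <;> simp

lemma pt (G : Digraph V) (hd : ∀ u v, G.Adj u v → ¬ G.Adj v u) (u w : V) :
    3 * k G u w - k G u w * k G u w - 2 * (a G u w * k G u w) ≤
      2 * (if w ∈ secN G u then 1 else 0) := by
  have hk := k_nonneg G u w
  by_cases ha : G.Adj u w
  · have h1 : a G u w = 1 := by simp [a, ha]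
    have h2 : w ∉ secN G u := by rw [mem_secN]; tauto
    rw [h1, if_neg h2]
    nlinarith [mul_self_nonneg (k G u w - 1), sq_nonneg (k G u w),
      (by rcases hk.lt_or_eq with h | h
          · nlinarith [Int.add_one_le_iff.2 h]
          · rw [← h]; norm_num : k G u w ≤ k G u w * k G u w)]
  · have h1 : a G u w = 0 := by simp [a, ha]
    rw [h1]
    by_cases hw : w ∈ secN G u
    · rw [if_pos hw]
      have : 0 ≤ (k G u w - 1) * (k G u w - 2) := by
        rcases le_or_gt (k G u w) 1 with h | h
        · nlinarith
        · have : 2 ≤ k G u w := by omega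
          nlinarith
      nlinarith
    · rw [if_neg hw]
      have h0 : k G u w = 0 := by
        unfold k
        apply sum_eq_zero
        intro v _
        unfold a
        by_cases h1 : G.Adj u v
        · by_cases h2 : G.Adj v w
          · exfalso
            apply hw
            rw [mem_secN]
            refine ⟨?_, ha, v, h1, h2⟩
            rintro rfl
            exact hd _ _ h1 h2
          · simp [h2]
        · simp [h1]
      rw [h0]; norm_num

theorem few (G : Digraph V) (hd : ∀ u v, G.Adj u v → ¬ G.Adj v u)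
    (he : ∀ v, (outN G v).card = (inN G v).card)
    (h1 : ∀ u v, G.Adj u v → 2 * (comIn G u v * comOut G u v) ≤ comIn G u v + comOut G u v)
    (h2 : ∀ u v, u ≠ v → ¬ G.Adj u v → ¬ G.Adj v u →
      comIn G u v * comOut G u v ≤ comIn G u v + comOut G u v) :
    ∑ v, (outN G v).card ≤ ∑ v, (secN G v).card := by
  set d : V → ℤ := fun v => ∑ w, a G v w with hdd
  have hd' : ∀ v, ∑ w, a G w v = d v := by
    intro v
    rw [← card_in, ← he, card_out]
  set P : V → V → ℤ := fun u v => ∑ w, a G u w * a G v w with hP
  set M : V → V → ℤ := fun u v => ∑ w, a G w u * a G w v with hM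
  -- the sums
  have s1 : ∑ u, ∑ w, k G u w = ∑ v, d v * d v := by
    unfold k
    rw [sum_congr rfl (fun u _ => sum_comm), sum_comm]
    apply sum_congr rfl
    intro v _
    rw [← hd' v]
    nth_rw 2 [hd' v]
    rw [hdd, sum_mul_sum]
  have s2 : ∑ u, ∑ w, k G u w * k G u w = ∑ v, ∑ v', M v v' * P v v' := by
    have e1 : ∀ u w, k G u w * k G u w =
        ∑ v, ∑ v', (a G u v * a G u v') * (a G v w * a G v' w) := by
      intro u w
      unfold k
      rw [sum_mul_sum]
      exact sum_congr rfl fun v _ => sum_congr rfl fun v' _ => by ring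
    have e2 : ∀ v v', M v v' * P v v' =
        ∑ u, ∑ w, (a G u v * a G u v') * (a G v w * a G v' w) := by
      intro v v'
      rw [hM, hP, sum_mul_sum]
    simp only [e1, e2]
    calc ∑ u, ∑ w, ∑ v, ∑ v', (a G u v * a G u v') * (a G v w * a G v' w)
        = ∑ u, ∑ v, ∑ w, ∑ v', (a G u v * a G u v') * (a G v w * a G v' w) :=
          sum_congr rfl fun u _ => sum_comm
      _ = ∑ v, ∑ u, ∑ w, ∑ v', (a G u v * a G u v') * (a G v w * a G v' w) := sum_comm
      _ = ∑ v, ∑ u, ∑ v', ∑ w, (a G u v * a G u v') * (a G v w * a G v' w) :=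
          sum_congr rfl fun v _ => sum_congr rfl fun u _ => sum_comm
      _ = ∑ v, ∑ v', ∑ u, ∑ w, (a G u v * a G u v') * (a G v w * a G v' w) :=
          sum_congr rfl fun v _ => sum_comm
  have s3 : ∑ u, ∑ w, a G u w * k G u w = ∑ u, ∑ v, a G u v * P u v := by
    have e1 : ∀ u w, a G u w * k G u w = ∑ v, a G u v * (a G u w * a G v w) := by
      intro u w
      unfold k
      rw [mul_sum]
      exact sum_congr rfl fun v _ => by ring
    simp only [e1, hP, mul_sum]
    exact sum_congr rfl fun u _ => sum_comm
  have s4 : ∑ u, ∑ w, a G u w * k G u w = ∑ u, ∑ v, a G u v * M u v := by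
    have e1 : ∀ u w, a G u w * k G u w = ∑ v, a G v w * (a G u v * a G u w) := by
      intro u w
      unfold k
      rw [mul_sum]
      exact sum_congr rfl fun v _ => by ring
    simp only [e1, hM, mul_sum]
    calc ∑ u, ∑ w, ∑ v, a G v w * (a G u v * a G u w)
        = ∑ u, ∑ v, ∑ w, a G v w * (a G u v * a G u w) := sum_congr rfl fun u _ => sum_comm
      _ = ∑ v, ∑ u, ∑ w, a G v w * (a G u v * a G u w) := sum_comm
      _ = ∑ v, ∑ w, ∑ u, a G v w * (a G u v * a G u w) := sum_congr rfl fun v _ => sum_comm
  have s5 : ∑ u, ∑ v, P u v = ∑ v, d v * d v := by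
    simp only [hP]
    rw [sum_congr rfl (fun u _ => sum_comm), sum_comm]
    apply sum_congr rfl
    intro w _
    rw [← hd' w, sum_mul_sum]
  have s6 : ∑ u, ∑ v, M u v = ∑ v, d v * d v := by
    simp only [hM]
    rw [sum_congr rfl (fun u _ => sum_comm), sum_comm]
    apply sum_congr rfl
    intro w _
    rw [hdd, sum_mul_sum]
  have hPs : ∀ u v, P u v = P v u := fun u v => sum_congr rfl fun w _ => mul_comm _ _
  have hMs : ∀ u v, M u v = M v u := fun u v => sum_congr rfl fun w _ => mul_comm _ _
  have s7 : ∑ u, ∑ v, a G v u * P u v = ∑ u, ∑ v, a G u v * P u v := by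
    rw [sum_comm]
    exact sum_congr rfl fun u _ => sum_congr rfl fun v _ => by rw [hPs]
  have s8 : ∑ u, ∑ v, a G v u * M u v = ∑ u, ∑ v, a G u v * M u v := by
    rw [sum_comm]
    exact sum_congr rfl fun u _ => sum_congr rfl fun v _ => by rw [hMs]
  -- the pointwise bound
  have hF : ∀ u v, (if u = v then 4 * d u - 2 * (d u * d u) else 0) ≤
      2 * (M u v + P u v) - 2 * (M u v * P u v) -
        (a G u v * M u v + a G u v * P u v + a G v u * M u v + a G v u * P u v) := by
    intro u v
    by_cases huv : u = v
    · subst huv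
      have ha : a G u u = 0 := by
        have : ¬ G.Adj u u := fun h => hd _ _ h h
        simp [a, this]
      have hPu : P u u = d u := sum_congr rfl fun w _ => a_sq G u w
      have hMu : M u u = d u := by
        rw [← hd' u]
        exact sum_congr rfl fun w _ => a_sq G w u
      rw [if_pos rfl, ha, hPu, hMu]
      linarith
    · rw [if_neg huv]
      have eP : P u v = comOut G u v := (comOut_eq G u v).symm
      have eM : M u v = comIn G u v := (comIn_eq G u v).symm
      by_cases hA : G.Adj u v
      · have hB := hd _ _ hA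
        have e1 : a G u v = 1 := by simp [a, hA]
        have e2 : a G v u = 0 := by simp [a, hB]
        have := h1 u v hA
        zify at this
        rw [← eP, ← eM] at this
        rw [e1, e2]
        linarith
      · by_cases hB : G.Adj v u
        · have e1 : a G u v = 0 := by simp [a, hA]
          have e2 : a G v u = 1 := by simp [a, hB]
          have := h1 v u hB
          zify at this
          rw [comOut_eq, comIn_eq] at this
          rw [e1, e2]
          have e3 : P v u = P u v := hPs v u
          have e4 : M v u = M u v := hMs v u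
          have this' : 2 * (M v u * P v u) ≤ M v u + P v u := this
          rw [e3, e4] at this'
          linarith
        · have e1 : a G u v = 0 := by simp [a, hA]
          have e2 : a G v u = 0 := by simp [a, hB]
          have := h2 u v huv hA hB
          zify at this
          rw [← eP, ← eM] at this
          rw [e1, e2]
          linarith
  have hsum := sum_le_sum fun u (_ : u ∈ (univ : Finset V)) =>
    sum_le_sum fun v (_ : v ∈ (univ : Finset V)) => hF u v
  have hpt := sum_le_sum fun u (_ : u ∈ (univ : Finset V)) =>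
    sum_le_sum fun w (_ : w ∈ (univ : Finset V)) => pt G hd u w
  simp only [sum_add_distrib, sum_sub_distrib, ← mul_sum, sum_ite_eq, mem_univ, if_true]
    at hsum hpt
  rw [s1, s2] at hpt
  rw [s5, s6, s7, s8, ← s3, ← s4] at hsum
  have hN : ∑ u, ∑ w, (if w ∈ secN G u then (1 : ℤ) else 0) = ∑ u, ((secN G u).card : ℤ) := by
    apply sum_congr rfl
    intro u _
    rw [← sum_filter, sum_const, nsmul_eq_mul, mul_one]
    congr 2
    ext w
    simp
  rw [hN] at hpt
  have hE : ∑ v, ((outN G v).card : ℤ) = ∑ v, d v := sum_congr rfl fun v _ => card_out G v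
  have : ∑ v, ((outN G v).card : ℤ) ≤ ∑ v, ((secN G v).card : ℤ) := by
    rw [hE]
    linarith
  exact_mod_cast this

/-! ### regular oriented graphs -/

/-- The out-neighbours `v` of `u` such that the arc `(u, v)` is in no directed triangle. -/
noncomputable def badOut (G : Digraph V) (u : V) : Finset V :=
  (outN G u).filter fun v => ¬ ∃ x, G.Adj v x ∧ G.Adj x u

lemma arcs_le (G : Digraph V) (hd : ∀ u v, G.Adj u v → ¬ G.Adj v u) (S : Finset V) :
    2 * (∑ u ∈ S, (outN G u ∩ S).card) + S.card ≤ S.card * S.card := by
  have h1 : (∑ u ∈ S, (outN G u ∩ S).card) = ∑ u ∈ S, ∑ w ∈ S, if G.Adj u w then 1 else 0 := by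
    apply sum_congr rfl
    intro u _
    rw [← sum_filter, sum_const, smul_eq_mul, mul_one]
    congr 1
    ext w
    simp only [mem_inter, mem_outN, mem_filter]
    exact and_comm
  have h2 : (∑ u ∈ S, (outN G u ∩ S).card) = ∑ u ∈ S, ∑ w ∈ S, if G.Adj w u then 1 else 0 := by
    rw [h1, sum_comm]
  have h3 : ∀ u ∈ S, ∀ w ∈ S, ((if G.Adj u w then 1 else 0) + (if G.Adj w u then 1 else 0)) +
      (if u = w then 1 else 0) ≤ (1 : ℕ) := by
    intro u _ w _
    by_cases huw : u = w
    · subst huw
      have : ¬ G.Adj u u := fun h => hd _ _ h h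
      simp [this]
    · by_cases h : G.Adj u w
      · have := hd _ _ h
        simp [h, this, huw]
      · by_cases h' : G.Adj w u <;> simp [h, h', huw]
  have h4 := sum_le_sum fun u hu => sum_le_sum (h3 u hu)
  simp only [sum_add_distrib, sum_const, smul_eq_mul, mul_one, sum_ite_eq] at h4
  rw [← h1, ← h2] at h4
  have h5 : ∑ x ∈ S, (if x ∈ S then 1 else 0) = S.card := by
    rw [sum_congr rfl (fun x hx => if_pos hx), sum_const, smul_eq_mul, mul_one]
  rw [h5] at h4
  linarith

lemma row_bad (G : Digraph V) (hd : ∀ u v, G.Adj u v → ¬ G.Adj v u) (r : ℕ)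
    (hr : ∀ v, (outN G v).card = r) (u : V) :
    (badOut G u).card + (if (badOut G u).Nonempty then 1 else 0) ≤
      2 * (secN G u \ inN G u).card := by
  set S := badOut G u with hS
  have hSsub : S ⊆ outN G u := filter_subset _ _
  have hv : ∀ v ∈ S, (outN G v).card ≤
      ((outN G v ∩ S).card + (outN G u \ S).card) + (secN G u \ inN G u).card := by
    intro v hv
    rw [hS, badOut, mem_filter, mem_outN] at hv
    have hsub : outN G v ⊆ ((outN G v ∩ S) ∪ (outN G u \ S)) ∪ (secN G u \ inN G u) := by
      intro w hw
      simp only [mem_union, mem_inter, mem_sdiff]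
      by_cases h1 : w ∈ S
      · exact Or.inl (Or.inl ⟨hw, h1⟩)
      by_cases h2 : w ∈ outN G u
      · exact Or.inl (Or.inr ⟨h2, h1⟩)
      refine Or.inr ?_
      rw [mem_outN] at hw h2
      refine ⟨?_, ?_⟩
      · rw [mem_secN]
        refine ⟨?_, h2, v, hv.1, hw⟩
        rintro rfl
        exact hd _ _ hv.1 hw
      · intro h3
        rw [mem_inN] at h3
        exact hv.2 ⟨w, hw, h3⟩
    calc (outN G v).card ≤ _ := card_le_card hsub
      _ ≤ _ := (card_union_le _ _).trans (Nat.add_le_add_right (card_union_le _ _) _)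
  have hsum := Finset.sum_le_sum hv
  rw [sum_add_distrib, sum_add_distrib, sum_const, smul_eq_mul, sum_const, smul_eq_mul] at hsum
  have e0 : ∑ v ∈ S, (outN G v).card = S.card * r := by
    rw [sum_congr rfl (fun v _ => hr v), sum_const, smul_eq_mul]
  have e1 : (outN G u \ S).card + S.card = r := by
    rw [card_sdiff_add_card_eq_card hSsub, hr]
  have e2 := arcs_le G hd S
  rw [e0] at hsum
  rcases Nat.eq_zero_or_pos S.card with h0 | hp
  · have h0' : S = ∅ := card_eq_zero.1 h0
    simp [h0']
  · rw [if_pos (card_pos.1 hp)]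
    have h6 : S.card * (S.card + 1) ≤ S.card * (2 * (secN G u \ inN G u).card) := by
      have h7 : S.card * ((outN G u \ S).card + S.card) = S.card * r := by rw [e1]
      nlinarith
    have h8 := Nat.le_of_mul_le_mul_left h6 hp
    omega

theorem reg (G : Digraph V) (hd : ∀ u v, G.Adj u v → ¬ G.Adj v u) (r : ℕ)
    (hr : ∀ v, (outN G v).card = r) :
    ∑ v, (outN G v).card + ∑ v, good G v + (univ.filter fun v => (badOut G v).Nonempty).card ≤
      2 * ∑ v, (secN G v).card := by
  have hsplit : ∀ u, (secN G u).card = good G u + (secN G u \ inN G u).card := by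
    intro u
    have h1 : good G u = (secN G u ∩ inN G u).card := by
      unfold good
      congr 1
      ext w
      simp only [mem_filter, mem_univ, true_and, mem_inter, mem_secN, mem_inN]
      constructor
      · rintro ⟨hw, v, hv, hvw⟩
        refine ⟨⟨?_, hd _ _ hw, v, hv, hvw⟩, hw⟩
        rintro rfl
        exact hd _ _ hw hw
      · rintro ⟨⟨_, _, v, hv, hvw⟩, hw⟩
        exact ⟨hw, v, hv, hvw⟩
    rw [h1, add_comm, Finset.card_sdiff_add_card_inter]
  have hgood : ∑ v, (outN G v).card = ∑ v, (badOut G v).card + ∑ v, good G v := by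
    have e1 : ∀ v, (outN G v).card = (badOut G v).card +
        ((outN G v).filter fun w => ∃ x, G.Adj w x ∧ G.Adj x v).card := by
      intro v
      rw [badOut, add_comm]
      exact (card_filter_add_card_filter_not (fun w => ∃ x, G.Adj w x ∧ G.Adj x v)).symm
    have e2 : ∑ v, ((outN G v).filter fun w => ∃ x, G.Adj w x ∧ G.Adj x v).card =
        ∑ v, good G v := by
      unfold good outN
      simp only [card_filter, filter_filter]
      rw [sum_comm]
    rw [sum_congr rfl (fun v _ => e1 v), sum_add_distrib, e2]
  have h1 : ∑ v, ((badOut G v).card + (if (badOut G v).Nonempty then 1 else 0)) ≤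
      ∑ v, 2 * (secN G v \ inN G v).card :=
    sum_le_sum fun v _ => row_bad G hd r hr v
  rw [← mul_sum, sum_add_distrib, ← card_filter] at h1
  rw [sum_congr rfl (fun v _ => hsplit v), sum_add_distrib]
  omega

end Pool.Agent.W126.SecN
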